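import Pool.Agent.R484.NCa

/-!
# The parity index in rigid tensor categories
-/

set_option autoImplicit false
set_option linter.unusedSectionVars false

open CategoryTheory Limits MonoidalCategory
open Pool.Agent.Y112.SR Pool.Agent.Y112.KD Pool.Agent.Y112.SC Pool.Agent.R905
open Pool.Agent.Y116.MT (tr)

namespace Pool.Agent.R484.NC

universe v u w

section

variable {C : Type u} [Category.{v} C] [Preadditive C] [Linear ℚ C] [MonoidalCategory C]
  [MonoidalPreadditive C] [MonoidalLinear ℚ C] [SymmetricCategory C] [RightRigidCategory C]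

/-- The trace of an endomorphism, a rational number: for the motive of a dg category `A` and a
noncommutative correspondence `f` it is the Euler characteristic of the Hochschild homology of `A` with
coefficients in `f`. -/
noncomputable def ctr (hU : UnitQ C) {M : C} (f : M ⟶ M) : ℚ := trq hU M f

/-- Numerically trivial endomorphisms. -/
def NumZero (hU : UnitQ C) {M : C} (f : M ⟶ M) : Prop := ∀ g : M ⟶ M, ctr hU (f ≫ g) = 0

/-- Numerical involutions: `w ∘ w` is numerically equivalent to the identity. -/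
def NumInvolution (hU : UnitQ C) {M : C} (w : M ⟶ M) : Prop := NumZero hU (w ≫ w - 𝟙 M)

lemma ctr_add (hU : UnitQ C) {M : C} (f g : M ⟶ M) : ctr hU (f + g) = ctr hU f + ctr hU g :=
  (trq hU M).map_add f g

lemma ctr_sub (hU : UnitQ C) {M : C} (f g : M ⟶ M) : ctr hU (f - g) = ctr hU f - ctr hU g :=
  (trq hU M).map_sub f g

lemma ctr_smul (hU : UnitQ C) {M : C} (q : ℚ) (f : M ⟶ M) : ctr hU (q • f) = q * ctr hU f :=
  (trq hU M).map_smul q f

lemma ctr_neg (hU : UnitQ C) {M : C} (f : M ⟶ M) : ctr hU (-f) = -ctr hU f :=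
  (trq hU M).map_neg f

variable {K : Type w} [Field K] (R : SuperRealisation C K)

lemma ctr_eq (hU : UnitQ C) {M : C} (f : M ⟶ M) : (ctr hU f : K) = str R f := real_tr R hU f

include R in
lemma ctr_comm (hU : UnitQ C) {M N : C} (f : M ⟶ N) (g : N ⟶ M) :
    ctr hU (f ≫ g) = ctr hU (g ≫ f) := trq_comm' R hU f g

/-- The dimension of the realisation. -/
noncomputable def totalDim (M : C) : ℕ := Module.finrank K (R.H.obj M)

lemma ctr_one (hU : UnitQ C) (M : C) : ctr hU (𝟙 M) = 2 * evenDim R M - totalDim R M := by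
  have hc := R_charZero R
  have h0 := R.finite M
  have h : ((ctr hU (𝟙 M) : ℚ) : K) = ((2 * evenDim R M - totalDim R M : ℚ) : K) := by
    rw [ctr_eq R, str_eq, op_id, mul_one, map_sub, map_sub, trace_evp, LinearMap.trace_one]
    push_cast
    rw [totalDim]
    ring
  exact_mod_cast h

/-- The numbers of numerical involutions. -/
lemma involution_number (hU : UnitQ C) {M : C} {w : M ⟶ M} (hw : NumInvolution hU w) :
    ∃ r : ℕ, ctr hU w = (totalDim R M : ℚ) - 2 * r ∧ (r = 0 → ∀ N : ℕ, 1 ≤ N → totalDim R M ≤ N →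
      evp R M = op R (lift ((2⁻¹ : ℚ) • (𝟙 M + w)) N)) := by
  have hc := R_charZero R
  have h0 := R.finite M
  set z : M ⟶ M := (2⁻¹ : ℚ) • (𝟙 M + w) with hz
  have hzz : z ≫ z - z = (4⁻¹ : ℚ) • (w ≫ w - 𝟙 M) := by
    rw [hz]
    simp only [Linear.smul_comp, Linear.comp_smul, Preadditive.add_comp, Preadditive.comp_add,
      Category.id_comp, Category.comp_id, smul_smul, smul_add, smul_sub]
    have e1 : (2⁻¹ : ℚ) * 2⁻¹ = 4⁻¹ := by norm_num
    have e2 : ∀ x : M ⟶ M, (2⁻¹ : ℚ) • x = (4⁻¹ : ℚ) • x + (4⁻¹ : ℚ) • x := by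
      intro x; rw [← add_smul]; norm_num
    rw [e1, e2 (𝟙 M), e2 w]
    abel
  have hconst : ∀ r : ℕ, LinearMap.trace K (R.H.obj M)
      ((evp R M - (1 - evp R M)) * op R z ^ (r + 1)) = str R z := by
    intro r
    induction r with
    | zero => rw [zero_add, pow_one, str_eq]
    | succ r ih =>
      rw [← ih]
      have h1 : ctr hU ((z ≫ z - z) ≫ pw z r) = 0 := by
        rw [hzz, Linear.smul_comp, ctr_smul, hw, mul_zero]
      have h2 : ((ctr hU ((z ≫ z - z) ≫ pw z r) : ℚ) : K) = 0 := by rw [h1, Rat.cast_zero]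
      rw [ctr_eq R, str_eq, op_comp, op_sub, op_comp, op_pw, mul_sub, mul_sub, map_sub,
        sub_eq_zero] at h2
      rw [← pow_two, ← pow_add, ← pow_succ] at h2
      exact h2
  obtain ⟨a, b, c, hd, hpc, hfin⟩ :=
    Pool.Agent.H578R3.Sgn.main (evp_idem R M) (op_comm R z) hconst
  rw [trace_evp] at hpc
  have hpc' : evenDim R M = a + c := by exact_mod_cast hpc
  have hd' : ctr hU z = (a : ℚ) - b := by
    have h : ((ctr hU z : ℚ) : K) = (((a : ℚ) - b : ℚ) : K) := by
      rw [ctr_eq R, hd]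
      push_cast
      rfl
    exact_mod_cast h
  have hw2 : ctr hU w = 2 * ctr hU z - ctr hU (𝟙 M) := by
    rw [hz, ctr_smul, ctr_add]
    ring
  refine ⟨b + c, ?_, fun h N hN1 hN => ?_⟩
  · rw [hw2, hd', ctr_one R hU M, hpc']
    push_cast
    ring
  · rw [op_lift]
    exact hfin (by omega) (by omega) N hN1 hN

lemma neg_involution (hU : UnitQ C) {M : C} {w : M ⟶ M} (hw : NumInvolution hU w) :
    NumInvolution hU (-w) := by
  intro g
  rw [Preadditive.neg_comp, Preadditive.comp_neg, neg_neg]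
  exact hw g

lemma one_involution (hU : UnitQ C) (M : C) : NumInvolution hU (𝟙 M) := by
  intro g
  rw [Category.id_comp, sub_self, zero_comp, ctr, map_zero]

/-- **Traces of numerical involutions.** -/
theorem involution_bound (hU : UnitQ C) {M : C} {w : M ⟶ M} (hw : NumInvolution hU w) :
    ∃ m : ℤ, ctr hU w = m ∧ |m| ≤ totalDim R M ∧ (2 : ℤ) ∣ (totalDim R M - m) := by
  obtain ⟨r, hr, -⟩ := involution_number R hU hw
  obtain ⟨r', hr', -⟩ := involution_number R hU (neg_involution hU hw)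
  rw [ctr_neg, hr] at hr'
  refine ⟨(totalDim R M : ℤ) - 2 * r, ?_, ?_, ⟨r, by ring⟩⟩
  · rw [hr]; push_cast; rfl
  · have h1 : ((totalDim R M : ℤ) : ℚ) = r + r' := by
      push_cast
      linarith
    have h2 : (totalDim R M : ℤ) = r + r' := by exact_mod_cast h1
    rw [abs_le]
    constructor <;> omega

/-- An endomorphism which realises the parity is a numerical involution. -/
lemma involution_of_parity (hU : UnitQ C) {M : C} {f : M ⟶ M} (hf : R.H.map f = R.par M) :
    NumInvolution hU f ∧ ctr hU f = totalDim R M := by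
  have hc := R_charZero R
  have h0 := R.finite M
  constructor
  · intro g
    have h : ((ctr hU ((f ≫ f - 𝟙 M) ≫ g) : ℚ) : K) = 0 := by
      rw [ctr_eq R, str, Functor.map_comp, Functor.map_sub, Functor.map_comp, hf, R.par_sq,
        CategoryTheory.Functor.map_id, sub_self, zero_comp, zero_comp, ModuleCat.hom_zero, map_zero]
    exact_mod_cast h
  · have h : ((ctr hU f : ℚ) : K) = ((totalDim R M : ℚ) : K) := by
      rw [ctr_eq R, str, hf, R.par_sq, ModuleCat.hom_id, LinearMap.trace_id, totalDim]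
      push_cast
      rfl
    exact_mod_cast h

include R in
/-- The parity index of one object. -/
theorem exists_index_obj (hU : UnitQ C) (M : C) :
    ∃ r : ℕ, IsGreatest {d : ℚ | ∃ w : M ⟶ M, NumInvolution hU w ∧ ctr hU w = d} (r : ℚ) := by
  classical
  have key : ∃ n : ℕ, ∃ w : M ⟶ M, NumInvolution hU w ∧ ctr hU w = (totalDim R M : ℚ) - 2 * n := by
    obtain ⟨r, hr, -⟩ := involution_number R hU (one_involution hU M)
    exact ⟨r, _, one_involution hU M, hr⟩
  obtain ⟨w, hw, hwn⟩ := Nat.find_spec key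
  set n := Nat.find key with hn
  have hmax : ∀ w' : M ⟶ M, NumInvolution hU w' → ctr hU w' ≤ (totalDim R M : ℚ) - 2 * n := by
    intro w' hw'
    obtain ⟨r, hr, -⟩ := involution_number R hU hw'
    have h1 : n ≤ r := Nat.find_min' key ⟨w', hw', hr⟩
    have h2 : (n : ℚ) ≤ r := by exact_mod_cast h1
    rw [hr]
    linarith
  have hpos : 2 * n ≤ totalDim R M := by
    have h1 := hmax _ (neg_involution hU hw)
    rw [ctr_neg, hwn] at h1
    have h2 : ((2 * n : ℕ) : ℚ) ≤ totalDim R M := by push_cast; linarith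
    exact_mod_cast h2
  have hcast : ((totalDim R M - 2 * n : ℕ) : ℚ) = (totalDim R M : ℚ) - 2 * n := by
    rw [Nat.cast_sub hpos]
    push_cast
    ring
  refine ⟨totalDim R M - 2 * n, ⟨w, hw, by rw [hwn, hcast]⟩, ?_⟩
  rintro d ⟨w', hw', rfl⟩
  rw [hcast]
  exact hmax w' hw'

/-- The parity index decides the sign conjecture. -/
theorem index_tfae (hU : UnitQ C) {M : C} {r : ℕ}
    (hr : IsGreatest {d : ℚ | ∃ w : M ⟶ M, NumInvolution hU w ∧ ctr hU w = d} (r : ℚ))
    {w₀ : M ⟶ M} (hw₀ : NumInvolution hU w₀) (hw₀r : ctr hU w₀ = r) :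
    r ≤ totalDim R M ∧ Even (totalDim R M - r) ∧
      List.TFAE [R.CPlus M,
        (2 : K) • R.H.map (lift ((2⁻¹ : ℚ) • (𝟙 M + w₀)) (max 1 r)) = 𝟙 _ + R.par M,
        totalDim R M = r, totalDim R M < r + 2] := by
  have hc := R_charZero R
  have h2 : (2 : K) ≠ 0 := two_ne_zero
  obtain ⟨n, hn, hfin⟩ := involution_number R hU hw₀
  have h1 : (totalDim R M : ℚ) = r + 2 * n := by
    rw [hw₀r] at hn
    linarith
  have h3 : totalDim R M = r + 2 * n := by exact_mod_cast h1
  refine ⟨by omega, ⟨n, by omega⟩, ?_⟩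
  tfae_have 1 → 3 := by
    intro h
    obtain ⟨g, hg⟩ := (cplus_iff R M).1 h
    obtain ⟨h4, h5⟩ := involution_of_parity R hU hg
    have h6 := hr.2 ⟨g, h4, rfl⟩
    rw [h5] at h6
    have h7 : totalDim R M ≤ r := by exact_mod_cast h6
    omega
  tfae_have 3 ↔ 4 := by constructor <;> intro h <;> omega
  tfae_have 3 → 2 := by
    intro h
    have h4 := hfin (by omega) (max 1 r) (le_max_left _ _) (by rw [h]; exact le_max_right _ _)
    have h6 : R.H.map (lift ((2⁻¹ : ℚ) • (𝟙 M + w₀)) (max 1 r)) = pe R M :=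
      ModuleCat.hom_ext h4.symm
    rw [h6, pe, smul_smul, mul_inv_cancel₀ h2, one_smul]
  tfae_have 2 → 1 := fun h => ⟨_, h⟩
  tfae_finish

include R in
/-- Direct sums of numerical involutions. -/
lemma involution_biprod (hU : UnitQ C) {M N S : C} (i : M ⟶ S) (r : S ⟶ M) (i' : N ⟶ S)
    (r' : S ⟶ N) (h1 : i ≫ r = 𝟙 M) (h2 : i' ≫ r' = 𝟙 N) (h3 : i ≫ r' = 0) (h4 : i' ≫ r = 0)
    (h5 : r ≫ i + r' ≫ i' = 𝟙 S) {w : M ⟶ M} {w' : N ⟶ N} (hw : NumInvolution hU w)
    (hw' : NumInvolution hU w') : NumInvolution hU (r ≫ w ≫ i + r' ≫ w' ≫ i') ∧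
      ctr hU (r ≫ w ≫ i + r' ≫ w' ≫ i') = ctr hU w + ctr hU w' := by
  have e1 : (r ≫ w ≫ i + r' ≫ w' ≫ i') ≫ (r ≫ w ≫ i + r' ≫ w' ≫ i') - 𝟙 S =
      r ≫ (w ≫ w - 𝟙 M) ≫ i + r' ≫ (w' ≫ w' - 𝟙 N) ≫ i' := by
    rw [← h5]
    simp only [Preadditive.add_comp, Preadditive.comp_add, Preadditive.sub_comp,
      Preadditive.comp_sub, Category.assoc, reassoc_of% h1, reassoc_of% h2, reassoc_of% h3,
      reassoc_of% h4, zero_comp, comp_zero, Category.id_comp]
    abel
  constructor
  · intro g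
    rw [e1, Preadditive.add_comp, ctr_add]
    have e2 : ctr hU ((r ≫ (w ≫ w - 𝟙 M) ≫ i) ≫ g) = 0 := by
      rw [Category.assoc, ctr_comm R]
      simp only [Category.assoc]
      exact hw _
    have e3 : ctr hU ((r' ≫ (w' ≫ w' - 𝟙 N) ≫ i') ≫ g) = 0 := by
      rw [Category.assoc, ctr_comm R]
      simp only [Category.assoc]
      exact hw' _
    rw [e2, e3, add_zero]
  · rw [ctr_add, ctr_comm R hU r, ctr_comm R hU r', Category.assoc, Category.assoc, h1, h2,
      Category.comp_id, Category.comp_id]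

include R in
lemma ctr_tensor (hU : UnitQ C) {M N : C} (f : M ⟶ M) (g : N ⟶ N) :
    ctr hU (f ⊗ₘ g) = ctr hU f * ctr hU g := by
  have h1 : ctr hU (f ⊗ₘ g) = trq hU M (ptr (f ⊗ₘ g)) := (trq_ptr R hU (f ⊗ₘ g)).symm
  rw [h1, ptr_tensor f g (trq hU N g) (trq_spec hU g)]
  have h2 : trq hU M (trq hU N g • f) = trq hU N g * trq hU M f := (trq hU M).map_smul _ _
  rw [h2, mul_comm]
  rfl

include R in
lemma numZero_whiskerRight (hU : UnitQ C) {M : C} (N : C) {f : M ⟶ M} (hf : NumZero hU f) :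
    NumZero hU (f ▷ N) := by
  intro g
  have h1 : ctr hU (f ▷ N ≫ g) = trq hU M (ptr (f ▷ N ≫ g)) := (trq_ptr R hU (f ▷ N ≫ g)).symm
  rw [h1, ptr_comp_left]
  exact hf _

include R in
lemma numZero_whiskerLeft (hU : UnitQ C) (M : C) {N : C} {f : N ⟶ N} (hf : NumZero hU f) :
    NumZero hU (M ◁ f) := by
  intro g
  have h1 : M ◁ f = (β_ M N).hom ≫ f ▷ M ≫ (β_ M N).inv := by
    rw [← BraidedCategory.braiding_naturality_right_assoc, Iso.hom_inv_id, Category.comp_id]
  rw [h1, Category.assoc, ctr_comm R]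
  simp only [Category.assoc]
  exact numZero_whiskerRight R hU M hf _

include R in
lemma NumZero.comp_right (hU : UnitQ C) {M : C} {f : M ⟶ M} (hf : NumZero hU f) (g : M ⟶ M) :
    NumZero hU (f ≫ g) := by
  intro h
  rw [Category.assoc]
  exact hf _

include R in
/-- Tensor products of numerical involutions. -/
lemma involution_tensor (hU : UnitQ C) {M N : C} {w : M ⟶ M} {w' : N ⟶ N}
    (hw : NumInvolution hU w) (hw' : NumInvolution hU w') : NumInvolution hU (w ⊗ₘ w') := by
  intro g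
  have e1 : (w ⊗ₘ w') ≫ (w ⊗ₘ w') - 𝟙 (M ⊗ N) =
      (w ≫ w - 𝟙 M) ▷ N ≫ M ◁ (w' ≫ w') + M ◁ (w' ≫ w' - 𝟙 N) := by
    rw [MonoidalCategory.tensorHom_comp_tensorHom]
    have a1 : (w ≫ w - 𝟙 M) ▷ N = (w ≫ w) ▷ N - 𝟙 (M ⊗ N) := by
      rw [sub_eq_add_neg, MonoidalPreadditive.add_whiskerRight, sub_eq_add_neg]
      congr 1
      have : (-𝟙 M) ▷ N = (-1 : ℚ) • (𝟙 M ▷ N) := by
        rw [← MonoidalLinear.smul_whiskerRight]
        simp
      rw [this]
      simp
    have a2 : M ◁ (w' ≫ w' - 𝟙 N) = M ◁ (w' ≫ w') - 𝟙 (M ⊗ N) := by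
      rw [sub_eq_add_neg, MonoidalPreadditive.whiskerLeft_add, sub_eq_add_neg]
      congr 1
      have : M ◁ (-𝟙 N) = (-1 : ℚ) • (M ◁ 𝟙 N) := by
        rw [← MonoidalLinear.whiskerLeft_smul]
        simp
      rw [this]
      simp
    rw [a1, a2, Preadditive.sub_comp, Category.id_comp, MonoidalCategory.tensorHom_def]
    abel
  rw [e1, Preadditive.add_comp, ctr_add]
  rw [(numZero_whiskerRight R hU N hw).comp_right R hU _ g, numZero_whiskerLeft R hU M hw' g,
    add_zero]

end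

end Pool.Agent.R484.NC
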