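import Mathlib
import Pool.Agent.W42.Local2

set_option autoImplicit false

/-!
Sets of integers which are well distributed modulo `2 ^ k`: few of their elements lie on cycles of
the 3x+1 map.
-/

namespace Pool.Agent.R484.CA

open Finset Pool.Agent.H319R2 Pool.Agent.W42

/-- adding a multiple of `2 ^ k` -/
theorem iter_add (k : ℕ) : ∀ (x z : ℤ), T^[k] (x + 2 ^ k * z) = T^[k] x + 3 ^ (od k x) * z ∧
    od k (x + 2 ^ k * z) = od k x := by
  induction k with
  | zero => intro x z; simp [od]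
  | succ k ih =>
    intro x z
    have e : x + 2 ^ (k + 1) * z = x + 2 ^ k * (2 * z) := by ring
    obtain ⟨h1, h2⟩ := ih x (2 * z)
    rw [← e] at h1 h2
    have hpar : (T^[k] (x + 2 ^ (k + 1) * z)) % 2 = (T^[k] x) % 2 := by
      rw [h1]
      rw [show T^[k] x + 3 ^ od k x * (2 * z) = T^[k] x + 2 * (3 ^ od k x * z) by ring]
      omega
    rw [Function.iterate_succ_apply', Function.iterate_succ_apply']
    rcases par (T^[k] x) with hp | hp
    · have hp' := hpar.trans hp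
      rw [od_succ_even hp, od_succ_even hp', h2]
      refine ⟨?_, rfl⟩
      have a1 := T_even hp
      have a2 := T_even hp'
      have : 2 * T (T^[k] (x + 2 ^ (k + 1) * z)) = 2 * (T (T^[k] x) + 3 ^ od k x * z) := by
        rw [a2, mul_add, a1, h1]; ring
      linarith
    · have hp' := hpar.trans hp
      rw [od_succ_odd hp, od_succ_odd hp', h2]
      refine ⟨?_, rfl⟩
      have a1 := T_odd hp
      have a2 := T_odd hp'
      have : 2 * T (T^[k] (x + 2 ^ (k + 1) * z)) = 2 * (T (T^[k] x) + 3 ^ (od k x + 1) * z) := by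
        rw [a2, mul_add, a1, h1, pow_succ]; ring
      linarith

/-- elements with many odd terms -/
theorem high (X : Finset ℤ) (k m : ℕ) (θ : ℝ) (h1 : 1 / 2 < θ) (h2 : θ < 1)
    (hm : ∀ r : ℤ, (X.filter fun x => (2 : ℤ) ^ k ∣ x - r).card ≤ m) :
    (((X.filter fun x => θ * k < (od k x : ℝ)).card : ℕ) : ℝ) ≤
      m * Real.exp (k * Real.binEntropy θ) := by
  classical
  set X' := X.filter fun x => θ * k < (od k x : ℝ) with hX'
  have h3 : X'.card ≤ m * (((range k).powerset.filter fun s => θ * k < (s.card : ℝ)).card) := by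
    apply card_le_mul_card_image_of_maps_to (f := pset k)
    · intro x hx
      have hx := mem_filter.1 hx
      simp only [mem_filter, mem_powerset]
      exact ⟨filter_subset _ _, hx.2⟩
    · intro s hs
      rcases Finset.eq_empty_or_nonempty (X'.filter fun x => pset k x = s) with he | ⟨x0, hx0⟩
      · rw [he, card_empty]; exact Nat.zero_le _
      · refine le_trans (card_le_card ?_) (hm x0)
        intro x hx
        have a := mem_filter.1 hx
        have b := mem_filter.1 hx0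
        exact mem_filter.2 ⟨(mem_filter.1 a.1).1, pset_inj (a.2.trans b.2.symm)⟩
  have h4 := chernoff k θ h1 h2
  have h5 : ((X'.card : ℕ) : ℝ) ≤
      m * ((((range k).powerset.filter fun s => θ * k < (s.card : ℝ)).card : ℕ) : ℝ) := by
    exact_mod_cast h3
  exact h5.trans (mul_le_mul_of_nonneg_left h4 (Nat.cast_nonneg _))

/-- the image of an interval -/
theorem image_near {x : ℤ} {y R : ℝ} {k : ℕ} (hR : (2 : ℝ) ^ k ≤ R) (h : |(x : ℝ) - y| ≤ R) :
    |((T^[k] x : ℤ) : ℝ) - 3 ^ (od k x) * (y / 2 ^ k)| ≤ 3 ^ (od k x) * (2 * (R / 2 ^ k)) := by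
  have hp : (0 : ℝ) < 2 ^ k := by positivity
  have h3 : (0 : ℝ) < 3 ^ (od k x) := by positivity
  have hab := abs_le.1 h
  have hR1 : 1 ≤ R / 2 ^ k := by rwa [le_div_iff₀ hp, one_mul]
  -- upper
  have hu : ((T^[k] x : ℤ) : ℝ) < 3 ^ (od k x) * ((⌊(y + R) / 2 ^ k⌋ + 1 : ℤ) : ℝ) := by
    have hc : x < 2 ^ k * (⌊(y + R) / 2 ^ k⌋ + 1) := by
      have h4 : (y + R) / 2 ^ k < ⌊(y + R) / 2 ^ k⌋ + 1 := Int.lt_floor_add_one _
      rw [div_lt_iff₀ hp] at h4
      have h5 : (x : ℝ) < ((2 ^ k * (⌊(y + R) / 2 ^ k⌋ + 1) : ℤ) : ℝ) := by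
        push_cast; linarith [hab.2]
      exact_mod_cast h5
    have := lt_pow k x _ hc
    exact_mod_cast this
  have hl : -((T^[k] x : ℤ) : ℝ) < 3 ^ (od k x) * ((⌊(R - y) / 2 ^ k⌋ + 1 : ℤ) : ℝ) := by
    have hc : -(2 ^ k * (⌊(R - y) / 2 ^ k⌋ + 1)) < x := by
      have h4 : (R - y) / 2 ^ k < ⌊(R - y) / 2 ^ k⌋ + 1 := Int.lt_floor_add_one _
      rw [div_lt_iff₀ hp] at h4
      have h5 : ((-(2 ^ k * (⌊(R - y) / 2 ^ k⌋ + 1)) : ℤ) : ℝ) < (x : ℝ) := by
        push_cast; linarith [hab.1]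
      exact_mod_cast h5
    have := neg_pow_lt k x _ hc
    have h6 : (-(3 ^ (od k x) * (⌊(R - y) / 2 ^ k⌋ + 1) : ℤ) : ℝ) < ((T^[k] x : ℤ) : ℝ) := by
      exact_mod_cast this
    push_cast at h6 ⊢
    linarith
  have f1 : ((⌊(y + R) / 2 ^ k⌋ + 1 : ℤ) : ℝ) ≤ y / 2 ^ k + 2 * (R / 2 ^ k) := by
    have := Int.floor_le ((y + R) / 2 ^ k)
    rw [add_div] at this ⊢
    push_cast
    linarith
  have f2 : ((⌊(R - y) / 2 ^ k⌋ + 1 : ℤ) : ℝ) ≤ 2 * (R / 2 ^ k) - y / 2 ^ k := by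
    have := Int.floor_le ((R - y) / 2 ^ k)
    rw [sub_div] at this ⊢
    push_cast
    linarith
  rw [abs_le]
  constructor
  · have := mul_le_mul_of_nonneg_left f2 h3.le
    linarith
  · have := mul_le_mul_of_nonneg_left f1 h3.le
    linarith

theorem geom (q : ℝ) (hq : 1 < q) (n : ℕ) : ∑ o ∈ range (n + 1), q ^ o ≤ q / (q - 1) * q ^ n := by
  have h : 0 < q - 1 := by linarith
  induction n with
  | zero =>
    simp only [zero_add, sum_range_one, pow_zero, mul_one]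
    rw [le_div_iff₀ h]; linarith
  | succ n ih =>
    rw [sum_range_succ]
    have e : q / (q - 1) * q ^ (n + 1) = q / (q - 1) * q ^ n + q ^ (n + 1) := by
      field_simp
      ring
    linarith

/-- elements with few odd terms -/
theorem low (η C : ℝ) (hη : 0 < η) (hC : 0 < C) {S : Set ℤ} (hS : Tame S)
    (hloc : ∀ y R : ℝ, 1 ≤ R → ∀ F : Finset ℤ, (∀ x ∈ F, x ∈ S ∧ |(x : ℝ) - y| ≤ R) →
      (F.card : ℝ) ≤ C * R ^ η) (X : Finset ℤ) (k : ℕ) (θ y R : ℝ) (hθ : 0 ≤ θ)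
    (hR : (2 : ℝ) ^ k ≤ R) (hX : ∀ x ∈ X, x ∈ S ∧ |(x : ℝ) - y| ≤ R) :
    (((X.filter fun x => (od k x : ℝ) ≤ θ * k).card : ℕ) : ℝ) ≤
      k + C * 2 ^ η * (3 ^ η / (3 ^ η - 1)) * (R * (3 ^ θ / 2) ^ k) ^ η := by
  classical
  have hp : (0 : ℝ) < 2 ^ k := by positivity
  have hR0 : 0 < R := lt_of_lt_of_le hp hR
  have hR1 : 1 ≤ R / 2 ^ k := by rwa [le_div_iff₀ hp, one_mul]
  obtain ⟨B, hB, hmap, hinj⟩ := hS k
  set G := X.filter fun x => (od k x : ℝ) ≤ θ * k with hG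
  have hsub : G ⊆ (G \ B) ∪ B := by
    intro x hx
    rw [mem_union, mem_sdiff]
    by_cases h : x ∈ B
    · exact Or.inr h
    · exact Or.inl ⟨hx, h⟩
  have hcard : (G.card : ℝ) ≤ k + ((G \ B).card : ℝ) := by
    have h1 := (card_le_card hsub).trans (card_union_le _ _)
    have h2 : G.card ≤ k + (G \ B).card := by omega
    exact_mod_cast h2
  refine hcard.trans (add_le_add le_rfl ?_)
  set n := ⌊θ * k⌋₊ with hn
  have hmaps : ∀ x ∈ G \ B, od k x ∈ range (n + 1) := by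
    intro x hx
    rw [mem_range]
    have h1 := (mem_filter.1 (mem_sdiff.1 hx).1).2
    exact Nat.lt_succ_of_le (Nat.le_floor h1)
  rw [card_eq_sum_card_fiberwise hmaps]
  push_cast
  have hle : ∀ o ∈ range (n + 1), (((G \ B).filter fun x => od k x = o).card : ℝ) ≤
      C * (2 * (R / 2 ^ k)) ^ η * (3 ^ η) ^ o := by
    intro o _
    have h3o : (1 : ℝ) ≤ 3 ^ o := one_le_pow₀ (by norm_num)
    have h1 := hloc (3 ^ o * (y / 2 ^ k)) (3 ^ o * (2 * (R / 2 ^ k))) (by nlinarith)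
      (((G \ B).filter fun x => od k x = o).image (T^[k])) (by
        intro z hz
        obtain ⟨x, hx, rfl⟩ := mem_image.1 hz
        have h0 := mem_filter.1 hx
        have h1 := mem_sdiff.1 h0.1
        have h2 := (mem_filter.1 h1.1).1
        refine ⟨hmap x (hX x h2).1 h1.2, ?_⟩
        have := image_near hR (hX x h2).2
        rwa [h0.2] at this)
    rw [card_image_of_injOn] at h1
    · refine h1.trans (le_of_eq ?_)
      rw [Real.mul_rpow (by positivity) (by positivity), Real.rpow_pow_comm (by norm_num)]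
      ring
    · intro x hx x' hx' hxx
      have h0 := mem_sdiff.1 (mem_filter.1 hx).1
      have h0' := mem_sdiff.1 (mem_filter.1 hx').1
      exact hinj x (hX x (mem_filter.1 h0.1).1).1 x' (hX x' (mem_filter.1 h0'.1).1).1
        h0.2 h0'.2 hxx
  refine (sum_le_sum hle).trans ?_
  rw [← mul_sum]
  have hq : (1 : ℝ) < 3 ^ η := Real.one_lt_rpow (by norm_num) hη
  have hq1 : 0 < (3 : ℝ) ^ η - 1 := by linarith
  have hg := geom (3 ^ η) hq n
  have hpw : ((3 : ℝ) ^ η) ^ n ≤ ((3 ^ θ) ^ k) ^ η := by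
    have h5 : (n : ℝ) ≤ θ * k := Nat.floor_le (by positivity)
    rw [Real.rpow_pow_comm (by norm_num)]
    apply Real.rpow_le_rpow (by positivity) _ hη.le
    rw [← Real.rpow_natCast 3 n, ← Real.rpow_mul_natCast (by norm_num)]
    exact Real.rpow_le_rpow_of_exponent_le (by norm_num) h5
  calc C * (2 * (R / 2 ^ k)) ^ η * ∑ o ∈ range (n + 1), ((3 : ℝ) ^ η) ^ o
      ≤ C * (2 * (R / 2 ^ k)) ^ η * (3 ^ η / (3 ^ η - 1) * ((3 ^ θ) ^ k) ^ η) := by
        apply mul_le_mul_of_nonneg_left _ (by positivity)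
        refine hg.trans (mul_le_mul_of_nonneg_left hpw ?_)
        exact div_nonneg (by linarith) hq1.le
    _ = C * 2 ^ η * (3 ^ η / (3 ^ η - 1)) * (R * (3 ^ θ / 2) ^ k) ^ η := by
        have e1 : R * ((3 : ℝ) ^ θ / 2) ^ k = R / 2 ^ k * (3 ^ θ) ^ k := by
          rw [div_pow]; ring
        have e2 : (0 : ℝ) ≤ (3 ^ θ) ^ k := by positivity
        rw [e1, Real.mul_rpow (x := 2) (by norm_num) (by positivity),
          Real.mul_rpow (x := R / 2 ^ k) (by positivity) e2]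
        ring

/-- **the general bound** -/
theorem general (θ η : ℝ) (h1 : 1 / 2 < θ) (h2 : θ < 1) (hη : beta < η) (hη0 : 0 < η) :
    ∃ C : ℝ, 0 < C ∧ ∀ S : Set ℤ, Tame S → ∀ (k m : ℕ) (y R : ℝ) (X : Finset ℤ), (2 : ℝ) ^ k ≤ R →
      (∀ x ∈ X, x ∈ S ∧ |(x : ℝ) - y| ≤ R) →
      (∀ r : ℤ, (X.filter fun x => (2 : ℤ) ^ k ∣ x - r).card ≤ m) →
      (X.card : ℝ) ≤ m * Real.exp (k * Real.binEntropy θ) + C * (R * (3 ^ θ / 2) ^ k) ^ η := by
  classical
  obtain ⟨C, hC0, hC⟩ := local_sparse η hη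
  have hq : (1 : ℝ) < 3 ^ η := Real.one_lt_rpow (by norm_num) hη0
  have hq1 : 0 < (3 : ℝ) ^ η - 1 := by linarith
  have hl3 : 0 < Real.log 3 := Real.log_pos (by norm_num)
  have hc : 0 < θ * η * Real.log 3 := by
    have : 0 < θ := by linarith
    positivity
  refine ⟨C * 2 ^ η * (3 ^ η / (3 ^ η - 1)) + 1 / (θ * η * Real.log 3), by positivity, ?_⟩
  intro S hS k m y R X hR hX hm
  have hp : (0 : ℝ) < 2 ^ k := by positivity
  have hR0 : 0 < R := lt_of_lt_of_le hp hR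
  have a := high X k m θ h1 h2 hm
  have b := low η C hη0 hC0 hS (hC S hS) X k θ y R (by linarith) hR hX
  have c : (X.filter fun x => (od k x : ℝ) ≤ θ * k).card +
      (X.filter fun x => θ * k < (od k x : ℝ)).card = X.card := by
    rw [← card_filter_add_card_filter_not (s := X) (p := fun x => (od k x : ℝ) ≤ θ * k)]
    simp only [not_le]
  have c' : ((X.filter fun x => (od k x : ℝ) ≤ θ * k).card : ℝ) +
      ((X.filter fun x => θ * k < (od k x : ℝ)).card : ℝ) = X.card := by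
    exact_mod_cast c
  have d : (k : ℝ) ≤ 1 / (θ * η * Real.log 3) * (R * (3 ^ θ / 2) ^ k) ^ η := by
    have e1 : ((3 : ℝ) ^ θ) ^ k ≤ R * (3 ^ θ / 2) ^ k := by
      rw [div_pow, ← mul_div_assoc, le_div_iff₀ hp, mul_comm]
      exact mul_le_mul_of_nonneg_right hR (by positivity)
    have e2 : (((3 : ℝ) ^ θ) ^ k) ^ η ≤ (R * (3 ^ θ / 2) ^ k) ^ η :=
      Real.rpow_le_rpow (by positivity) e1 hη0.le
    have e3 : (((3 : ℝ) ^ θ) ^ k) ^ η = Real.exp (k * (θ * η * Real.log 3)) := by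
      rw [← Real.rpow_mul_natCast (by norm_num), ← Real.rpow_mul (by norm_num),
        Real.rpow_def_of_pos (by norm_num)]
      congr 1; ring
    have e4 := Real.add_one_le_exp ((k : ℝ) * (θ * η * Real.log 3))
    rw [one_div, inv_mul_eq_div, le_div_iff₀ hc]
    linarith
  rw [add_mul]
  linarith

end Pool.Agent.R484.CA
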