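import Mathlib
import Pool.Agent.R484.CA
import Pool.Agent.H319R2.Bohr

set_option autoImplicit false

/-!
Arithmetic progressions: few of their terms lie on cycles of the 3x+1 map.
-/

namespace Pool.Agent.R484.CA

open Finset Pool.Agent.H319R2 Pool.Agent.W42

theorem class_card (k n : ℕ) (hn : n < 2 ^ (k + 1)) (a q r : ℤ) (hq : q % 2 = 1) :
    ((range n).filter fun j : ℕ => (2 : ℤ) ^ k ∣ a + q * j - r).card ≤ 2 := by
  classical
  rcases Finset.eq_empty_or_nonempty ((range n).filter fun j : ℕ => (2 : ℤ) ^ k ∣ a + q * j - r)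
    with he | ⟨j0, hj0⟩
  · rw [he, card_empty]; exact Nat.zero_le _
  · have h0 := mem_filter.1 hj0
    refine (card_le_card (t := {j0 % 2 ^ k, j0 % 2 ^ k + 2 ^ k}) ?_).trans card_le_two
    intro j hj
    have h1 := mem_filter.1 hj
    have hcop : IsCoprime ((2 : ℤ) ^ k) q := by
      apply IsCoprime.pow_left
      exact ⟨-(q / 2), 1, by omega⟩
    have hd : (2 : ℤ) ^ k ∣ (j : ℤ) - j0 := by
      apply hcop.dvd_of_dvd_mul_left
      have := dvd_sub h1.2 h0.2
      rwa [show a + q * (j : ℤ) - r - (a + q * (j0 : ℤ) - r) = q * ((j : ℤ) - j0) by ring] at this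
    have hmod : j % 2 ^ k = j0 % 2 ^ k := by
      have h5 : ((j0 : ℕ) : ℤ) ≡ (j : ℤ) [ZMOD ((2 ^ k : ℕ) : ℤ)] := by
        rw [Int.modEq_iff_dvd]
        push_cast
        exact hd
      exact ((Int.natCast_modEq_iff.1 h5).symm)
    have hjn : j < 2 ^ (k + 1) := lt_trans (mem_range.1 h1.1) hn
    have hdiv := Nat.mod_add_div j (2 ^ k)
    have hp : 0 < 2 ^ k := by positivity
    have hlt : j / 2 ^ k < 2 := by
      rw [Nat.div_lt_iff_lt_mul hp]
      rw [pow_succ] at hjn; linarith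
    rw [mem_insert, mem_singleton]
    rw [hmod] at hdiv
    rcases Nat.lt_or_ge (j / 2 ^ k) 1 with h6 | h6
    · left
      have : j / 2 ^ k = 0 := Nat.lt_one_iff.1 h6
      rw [this] at hdiv; linarith
    · right
      have : j / 2 ^ k = 1 := le_antisymm (Nat.lt_succ_iff.1 hlt) h6
      rw [this] at hdiv; linarith

theorem L_bounds : 1 < Real.log 3 / Real.log 2 := by
  rw [one_lt_div (Real.log_pos (by norm_num))]
  exact Real.log_lt_log (by norm_num) (by norm_num)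

/-- odd differences -/
theorem ap_odd (κ : ℝ) (hκ : κ < 1 / beta - Real.log 3 / (2 * Real.log 2)) :
    ∃ δ : ℝ, 0 < δ ∧ δ ≤ 1 / 2 ∧ ∃ C : ℝ, 0 < C ∧ ∀ S : Set ℤ, Tame S → ∀ (n : ℕ) (a q : ℤ), 1 ≤ n →
      q % 2 = 1 → |(q : ℝ)| ≤ (n : ℝ) ^ κ → ∀ X : Finset ℤ,
      (∀ x ∈ X, x ∈ S ∧ ∃ j : ℕ, j < n ∧ x = a + q * j) → (X.card : ℝ) ≤ C * (n : ℝ) ^ (1 - δ) := by
  classical
  have hl2 : 0 < Real.log 2 := Real.log_pos (by norm_num)
  have hl3 : 0 < Real.log 3 := Real.log_pos (by norm_num)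
  have hb : 0 < beta := lt_trans (by norm_num) beta_gt
  set L := Real.log 3 / Real.log 2 with hL
  have hL1 : 1 < L := L_bounds
  have hbk : beta * (κ + 1 / 2 * L) < 1 := by
    have e : Real.log 3 / (2 * Real.log 2) = 1 / 2 * L := by rw [hL]; field_simp
    rw [e] at hκ
    have h1 : κ + 1 / 2 * L < 1 / beta := by linarith
    rw [lt_div_iff₀ hb] at h1
    linarith
  obtain ⟨t, ht0, ht1, ht2⟩ : ∃ t : ℝ, 0 < t ∧ t < 1 / 2 ∧
      (beta + t) * (κ + (1 / 2 + t) * L) < 1 := by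
    have hcont : Filter.Tendsto (fun t : ℝ => (beta + t) * (κ + (1 / 2 + t) * L)) (nhds 0)
        (nhds ((beta + 0) * (κ + (1 / 2 + 0) * L))) := by
      apply Continuous.tendsto
      fun_prop
    rw [add_zero, add_zero] at hcont
    have h1 := (hcont.eventually (gt_mem_nhds hbk)).filter_mono
      (nhdsWithin_le_nhds (s := Set.Ioi (0 : ℝ)))
    have h2 : ∀ᶠ t in nhdsWithin (0 : ℝ) (Set.Ioi 0), t < 1 / 2 :=
      (gt_mem_nhds (show (0 : ℝ) < 1 / 2 by norm_num)).filter_mono nhdsWithin_le_nhds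
    have h3 : ∀ᶠ t in nhdsWithin (0 : ℝ) (Set.Ioi 0), 0 < t := self_mem_nhdsWithin
    obtain ⟨t, h⟩ := (h1.and (h2.and h3)).exists
    exact ⟨t, h.2.2, h.2.1, h.1⟩
  set η := beta + t with hη
  set θ := 1 / 2 + t with hθ
  have hη0 : 0 < η := by linarith
  obtain ⟨C, hC0, hC⟩ := general θ η (by linarith) (by linarith) (by linarith) hη0
  set h := Real.binEntropy θ / Real.log 2 with hh
  have hh1 : h < 1 := by
    rw [hh, div_lt_one hl2]
    apply Real.binEntropy_lt_log_two.2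
    rw [hθ]
    norm_num
    exact ht0.ne'
  set e2 := η * (κ + θ * L) with he2
  set δ := min (1 / 2) (1 - max h e2) with hδ
  have hδ0 : 0 < δ := by
    rw [hδ, lt_min_iff]
    exact ⟨by norm_num, by rw [sub_pos, max_lt_iff]; exact ⟨hh1, ht2⟩⟩
  have hδh : h ≤ 1 - δ := by
    have h1 := min_le_right (1 / 2 : ℝ) (1 - max h e2)
    have h2 := le_max_left h e2
    linarith
  have hδe : e2 ≤ 1 - δ := by
    have h1 := min_le_right (1 / 2 : ℝ) (1 - max h e2)
    have h2 := le_max_right h e2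
    linarith
  refine ⟨δ, hδ0, min_le_left _ _, 2 + C * 2 ^ η, by positivity, ?_⟩
  intro S hS n a q hn hq hqn X hX
  set k := Nat.log 2 n with hk
  have hk1 : 2 ^ k ≤ n := Nat.pow_log_le_self 2 (by omega)
  have hk2 : n < 2 ^ (k + 1) := Nat.lt_pow_succ_log_self (by norm_num) n
  have hk1' : (2 : ℝ) ^ k ≤ n := by exact_mod_cast hk1
  have hk2' : (n : ℝ) < 2 * 2 ^ k := by
    have : (n : ℝ) < 2 ^ (k + 1) := by exact_mod_cast hk2
    rw [pow_succ] at this; linarith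
  have hnR : (1 : ℝ) ≤ n := by exact_mod_cast hn
  have hn0 : (0 : ℝ) < n := by linarith
  have hq1 : (1 : ℝ) ≤ |(q : ℝ)| := by
    have : (1 : ℤ) ≤ |q| := Int.one_le_abs (by omega)
    exact_mod_cast this
  have hp : (0 : ℝ) < 2 ^ k := by positivity
  have hg := hC S hS k 2 a (n * |(q : ℝ)|) X (by nlinarith) (by
    intro x hx
    obtain ⟨hxS, j, hj, rfl⟩ := hX x hx
    refine ⟨hxS, ?_⟩
    push_cast
    rw [add_sub_cancel_left, abs_mul, Nat.abs_cast, mul_comm]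
    have : (j : ℝ) ≤ n := by exact_mod_cast hj.le
    exact mul_le_mul_of_nonneg_right this (abs_nonneg _)) (by
    intro r
    refine le_trans ?_ (class_card k n hk2 a q r hq)
    refine (card_le_card (t := ((range n).filter fun j : ℕ => (2 : ℤ) ^ k ∣ a + q * j - r).image
      (fun j : ℕ => a + q * (j : ℤ))) ?_).trans card_image_le
    intro x hx
    have h1 := mem_filter.1 hx
    obtain ⟨-, j, hj, rfl⟩ := hX x h1.1
    exact mem_image.2 ⟨j, mem_filter.2 ⟨mem_range.2 hj, h1.2⟩, rfl⟩)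
  refine hg.trans ?_
  -- first term
  have t1 : Real.exp (k * Real.binEntropy θ) ≤ (n : ℝ) ^ (1 - δ) := by
    have e : Real.exp (k * Real.binEntropy θ) = ((2 : ℝ) ^ k) ^ h := by
      rw [← Real.rpow_natCast, ← Real.rpow_mul (by norm_num), Real.rpow_def_of_pos (by norm_num), hh]
      congr 1; field_simp
    rw [e]
    have hh0 : 0 ≤ h := div_nonneg (Real.binEntropy_nonneg (by linarith) (by linarith)) hl2.le
    exact (Real.rpow_le_rpow hp.le hk1' hh0).trans (Real.rpow_le_rpow_of_exponent_le hnR hδh)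
  -- second term
  have t2 : ((n : ℝ) * |(q : ℝ)| * (3 ^ θ / 2) ^ k) ^ η ≤ 2 ^ η * (n : ℝ) ^ (1 - δ) := by
    have e3 : ((3 : ℝ) ^ θ) ^ k ≤ (n : ℝ) ^ (θ * L) := by
      have e : ((3 : ℝ) ^ θ) ^ k = ((2 : ℝ) ^ k) ^ (θ * L) := by
        rw [← Real.rpow_mul_natCast (by norm_num), ← Real.rpow_natCast, ← Real.rpow_mul (by norm_num),
          Real.rpow_def_of_pos (by norm_num), Real.rpow_def_of_pos (by norm_num), hL]
        congr 1; field_simp
      rw [e]
      exact Real.rpow_le_rpow hp.le hk1' (mul_nonneg (by linarith) (by linarith))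
    have e4 : (n : ℝ) * |(q : ℝ)| * (3 ^ θ / 2) ^ k ≤ 2 * (n : ℝ) ^ (κ + θ * L) := by
      have e5 : (n : ℝ) * |(q : ℝ)| * (3 ^ θ / 2) ^ k = (n / 2 ^ k) * (|(q : ℝ)| * (3 ^ θ) ^ k) := by
        rw [div_pow]; ring
      rw [e5]
      have e6 : (n : ℝ) / 2 ^ k ≤ 2 := by rw [div_le_iff₀ hp]; linarith
      have e7 : |(q : ℝ)| * ((3 : ℝ) ^ θ) ^ k ≤ (n : ℝ) ^ (κ + θ * L) := by
        rw [Real.rpow_add hn0]
        exact mul_le_mul hqn e3 (by positivity) (by positivity)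
      exact mul_le_mul e6 e7 (by positivity) (by norm_num)
    refine (Real.rpow_le_rpow (by positivity) e4 hη0.le).trans ?_
    rw [Real.mul_rpow (by norm_num) (by positivity), ← Real.rpow_mul hn0.le]
    apply mul_le_mul_of_nonneg_left _ (by positivity)
    apply Real.rpow_le_rpow_of_exponent_le hnR
    calc (κ + θ * L) * η = e2 := by rw [he2]; ring
      _ ≤ 1 - δ := hδe
  have t3 := mul_le_mul_of_nonneg_left t2 hC0.le
  push_cast
  rw [add_mul]
  linarith

/-- all differences `2 ^ s * r` with `3 ^ s |r|` small -/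
theorem ap (κ : ℝ) (hκ : κ < 1 / beta - Real.log 3 / (2 * Real.log 2)) :
    ∃ δ : ℝ, 0 < δ ∧ ∃ C : ℝ, 0 < C ∧ ∀ S : Set ℤ, Tame S → ∀ (n s : ℕ) (a r : ℤ), 1 ≤ n →
      r % 2 = 1 → 3 ^ s * |(r : ℝ)| ≤ (n : ℝ) ^ κ → ∀ X : Finset ℤ,
      (∀ x ∈ X, x ∈ S ∧ ∃ j : ℕ, j < n ∧ x = a + 2 ^ s * r * j) →
        (X.card : ℝ) ≤ C * (n : ℝ) ^ (1 - δ) := by
  classical
  obtain ⟨δ, hδ0, hδ1, C, hC0, hC⟩ := ap_odd κ hκ
  have hl3 : 1 < Real.log 3 := log3_gt_one
  have hb := beta_gt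
  have hκ1 : κ ≤ 1 := by
    have h1 : 1 / beta < 13 / 12 := by
      rw [div_lt_iff₀ (by linarith)]; linarith
    have h2 : (1 : ℝ) / 2 < Real.log 3 / (2 * Real.log 2) := by
      rw [lt_div_iff₀ (by have := Real.log_pos (show (1 : ℝ) < 2 by norm_num); linarith)]
      have := Real.log_lt_log (show (0 : ℝ) < 2 by norm_num) (show (2 : ℝ) < 3 by norm_num)
      linarith
    linarith
  refine ⟨δ, hδ0, C + 1 / ((1 - δ) * Real.log 3), by
    have : 0 < 1 - δ := by linarith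
    positivity, ?_⟩
  intro S hS n s a r hn hr hrn X hX
  have hnR : (1 : ℝ) ≤ n := by exact_mod_cast hn
  have hn0 : (0 : ℝ) < n := by linarith
  have hr1 : (1 : ℝ) ≤ |(r : ℝ)| := by
    have : (1 : ℤ) ≤ |r| := Int.one_le_abs (by omega)
    exact_mod_cast this
  obtain ⟨B, hB, hmap, hinj⟩ := hS s
  have hX2 : (((X \ B).image (T^[s])).card : ℝ) ≤ C * (n : ℝ) ^ (1 - δ) := by
    apply hC S hS n (T^[s] a) (3 ^ (od s a) * r) hn
    · rw [Int.mul_emod, hr]
      have : (3 : ℤ) ^ od s a % 2 = 1 := by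
        exact Int.odd_iff.1 ((by decide : Odd (3 : ℤ)).pow)
      rw [this]; norm_num
    · push_cast
      rw [abs_mul, abs_of_pos (show (0 : ℝ) < 3 ^ od s a by positivity)]
      refine le_trans (mul_le_mul_of_nonneg_right ?_ (abs_nonneg _)) hrn
      exact pow_le_pow_right₀ (by norm_num) (od_le s a)
    · intro z hz
      obtain ⟨x, hx, rfl⟩ := mem_image.1 hz
      obtain ⟨hx1, hx2⟩ := mem_sdiff.1 hx
      obtain ⟨hxS, j, hj, rfl⟩ := hX x hx1
      refine ⟨hmap _ hxS hx2, j, hj, ?_⟩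
      rw [show a + 2 ^ s * r * (j : ℤ) = a + 2 ^ s * (r * j) by ring, (iter_add s a (r * j)).1]
      ring
  rw [card_image_of_injOn (by
    intro x hx x' hx' hxx
    obtain ⟨h1, h2⟩ := mem_sdiff.1 (mem_coe.1 hx)
    obtain ⟨h1', h2'⟩ := mem_sdiff.1 (mem_coe.1 hx')
    exact hinj x (hX x h1).1 x' (hX x' h1').1 h2 h2' hxx)] at hX2
  have hcard : (X.card : ℝ) ≤ s + ((X \ B).card : ℝ) := by
    have h1 : X ⊆ (X \ B) ∪ B := by
      intro x hx
      rw [mem_union, mem_sdiff]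
      by_cases h : x ∈ B
      · exact Or.inr h
      · exact Or.inl ⟨hx, h⟩
    have h2 := (card_le_card h1).trans (card_union_le _ _)
    have h3 : X.card ≤ s + (X \ B).card := by omega
    exact_mod_cast h3
  have hs : (s : ℝ) ≤ 1 / ((1 - δ) * Real.log 3) * (n : ℝ) ^ (1 - δ) := by
    have hd : 0 < (1 - δ) * Real.log 3 := mul_pos (by linarith) (by linarith)
    have e1 : (3 : ℝ) ^ s ≤ n := by
      have a1 : (3 : ℝ) ^ s ≤ 3 ^ s * |(r : ℝ)| := le_mul_of_one_le_right (by positivity) hr1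
      have a2 : (n : ℝ) ^ κ ≤ (n : ℝ) ^ (1 : ℝ) := Real.rpow_le_rpow_of_exponent_le hnR hκ1
      rw [Real.rpow_one] at a2
      linarith
    have e2 : ((3 : ℝ) ^ s) ^ (1 - δ) ≤ (n : ℝ) ^ (1 - δ) :=
      Real.rpow_le_rpow (by positivity) e1 (by linarith)
    have e3 : ((3 : ℝ) ^ s) ^ (1 - δ) = Real.exp (s * ((1 - δ) * Real.log 3)) := by
      rw [← Real.rpow_natCast, ← Real.rpow_mul (by norm_num), Real.rpow_def_of_pos (by norm_num)]
      congr 1; ring
    have e4 := Real.add_one_le_exp ((s : ℝ) * ((1 - δ) * Real.log 3))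
    rw [one_div, inv_mul_eq_div, le_div_iff₀ hd]
    linarith
  rw [add_mul]
  linarith

/-- all small differences -/
theorem ap_all (κ : ℝ) (hκ : κ < Real.log 2 / (beta * Real.log 3) - 1 / 2) :
    ∃ δ : ℝ, 0 < δ ∧ ∃ C : ℝ, 0 < C ∧ ∀ S : Set ℤ, Tame S → ∀ (n : ℕ) (a q : ℤ), 1 ≤ n →
      q ≠ 0 → |(q : ℝ)| ≤ (n : ℝ) ^ κ → ∀ X : Finset ℤ,
      (∀ x ∈ X, x ∈ S ∧ ∃ j : ℕ, j < n ∧ x = a + q * j) →
        (X.card : ℝ) ≤ C * (n : ℝ) ^ (1 - δ) := by
  have hl2 : 0 < Real.log 2 := Real.log_pos (by norm_num)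
  have hl3 : 0 < Real.log 3 := Real.log_pos (by norm_num)
  have hb : 0 < beta := lt_trans (by norm_num) beta_gt
  set L := Real.log 3 / Real.log 2 with hL
  have hL1 : 1 < L := L_bounds
  obtain ⟨δ, hδ, C, hC0, hC⟩ := ap (κ * L) (by
    have h1 := mul_lt_mul_of_pos_right hκ (show 0 < L by linarith)
    refine h1.trans_le (le_of_eq ?_)
    rw [hL]
    field_simp)
  refine ⟨δ, hδ, C, hC0, ?_⟩
  intro S hS n a q hn hq hqn X hX
  have hn0 : (0 : ℝ) < n := by exact_mod_cast (by omega : 0 < n)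
  obtain ⟨s, r, hr, rfl⟩ : ∃ (s : ℕ) (r : ℤ), r % 2 = 1 ∧ q = 2 ^ s * r := by
    obtain ⟨r, hr1, hr2⟩ := (Int.finiteMultiplicity_iff.2 ⟨by norm_num, hq⟩ :
      FiniteMultiplicity (2 : ℤ) q).exists_eq_pow_mul_and_not_dvd
    exact ⟨_, r, by omega, hr1⟩
  apply hC S hS n s a r hn hr _ X hX
  have hr1 : (1 : ℝ) ≤ |(r : ℝ)| := by
    have : (1 : ℤ) ≤ |r| := Int.one_le_abs (by omega)
    exact_mod_cast this
  push_cast at hqn
  rw [abs_mul, abs_of_pos (show (0 : ℝ) < 2 ^ s by positivity)] at hqn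
  have h1 := Real.rpow_le_rpow (by positivity) hqn (show 0 ≤ L by linarith)
  rw [← Real.rpow_mul hn0.le, Real.mul_rpow (by positivity) (by positivity)] at h1
  have h2 : ((2 : ℝ) ^ s) ^ L = 3 ^ s := by
    rw [← Real.rpow_natCast, ← Real.rpow_mul (by norm_num), Real.rpow_def_of_pos (by norm_num),
      ← Real.rpow_natCast 3, Real.rpow_def_of_pos (by norm_num), hL]
    congr 1; field_simp
  rw [h2] at h1
  have h3 : |(r : ℝ)| ≤ |(r : ℝ)| ^ L := by
    have := Real.rpow_le_rpow_of_exponent_le hr1 hL1.le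
    rwa [Real.rpow_one] at this
  refine le_trans (mul_le_mul_of_nonneg_left h3 (by positivity)) h1

theorem numeric : 0.259 < 1 / beta - Real.log 3 / (2 * Real.log 2) ∧
    0.163 < Real.log 2 / (beta * Real.log 3) - 1 / 2 := by
  have hl2 : 0 < Real.log 2 := Real.log_pos (by norm_num)
  have hl3 : 0 < Real.log 3 := Real.log_pos (by norm_num)
  have hb : 0 < beta := lt_trans (by norm_num) beta_gt
  have hb2 := beta_lt
  have h3 : Real.log 3 < 233 / 147 * Real.log 2 := by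
    have h : Real.log (3 ^ 147) < Real.log (2 ^ 233) := Real.log_lt_log (by norm_num) (by norm_num)
    rw [Real.log_pow, Real.log_pow] at h; push_cast at h; linarith
  have i1 : 1.05152 < 1 / beta := by
    rw [lt_div_iff₀ hb]; linarith
  constructor
  · have i2 : Real.log 3 / (2 * Real.log 2) < 0.79252 := by
      rw [div_lt_iff₀ (by linarith)]; linarith
    linarith
  · have i3 : 0.6309 < Real.log 2 / Real.log 3 := by
      rw [lt_div_iff₀ hl3]; nlinarith
    have e : Real.log 2 / (beta * Real.log 3) = 1 / beta * (Real.log 2 / Real.log 3) := by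
      field_simp
    rw [e]
    nlinarith

end Pool.Agent.R484.CA
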