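import Mathlib

/-!
# Colmez's product formula: class functions of CM types
-/

set_option autoImplicit false
set_option linter.unusedSectionVars false

open Finset

namespace Pool.Agent.R484.Colmez

section Defs

variable {G : Type*} [Group G]

/-- `Φ` is a CM type: the set `X` (the embeddings of a CM field) is the disjoint union of `Φ` and
`c Φ`, `c` complex conjugation. -/
def IsCMType {X : Type*} [MulAction G X] (c : G) (Φ : Finset X) : Prop :=
  ∀ ψ : X, ψ ∈ Φ ↔ c • ψ ∉ Φ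

/-- Colmez's class function `a⁰_{E,ψ,Φ}` on `G = Gal(K/ℚ)`: the proportion of the `h` in `G` with
`h⁻¹ g h ψ` in `Φ`. -/
noncomputable def a0 {X : Type*} [MulAction G X] (ψ : X) (Φ : Finset X) : G → ℚ :=
  fun g => (Nat.card {h : G // (h⁻¹ * g * h) • ψ ∈ Φ} : ℚ) / Nat.card G

end Defs

open Classical

/-- The indicator of a proposition. -/
noncomputable def ind (p : Prop) : ℚ := if p then 1 else 0

lemma ind_congr {p q : Prop} (h : p ↔ q) : ind p = ind q := by rw [propext h]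

lemma ind_pos {p : Prop} (h : p) : ind p = 1 := if_pos h

lemma ind_neg {p : Prop} (h : ¬ p) : ind p = 0 := if_neg h

lemma sum_ind_mul {α : Type*} [Fintype α] (s : Finset α) (f : α → ℚ) :
    ∑ a, ind (a ∈ s) * f a = ∑ a ∈ s, f a := by
  have h1 : ∀ a, ind (a ∈ s) * f a = if a ∈ s then f a else 0 := by
    intro a
    rw [ind]
    split_ifs <;> ring
  rw [sum_congr rfl fun a _ => h1 a, ← sum_filter]
  congr 1
  ext a
  simp

lemma card_eq_sum {α : Type*} [Fintype α] (p : α → Prop) :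
    (Nat.card {a // p a} : ℚ) = ∑ a, ind (p a) := by
  rw [Nat.card_eq_fintype_card, Fintype.card_subtype, card_filter]
  push_cast
  rfl

section CM

variable {G : Type*} [Group G] {X : Type*} [MulAction G X] {c : G}

lemma IsCMType.free {Φ : Finset X} (h : IsCMType c Φ) (ψ : X) : c • ψ ≠ ψ := by
  intro h1
  have h2 := h ψ
  rw [h1] at h2
  tauto

/-- The complement. -/
noncomputable def co [Fintype X] (Φ : Finset X) : Finset X := Φᶜ

lemma mem_co [Fintype X] {Φ : Finset X} {ψ : X} : ψ ∈ co Φ ↔ ψ ∉ Φ := mem_compl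

lemma co_co [Fintype X] (Φ : Finset X) : co (co Φ) = Φ := compl_compl Φ

lemma IsCMType.compl [Fintype X] {Φ : Finset X} (h : IsCMType c Φ) : IsCMType c (co Φ) := by
  intro ψ
  rw [mem_co, mem_co, not_not]
  have := h ψ
  tauto

lemma exists_cm [Fintype X] (hcc : c * c = 1) (hfree : ∀ ψ : X, c • ψ ≠ ψ) (y : X) :
    ∃ Φ : Finset X, IsCMType c Φ ∧ y ∈ Φ := by
  let e := Fintype.equivFin X
  let Φ : Finset X := univ.filter fun ψ => e ψ < e (c • ψ)
  have hΦ : IsCMType c Φ := by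
    intro ψ
    have h1 : c • c • ψ = ψ := by rw [← mul_smul, hcc, one_smul]
    simp only [Φ, mem_filter, mem_univ, true_and, h1, not_lt]
    constructor
    · exact fun h => h.le
    · intro h
      refine lt_of_le_of_ne h fun h2 => hfree ψ (e.injective h2).symm
  by_cases hy : y ∈ Φ
  · exact ⟨Φ, hΦ, hy⟩
  · exact ⟨co Φ, hΦ.compl, by rwa [mem_co]⟩

/-- Exchange `y` and `c y`. -/
noncomputable def flip (c : G) (y : X) (Φ : Finset X) : Finset X := symmDiff Φ {y, c • y}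

lemma mem_flip {y ψ : X} {Φ : Finset X} : ψ ∈ flip c y Φ ↔
    (if ψ = y ∨ ψ = c • y then ψ ∉ Φ else ψ ∈ Φ) := by
  rw [flip, mem_symmDiff, mem_insert, mem_singleton]
  split_ifs <;> tauto

lemma IsCMType.flip (hcc : c * c = 1) {Φ : Finset X} (h : IsCMType c Φ) (y : X) :
    IsCMType c (flip c y Φ) := by
  intro ψ
  have h0 : c • c • y = y := by rw [← mul_smul, hcc, one_smul]
  have h1 : (c • ψ = y ∨ c • ψ = c • y) ↔ (ψ = y ∨ ψ = c • y) := by
    rw [smul_left_cancel_iff]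
    constructor
    · rintro (h | h)
      · right; rw [← h, ← mul_smul, hcc, one_smul]
      · left; exact h
    · rintro (h | h)
      · right; exact h
      · left; rw [h, h0]
  rw [mem_flip, mem_flip]
  simp only [h1]
  have := h ψ
  split_ifs <;> tauto

lemma flip_flip (y : X) (Φ : Finset X) : Colmez.flip c y (Colmez.flip c y Φ) = Φ := by
  rw [Colmez.flip, Colmez.flip, symmDiff_assoc, symmDiff_self]
  exact symmDiff_bot Φ

/-- The sign of `ψ`. -/
noncomputable def sg (ψ : X) (Φ : Finset X) : ℚ := if ψ ∈ Φ then 1 else -1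

lemma sg_conj {Φ : Finset X} (h : IsCMType c Φ) (ψ : X) : sg (c • ψ) Φ = -sg ψ Φ := by
  have := h ψ
  rw [sg, sg]
  split_ifs <;> first | tauto | simp

lemma sg_sq (ψ : X) (Φ : Finset X) : sg ψ Φ * sg ψ Φ = 1 := by
  rw [sg]
  split_ifs <;> norm_num

lemma ind_eq (ψ : X) (Φ : Finset X) : ind (ψ ∈ Φ) = (1 + sg ψ Φ) / 2 := by
  rw [sg, ind]
  split_ifs <;> norm_num

variable [Fintype X]

/-- The CM types. -/
noncomputable def cms (X : Type*) [MulAction G X] [Fintype X] (c : G) : Finset (Finset X) :=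
  univ.filter (IsCMType c)

lemma mem_cms {Φ : Finset X} : Φ ∈ cms X c ↔ IsCMType c Φ := by simp [cms]

lemma sum_sg (ψ : X) : ∑ Φ ∈ cms X c, sg ψ Φ = 0 := by
  refine sum_involution (fun Φ _ => co Φ) ?_ ?_ ?_ ?_
  · intro Φ _
    rw [sg, sg]
    simp only [mem_co]
    split_ifs <;> norm_num
  · intro Φ _ _ h
    have h1 : ψ ∈ co Φ ↔ ψ ∈ Φ := by rw [h]
    rw [mem_co] at h1
    tauto
  · intro Φ hΦ
    rw [mem_cms] at hΦ ⊢
    exact hΦ.compl
  · intro Φ _
    exact co_co Φ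

lemma sum_sg_mul (hcc : c * c = 1) {ψ z : X} (h1 : z ≠ ψ) (h2 : z ≠ c • ψ) :
    ∑ Φ ∈ cms X c, sg ψ Φ * sg z Φ = 0 := by
  have h3 : ∀ Φ : Finset X, sg ψ (Colmez.flip c ψ Φ) = -sg ψ Φ := by
    intro Φ
    rw [sg, sg]
    simp only [mem_flip, true_or, if_true]
    split_ifs <;> norm_num
  have h4 : ∀ Φ : Finset X, sg z (Colmez.flip c ψ Φ) = sg z Φ := by
    intro Φ
    rw [sg, sg]
    simp only [mem_flip, h1, h2, or_self, if_false]
  refine sum_involution (fun Φ _ => Colmez.flip c ψ Φ) ?_ ?_ ?_ ?_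
  · intro Φ _
    rw [h3, h4]
    ring
  · intro Φ _ _ h
    have h5 := h3 Φ
    rw [h] at h5
    have h6 := sg_sq ψ Φ
    have h7 : sg ψ Φ = 0 := by linarith
    rw [h7] at h6
    norm_num at h6
  · intro Φ hΦ
    rw [mem_cms] at hΦ ⊢
    exact hΦ.flip hcc ψ
  · intro Φ _
    exact flip_flip ψ Φ

/-- The number of CM types which contain two given embeddings. -/
lemma sum_two (hcc : c * c = 1) (hfree : ∀ ψ : X, c • ψ ≠ ψ) (ψ z : X) :
    ∑ Φ ∈ cms X c, ind (ψ ∈ Φ) * ind (z ∈ Φ) =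
      ((cms X c).card : ℚ) / 4 * (1 + ind (z = ψ) - ind (z = c • ψ)) := by
  have h1 : ∀ Φ : Finset X, ind (ψ ∈ Φ) * ind (z ∈ Φ) =
      (1 / 4 : ℚ) * (1 + sg ψ Φ + sg z Φ + sg ψ Φ * sg z Φ) := by
    intro Φ
    rw [ind_eq, ind_eq]
    ring
  rw [sum_congr rfl fun Φ _ => h1 Φ, ← mul_sum, sum_add_distrib, sum_add_distrib, sum_add_distrib,
    sum_sg, sum_sg, sum_const, nsmul_eq_mul, mul_one]
  by_cases h2 : z = ψ
  · subst h2
    rw [sum_congr rfl fun Φ _ => sg_sq z Φ, sum_const, nsmul_eq_mul, mul_one, ind_pos rfl,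
      ind_neg (hfree z).symm]
    ring
  · by_cases h3 : z = c • ψ
    · subst h3
      have h4 : ∀ Φ ∈ cms X c, sg ψ Φ * sg (c • ψ) Φ = -1 := by
        intro Φ hΦ
        rw [sg_conj (mem_cms.1 hΦ), mul_neg, sg_sq]
      rw [sum_congr rfl h4, sum_const, nsmul_eq_mul, ind_neg h2, ind_pos rfl]
      ring
    · rw [sum_sg_mul hcc h2 h3, ind_neg h2, ind_neg h3]
      ring

end CM

section Grp

variable {G : Type*} [Group G] [Fintype G] {c : G}

lemma a0_apply {X : Type*} [MulAction G X] (ψ : X) (Φ : Finset X) (g : G) :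
    a0 ψ Φ g = (∑ h : G, ind ((h⁻¹ * g * h) • ψ ∈ Φ)) / Fintype.card G := by
  rw [a0, card_eq_sum, Nat.card_eq_fintype_card]

lemma a0_conj {X : Type*} [MulAction G X] (ψ : X) (Φ : Finset X) (g x : G) :
    a0 ψ Φ (x * g * x⁻¹) = a0 ψ Φ g := by
  rw [a0_apply, a0_apply]
  congr 1
  refine Fintype.sum_equiv (Equiv.mulLeft x⁻¹) _ _ fun h => ?_
  simp only [Equiv.coe_mulLeft, mul_inv_rev, inv_inv, mul_assoc]

lemma a0_add (hc : ∀ g : G, g * c = c * g) {X : Type*} [MulAction G X] (ψ : X) {Φ : Finset X}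
    (hΦ : IsCMType c Φ) (g : G) : a0 ψ Φ g + a0 ψ Φ (c * g) = 1 := by
  rw [a0_apply, a0_apply, ← add_div, ← sum_add_distrib]
  have h1 : ∀ h : G, ind ((h⁻¹ * g * h) • ψ ∈ Φ) + ind ((h⁻¹ * (c * g) * h) • ψ ∈ Φ) = 1 := by
    intro h
    have h2 : h⁻¹ * (c * g) * h = c * (h⁻¹ * g * h) := by
      rw [← mul_assoc, hc h⁻¹]
      simp only [mul_assoc]
    have h3 : (c * (h⁻¹ * g * h)) • ψ = c • ((h⁻¹ * g * h) • ψ) := mul_smul _ _ _
    rw [h2, h3]
    have h4 := hΦ ((h⁻¹ * g * h) • ψ)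
    by_cases h5 : (h⁻¹ * g * h) • ψ ∈ Φ
    · rw [ind_pos h5, ind_neg (h4.1 h5), add_zero]
    · rw [ind_neg h5, ind_pos (by tauto), zero_add]
  rw [sum_congr rfl fun h _ => h1 h, sum_const, card_univ, nsmul_eq_mul, mul_one, div_self]
  exact_mod_cast Fintype.card_ne_zero

lemma sum_quot (C : Subgroup G) (f : G ⧸ C → ℚ) :
    ∑ y : G, f (y : G ⧸ C) = Fintype.card C * ∑ ψ, f ψ := by
  rw [Fintype.sum_equiv (Subgroup.groupEquivQuotientProdSubgroup (s := C)) (fun y => f (y : G ⧸ C))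
    (fun p => f p.1) (fun y => rfl), Fintype.sum_prod_type]
  simp only [sum_const, card_univ, nsmul_eq_mul]
  rw [mul_sum]

/-- The number of the `y` with `y⁻¹ g y ∈ C`. -/
noncomputable def J (C : Subgroup G) : G → ℚ := fun g => ∑ y : G, ind (y⁻¹ * g * y ∈ C)

/-- The odd part. -/
noncomputable def odd (c : G) : (G → ℚ) →ₗ[ℚ] (G → ℚ) where
  toFun f := fun g => f g - f (c * g)
  map_add' f f' := by ext g; simp only [Pi.add_apply]; ring
  map_smul' t f := by ext g; simp only [Pi.smul_apply, smul_eq_mul, RingHom.id_apply]; ring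

lemma odd_apply (f : G → ℚ) (g : G) : odd c f g = f g - f (c * g) := rfl

lemma smul_ne (hc : ∀ g : G, g * c = c * g) (hcc : c * c = 1) {C : Subgroup G} (hC : c ∉ C)
    (ψ : G ⧸ C) : c • ψ ≠ ψ := by
  induction ψ using QuotientGroup.induction_on with
  | H y =>
    intro h
    rw [MulAction.Quotient.smul_mk, QuotientGroup.eq] at h
    apply hC
    have h0 : c⁻¹ = c := inv_eq_of_mul_eq_one_left hcc
    have h1 : (c • y)⁻¹ * y = c := by
      rw [smul_eq_mul, mul_inv_rev, h0, mul_assoc, ← hc y, ← mul_assoc, inv_mul_cancel, one_mul]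
    rwa [h1] at h

/-- The sum of the functions of all CM types. -/
lemma sum_all (hc : ∀ g : G, g * c = c * g) (hcc : c * c = 1) {C : Subgroup G} (hC : c ∉ C)
    (g : G) :
    ∑ Φ ∈ cms (G ⧸ C) c, ∑ ψ ∈ Φ, a0 ψ Φ g = ((cms (G ⧸ C) c).card : ℚ) / 4 /
      Fintype.card C * (Fintype.card G + odd c (J C) g) := by
  have h0 : c⁻¹ = c := inv_eq_of_mul_eq_one_left hcc
  set n : ℚ := ((cms (G ⧸ C) c).card : ℚ) / 4 with hn
  have hG : (Fintype.card G : ℚ) ≠ 0 := by exact_mod_cast Fintype.card_ne_zero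
  have hCC : (Fintype.card C : ℚ) ≠ 0 := by exact_mod_cast Fintype.card_ne_zero
  have e1 : ∑ Φ ∈ cms (G ⧸ C) c, ∑ ψ ∈ Φ, a0 ψ Φ g = (∑ h : G, ∑ ψ : G ⧸ C, n *
      (1 + ind ((h⁻¹ * g * h) • ψ = ψ) - ind ((h⁻¹ * g * h) • ψ = c • ψ))) / Fintype.card G := by
    have e2 : ∀ Φ : Finset (G ⧸ C), ∑ ψ ∈ Φ, a0 ψ Φ g = (∑ h : G, ∑ ψ : G ⧸ C,
        ind (ψ ∈ Φ) * ind ((h⁻¹ * g * h) • ψ ∈ Φ)) / Fintype.card G := by
      intro Φ
      rw [sum_comm, sum_div, ← sum_ind_mul]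
      refine sum_congr rfl fun ψ _ => ?_
      rw [← mul_sum, mul_div_assoc, ← a0_apply]
    rw [sum_congr rfl fun Φ _ => e2 Φ, ← sum_div, sum_comm]
    congr 1
    refine sum_congr rfl fun h _ => ?_
    rw [sum_comm]
    refine sum_congr rfl fun ψ _ => ?_
    exact sum_two hcc (smul_ne hc hcc hC) ψ _
  have e4 : ∀ h : G, Fintype.card C * ∑ ψ : G ⧸ C, n *
      (1 + ind ((h⁻¹ * g * h) • ψ = ψ) - ind ((h⁻¹ * g * h) • ψ = c • ψ)) =
      n * (Fintype.card G + odd c (J C) g) := by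
    intro h
    rw [← sum_quot C, ← mul_sum]
    congr 1
    rw [sum_sub_distrib, sum_add_distrib, sum_const, card_univ, nsmul_eq_mul, mul_one, odd_apply,
      J, J, add_sub_assoc]
    congr 2
    · refine Fintype.sum_equiv (Equiv.mulLeft h) _ _ fun y => ind_congr ?_
      simp only [Equiv.coe_mulLeft, MulAction.Quotient.smul_mk, QuotientGroup.eq, smul_eq_mul]
      have e5 : (h⁻¹ * g * h * y)⁻¹ * y = ((h * y)⁻¹ * g * (h * y))⁻¹ := by group
      rw [e5, inv_mem_iff]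
    · refine Fintype.sum_equiv (Equiv.mulLeft h) _ _ fun y => ind_congr ?_
      simp only [Equiv.coe_mulLeft, MulAction.Quotient.smul_mk, QuotientGroup.eq, smul_eq_mul]
      have e5 : (h⁻¹ * g * h * y)⁻¹ * (c * y) = ((h * y)⁻¹ * (c * g) * (h * y))⁻¹ := by
        rw [← hc y]
        have e6 : ((h * y)⁻¹ * (c * g) * (h * y))⁻¹ = y⁻¹ * h⁻¹ * g⁻¹ * (c⁻¹ * (h * y)) := by group
        rw [e6, h0, ← hc (h * y)]
        group
      rw [e5, inv_mem_iff]
  rw [e1, eq_comm, div_mul_eq_mul_div, div_eq_div_iff hCC hG]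
  rw [← mul_comm (Fintype.card C : ℚ), mul_sum, sum_congr rfl fun h _ => e4 h, sum_const, card_univ,
    nsmul_eq_mul]
  ring

end Grp

end Pool.Agent.R484.Colmez
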