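import Pool.Agent.R484.CPa

/-!
# Colmez's product formula: rational and linear parts
-/

set_option autoImplicit false
set_option linter.unusedSectionVars false

open Finset

namespace Pool.Agent.R484.Colmez

open Classical
open scoped commutatorElement

section

variable {G : Type*} [Group G] [Fintype G] {c : G}

/-- The number of the `y` such that `y⁻¹ g y` generates `H`. -/
noncomputable def th (H : Subgroup G) : G → ℚ :=
  fun g => ∑ y : G, ind (Subgroup.zpowers (y⁻¹ * g * y) = H)

noncomputable instance : Fintype (Subgroup G) := Fintype.ofFinite _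

lemma J_eq (C : Subgroup G) : J C = ∑ H ∈ univ.filter (fun H : Subgroup G => H ≤ C), th H := by
  ext g
  rw [J, Finset.sum_apply]
  simp only [th]
  rw [sum_comm]
  refine sum_congr rfl fun y _ => ?_
  by_cases h : y⁻¹ * g * y ∈ C
  · rw [ind_pos h, sum_eq_single (Subgroup.zpowers (y⁻¹ * g * y)), ind_pos rfl]
    · intro H _ hH
      exact ind_neg fun h1 => hH h1.symm
    · intro h1
      exact absurd (by simpa [Subgroup.zpowers_le] using h) h1
  · rw [ind_neg h, eq_comm]
    refine sum_eq_zero fun H hH => ind_neg ?_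
    rintro rfl
    exact h (Subgroup.zpowers_le.1 (mem_filter.1 hH).2)

variable {W : Type*} [AddCommGroup W] [Module ℚ W] {D : (G → ℚ) →ₗ[ℚ] W}

lemma D_th (hJ : ∀ C : Subgroup G, D (odd c (J C)) = 0) (H : Subgroup G) :
    D (odd c (th H)) = 0 := by
  induction H using WellFoundedLT.induction with
  | ind H ih =>
    have h1 := hJ H
    rw [J_eq, map_sum, map_sum] at h1
    rw [← h1, eq_comm]
    refine sum_eq_single_of_mem H (mem_filter.2 ⟨mem_univ _, le_rfl⟩) fun H' hH' hne => ?_
    exact ih H' (lt_of_le_of_ne (mem_filter.1 hH').2 hne)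

/-- The induction theorem of Artin: the odd parts of the class functions which are constant on the
generators of cyclic subgroups. -/
lemma D_odd_rational (hJ : ∀ C : Subgroup G, D (odd c (J C)) = 0) {r : G → ℚ}
    (hr : ∀ g x : G, r (x * g * x⁻¹) = r g)
    (hr' : ∀ g h : G, Subgroup.zpowers g = Subgroup.zpowers h → r g = r h) :
    D (odd c r) = 0 := by
  let w : Subgroup G → ℚ := fun H => if h : ∃ x, Subgroup.zpowers x = H then r h.choose else 0
  have hw : ∀ x : G, w (Subgroup.zpowers x) = r x := by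
    intro x
    have h : ∃ z, Subgroup.zpowers z = Subgroup.zpowers x := ⟨x, rfl⟩
    simp only [w, dif_pos h]
    exact hr' _ _ h.choose_spec
  have h1 : (Fintype.card G : ℚ) • r = ∑ H : Subgroup G, w H • th H := by
    ext g
    rw [Finset.sum_apply, Pi.smul_apply, smul_eq_mul]
    simp only [Pi.smul_apply, smul_eq_mul, th, mul_sum]
    rw [sum_comm]
    have h2 : ∀ y : G, ∑ H : Subgroup G, w H * ind (Subgroup.zpowers (y⁻¹ * g * y) = H) = r g := by
      intro y
      rw [sum_eq_single (Subgroup.zpowers (y⁻¹ * g * y)), ind_pos rfl, mul_one, hw]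
      · have := hr g y⁻¹
        rwa [inv_inv] at this
      · intro H _ hH
        rw [ind_neg fun h => hH h.symm, mul_zero]
      · exact fun h => absurd (mem_univ _) h
    rw [sum_congr rfl fun y _ => h2 y, sum_const, card_univ, nsmul_eq_mul]
  have h2 : (Fintype.card G : ℚ) • D (odd c r) = 0 := by
    rw [← map_smul, ← map_smul, h1, map_sum, map_sum]
    refine sum_eq_zero fun H _ => ?_
    rw [map_smul, map_smul, D_th hJ, smul_zero]
  have h3 : (Fintype.card G : ℚ) ≠ 0 := by exact_mod_cast Fintype.card_ne_zero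
  exact (smul_eq_zero.1 h2).resolve_left h3

lemma D_J (hc : ∀ g : G, g * c = c * g) (hcc : c * c = 1) (h1 : D 1 = 0)
    (hav : ∀ C : Subgroup G, c ∉ C → ∑ Φ ∈ cms (G ⧸ C) c, ∑ ψ ∈ Φ, D (a0 ψ Φ) = 0)
    (C : Subgroup G) : D (odd c (J C)) = 0 := by
  by_cases hC : c ∈ C
  · have h2 : odd c (J C) = 0 := by
      ext g
      rw [odd_apply, J, J, Pi.zero_apply, sub_eq_zero]
      refine sum_congr rfl fun y _ => ind_congr ?_
      have h3 : y⁻¹ * (c * g) * y = c * (y⁻¹ * g * y) := by
        rw [← mul_assoc, hc y⁻¹]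
        simp only [mul_assoc]
      rw [h3, Subgroup.mul_mem_cancel_left _ hC]
    rw [h2, map_zero]
  · obtain ⟨Φ, hΦ, -⟩ := exists_cm hcc (smul_ne hc hcc hC) ((1 : G) : G ⧸ C)
    have hne : ((cms (G ⧸ C) c).card : ℚ) / 4 / Fintype.card C ≠ 0 := by
      have h2 : (cms (G ⧸ C) c).card ≠ 0 := card_ne_zero_of_mem (mem_cms.2 hΦ)
      have h3 : ((cms (G ⧸ C) c).card : ℚ) ≠ 0 := by exact_mod_cast h2
      have h4 : (Fintype.card C : ℚ) ≠ 0 := by exact_mod_cast Fintype.card_ne_zero
      positivity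
    have h2 : ∑ Φ ∈ cms (G ⧸ C) c, ∑ ψ ∈ Φ, a0 ψ Φ = (((cms (G ⧸ C) c).card : ℚ) / 4 /
        Fintype.card C) • ((Fintype.card G : ℚ) • (1 : G → ℚ) + odd c (J C)) := by
      ext g
      rw [Finset.sum_apply, Pi.smul_apply, Pi.add_apply, Pi.smul_apply, Pi.one_apply, smul_eq_mul,
        smul_eq_mul, mul_one, ← sum_all hc hcc hC]
      refine sum_congr rfl fun Φ _ => ?_
      rw [Finset.sum_apply]
    have h3 := hav C hC
    have h4 : D (∑ Φ ∈ cms (G ⧸ C) c, ∑ ψ ∈ Φ, a0 ψ Φ) = 0 := by
      rw [map_sum, ← h3]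
      exact sum_congr rfl fun Φ _ => map_sum _ _ _
    rw [h2, map_smul, map_add, map_smul, h1, smul_zero, zero_add] at h4
    exact (smul_eq_zero.1 h4).resolve_left hne

/-- Functions on the abelianization. -/
lemma D_odd_linear (hc : ∀ g : G, g * c = c * g) (hcc : c * c = 1)
    (hab : ∀ C : Subgroup G, commutator G ≤ C → ∀ (ψ : G ⧸ C) (Φ : Finset (G ⧸ C)),
      IsCMType c Φ → D (a0 ψ Φ) = 0) {l : G → ℚ}
    (hl : ∀ g, ∀ n ∈ commutator G, l (g * n) = l g) : D (odd c l) = 0 := by
  set C := commutator G with hCdef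
  by_cases hC : c ∈ C
  · have h2 : odd c l = 0 := by
      ext g
      rw [odd_apply, ← hc, hl g c hC, sub_self, Pi.zero_apply]
    rw [h2, map_zero]
  · have h0 : c⁻¹ = c := inv_eq_of_mul_eq_one_left hcc
    -- the function of a CM type of an abelian field
    have key : ∀ (Φ : Finset (G ⧸ C)) (g : G), a0 ((1 : G) : G ⧸ C) Φ g = ind ((g : G ⧸ C) ∈ Φ) := by
      intro Φ g
      rw [a0_apply]
      have h2 : ∀ h : G, ind ((h⁻¹ * g * h) • ((1 : G) : G ⧸ C) ∈ Φ) = ind ((g : G ⧸ C) ∈ Φ) := by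
        intro h
        apply ind_congr
        have h3 : (h⁻¹ * g * h) • ((1 : G) : G ⧸ C) = (g : G ⧸ C) := by
          rw [MulAction.Quotient.smul_mk, smul_eq_mul, mul_one, eq_comm, QuotientGroup.eq]
          have h4 : g⁻¹ * (h⁻¹ * g * h) = ⁅g⁻¹, h⁻¹⁆ := by
            rw [commutatorElement_def]
            group
          rw [h4, hCdef, commutator_def]
          exact Subgroup.commutator_mem_commutator (Subgroup.mem_top _) (Subgroup.mem_top _)
        rw [h3]
      rw [sum_congr rfl fun h _ => h2 h, sum_const, card_univ, nsmul_eq_mul,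
        mul_div_cancel_left₀]
      exact_mod_cast Fintype.card_ne_zero
    have hfree := smul_ne hc hcc hC
    have hD : ∀ y : G ⧸ C, D (fun g => ind ((g : G ⧸ C) = y) - ind ((g : G ⧸ C) = c • y)) = 0 := by
      intro y
      obtain ⟨Φ, hΦ, hy⟩ := exists_cm hcc hfree y
      have h2 := hab C le_rfl ((1 : G) : G ⧸ C) Φ hΦ
      have h3 := hab C le_rfl ((1 : G) : G ⧸ C) _ (hΦ.flip hcc y)
      have h4 : (fun g : G => ind ((g : G ⧸ C) = y) - ind ((g : G ⧸ C) = c • y)) =
          a0 ((1 : G) : G ⧸ C) Φ - a0 ((1 : G) : G ⧸ C) (Colmez.flip c y Φ) := by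
        ext g
        rw [Pi.sub_apply, key, key]
        have h5 := (hΦ y).1 hy
        by_cases h6 : (g : G ⧸ C) = y
        · rw [h6, ind_pos rfl, ind_neg (hfree y).symm, ind_pos hy, ind_neg]
          rw [mem_flip, if_pos (Or.inl rfl), not_not]
          exact hy
        · by_cases h7 : (g : G ⧸ C) = c • y
          · rw [h7, ind_pos rfl, ind_neg (hfree y), ind_neg h5, ind_pos]
            rw [mem_flip, if_pos (Or.inr rfl)]
            exact h5
          · rw [ind_neg h6, ind_neg h7, sub_zero, eq_comm, sub_eq_zero]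
            apply ind_congr
            rw [mem_flip, if_neg (by tauto)]
      rw [h4, map_sub, h2, h3, sub_zero]
    have hdesc : ∀ g : G, l ((g : G ⧸ C)).out = l g := by
      intro g
      obtain ⟨n, hn⟩ := QuotientGroup.mk_out_eq_mul C g
      rw [hn, hl g n n.2]
    have h2 : odd c l = ∑ y : G ⧸ C, l y.out • (fun g : G => ind ((g : G ⧸ C) = y) -
        ind ((g : G ⧸ C) = c • y)) := by
      ext g
      rw [odd_apply, Finset.sum_apply]
      simp only [Pi.smul_apply, smul_eq_mul, mul_sub]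
      rw [sum_sub_distrib]
      congr 1
      · rw [sum_eq_single (g : G ⧸ C), ind_pos rfl, mul_one, hdesc]
        · intro y _ hy
          rw [ind_neg fun h => hy h.symm, mul_zero]
        · exact fun h => absurd (mem_univ _) h
      · rw [sum_eq_single (c • (g : G ⧸ C)), ind_pos, mul_one, MulAction.Quotient.smul_mk,
          smul_eq_mul, hdesc]
        · rw [← mul_smul, hcc, one_smul]
        · intro y _ hy
          rw [ind_neg, mul_zero]
          intro h
          apply hy
          rw [h, ← mul_smul, hcc, one_smul]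
        · exact fun h => absurd (mem_univ _) h
    rw [h2, map_sum]
    refine sum_eq_zero fun y _ => ?_
    rw [map_smul, hD, smul_zero]

/-- The rational and the linear part together. -/
lemma D_core (hc : ∀ g : G, g * c = c * g) (hcc : c * c = 1) (h1 : D 1 = 0)
    (hav : ∀ C : Subgroup G, c ∉ C → ∑ Φ ∈ cms (G ⧸ C) c, ∑ ψ ∈ Φ, D (a0 ψ Φ) = 0)
    (hab : ∀ C : Subgroup G, commutator G ≤ C → ∀ (ψ : G ⧸ C) (Φ : Finset (G ⧸ C)),
      IsCMType c Φ → D (a0 ψ Φ) = 0) {f r l : G → ℚ}
    (hl : ∀ g, ∀ n ∈ commutator G, l (g * n) = l g)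
    (hr : ∀ g x : G, r (x * g * x⁻¹) = r g)
    (hr' : ∀ g h : G, Subgroup.zpowers g = Subgroup.zpowers h → r g = r h)
    (hf : f = r + l) {s : ℚ} (hs : ∀ g, f g + f (c * g) = s) : D f = 0 := by
  have h2 : f = (s / 2) • (1 : G → ℚ) + (1 / 2 : ℚ) • (odd c r + odd c l) := by
    rw [← map_add, ← hf]
    ext g
    have := hs g
    simp only [Pi.add_apply, Pi.smul_apply, Pi.one_apply, smul_eq_mul, odd_apply]
    linarith
  rw [h2, map_add, map_smul, map_smul, map_add, h1, D_odd_rational (D_J hc hcc h1 hav) hr hr',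
    D_odd_linear hc hcc hab hl]
  simp

omit [Fintype G] in
/-- The generators of a cyclic group are the powers with exponent prime to the order. -/
lemma exists_pow [Finite G] {g h : G} (hgh : Subgroup.zpowers g = Subgroup.zpowers h) :
    ∃ k : ℕ, k.Coprime (orderOf g) ∧ g ^ k = h := by
  have h1 : h ∈ Subgroup.zpowers g := by
    rw [hgh]
    exact Subgroup.mem_zpowers h
  rw [← mem_powers_iff_mem_zpowers] at h1
  obtain ⟨k, hk⟩ := h1
  refine ⟨k, ?_, hk⟩
  have h2 : orderOf h = orderOf g := by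
    rw [← Nat.card_zpowers, ← Nat.card_zpowers, hgh]
  have h3 : orderOf h = orderOf g / (orderOf g).gcd k := by
    rw [← hk]
    exact orderOf_pow g
  have h4 : 0 < orderOf g := orderOf_pos g
  rw [h2] at h3
  have h5 : (orderOf g).gcd k ∣ orderOf g := Nat.gcd_dvd_left _ _
  obtain ⟨m, hm⟩ := h5
  have h6 : 0 < (orderOf g).gcd k := Nat.gcd_pos_of_pos_left _ h4
  have h7 : orderOf g / (orderOf g).gcd k = m := by
    rw [Nat.div_eq_iff_eq_mul_right h6 (Nat.gcd_dvd_left _ _)]
    exact hm
  rw [h7] at h3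
  rw [h3] at hm
  have h8 : 0 < m := by rw [← h3]; exact h4
  have h9 : (orderOf g).gcd k = 1 := by
    rw [← h3] at hm h8
    nlinarith
  rw [Nat.coprime_comm]
  exact h9

/-- Averages over the commutator subgroup. -/
noncomputable def lin (b : G → ℚ) : G → ℚ :=
  fun g => (∑ n : commutator G, b (g * n)) / Fintype.card (commutator G)

lemma lin_mul (b : G → ℚ) (g : G) {n : G} (hn : n ∈ commutator G) : lin b (g * n) = lin b g := by
  rw [lin, lin]
  congr 1
  refine Fintype.sum_equiv (Equiv.mulLeft (⟨n, hn⟩ : commutator G)) _ _ fun m => ?_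
  simp only [Equiv.coe_mulLeft, Subgroup.coe_mul, mul_assoc]

lemma lin_conj {b : G → ℚ} (hb : ∀ g x, b (x * g * x⁻¹) = b g) (g x : G) :
    lin b (x * g * x⁻¹) = lin b g := by
  rw [lin, lin]
  congr 1
  have hn : (commutator G).Normal := inferInstance
  refine Fintype.sum_equiv ((MulAut.conjNormal (H := commutator G) x⁻¹).toEquiv) _ _ fun m => ?_
  have h1 : (((MulAut.conjNormal (H := commutator G) x⁻¹).toEquiv m : commutator G) : G) =
      x⁻¹ * m * x := by
    change (((MulAut.conjNormal (H := commutator G) x⁻¹) m : commutator G) : G) = _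
    rw [MulAut.conjNormal_apply, inv_inv]
  rw [h1, ← hb (g * (x⁻¹ * m * x)) x]
  congr 1
  group

lemma lin_c {b : G → ℚ} (hodd : ∀ g, b (c * g) = -b g) (g : G) : lin b (c * g) = -lin b g := by
  rw [lin, lin, ← neg_div, ← sum_neg_distrib]
  congr 1
  refine sum_congr rfl fun n _ => ?_
  rw [mul_assoc, hodd]

lemma lin_inv {b : G → ℚ} (hb : ∀ g x, b (x * g * x⁻¹) = b g) (hinv : ∀ g, b g⁻¹ = b g) (g : G) :
    lin b g⁻¹ = lin b g := by
  rw [lin, lin]
  congr 1
  refine Fintype.sum_equiv (Equiv.inv (commutator G)) _ _ fun m => ?_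
  have h1 : ((Equiv.inv (commutator G) m : commutator G) : G) = (m : G)⁻¹ := rfl
  rw [h1, ← hinv, ← hb _ g]
  congr 1
  group

lemma sum_sub_lin (b : G → ℚ) (g : G) : ∑ n : commutator G, (b - lin b) (g * n) = 0 := by
  simp only [Pi.sub_apply]
  rw [sum_sub_distrib, sum_congr rfl fun n _ => lin_mul b g n.2, sum_const, card_univ,
    nsmul_eq_mul, lin, mul_div_cancel₀, sub_self]
  exact_mod_cast Fintype.card_ne_zero

/-- The group theoretic criterion. -/
lemma D_group (hc : ∀ g : G, g * c = c * g) (hcc : c * c = 1) (h1 : D 1 = 0)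
    (hav : ∀ C : Subgroup G, c ∉ C → ∑ Φ ∈ cms (G ⧸ C) c, ∑ ψ ∈ Φ, D (a0 ψ Φ) = 0)
    (hab : ∀ C : Subgroup G, commutator G ≤ C → ∀ (ψ : G ⧸ C) (Φ : Finset (G ⧸ C)),
      IsCMType c Φ → D (a0 ψ Φ) = 0) {f : G → ℚ} (hf : ∀ g x : G, f (x * g * x⁻¹) = f g)
    {s : ℚ} (hs : ∀ g, f g + f (c * g) = s) {sym : Prop} (hsym : sym → ∀ g, f g⁻¹ = f g)
    (hP : ∀ g : G, IsConj g (c * g) ∨ (∀ n ∈ commutator G, IsConj g (g * n)) ∨
      ∀ k : ℕ, k.Coprime (orderOf g) → IsConj g (g ^ k) ∨ (sym ∧ IsConj g⁻¹ (g ^ k))) :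
    D f = 0 := by
  set b := odd c f with hbdef
  have hb : ∀ g x, b (x * g * x⁻¹) = b g := by
    intro g x
    rw [hbdef, odd_apply, odd_apply, hf]
    have h2 : c * (x * g * x⁻¹) = x * (c * g) * x⁻¹ := by
      rw [← mul_assoc x c, hc x]
      simp only [mul_assoc]
    rw [h2, hf]
  have hodd : ∀ g, b (c * g) = -b g := by
    intro g
    rw [hbdef, odd_apply, odd_apply, ← mul_assoc, hcc, one_mul]
    ring
  set r := b - lin b with hrdef
  have hr : ∀ g x, r (x * g * x⁻¹) = r g := by
    intro g x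
    rw [hrdef, Pi.sub_apply, Pi.sub_apply, hb, lin_conj hb]
  have hconj : ∀ g h, IsConj g h → r h = r g := by
    intro g h hgh
    obtain ⟨x, hx⟩ := isConj_iff.1 hgh
    rw [← hx, hr]
  have hodd' : ∀ g, r (c * g) = -r g := by
    intro g
    rw [hrdef, Pi.sub_apply, Pi.sub_apply, hodd, lin_c hodd]
    ring
  have hinv : sym → ∀ g, r g⁻¹ = r g := by
    intro h g
    have hc' : c⁻¹ = c := inv_eq_of_mul_eq_one_left hcc
    have h2 : ∀ g, b g⁻¹ = b g := by
      intro g
      rw [hbdef, odd_apply, odd_apply, hsym h g]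
      congr 1
      rw [← hsym h (c * g), mul_inv_rev, hc', hc]
    rw [hrdef, Pi.sub_apply, Pi.sub_apply, h2, lin_inv hb h2]
  have hz : ∀ g, (IsConj g (c * g) ∨ ∀ n ∈ commutator G, IsConj g (g * n)) → r g = 0 := by
    rintro g (h | h)
    · have h2 := hconj _ _ h
      rw [hodd'] at h2
      linarith
    · have h2 := sum_sub_lin b g
      rw [sum_congr rfl fun (n : commutator G) _ => hconj g _ (h n n.2), sum_const, card_univ,
        nsmul_eq_mul] at h2
      have h3 : (Fintype.card (commutator G) : ℚ) ≠ 0 := by exact_mod_cast Fintype.card_ne_zero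
      exact (mul_eq_zero.1 h2).resolve_left h3
  have hpow : ∀ g k, (∀ k : ℕ, k.Coprime (orderOf g) → IsConj g (g ^ k) ∨
      (sym ∧ IsConj g⁻¹ (g ^ k))) → k.Coprime (orderOf g) → r (g ^ k) = r g := by
    intro g k h hk
    rcases h k hk with h | ⟨h, h'⟩
    · exact hconj _ _ h
    · rw [hconj _ _ h', hinv h]
  have hr' : ∀ g h : G, Subgroup.zpowers g = Subgroup.zpowers h → r g = r h := by
    intro g h hgh
    obtain ⟨k, hk, hkh⟩ := exists_pow hgh
    obtain ⟨j, hj, hjg⟩ := exists_pow hgh.symm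
    rcases or_assoc.2 (hP g) with h2 | h2
    · rcases or_assoc.2 (hP h) with h3 | h3
      · rw [hz g h2, hz h h3]
      · have h4 := hpow h j h3 hj
        rw [hjg] at h4
        exact h4
    · have h4 := hpow g k h2 hk
      rw [hkh] at h4
      exact h4.symm
  have hDb : D b = 0 := by
    refine D_core hc hcc h1 hav hab (r := r) (l := lin b) (fun g n hn => lin_mul b g hn) hr hr' ?_
      (s := 0) fun g => ?_
    · rw [hrdef, sub_add_cancel]
    · rw [hodd]
      ring
  have h2 : f = (s / 2) • (1 : G → ℚ) + (1 / 2 : ℚ) • b := by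
    ext g
    have := hs g
    simp only [Pi.add_apply, Pi.smul_apply, Pi.one_apply, smul_eq_mul, hbdef, odd_apply]
    linarith
  rw [h2, map_add, map_smul, map_smul, h1, hDb]
  simp

/-- Orders dividing 4 or 6. -/
lemma pow_or_inv {g : G} (h : g ^ 4 = 1 ∨ g ^ 6 = 1) {k : ℕ} (hk : k.Coprime (orderOf g)) :
    g ^ k = g ∨ g ^ k = g⁻¹ := by
  have h1 : orderOf g ∣ 4 ∨ orderOf g ∣ 6 := by
    rcases h with h | h
    · exact Or.inl (orderOf_dvd_of_pow_eq_one h)
    · exact Or.inr (orderOf_dvd_of_pow_eq_one h)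
  have h2 : orderOf g ∣ k - 1 ∨ orderOf g ∣ k + 1 := by
    have hle : orderOf g ≤ 6 := by
      rcases h1 with h | h
      · exact (Nat.le_of_dvd (by norm_num) h).trans (by norm_num)
      · exact Nat.le_of_dvd (by norm_num) h
    have hpos := orderOf_pos g
    generalize orderOf g = n at *
    have hn5 : n ≠ 5 := by rintro rfl; omega
    interval_cases n
    · exact Or.inl (one_dvd _)
    · have h3 : k % 2 = 1 := by
        rw [Nat.coprime_comm, Nat.coprime_two_left] at hk
        exact Nat.odd_iff.1 hk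
      omega
    · have h3 : ¬ 3 ∣ k := by
        intro h4
        have h5 := Nat.Coprime.eq_one_of_dvd (hk.symm) h4
        omega
      omega
    · have h3 : k % 2 = 1 := by
        by_contra h4
        have h5 : 2 ∣ k := by omega
        have h6 := Nat.dvd_gcd h5 (show 2 ∣ 4 by norm_num)
        rw [hk] at h6
        omega
      omega
    · omega
    · have h3 : k % 2 = 1 := by
        by_contra h4
        have h5 : 2 ∣ k := by omega
        have h6 := Nat.dvd_gcd h5 (show 2 ∣ 6 by norm_num)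
        rw [hk] at h6
        omega
      have h4 : ¬ 3 ∣ k := by
        intro h4
        have h6 := Nat.dvd_gcd h4 (show 3 ∣ 6 by norm_num)
        rw [hk] at h6
        omega
      have h7 : k % 6 = 1 ∨ k % 6 = 5 := by omega
      rcases h7 with h7 | h7
      · left; omega
      · right; omega
  rcases h2 with h2 | h2
  · rcases Nat.eq_zero_or_pos k with rfl | h3
    · left
      have h4 : orderOf g = 1 := by
        rw [Nat.coprime_zero_left] at hk
        exact hk
      rw [orderOf_eq_one_iff] at h4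
      rw [h4, pow_zero]
    · left
      have h4 : g ^ (k - 1) = 1 := orderOf_dvd_iff_pow_eq_one.1 h2
      have h5 : k = (k - 1) + 1 := by omega
      rw [h5, pow_succ, h4, one_mul]
  · right
    have h4 : g ^ (k + 1) = 1 := orderOf_dvd_iff_pow_eq_one.1 h2
    rw [pow_succ] at h4
    exact eq_inv_of_mul_eq_one_left h4

end

end Pool.Agent.R484.Colmez
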