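import Pool.Agent.R484.CPb

/-!
# Colmez's product formula: heights
-/

set_option autoImplicit false
set_option linter.unusedSectionVars false

open Finset

namespace Pool.Agent.R484.Colmez

open Classical

/-- The heights of Colmez of the CM types of the CM fields contained in a CM field `K` which is
finite and Galois over `ℚ`, and what is known about them. Here `G = Gal(K/ℚ)` and `c` is complex
conjugation; the subgroup `C` stands for the field `E` fixed by `C`, with set of embeddings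
`G ⧸ C`, and `a0 ψ Φ` is the function `a⁰_{E,ψ,Φ}` on `G`. -/
structure ColmezHeights (G : Type) [Group G] [Fintype G] (c : G) where
  /-- the heights `ht(E,ψ,Φ)` -/
  ht : ∀ C : Subgroup G, G ⧸ C → Finset (G ⧸ C) → ℝ
  /-- a linear extension of `a ↦ Z^∞(a^*, 0)`, defined for the class functions `a` with
  `a g + a (c g)` constant, to all functions on `G`, `a^* g = a (g⁻¹)` -/
  Z : (G → ℚ) →ₗ[ℚ] ℝ
  /-- Colmez: `ht(E,ψ,Φ)` is a linear function of `a⁰_{E,ψ,Φ}`, with value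
  `log 2π = ζ'(0)/ζ(0)` at the constant function `1` -/
  linear : ∃ L : (G → ℚ) →ₗ[ℚ] ℝ, L 1 = Z 1 ∧ ∀ (C : Subgroup G) (ψ : G ⧸ C)
    (Φ : Finset (G ⧸ C)), IsCMType c Φ → ht C ψ Φ = L (a0 ψ Φ)
  /-- Colmez, Obus: the product formula for the fields which are abelian over `ℚ` -/
  abelian : ∀ C : Subgroup G, commutator G ≤ C → ∀ (ψ : G ⧸ C) (Φ : Finset (G ⧸ C)),
    IsCMType c Φ → ht C ψ Φ = Z (a0 ψ Φ)
  /-- Andreatta, Goren, Howard, Madapusi Pera; Yuan, Zhang: the averaged formula -/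
  average : ∀ C : Subgroup G, c ∉ C → ∑ Φ ∈ cms (G ⧸ C) c, ∑ ψ ∈ Φ, ht C ψ Φ =
    ∑ Φ ∈ cms (G ⧸ C) c, ∑ ψ ∈ Φ, Z (a0 ψ Φ)

section

variable {G : Type} [Group G] [Fintype G] {c : G}

lemma exists_D (T : ColmezHeights G c) : ∃ D : (G → ℚ) →ₗ[ℚ] ℝ, D 1 = 0 ∧
    (∀ (C : Subgroup G) (ψ : G ⧸ C) (Φ : Finset (G ⧸ C)), IsCMType c Φ →
      D (a0 ψ Φ) = T.ht C ψ Φ - T.Z (a0 ψ Φ)) := by
  obtain ⟨L, h1, h2⟩ := T.linear
  refine ⟨L - T.Z, ?_, fun C ψ Φ hΦ => ?_⟩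
  · rw [LinearMap.sub_apply, h1, sub_self]
  · rw [LinearMap.sub_apply, h2 C ψ Φ hΦ]

/-- Sums over the CM type. -/
lemma sum_inv {X : Type*} [MulAction G X] [Fintype X] (Φ : Finset X) (g : G) :
    (∑ ψ ∈ Φ, a0 ψ Φ : G → ℚ) g⁻¹ = (∑ ψ ∈ Φ, a0 ψ Φ : G → ℚ) g := by
  have h1 : ∀ g : G, (∑ ψ ∈ Φ, a0 ψ Φ : G → ℚ) g = (∑ h : G, ∑ ψ : X, ind (ψ ∈ Φ) *
      ind ((h⁻¹ * g * h) • ψ ∈ Φ)) / Fintype.card G := by
    intro g
    rw [Finset.sum_apply, ← sum_ind_mul, sum_comm, sum_div]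
    refine sum_congr rfl fun ψ _ => ?_
    rw [a0_apply, ← mul_sum, mul_div_assoc]
  rw [h1, h1]
  congr 1
  refine sum_congr rfl fun h _ => ?_
  refine Fintype.sum_equiv (MulAction.toPerm (h⁻¹ * g⁻¹ * h)) _ _ fun ψ => ?_
  rw [MulAction.toPerm_apply, mul_comm]
  have h2 : (h⁻¹ * g * h) • (h⁻¹ * g⁻¹ * h) • ψ = ψ := by
    rw [← mul_smul]
    have h3 : h⁻¹ * g * h * (h⁻¹ * g⁻¹ * h) = 1 := by group
    rw [h3, one_smul]
  rw [h2]

lemma sum_add (hc : ∀ g : G, g * c = c * g) {X : Type*} [MulAction G X] {Φ : Finset X}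
    (hΦ : IsCMType c Φ) (g : G) : (∑ ψ ∈ Φ, a0 ψ Φ : G → ℚ) g +
      (∑ ψ ∈ Φ, a0 ψ Φ : G → ℚ) (c * g) = Φ.card := by
  rw [Finset.sum_apply, Finset.sum_apply, ← sum_add_distrib,
    sum_congr rfl fun ψ _ => a0_add hc ψ hΦ g, sum_const, nsmul_eq_mul, mul_one]

lemma sum_conj {X : Type*} [MulAction G X] (Φ : Finset X) (g x : G) :
    (∑ ψ ∈ Φ, a0 ψ Φ : G → ℚ) (x * g * x⁻¹) = (∑ ψ ∈ Φ, a0 ψ Φ : G → ℚ) g := by
  rw [Finset.sum_apply, Finset.sum_apply]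
  exact sum_congr rfl fun ψ _ => a0_conj ψ Φ g x

/-- The product formula for the rational part and the linear characters. -/
theorem main (hc : ∀ g : G, g * c = c * g) (hcc : c * c = 1) (T : ColmezHeights G c) :
    (∀ (ι : Type) [Fintype ι] (q : ι → ℚ) (C : ι → Subgroup G) (ψ : ∀ i, G ⧸ C i)
      (Φ : ∀ i, Finset (G ⧸ C i)), (∀ i, IsCMType c (Φ i)) →
      (∃ l : G → ℚ, (∀ g, ∀ n ∈ commutator G, l (g * n) = l g) ∧
        ∀ (g : G) (k : ℕ), k.Coprime (orderOf g) →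
          ∑ i, q i * a0 (ψ i) (Φ i) (g ^ k) - l (g ^ k) = ∑ i, q i * a0 (ψ i) (Φ i) g - l g) →
      ∑ i, q i * T.ht (C i) (ψ i) (Φ i) = ∑ i, q i * T.Z (a0 (ψ i) (Φ i))) ∧
    ((∀ g : G, IsConj g (c * g) ∨ (∀ n ∈ commutator G, IsConj g (g * n)) ∨
        ∀ k : ℕ, k.Coprime (orderOf g) → IsConj g (g ^ k)) →
      ∀ (C : Subgroup G) (ψ : G ⧸ C) (Φ : Finset (G ⧸ C)), IsCMType c Φ →
        T.ht C ψ Φ = T.Z (a0 ψ Φ)) ∧
    ((∀ g : G, IsConj g (c * g) ∨ (∀ n ∈ commutator G, IsConj g (g * n)) ∨ g ^ 4 = 1 ∨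
        g ^ 6 = 1 ∨ ∀ k : ℕ, k.Coprime (orderOf g) → IsConj g (g ^ k) ∨ IsConj g⁻¹ (g ^ k)) →
      ∀ (C : Subgroup G) (Φ : Finset (G ⧸ C)), IsCMType c Φ →
        ∑ ψ ∈ Φ, T.ht C ψ Φ = ∑ ψ ∈ Φ, T.Z (a0 ψ Φ)) := by
  obtain ⟨D, h1, h2⟩ := exists_D T
  have hav : ∀ C : Subgroup G, c ∉ C → ∑ Φ ∈ cms (G ⧸ C) c, ∑ ψ ∈ Φ, D (a0 ψ Φ) = 0 := by
    intro C hC
    have h3 := T.average C hC
    rw [← sub_eq_zero, ← sum_sub_distrib] at h3
    rw [← h3]
    refine sum_congr rfl fun Φ hΦ => ?_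
    rw [← sum_sub_distrib]
    exact sum_congr rfl fun ψ _ => h2 C ψ Φ (mem_cms.1 hΦ)
  have hab : ∀ C : Subgroup G, commutator G ≤ C → ∀ (ψ : G ⧸ C) (Φ : Finset (G ⧸ C)),
      IsCMType c Φ → D (a0 ψ Φ) = 0 := by
    intro C hC ψ Φ hΦ
    rw [h2 C ψ Φ hΦ, T.abelian C hC ψ Φ hΦ, sub_self]
  refine ⟨?_, ?_, ?_⟩
  · rintro ι _ q C ψ Φ hΦ ⟨l, hl, hk⟩
    set f : G → ℚ := ∑ i, q i • a0 (ψ i) (Φ i) with hfdef
    have hf : ∀ g, f g = ∑ i, q i * a0 (ψ i) (Φ i) g := by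
      intro g
      rw [hfdef, Finset.sum_apply]
      rfl
    have hfc : ∀ g x, f (x * g * x⁻¹) = f g := by
      intro g x
      rw [hf, hf]
      exact sum_congr rfl fun i _ => by rw [a0_conj]
    have hfs : ∀ g, f g + f (c * g) = ∑ i, q i := by
      intro g
      rw [hf, hf, ← sum_add_distrib]
      refine sum_congr rfl fun i _ => ?_
      rw [← mul_add, a0_add hc (ψ i) (hΦ i), mul_one]
    have hlc : ∀ g x, l (x * g * x⁻¹) = l g := by
      intro g x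
      have h3 : x * g * x⁻¹ = g * (g⁻¹ * x * g * x⁻¹) := by group
      rw [h3]
      apply hl
      have h4 := Subgroup.commutator_mem_commutator (H₁ := (⊤ : Subgroup G)) (H₂ := ⊤)
        (g₁ := g⁻¹) (g₂ := x) (Subgroup.mem_top _) (Subgroup.mem_top _)
      rw [commutatorElement_def, inv_inv] at h4
      exact h4
    have h3 : D f = 0 := by
      refine D_core hc hcc h1 hav hab (r := f - l) (l := l) hl ?_ ?_ (sub_add_cancel f l).symm hfs
      · intro g x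
        rw [Pi.sub_apply, Pi.sub_apply, hfc, hlc]
      · intro g h hgh
        obtain ⟨k, hk', hkh⟩ := exists_pow hgh
        have h4 := hk g k hk'
        rw [hkh] at h4
        rw [Pi.sub_apply, Pi.sub_apply, hf, hf]
        exact h4.symm
    rw [hfdef, map_sum] at h3
    rw [← sub_eq_zero, ← sum_sub_distrib, ← h3]
    refine sum_congr rfl fun i _ => ?_
    rw [map_smul, h2 (C i) (ψ i) (Φ i) (hΦ i), ← mul_sub, Rat.smul_def]
  · intro hP C ψ Φ hΦ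
    have h3 : D (a0 ψ Φ) = 0 := by
      refine D_group hc hcc h1 hav hab (a0_conj ψ Φ) (a0_add hc ψ hΦ) (sym := False)
        (fun h => h.elim) fun g => ?_
      rcases hP g with h | h | h
      · exact Or.inl h
      · exact Or.inr (Or.inl h)
      · exact Or.inr (Or.inr fun k hk => Or.inl (h k hk))
    rw [h2 C ψ Φ hΦ, sub_eq_zero] at h3
    exact h3
  · intro hP C Φ hΦ
    have h3 : D (∑ ψ ∈ Φ, a0 ψ Φ) = 0 := by
      refine D_group hc hcc h1 hav hab (sum_conj Φ) (sum_add hc hΦ) (sym := True)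
        (fun _ => sum_inv Φ) fun g => ?_
      have h6 : (g ^ 4 = 1 ∨ g ^ 6 = 1) → ∀ k : ℕ, k.Coprime (orderOf g) →
          IsConj g (g ^ k) ∨ (True ∧ IsConj g⁻¹ (g ^ k)) := by
        intro h k hk
        rcases pow_or_inv h hk with h7 | h7
        · left; rw [h7]
        · right; rw [h7]; exact ⟨trivial, IsConj.refl _⟩
      rcases hP g with h | h | h | h | h
      · exact Or.inl h
      · exact Or.inr (Or.inl h)
      · exact Or.inr (Or.inr (h6 (Or.inl h)))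
      · exact Or.inr (Or.inr (h6 (Or.inr h)))
      · exact Or.inr (Or.inr fun k hk => (h k hk).imp id fun h' => ⟨trivial, h'⟩)
    rw [map_sum] at h3
    rw [← sub_eq_zero, ← sum_sub_distrib, ← h3]
    exact sum_congr rfl fun ψ _ => (h2 C ψ Φ hΦ).symm

end

end Pool.Agent.R484.Colmez
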