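import Pool.Agent.R484.GOa

/-! Coinduction along open subgroups of finite index, and the intermediate representation of a
quotient, for representations with continuous matrix coefficients. -/

namespace Pool.Agent.R484.RF

open Pool.Agent.R484.GO

set_option linter.unusedSectionVars false

section

variable {K : Type} [Field K] [TopologicalSpace K] [IsTopologicalRing K]
variable {H G : Type} [Group H] [Group G] [TopologicalSpace H] [TopologicalSpace G]
  [IsTopologicalGroup G]
variable {V : Type} [AddCommGroup V] [Module K V] [FiniteDimensional K V]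

/-- Restriction of a representation along a homomorphism. -/
def res {K : Type} [Field K] {H G : Type} [Group H] [Group G] {W : Type} [AddCommGroup W]
    [Module K W] (φ : H →* G) (σ : Representation K G W) : Representation K H W := σ.comp φ

/-- The space of the coinduced representation. -/
def coind (φ : H →* G) (ρ : Representation K H V) : Submodule K (G → V) where
  carrier := {F | ∀ h g, F (φ h * g) = ρ h (F g)}
  zero_mem' := by intro h g; simp
  add_mem' := by intro F F' hF hF' h g; simp only [Pi.add_apply, hF h g, hF' h g, map_add]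
  smul_mem' := by intro c F hF h g; simp only [Pi.smul_apply, hF h g, map_smul]

/-- Right translation. -/
def coindRep (φ : H →* G) (ρ : Representation K H V) : Representation K G (coind φ ρ) where
  toFun g := (LinearMap.funLeft K V (fun x => x * g)).restrict (by
    intro F hF h x
    change F (φ h * x * g) = ρ h (F (x * g))
    rw [mul_assoc]
    exact hF h (x * g))
  map_one' := by
    ext F x
    simp [LinearMap.funLeft]
  map_mul' a b := by
    apply LinearMap.ext
    intro F
    apply Subtype.ext
    funext x
    change (F : G → V) (x * (a * b)) = (F : G → V) (x * a * b)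
    rw [mul_assoc]

theorem coindRep_apply (φ : H →* G) (ρ : Representation K H V) (g : G) (F : coind φ ρ) (x : G) :
    (coindRep φ ρ g F : G → V) x = (F : G → V) (x * g) := rfl

/-- Values at representatives. -/
noncomputable def coindJ (φ : H →* G) (ρ : Representation K H V) :
    coind φ ρ →ₗ[K] ((G ⧸ φ.range) → V) where
  toFun F i := (F : G → V) (i.out)⁻¹
  map_add' _ _ := rfl
  map_smul' _ _ := rfl

theorem coindJ_inj (φ : H →* G) (ρ : Representation K H V) :
    Function.Injective (coindJ φ ρ) := by
  intro F F' h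
  apply Subtype.ext
  funext g
  have h1 : ((QuotientGroup.mk g⁻¹ : G ⧸ φ.range).out)⁻¹ * g⁻¹ ∈ φ.range :=
    QuotientGroup.eq.1 (QuotientGroup.out_eq' _)
  obtain ⟨k, hk⟩ := h1
  have h2 : g = φ k⁻¹ * ((QuotientGroup.mk g⁻¹ : G ⧸ φ.range).out)⁻¹ := by
    rw [map_inv, hk]
    group
  have h3 := congrFun h (QuotientGroup.mk g⁻¹ : G ⧸ φ.range)
  rw [h2, F.2, F'.2]
  exact congrArg _ h3

theorem coind_cont (φ : H →* G) (hφ : Topology.IsOpenEmbedding φ) (ρ : Representation K H V)
    (hc : Cts ρ) (F : coind φ ρ) (l : V →ₗ[K] K) : Continuous fun x => l ((F : G → V) x) := by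
  rw [continuous_iff_continuousAt]
  intro x0
  have he : Topology.IsOpenEmbedding (fun h => φ h * x0) :=
    (Homeomorph.mulRight x0).isOpenEmbedding.comp hφ
  have h1 : ContinuousAt ((fun x => l ((F : G → V) x)) ∘ (fun h => φ h * x0)) 1 := by
    have : ((fun x => l ((F : G → V) x)) ∘ (fun h => φ h * x0)) =
        fun h => l (ρ h ((F : G → V) x0)) := by
      funext h
      simp only [Function.comp_apply]
      rw [F.2]
    rw [this]
    exact (hc _ l).continuousAt
  have h2 := (he.continuousAt_iff (x := (1 : H))).1 h1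
  simpa using h2

theorem coind_cts (φ : H →* G) (hφ : Topology.IsOpenEmbedding φ) (hfi : φ.range.FiniteIndex)
    (ρ : Representation K H V) (hc : Cts ρ) : Cts (coindRep φ ρ) := by
  classical
  intro F l
  have hq : Finite (G ⧸ φ.range) := Subgroup.finite_quotient_of_finiteIndex
  let _ : Fintype (G ⧸ φ.range) := Fintype.ofFinite _
  obtain ⟨r, hr⟩ := LinearMap.exists_leftInverse_of_injective (coindJ φ ρ)
    (LinearMap.ker_eq_bot.2 (coindJ_inj φ ρ))
  have h1 : ∀ F', l F' = ∑ i, (l ∘ₗ r ∘ₗ LinearMap.single K (fun _ : G ⧸ φ.range => V) i)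
      ((F' : G → V) (i.out)⁻¹) := by
    intro F'
    have h2 : l F' = (l ∘ₗ r) (coindJ φ ρ F') :=
      congrArg l (LinearMap.congr_fun hr F').symm
    rw [h2, ← Finset.univ_sum_single (coindJ φ ρ F'), map_sum]
    rfl
  have h3 : (fun g => l (coindRep φ ρ g F)) = fun g =>
      ∑ i, (l ∘ₗ r ∘ₗ LinearMap.single K (fun _ : G ⧸ φ.range => V) i)
        ((F : G → V) ((i.out)⁻¹ * g)) := by
    funext g
    rw [h1]
    rfl
  rw [h3]
  exact continuous_finsetSum _ fun i _ =>
    (coind_cont φ hφ ρ hc F _).comp (continuous_const.mul continuous_id)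

/-- Frobenius reciprocity: every irreducible representation of an open subgroup of finite index is
a quotient of the restriction of an irreducible representation. -/
theorem exists_ind (φ : H →* G) (hφ : Topology.IsOpenEmbedding φ) (hfi : φ.range.FiniteIndex)
    (ρ : Representation K H V) (hc : Cts ρ) (hirr : Irr ρ) :
    ∃ (W : Type) (_ : AddCommGroup W) (_ : Module K W) (_ : FiniteDimensional K W)
      (σ : Representation K G W) (T : W →ₗ[K] V), Cts σ ∧ Irr σ ∧
      Equi (res φ σ) ρ T ∧ Function.Surjective T := by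
  classical
  have hq : Finite (G ⧸ φ.range) := Subgroup.finite_quotient_of_finiteIndex
  have hfd : FiniteDimensional K (coind φ ρ) := Module.Finite.of_injective _ (coindJ_inj φ ρ)
  obtain ⟨v0, hv0⟩ := hirr.1
  let F0 : G → V := fun g => if h : ∃ h, φ h = g then ρ h.choose v0 else 0
  have hF0 : ∀ h, F0 (φ h) = ρ h v0 := by
    intro h
    have hex : ∃ h', φ h' = φ h := ⟨h, rfl⟩
    have h1 : F0 (φ h) = ρ hex.choose v0 := dif_pos hex
    rw [h1, hφ.injective hex.choose_spec]
  have hF0mem : F0 ∈ coind φ ρ := by
    intro h g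
    by_cases hg : ∃ h', φ h' = g
    · obtain ⟨h', rfl⟩ := hg
      rw [← map_mul, hF0, hF0, map_mul, Module.End.mul_apply]
    · have h1 : F0 g = 0 := dif_neg hg
      have h2 : F0 (φ h * g) = 0 := dif_neg (by
        rintro ⟨k, hk⟩
        exact hg ⟨h⁻¹ * k, by rw [map_mul, hk, map_inv, inv_mul_cancel_left]⟩)
      rw [h1, h2, map_zero]
  have hne : (⟨F0, hF0mem⟩ : coind φ ρ) ≠ 0 := by
    intro h
    apply hv0
    have h1 := congrFun (congrArg Subtype.val h) (φ 1)
    have h2 : F0 (φ 1) = 0 := h1
    rw [hF0, map_one] at h2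
    exact h2
  obtain ⟨W, hW, hWirr⟩ := exists_irr (coindRep φ ρ) ⟨_, hne⟩
  let T : W →ₗ[K] V :=
    { toFun := fun F => ((F : coind φ ρ) : G → V) 1
      map_add' := fun _ _ => rfl
      map_smul' := fun _ _ => rfl }
  let σ : Representation K G W := sub (coindRep φ ρ) W hW
  have hT : Equi (K := K) (V := W) (res (W := W) φ σ) ρ T := by
    intro h F
    change ((F : coind φ ρ) : G → V) (1 * φ h) = ρ h (((F : coind φ ρ) : G → V) 1)
    rw [one_mul, ← (F : coind φ ρ).2 h 1, mul_one]
  have hT0 : T ≠ 0 := by
    intro h0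
    obtain ⟨F, hF⟩ := hWirr.1
    apply hF
    apply Subtype.ext
    apply Subtype.ext
    funext g
    have h1 := LinearMap.congr_fun h0 (sub (coindRep φ ρ) W hW g F)
    have h2 : ((F : coind φ ρ) : G → V) (1 * g) = 0 := h1
    rw [one_mul] at h2
    exact h2
  have hsurj : Function.Surjective T := by
    rcases hirr.2 (LinearMap.range T) (by
      rintro h _ ⟨a, rfl⟩
      exact ⟨σ (φ h) a, hT h a⟩) with h1 | h1
    · exact absurd (LinearMap.range_eq_bot.1 h1) hT0
    · exact LinearMap.range_eq_top.1 h1
  exact ⟨W, W.addCommGroup, W.module, inferInstance, σ, T,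
    cts_sub _ _ _ (coind_cts φ hφ hfi ρ hc), hWirr, hT, hsurj⟩

end

section HomN

variable {K : Type} [Field K]
variable {V A : Type} [AddCommGroup V] [Module K V] [AddCommGroup A] [Module K A]

/-- The space of maps `A → V` equivariant under the kernel of `φ`. -/
def homN {W S : Type} [Group W] [Group S] (φ : W →* S) (α : Representation K W A)
    (ρ : Representation K W V) : Submodule K (A →ₗ[K] V) where
  carrier := {T | ∀ n, φ n = 1 → ∀ a, T (α n a) = ρ n (T a)}
  zero_mem' := by intro n _ a; simp
  add_mem' := by
    intro T T' h h' n hn a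
    simp only [LinearMap.add_apply, map_add, h n hn a, h' n hn a]
  smul_mem' := by
    intro c T h n hn a
    simp only [LinearMap.smul_apply, map_smul, h n hn a]

theorem homN_inv {W S : Type} [Group W] [Group S] (φ : W →* S) (α : Representation K W A)
    (ρ : Representation K W V) : Inv (Representation.linHom α ρ) (homN φ α ρ) := by
  intro g T hT n hn a
  have h1 : φ (g⁻¹ * n * g) = 1 := by simp [hn]
  have h2 := hT (g⁻¹ * n * g) h1 (α g⁻¹ a)
  simp only [Representation.linHom_apply, LinearMap.comp_apply]
  have h3 : α (g⁻¹ * n * g) (α g⁻¹ a) = α g⁻¹ (α n a) := by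
    rw [← Module.End.mul_apply, ← Module.End.mul_apply, ← map_mul, ← map_mul]
    congr 2
    group
  rw [h3] at h2
  rw [h2, ← Module.End.mul_apply, ← Module.End.mul_apply, ← map_mul, ← map_mul]
  congr 2
  group

theorem homN_triv {W S : Type} [Group W] [Group S] (φ : W →* S) (α : Representation K W A)
    (ρ : Representation K W V) (n : W) (hn : φ n = 1) (T : homN φ α ρ) :
    sub (Representation.linHom α ρ) _ (homN_inv φ α ρ) n T = T := by
  apply Subtype.ext
  rw [sub_coe, Representation.linHom_apply]
  ext a
  simp only [LinearMap.comp_apply]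
  rw [← T.2 n hn, ← Module.End.mul_apply, ← map_mul, mul_inv_cancel, map_one]
  rfl

/-- A representation of `W` trivial on the kernel of a surjection, as representation of the
quotient. -/
noncomputable def desc {W S : Type} [Group W] [Group S] (φ : W →* S)
    (hφ : Function.Surjective φ) (τ : Representation K W V)
    (h : ∀ n, φ n = 1 → ∀ v, τ n v = v) : Representation K S V :=
  have key : ∀ g g', φ g = φ g' → τ g = τ g' := fun g g' hg => by
    ext v
    have h1 : φ (g⁻¹ * g') = 1 := by simp [hg]
    have h2 := h _ h1 v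
    have h3 : g' = g * (g⁻¹ * g') := by group
    rw [h3, map_mul, Module.End.mul_apply, h2]
  { toFun := fun s => τ (Function.surjInv hφ s)
    map_one' := by
      rw [← map_one τ]
      exact key _ _ (by rw [Function.surjInv_eq hφ, map_one])
    map_mul' := fun s t => by
      rw [← map_mul]
      exact key _ _ (by rw [map_mul, Function.surjInv_eq hφ, Function.surjInv_eq hφ,
        Function.surjInv_eq hφ]) }

theorem desc_apply {W S : Type} [Group W] [Group S] (φ : W →* S)
    (hφ : Function.Surjective φ) (τ : Representation K W V)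
    (h : ∀ n, φ n = 1 → ∀ v, τ n v = v) (g : W) (v : V) : desc φ hφ τ h (φ g) v = τ g v := by
  have key : ∀ g g', φ g = φ g' → τ g v = τ g' v := fun g g' hg => by
    have h1 : φ (g⁻¹ * g') = 1 := by simp [hg]
    have h2 := h _ h1 v
    have h3 : g' = g * (g⁻¹ * g') := by group
    rw [h3, map_mul, Module.End.mul_apply, h2]
  exact key _ _ (Function.surjInv_eq hφ (φ g))

end HomN

section Base

variable {K : Type} [Field K] [TopologicalSpace K] [IsTopologicalRing K]
variable {W S : Type} [Group W] [Group S] [TopologicalSpace W] [TopologicalSpace S]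
  [IsTopologicalGroup W]
variable {V A : Type} [AddCommGroup V] [Module K V] [FiniteDimensional K V]
  [AddCommGroup A] [Module K A] [FiniteDimensional K A]

/-- An irreducible representation of the quotient inside the space of maps equivariant under the
kernel. -/
theorem exists_quot (φ : W →* S) (hcont : Continuous φ) (hopen : IsOpenMap φ)
    (hf : Function.Surjective φ)
    (ρ : Representation K W V) (hc : Cts ρ) (α : Representation K W A)
    (hαc : Cts α) (T0 : A →ₗ[K] V)
    (hT0 : T0 ≠ 0) (hT : ∀ n, φ n = 1 → ∀ a, T0 (α n a) = ρ n (T0 a)) :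
    ∃ (P : Type) (_ : AddCommGroup P) (_ : Module K P) (_ : FiniteDimensional K P)
      (B : Representation K S P) (j : P →ₗ[K] (A →ₗ[K] V)), Function.Injective j ∧
      Cts B ∧ Irr B ∧ ∀ g t, j (B (φ g) t) = ρ g ∘ₗ j t ∘ₗ α g⁻¹ := by
  let τ : Representation K W (homN φ α ρ) := sub (Representation.linHom α ρ) _ (homN_inv φ α ρ)
  have hτc : Cts τ := cts_sub _ _ _ (cts_hom α ρ hαc hc)
  let B : Representation K S (homN φ α ρ) := desc φ hf τ (fun n hn T => homN_triv φ α ρ n hn T)
  have hB : ∀ g T, B (φ g) T = τ g T := fun g T => desc_apply φ hf τ _ g T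
  have hBc : Cts B := by
    intro T l
    rw [(hopen.isQuotientMap hcont hf).continuous_iff]
    have : (fun s => l (B s T)) ∘ φ = fun g => l (τ g T) := by
      funext g
      simp only [Function.comp_apply, hB]
    rw [this]
    exact hτc T l
  have hne : (⟨T0, hT⟩ : homN φ α ρ) ≠ 0 := fun h => hT0 (congrArg Subtype.val h)
  obtain ⟨B0, hB0, hB0irr⟩ := exists_irr B ⟨⟨T0, hT⟩, hne⟩
  refine ⟨B0, inferInstance, inferInstance, inferInstance, sub B B0 hB0,
    (homN φ α ρ).subtype ∘ₗ B0.subtype,
    (Subtype.val_injective.comp Subtype.val_injective), cts_sub _ _ _ hBc, hB0irr, ?_⟩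
  intro g t
  change ((B (φ g) (t : homN φ α ρ) : homN φ α ρ) : A →ₗ[K] V) = _
  rw [hB]
  rfl

end Base

end Pool.Agent.R484.RF
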