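import Pool.Agent.R484.GOd
import Pool.Agent.R484.RFa

/-! Group theoretic lemmas for discrete groups. -/

namespace Pool.Agent.R484.CQ

open Pool.Agent.R484.GO Pool.Agent.R484.RF
open scoped TensorProduct

set_option linter.unusedSectionVars false

section

variable {K : Type} [Field K]
variable {V A : Type} [AddCommGroup V] [Module K V] [FiniteDimensional K V]
  [AddCommGroup A] [Module K A] [FiniteDimensional K A]
variable {W S : Type} [Group W] [Group S]

theorem exists_quot' (φ : W →* S) (hf : Function.Surjective φ)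
    (ρ : Representation K W V) (α : Representation K W A) (T0 : A →ₗ[K] V)
    (hT0 : T0 ≠ 0) (hT : ∀ n, φ n = 1 → ∀ a, T0 (α n a) = ρ n (T0 a)) :
    ∃ (P : Type) (_ : AddCommGroup P) (_ : Module K P) (_ : FiniteDimensional K P)
      (B : Representation K S P) (j : P →ₗ[K] (A →ₗ[K] V)), Function.Injective j ∧
      Irr B ∧ ∀ g t, j (B (φ g) t) = ρ g ∘ₗ j t ∘ₗ α g⁻¹ := by
  letI : TopologicalSpace K := ⊥
  haveI : DiscreteTopology K := ⟨rfl⟩
  letI : TopologicalSpace W := ⊥
  haveI : DiscreteTopology W := ⟨rfl⟩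
  letI : TopologicalSpace S := ⊥
  haveI : DiscreteTopology S := ⟨rfl⟩
  obtain ⟨P, i1, i2, i3, B, j, hj, _, hirr, hB⟩ := exists_quot φ continuous_of_discreteTopology
    (fun s _ => isOpen_discrete _) hf ρ (fun _ _ => continuous_of_discreteTopology) α
    (fun _ _ => continuous_of_discreteTopology) T0 hT0 hT
  exact ⟨P, i1, i2, i3, B, j, hj, hirr, hB⟩

theorem exists_ind' (φ : W →* S) (hφ : Function.Injective φ) (hfi : φ.range.FiniteIndex)
    (ρ : Representation K W V) (hirr : Irr ρ) :
    ∃ (P : Type) (_ : AddCommGroup P) (_ : Module K P) (_ : FiniteDimensional K P)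
      (σ : Representation K S P) (T : P →ₗ[K] V), Irr σ ∧
      Equi (res φ σ) ρ T ∧ Function.Surjective T := by
  letI : TopologicalSpace K := ⊥
  haveI : DiscreteTopology K := ⟨rfl⟩
  letI : TopologicalSpace W := ⊥
  haveI : DiscreteTopology W := ⟨rfl⟩
  letI : TopologicalSpace S := ⊥
  haveI : DiscreteTopology S := ⟨rfl⟩
  obtain ⟨P, i1, i2, i3, σ, T, _, h1, h2, h3⟩ := exists_ind φ
    (Topology.IsOpenEmbedding.of_continuous_injective_isOpenMap continuous_of_discreteTopology hφ
      (fun s _ => isOpen_discrete _)) hfi ρ (fun _ _ => continuous_of_discreteTopology) hirr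
  exact ⟨P, i1, i2, i3, σ, T, h1, h2, h3⟩

/-- The orbit of an eigenvector of finite order under a group of finite index is finite. -/
theorem orbit_finite (N M : Subgroup W) (hfin : M.relIndex N ≠ 0)
    (ρ : Representation K W V) (v0 : V) (ψ : W → K) (hv0 : ∀ m ∈ M, ρ m v0 = ψ m • v0)
    (e : ℕ) (he : 0 < e) (hψ : ∀ m ∈ M, ψ m ^ e = 1) :
    {x | ∃ n ∈ N, ρ n v0 = x}.Finite := by
  classical
  have hfi : (M.subgroupOf N).FiniteIndex := ⟨hfin⟩
  have hq : Finite (N ⧸ M.subgroupOf N) := Subgroup.finite_quotient_of_finiteIndex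
  have hroots : {z : K | z ^ e = 1}.Finite := by
    refine (Polynomial.nthRoots e (1 : K)).toFinset.finite_toSet.subset ?_
    intro z hz
    simp only [Finset.mem_coe, Multiset.mem_toFinset]
    exact (Polynomial.mem_nthRoots he).2 hz
  refine ((Set.finite_range fun q : N ⧸ M.subgroupOf N =>
    ρ ((q.out : N) : W) v0).image2 (fun w z => z • w) hroots).subset ?_
  rintro x ⟨n, hn, rfl⟩
  let n' : N := ⟨n, hn⟩
  have h1 : ((QuotientGroup.mk n' : N ⧸ M.subgroupOf N).out)⁻¹ * n' ∈
      M.subgroupOf N := QuotientGroup.eq.1 (QuotientGroup.out_eq' _)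
  rw [Subgroup.mem_subgroupOf] at h1
  refine ⟨_, ⟨QuotientGroup.mk n', rfl⟩, ψ _, hψ _ h1, ?_⟩
  simp only
  rw [← map_smul, ← hv0 _ h1, ← Module.End.mul_apply, ← map_mul]
  congr 2
  simp [n']

/-- A vector fixed by `U ∩ N` gives a nonzero `N`-equivariant map from a permutation
representation with kernel containing `U`. -/
theorem perm_map (φ : W →* S) (ρ : Representation K W V) (v0 : V) (h0 : v0 ≠ 0)
    (U : Subgroup W) (hUn : U.Normal) (hUf : U.FiniteIndex)
    (hfix : ∀ n ∈ U, φ n = 1 → ρ n v0 = v0) :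
    ∃ (A : Type) (_ : AddCommGroup A) (_ : Module K A) (_ : FiniteDimensional K A)
      (α : Representation K W A) (T0 : A →ₗ[K] V), (∀ u ∈ U, α u = 1) ∧ T0 ≠ 0 ∧
      ∀ n, φ n = 1 → ∀ a, T0 (α n a) = ρ n (T0 a) := by
  classical
  have hq : Finite (W ⧸ U) := Subgroup.finite_quotient_of_finiteIndex
  let _ : Fintype (W ⧸ U) := Fintype.ofFinite _
  let α : Representation K W ((W ⧸ U) → K) :=
    { toFun := fun g => LinearMap.funLeft K K (fun x => g⁻¹ • x)
      map_one' := by ext a x; simp [LinearMap.funLeft_apply]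
      map_mul' := fun g h => by
        apply LinearMap.ext
        intro a
        funext x
        simp only [LinearMap.funLeft_apply, Module.End.mul_apply, mul_inv_rev, mul_smul] }
  have hαapp : ∀ g a x, α g a x = a (g⁻¹ • x) := fun g a x => rfl
  have hα : ∀ u ∈ U, α u = 1 := by
    intro u hu
    apply LinearMap.ext
    intro a
    funext x
    rw [hαapp]
    induction x using QuotientGroup.induction_on with
    | H z =>
      change a (((u⁻¹ * z : W)) : W ⧸ U) = a z
      congr 1
      apply QuotientGroup.eq.2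
      have := hUn.conj_mem u hu z⁻¹
      simpa [mul_inv_rev] using this
  let t : (W ⧸ U) → V := fun x =>
    if h : ∃ n, φ n = 1 ∧ (n : W ⧸ U) = x then ρ h.choose v0 else 0
  have ht1 : ∀ n, φ n = 1 → t (n : W ⧸ U) = ρ n v0 := by
    intro n hn
    have hex : ∃ n', φ n' = 1 ∧ (n' : W ⧸ U) = (n : W ⧸ U) := ⟨n, hn, rfl⟩
    have : t (n : W ⧸ U) = ρ hex.choose v0 := dif_pos hex
    rw [this]
    obtain ⟨h1, h2⟩ := hex.choose_spec
    have h3 := QuotientGroup.eq.1 h2
    have h4 := hfix _ h3 (by rw [map_mul, map_inv, h1, hn]; simp)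
    have h5 : n = hex.choose * (hex.choose⁻¹ * n) := by group
    conv_rhs => rw [h5, map_mul, Module.End.mul_apply, h4]
  have ht2 : ∀ n, φ n = 1 → ∀ x, t (n • x) = ρ n (t x) := by
    intro n hn x
    by_cases hx : ∃ n', φ n' = 1 ∧ (n' : W ⧸ U) = x
    · obtain ⟨n', hn', rfl⟩ := hx
      rw [ht1 n' hn', ← Module.End.mul_apply, ← map_mul, ← ht1 (n * n') (by
        rw [map_mul, hn, hn', one_mul])]
      rfl
    · have h1 : t x = 0 := dif_neg hx
      have h2 : t (n • x) = 0 := dif_neg (by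
        rintro ⟨n', hn', hx'⟩
        apply hx
        refine ⟨n⁻¹ * n', by rw [map_mul, map_inv, hn, hn']; simp, ?_⟩
        have : (((n⁻¹ * n' : W)) : W ⧸ U) = n⁻¹ • (n' : W ⧸ U) := rfl
        rw [this, hx', inv_smul_smul])
      rw [h1, h2, map_zero]
  let T0 : ((W ⧸ U) → K) →ₗ[K] V := ∑ x, LinearMap.toSpanSingleton K V (t x) ∘ₗ
    LinearMap.proj x
  have hT0 : ∀ a, T0 a = ∑ x, a x • t x := by
    intro a
    simp [T0, LinearMap.sum_apply]
  refine ⟨(W ⧸ U) → K, inferInstance, inferInstance, inferInstance, α, T0, hα, ?_, ?_⟩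
  · intro h
    have h1 := LinearMap.congr_fun h (Pi.single ((1 : W) : W ⧸ U) 1)
    rw [hT0, Finset.sum_eq_single ((1 : W) : W ⧸ U)] at h1
    · rw [Pi.single_eq_same, one_smul, ht1 1 (map_one _), map_one] at h1
      exact h0 h1
    · intro x _ hx
      rw [Pi.single_eq_of_ne hx, zero_smul]
    · intro h
      exact absurd (Finset.mem_univ _) h
  · intro n hn a
    rw [hT0, hT0, map_sum]
    rw [← Equiv.sum_comp (MulAction.toPerm n)]
    refine Finset.sum_congr rfl fun x _ => ?_
    rw [hαapp, MulAction.toPerm_apply, inv_smul_smul, ht2 n hn, map_smul]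

end

end Pool.Agent.R484.CQ
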