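import Pool.Agent.R484.CQa

/-! Quasi-geometric flat bundles. -/

namespace Pool.Agent.R484.CQ

open Pool.Agent.R484.GO Pool.Agent.R484.RF
open scoped TensorProduct

set_option linter.unusedSectionVars false

/-- Smooth connected varieties over the field of algebraic numbers (complements of normal crossing
divisors in smooth proper varieties or Deligne-Mumford stacks), topological fundamental groups of
their complex points, and dominant morphisms.  The fields are standard facts. -/
structure CVar where
  Var : Type
  /-- The topological fundamental group. -/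
  P : Var → Type
  [grp : ∀ X, Group (P X)]
  dim : Var → ℕ
  /-- Dominant morphisms. -/
  Dom : Var → Var → Type
  map : ∀ {X' X : Var}, Dom X' X → (P X' →* P X)
  /-- Finite etale covers. -/
  cover : ∀ (X : Var) (U : Subgroup (P X)), U.FiniteIndex →
    ∃ (X' : Var) (f : Dom X' X), Function.Injective (map f) ∧ (map f).range = U
  point : ∀ X, dim X = 0 → ∀ g : P X, g = 1
  /-- Basic varieties: the projective line without three points, and the dense open subvarieties
  of the affine spaces of dimension at least two. -/
  Basic : Var → Prop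
  /-- A dense open part `U` of `X` is finite etale over a basic variety (Belyi in dimension
  one). -/
  noether : ∀ X, 1 ≤ dim X → ∃ (U L : Var) (_ : Dom U X) (e : Dom U L), Basic L ∧
    dim L = dim X ∧ Function.Injective (map e) ∧ (map e).range.FiniteIndex
  /-- `IsProd p q`: `p` and `q` are the projections of a product. -/
  IsProd : ∀ {Z X Y : Var}, Dom Z X → Dom Z Y → Prop
  prod_inj : ∀ {Z X Y : Var} (p : Dom Z X) (q : Dom Z Y), IsProd p q →
    ∀ z z', map p z = map p z' → map q z = map q z' → z = z'
  prod_onto : ∀ {Z X Y : Var} (p : Dom Z X) (q : Dom Z Y), IsProd p q →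
    ∀ (a : P X) (b : P Y), ∃ z, map p z = a ∧ map q z = b

attribute [instance] CVar.grp

/-- A property of finite dimensional representations of the fundamental groups. -/
abbrev Pr (K : Type) [Field K] (B : CVar) : Type 1 :=
  ∀ (X : B.Var) {V : Type} [AddCommGroup V] [Module K V] [FiniteDimensional K V],
    Representation K (B.P X) V → Prop

section Preds

variable {K : Type} [Field K] {B : CVar} (Q : Pr K B)

/-- Stable under irreducible subobjects. -/
def SubIrr : Prop := ∀ (X : B.Var) {V V' : Type} [AddCommGroup V] [Module K V]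
  [FiniteDimensional K V] [AddCommGroup V'] [Module K V'] [FiniteDimensional K V']
  (ρ : Representation K (B.P X) V) (σ : Representation K (B.P X) V') (f : V' →ₗ[K] V),
  Equi σ ρ f → Function.Injective f → Irr σ → Q X ρ → Q X σ

/-- Stable under quotients. -/
def QuotStable : Prop := ∀ (X : B.Var) {V V' : Type} [AddCommGroup V] [Module K V]
  [FiniteDimensional K V] [AddCommGroup V'] [Module K V'] [FiniteDimensional K V']
  (ρ : Representation K (B.P X) V) (σ : Representation K (B.P X) V') (f : V →ₗ[K] V'),
  Equi ρ σ f → Function.Surjective f → Q X ρ → Q X σ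

/-- Stable under tensor products. -/
def TensorStable : Prop := ∀ (X : B.Var) {V V' : Type} [AddCommGroup V] [Module K V]
  [FiniteDimensional K V] [AddCommGroup V'] [Module K V'] [FiniteDimensional K V']
  (ρ : Representation K (B.P X) V) (σ : Representation K (B.P X) V'),
  Q X ρ → Q X σ → Q X (ρ.tprod σ)

/-- Stable under inner Hom. -/
def HomStable : Prop := ∀ (X : B.Var) {V V' : Type} [AddCommGroup V] [Module K V]
  [FiniteDimensional K V] [AddCommGroup V'] [Module K V'] [FiniteDimensional K V']
  (ρ : Representation K (B.P X) V) (σ : Representation K (B.P X) V'),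
  Q X ρ → Q X σ → Q X (ρ.linHom σ)

/-- Stable under determinants. -/
def DetStable : Prop := ∀ (X : B.Var) {V : Type} [AddCommGroup V] [Module K V]
  [FiniteDimensional K V] (ρ : Representation K (B.P X) V), Q X ρ → Q X (chr (detχ ρ))

/-- Stable under pullback along dominant morphisms. -/
def PullStable : Prop := ∀ {X' X : B.Var} (f : B.Dom X' X) {V : Type} [AddCommGroup V]
  [Module K V] [FiniteDimensional K V] (ρ : Representation K (B.P X) V), Q X ρ →
  Q X' (res (B.map f) ρ)

/-- Descent along dominant morphisms (multisections and direct images): an irreducible `ρ` on `X`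
whose pullback to `X'` receives a nonzero map from a bundle with the property has it. -/
def DescentStable : Prop := ∀ {X' X : B.Var} (f : B.Dom X' X)
  {V V' : Type} [AddCommGroup V] [Module K V] [FiniteDimensional K V] [AddCommGroup V']
  [Module K V'] [FiniteDimensional K V'] (σ : Representation K (B.P X') V')
  (ρ : Representation K (B.P X) V) (T : V' →ₗ[K] V),
  Equi σ (res (B.map f) ρ) T → T ≠ 0 → Irr ρ → Q X' σ → Q X ρ

/-- Restriction to a factor of a product. -/
def FactorStable (IP : ∀ {Z X Y : B.Var}, B.Dom Z X → B.Dom Z Y → Prop) : Prop :=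
  ∀ {Z X Y : B.Var} (p : B.Dom Z X) (q : B.Dom Z Y), IP p q →
    ∀ s : B.P X →* B.P Z, (∀ a, B.map p (s a) = a ∧ B.map q (s a) = 1) →
    ∀ {V : Type} [AddCommGroup V] [Module K V] [FiniteDimensional K V]
      (ρ : Representation K (B.P Z) V), Q Z ρ → Q X (res s ρ)

/-- Holds for representations with finite image. -/
def FiniteHolds : Prop := ∀ (X : B.Var) {V : Type} [AddCommGroup V] [Module K V]
  [FiniteDimensional K V] (ρ : Representation K (B.P X) V),
  (∃ U : Subgroup (B.P X), U.FiniteIndex ∧ ∀ g ∈ U, ρ g = 1) → Q X ρ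

/-- Stable under direct images along finite etale covers: if `ρ` on the cover `U` has the
property, so has every irreducible `σ` on `L` whose pullback maps onto `ρ` (by Frobenius
reciprocity these are the irreducible subobjects of the direct image). -/
def IndStable : Prop := ∀ {U L : B.Var} (e : B.Dom U L), Function.Injective (B.map e) →
  (B.map e).range.FiniteIndex → ∀ {W V : Type} [AddCommGroup W] [Module K W]
  [FiniteDimensional K W] [AddCommGroup V] [Module K V] [FiniteDimensional K V]
  (σ : Representation K (B.P L) W) (ρ : Representation K (B.P U) V) (T : W →ₗ[K] V),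
  Equi (res (B.map e) σ) ρ T → Function.Surjective T → Irr σ → Irr ρ → Q U ρ → Q L σ

/-- Rank one objects have finite order. -/
def RankOneFinite : Prop := ∀ (X : B.Var) (χ : B.P X →* Kˣ), Q X (chr χ) →
  ∃ m : ℕ, 0 < m ∧ ∀ g, χ g ^ m = 1

/-- Residual finiteness of finitely generated linear groups (Malcev). -/
def Malcev (K : Type) [Field K] (B : CVar) : Prop := ∀ (X : B.Var) {V : Type} [AddCommGroup V]
  [Module K V] [FiniteDimensional K V] (ρ : Representation K (B.P X) V) (v : V) (F : Set V),
  F.Finite → ∃ U : Subgroup (B.P X), U.Normal ∧ U.FiniteIndex ∧ ∀ g ∈ U, ρ g v ∈ F → ρ g v = v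

end Preds

/-- Flat bundles with coefficients in `K` (the complex numbers), identified with representations
of the fundamental groups: quasi-geometric ones and those coming from geometry.  The fields are
published theorems and standard facts. -/
structure CSetting (K : Type) [Field K] extends CVar where
  malcev : Malcev K toCVar
  /-- `QG X ρ`: the flat bundle is quasi-geometric, i.e. (regular singular) defined over the
  algebraic numbers, with monodromy conjugate to one defined over the algebraic numbers. -/
  QG : Pr K toCVar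
  qg_sub : SubIrr QG
  qg_hom : HomStable QG
  qg_det : DetStable QG
  qg_pull : PullStable QG
  qg_descend : DescentStable QG
  qg_factor : FactorStable QG IsProd
  qg_ind : IndStable QG
  /-- Quasi-geometric bundles of rank one have finite order (Simpson). -/
  qg_rank_one : RankOneFinite QG
  /-- `Geo X ρ`: the flat bundle is a subquotient of a Gauss-Manin bundle on a dense open part. -/
  Geo : Pr K toCVar
  geo_qg : ∀ (X : Var) {V : Type} [AddCommGroup V] [Module K V] [FiniteDimensional K V]
    (ρ : Representation K (P X) V), Geo X ρ → QG X ρ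
  geo_quot : QuotStable Geo
  geo_tensor : TensorStable Geo
  geo_pull : PullStable Geo
  geo_descend : DescentStable Geo
  geo_finite : FiniteHolds Geo

/-- Question Q1 for `X`: every irreducible quasi-geometric flat bundle on `X` comes from
geometry. -/
def Conj {K : Type} [Field K] (G : CSetting K) (X : G.Var) : Prop :=
  ∀ (V : Type) [AddCommGroup V] [Module K V] [FiniteDimensional K V]
    (ρ : Representation K (G.P X) V), Irr ρ → G.QG X ρ → G.Geo X ρ

section

variable {K : Type} [Field K] (G : CSetting K)
variable {V A : Type} [AddCommGroup V] [Module K V] [FiniteDimensional K V]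
  [AddCommGroup A] [Module K A] [FiniteDimensional K A]

theorem irr_res {H H' : Type} [Group H] [Group H'] (c : H →* H')
    (hc : Function.Surjective c) {ρ : Representation K H' V} (h : Irr ρ) : Irr (res c ρ) := by
  refine ⟨h.1, fun S hS => h.2 S fun g v hv => ?_⟩
  obtain ⟨g', rfl⟩ := hc g
  exact hS g' v hv

theorem evm_equi' {W S : Type} [Group W] [Group S] (φ : W →* S) (α : Representation K W A)
    (ρ : Representation K W V) {P : Type} [AddCommGroup P] [Module K P]
    (j : P →ₗ[K] (A →ₗ[K] V)) (B : Representation K S P)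
    (h : ∀ g t, j (B (φ g) t) = ρ g ∘ₗ j t ∘ₗ α g⁻¹) :
    Equi (α.tprod (res φ B)) ρ (TensorProduct.lift j.flip) := by
  intro g t
  induction t using TensorProduct.induction_on with
  | zero => simp
  | tmul a T =>
    have e1 : (res φ B) g T = B (φ g) T := rfl
    rw [Representation.tprod_apply, TensorProduct.map_tmul, TensorProduct.lift.tmul,
      LinearMap.flip_apply, e1, h, TensorProduct.lift.tmul, LinearMap.flip_apply,
      LinearMap.comp_apply, LinearMap.comp_apply,
      ← Module.End.mul_apply, ← map_mul, inv_mul_cancel, map_one]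
    rfl
  | add a b ha hb => rw [map_add, map_add, map_add, map_add, ha, hb]

/-- Fibration criterion. -/
theorem crit' {X S : G.Var} (f : G.Dom X S) (hf : Function.Surjective (G.map f))
    (hS : Conj G S) (ρ : Representation K (G.P X) V) (hirr : Irr ρ) (hρ : G.QG X ρ)
    (α : Representation K (G.P X) A) (hα : G.Geo X α) (T0 : A →ₗ[K] V)
    (hT0 : T0 ≠ 0) (hT : ∀ n, G.map f n = 1 → ∀ a, T0 (α n a) = ρ n (T0 a)) : G.Geo X ρ := by
  obtain ⟨P, _, _, _, B, j, hj, hBirr, hBj⟩ := exists_quot' (G.map f) hf ρ α T0 hT0 hT
  have h1 : G.QG X (res (G.map f) B) :=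
    G.qg_sub X (α.linHom ρ) _ j (fun g t => hBj g t) hj (irr_res _ hf hBirr)
      (G.qg_hom X α ρ (G.geo_qg X α hα) hρ)
  have hid : (LinearMap.id : P →ₗ[K] P) ≠ 0 := by
    intro h
    obtain ⟨t, ht⟩ := hBirr.1
    exact ht (LinearMap.congr_fun h t)
  have h2 : G.QG S B := G.qg_descend f (res (G.map f) B) B LinearMap.id (fun g v => rfl) hid
    hBirr h1
  have h3 := G.geo_tensor X α _ hα (G.geo_pull f B (hS P B hBirr h2))
  have h4 := evm_equi' (G.map f) α ρ j B hBj
  have h5 : TensorProduct.lift j.flip ≠ 0 := by
    intro h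
    obtain ⟨t, ht⟩ := hBirr.1
    apply ht
    apply hj
    rw [map_zero]
    ext a
    have := LinearMap.congr_fun h (a ⊗ₜ t)
    rw [TensorProduct.lift.tmul] at this
    simpa using this
  exact G.geo_quot X _ _ _ h4 (surj_of_irr _ h4 h5 hirr) h3

theorem conj_dom' {X' X : G.Var} (f : G.Dom X' X) (h : Conj G X') : Conj G X := by
  intro V _ _ _ ρ hirr hρ
  obtain ⟨S0, hS0, hS0irr⟩ := exists_irr (res (G.map f) ρ) hirr.1
  have h1 : G.QG X' (sub _ S0 hS0) := G.qg_sub X' (res (G.map f) ρ) _ S0.subtype
    (fun g v => rfl) S0.injective_subtype hS0irr (G.qg_pull f ρ hρ)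
  have h2 := h _ (sub _ S0 hS0) hS0irr h1
  have h3 : S0.subtype ≠ 0 := by
    intro h0
    obtain ⟨v, hv⟩ := hS0irr.1
    exact hv (Subtype.ext (LinearMap.congr_fun h0 v))
  exact G.geo_descend f (sub _ S0 hS0) ρ S0.subtype (fun g v => rfl) h3 hirr h2

/-- Finite etale covers. -/
theorem conj_cover' {U L : G.Var} (e : G.Dom U L) (he : Function.Injective (G.map e))
    (hfi : (G.map e).range.FiniteIndex) (h : Conj G L) : Conj G U := by
  intro V _ _ _ ρ hirr hρ
  obtain ⟨W, _, _, _, σ, T, hσirr, hT, hTs⟩ := exists_ind' (G.map e) he hfi ρ hirr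
  have h1 := G.qg_ind e he hfi σ ρ T hT hTs hσirr hirr hρ
  exact G.geo_quot U _ ρ T hT hTs (G.geo_pull e σ (h W σ hσirr h1))

/-- Points. -/
theorem conj_point {X : G.Var} (h : G.dim X = 0) : Conj G X := by
  intro V _ _ _ ρ hirr hρ
  refine G.geo_finite X ρ ⟨⊤, inferInstance, fun g _ => ?_⟩
  rw [G.point X h g, map_one]

/-- Products. -/
theorem conj_prod' {Z X Y : G.Var} (p : G.Dom Z X) (q : G.Dom Z Y) (hpq : G.IsProd p q)
    (hX : Conj G X) (hY : Conj G Y) : Conj G Z := by
  classical
  intro V _ _ _ ρ hirr hρ
  choose s0 hs0 using fun a : G.P X => G.prod_onto p q hpq a 1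
  let s : G.P X →* G.P Z :=
    { toFun := s0
      map_one' := G.prod_inj p q hpq _ _ (by rw [(hs0 1).1, map_one]) (by
        rw [(hs0 1).2, map_one])
      map_mul' := fun a b => G.prod_inj p q hpq _ _ (by
        rw [(hs0 _).1, map_mul, (hs0 _).1, (hs0 _).1]) (by
        rw [(hs0 _).2, map_mul, (hs0 _).2, (hs0 _).2, one_mul]) }
  have hs : ∀ a, G.map p (s a) = a ∧ G.map q (s a) = 1 := hs0
  have hsn : ∀ n, G.map q n = 1 → s (G.map p n) = n := fun n hn =>
    G.prod_inj p q hpq _ _ (hs _).1 ((hs _).2.trans hn.symm)
  obtain ⟨S0, hS0, hS0irr⟩ := exists_irr (res s ρ) hirr.1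
  have h1 : G.QG X (sub _ S0 hS0) := G.qg_sub X (res s ρ) _ S0.subtype
    (fun g v => rfl) S0.injective_subtype hS0irr (G.qg_factor p q hpq s hs ρ hρ)
  have h2 := hX _ (sub _ S0 hS0) hS0irr h1
  have hsurj : Function.Surjective (G.map q) := fun b => by
    obtain ⟨z, _, hz⟩ := G.prod_onto p q hpq 1 b
    exact ⟨z, hz⟩
  refine crit' G q hsurj hY ρ hirr hρ (res (G.map p) (sub _ S0 hS0)) (G.geo_pull p _ h2)
    S0.subtype ?_ ?_
  · intro h0
    obtain ⟨v, hv⟩ := hS0irr.1
    exact hv (Subtype.ext (LinearMap.congr_fun h0 v))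
  · intro n hn a
    change ρ (s (G.map p n)) (a : V) = ρ n (a : V)
    rw [hsn n hn]

/-- The reduction to basic varieties. -/
theorem conj_basic {X : G.Var} (h1 : 1 ≤ G.dim X)
    (h : ∀ L, G.Basic L → G.dim L = G.dim X → Conj G L) : Conj G X := by
  obtain ⟨U, L, u, e, hL, hd, he, hfi⟩ := G.noether X h1
  exact conj_dom' G u (conj_cover' G e he hfi (h L hL hd))

end

end Pool.Agent.R484.CQ
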