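import Pool.Agent.R484.CQb

/-! Quasi-geometric flat bundles: fibrations with virtually abelian monodromy on the fibres. -/

namespace Pool.Agent.R484.CQ

open Pool.Agent.R484.GO Pool.Agent.R484.RF
open scoped TensorProduct

set_option linter.unusedSectionVars false

section

variable {K : Type} [Field K] {W V : Type} [Group W] [AddCommGroup V] [Module K V]

/-- `ρ` restricted to the subgroup `N` has virtually abelian image: a normal subgroup `M` of the
whole group, of finite index in `N`, acts by commuting operators. -/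
def VirtAb (ρ : Representation K W V) (N : Subgroup W) : Prop := ∃ M : Subgroup W, M.Normal ∧
  M ≤ N ∧ M.relIndex N ≠ 0 ∧ ∀ a ∈ M, ∀ b ∈ M, ρ a * ρ b = ρ b * ρ a

/-- `ρ` has finite image. -/
def FinMon (ρ : Representation K W V) : Prop :=
  ∃ U : Subgroup W, U.FiniteIndex ∧ ∀ g ∈ U, ρ g = 1

end

/-- Along the fibres of `f` (on the kernel of the map of fundamental groups) `ρ` receives a
nonzero map from a bundle `α` on `X` coming from geometry. -/
def GeoAlong {K : Type} [Field K] (G : CSetting K) {X S : G.Var} (f : G.Dom X S) {V : Type}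
    [AddCommGroup V] [Module K V] (ρ : Representation K (G.P X) V) : Prop :=
  ∃ (A : Type) (_ : AddCommGroup A) (_ : Module K A) (_ : FiniteDimensional K A)
    (α : Representation K (G.P X) A) (T : A →ₗ[K] V), G.Geo X α ∧ T ≠ 0 ∧
    ∀ n, G.map f n = 1 → ∀ a, T (α n a) = ρ n (T a)

section

variable {K : Type} [Field K] [IsAlgClosed K] (G : CSetting K)
variable {V : Type} [AddCommGroup V] [Module K V] [FiniteDimensional K V]

/-- The eigencharacter has finite order. -/
theorem eig_order {X : G.Var} (ρ : Representation K (G.P X) V) (hρ : G.QG X ρ)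
    (M : Subgroup (G.P X)) [M.Normal] (hab : ∀ a ∈ M, ∀ b ∈ M, ρ a * ρ b = ρ b * ρ a)
    (ψ : G.P X → K) (v0 : V) (h0 : v0 ≠ 0) (hv0 : v0 ∈ eig ρ M ψ) :
    ∃ e : ℕ, 0 < e ∧ ∀ m ∈ M, ψ m ^ e = 1 := by
  classical
  have hfi := stab_finite ρ M ψ v0 h0 hv0
  obtain ⟨X', f, hf, hr⟩ := G.cover X _ hfi
  have hmem : ∀ g, G.map f g ∈ stab ρ (eig ρ M ψ) := fun g => by
    rw [← hr]
    exact ⟨g, rfl⟩
  have hinv : Inv (res (G.map f) ρ) (eig ρ M ψ) := fun g v hv => (hmem g v).2 hv
  obtain ⟨S0, hS0, hS0irr⟩ := exists_irr (sub _ _ hinv)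
    ⟨⟨v0, hv0⟩, fun h => h0 (congrArg Subtype.val h)⟩
  have h1 : G.QG X' (sub _ S0 hS0) := G.qg_sub X' (res (G.map f) ρ) _
    ((eig ρ M ψ).subtype ∘ₗ S0.subtype) (fun g v => rfl)
    ((eig ρ M ψ).injective_subtype.comp S0.injective_subtype) hS0irr (G.qg_pull f ρ hρ)
  obtain ⟨m, hm, hfo⟩ := G.qg_rank_one X' _ (G.qg_det X' _ h1)
  have hE : 0 < Module.finrank K S0 := by
    obtain ⟨v, hv⟩ := hS0irr.1
    exact Module.finrank_pos_iff_exists_ne_zero.2 ⟨v, hv⟩
  refine ⟨Module.finrank K S0 * m, Nat.mul_pos hE hm, fun a ha => ?_⟩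
  have haU : a ∈ stab ρ (eig ρ M ψ) := by
    rw [mem_stab_iff]
    intro v hv b hb
    rw [← Module.End.mul_apply, hab b hb a ha, Module.End.mul_apply, hv b hb, map_smul]
  rw [← hr] at haU
  obtain ⟨a', rfl⟩ := haU
  have h2 : sub _ S0 hS0 a' = ψ (G.map f a') • LinearMap.id := by
    apply LinearMap.ext
    intro v
    apply Subtype.ext
    apply Subtype.ext
    exact v.1.2 _ ha
  have h3 := congrArg Units.val (hfo a')
  rw [Units.val_pow_eq_pow_val, detχ_coe, h2, LinearMap.det_smul, LinearMap.det_id, mul_one,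
    ← pow_mul] at h3
  exact h3

/-- A common eigenvector of a normal subgroup with commuting operators, with finite orbit under
any group in which the subgroup has finite index; and a normal subgroup of finite index which
moves it only outside this orbit. -/
theorem exists_fixer {X : G.Var} (ρ : Representation K (G.P X) V) (hirr : Irr ρ)
    (hρ : G.QG X ρ) (M N : Subgroup (G.P X)) [M.Normal] (hfin : M.relIndex N ≠ 0)
    (hab : ∀ a ∈ M, ∀ b ∈ M, ρ a * ρ b = ρ b * ρ a) :
    ∃ (v0 : V) (U : Subgroup (G.P X)), v0 ≠ 0 ∧ U.Normal ∧ U.FiniteIndex ∧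
      ∀ g ∈ U, g ∈ N → ρ g v0 = v0 := by
  obtain ⟨v0, ψ, h0, hv0⟩ := common_eigen ρ M hirr.1 hab
  obtain ⟨e, he, hψ⟩ := eig_order G ρ hρ M hab ψ v0 h0 hv0
  have hF := orbit_finite N M hfin ρ v0 ψ hv0 e he hψ
  obtain ⟨U, hUn, hUf, hU⟩ := G.malcev X ρ v0 _ hF
  exact ⟨v0, U, h0, hUn, hUf, fun g hg hgN => hU g hg ⟨g, hgN, rfl⟩⟩

/-- Bundles with virtually abelian monodromy along the fibres. -/
theorem fib_one' {X S : G.Var} (f : G.Dom X S) (hf : Function.Surjective (G.map f))
    (hS : Conj G S) (ρ : Representation K (G.P X) V) (hirr : Irr ρ) (hρ : G.QG X ρ)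
    (M : Subgroup (G.P X)) [M.Normal] (hfin : M.relIndex (G.map f).ker ≠ 0)
    (hab : ∀ a ∈ M, ∀ b ∈ M, ρ a * ρ b = ρ b * ρ a) : G.Geo X ρ := by
  obtain ⟨v0, U, h0, hUn, hUf, hfix⟩ := exists_fixer G ρ hirr hρ M _ hfin hab
  obtain ⟨A, _, _, _, α, T0, hα, hT0, hT⟩ := perm_map (G.map f) ρ v0 h0 U hUn hUf
    (fun n hn hn1 => hfix n hn hn1)
  exact crit' G f hf hS ρ hirr hρ α (G.geo_finite X α ⟨U, hUf, hα⟩) T0 hT0 hT

/-- Bundles with virtually abelian monodromy have finite monodromy. -/
theorem finite_of_abelian {X : G.Var} (ρ : Representation K (G.P X) V) (hirr : Irr ρ)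
    (hρ : G.QG X ρ) (M : Subgroup (G.P X)) [M.Normal] (hfin : M.FiniteIndex)
    (hab : ∀ a ∈ M, ∀ b ∈ M, ρ a * ρ b = ρ b * ρ a) :
    ∃ U : Subgroup (G.P X), U.FiniteIndex ∧ ∀ g ∈ U, ρ g = 1 := by
  obtain ⟨v0, U, h0, hUn, hUf, hfix⟩ := exists_fixer G ρ hirr hρ M ⊤ (by
    rw [Subgroup.relIndex_top_right]
    exact hfin.1) hab
  refine ⟨U, hUf, ?_⟩
  let F : Submodule K V :=
    { carrier := {v | ∀ g ∈ U, ρ g v = v}
      zero_mem' := fun g _ => map_zero _
      add_mem' := fun {v w} hv hw g hg => by rw [map_add, hv g hg, hw g hg]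
      smul_mem' := fun c v hv g hg => by rw [map_smul, hv g hg] }
  have hF : F = ⊤ := by
    rcases hirr.2 F (by
      intro g v hv u hu
      have h1 : g⁻¹ * u * g ∈ U := by simpa using hUn.conj_mem u hu g⁻¹
      have h2 := hv _ h1
      have h3 : ρ u (ρ g v) = ρ g (ρ (g⁻¹ * u * g) v) := by
        rw [← Module.End.mul_apply, ← Module.End.mul_apply, ← map_mul, ← map_mul]
        congr 2
        group
      rw [h3, h2]) with h | h
    · have h1 : v0 ∈ F := fun g hg => hfix g hg (Subgroup.mem_top g)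
      rw [h, Submodule.mem_bot] at h1
      exact absurd h1 h0
    · exact h
  intro g hg
  apply LinearMap.ext
  intro v
  have : v ∈ F := by rw [hF]; exact Submodule.mem_top
  exact this g hg

end

/-- The class of varieties generated from the class `B0` by
* dominated varieties: `X' → X` dominant, `X'` in the class;
* finite etale covers of members;
* products of two members;
* fibrations: `f : X → S` dominant, `S` in the class, surjective on fundamental groups, whose
  kernel has an abelian subgroup of finite index, normal in `P X` (for example semiabelian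
  schemes over `S` and their torsors). -/
inductive Nice {K : Type} [Field K] (G : CSetting K) (B0 : G.Var → Prop) : G.Var → Prop
  | base (X : G.Var) : B0 X → Nice G B0 X
  | dominated {X' X : G.Var} (f : G.Dom X' X) : Nice G B0 X' → Nice G B0 X
  | cover {X' X : G.Var} (f : G.Dom X' X) : Function.Injective (G.map f) →
      (G.map f).range.FiniteIndex → Nice G B0 X → Nice G B0 X'
  | product {Z X Y : G.Var} (p : G.Dom Z X) (q : G.Dom Z Y) : G.IsProd p q →
      Nice G B0 X → Nice G B0 Y → Nice G B0 Z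
  | fibration {X S : G.Var} (f : G.Dom X S) (M : Subgroup (G.P X)) :
      Function.Surjective (G.map f) → M.Normal → M ≤ (G.map f).ker →
      M.relIndex (G.map f).ker ≠ 0 → (∀ a ∈ M, ∀ b ∈ M, a * b = b * a) → Nice G B0 S →
      Nice G B0 X

theorem nice_conj {K : Type} [Field K] [IsAlgClosed K] (G : CSetting K) (B0 : G.Var → Prop)
    (hB : ∀ X, B0 X → Conj G X) (X : G.Var) (hX : Nice G B0 X) : Conj G X := by
  induction hX with
  | base X h => exact hB X h
  | dominated f _ ih => exact conj_dom' G f ih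
  | cover f hf hfi _ ih => exact conj_cover' G f hf hfi ih
  | product p q hpq _ _ ih1 ih2 => exact conj_prod' G p q hpq ih1 ih2
  | fibration f M hf hM _ hfin hab _ ih =>
    intro V _ _ _ ρ hi hq
    have := hM
    exact fib_one' G f hf ih ρ hi hq M hfin (fun a ha b hb => by
      rw [← map_mul, hab a ha b hb, map_mul])

end Pool.Agent.R484.CQ
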