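import Mathlib

/-! Elementary representation theory of (topological) groups over a field, used for sheaves. -/

namespace Pool.Agent.R484.GO

open scoped TensorProduct

section Rep

variable {K : Type} [Field K] {G : Type} [Group G]
variable {V V' A : Type} [AddCommGroup V] [Module K V] [AddCommGroup V'] [Module K V']
  [AddCommGroup A] [Module K A]

/-- `S` is stable under `ρ`. -/
def Inv (ρ : Representation K G V) (S : Submodule K V) : Prop := ∀ g, ∀ v ∈ S, ρ g v ∈ S

/-- `ρ` is irreducible: `V ≠ 0` and the only stable subspaces are `0` and `V`. -/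
def Irr (ρ : Representation K G V) : Prop :=
  (∃ v : V, v ≠ 0) ∧ ∀ S : Submodule K V, Inv ρ S → S = ⊥ ∨ S = ⊤

/-- `f` is `G`-equivariant. -/
def Equi (ρ : Representation K G V) (σ : Representation K G V') (f : V →ₗ[K] V') : Prop :=
  ∀ g v, f (ρ g v) = σ g (f v)

/-- The subrepresentation on a stable subspace. -/
def sub (ρ : Representation K G V) (S : Submodule K V) (h : Inv ρ S) : Representation K G S where
  toFun g := (ρ g).restrict (h g)
  map_one' := by ext v; simp
  map_mul' a b := by ext v; simp

@[simp] theorem sub_coe (ρ : Representation K G V) (S : Submodule K V) (h : Inv ρ S) (g : G)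
    (v : S) : ((sub ρ S h g v : S) : V) = ρ g v := rfl

/-- The twist of `ρ` by a character. -/
def tw (χ : G →* Kˣ) (ρ : Representation K G V) : Representation K G V where
  toFun g := (χ g : K) • ρ g
  map_one' := by simp
  map_mul' a b := by
    ext v
    simp only [map_mul, Units.val_mul, LinearMap.smul_apply, Module.End.mul_apply, map_smul,
      smul_smul]
    rw [mul_comm]

@[simp] theorem tw_apply (χ : G →* Kˣ) (ρ : Representation K G V) (g : G) (v : V) :
    tw χ ρ g v = (χ g : K) • ρ g v := rfl

/-- A character as a representation on the line `K`. -/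
def chr (χ : G →* Kˣ) : Representation K G K := tw χ (1 : G →* (K →ₗ[K] K))

@[simp] theorem chr_apply (χ : G →* Kˣ) (g : G) (x : K) : chr χ g x = (χ g : K) * x := rfl

/-- The determinant character of a representation. -/
noncomputable def detχ (ρ : Representation K G V) : G →* Kˣ :=
  MonoidHom.toHomUnits ((LinearMap.det : (V →ₗ[K] V) →* K).comp ρ)

@[simp] theorem detχ_coe (ρ : Representation K G V) (g : G) :
    ((detχ ρ g : Kˣ) : K) = LinearMap.det (ρ g) := rfl

/-- The determinant of `ρ` has finite order. -/
def FinDet (ρ : Representation K G V) : Prop :=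
  ∃ m : ℕ, 0 < m ∧ ∀ g, (LinearMap.det (ρ g)) ^ m = 1

theorem exists_irr [FiniteDimensional K V] (ρ : Representation K G V) (h0 : ∃ v : V, v ≠ 0) :
    ∃ (S : Submodule K V) (h : Inv ρ S), Irr (sub ρ S h) := by
  classical
  have hne : {S : Submodule K V | S ≠ ⊥ ∧ Inv ρ S}.Nonempty := by
    refine ⟨⊤, ?_, fun g v _ => Submodule.mem_top⟩
    obtain ⟨v, hv⟩ := h0
    intro h
    have : v ∈ (⊤ : Submodule K V) := Submodule.mem_top
    rw [h] at this
    exact hv (by simpa using this)
  obtain ⟨S, ⟨hS0, hS⟩, hmin⟩ := WellFounded.has_min (wellFounded_lt (α := Submodule K V)) _ hne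
  refine ⟨S, hS, ?_, ?_⟩
  · obtain ⟨v, hvS, hv⟩ := Submodule.exists_mem_ne_zero_of_ne_bot hS0
    exact ⟨⟨v, hvS⟩, fun h => hv (by simpa using congrArg Subtype.val h)⟩
  · intro T hT
    by_cases hT0 : T = ⊥
    · exact Or.inl hT0
    right
    have h1 : T.map S.subtype ≠ ⊥ := by
      intro h
      refine hT0 ((Submodule.eq_bot_iff T).2 fun t ht => ?_)
      have : (t : V) ∈ T.map S.subtype := ⟨t, ht, rfl⟩
      rw [h, Submodule.mem_bot] at this
      exact Subtype.ext this
    have h2 : Inv ρ (T.map S.subtype) := by
      intro g v hv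
      obtain ⟨t, ht, rfl⟩ := hv
      exact ⟨sub ρ S hS g t, hT g t ht, rfl⟩
    have h3 : ¬ (T.map S.subtype < S) := hmin _ ⟨h1, h2⟩
    have h4 : T.map S.subtype ≤ S := Submodule.map_subtype_le S T
    have h5 : T.map S.subtype = S := by
      by_contra h
      exact h3 (lt_of_le_of_ne h4 h)
    rw [eq_top_iff]
    rintro ⟨v, hv⟩ _
    have : v ∈ T.map S.subtype := by rw [h5]; exact hv
    obtain ⟨t, ht, htv⟩ := this
    have : t = ⟨v, hv⟩ := Subtype.ext htv
    rwa [← this]

theorem irr_tw (χ : G →* Kˣ) {ρ : Representation K G V} (h : Irr ρ) : Irr (tw χ ρ) := by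
  refine ⟨h.1, fun S hS => h.2 S fun g v hv => ?_⟩
  have := hS g v hv
  rw [tw_apply] at this
  exact (S.smul_mem_iff (Units.ne_zero (χ g))).1 this

/-- A nonzero equivariant map to an irreducible representation is onto. -/
theorem surj_of_irr {ρ : Representation K G V} {σ : Representation K G A} (f : A →ₗ[K] V)
    (hf : Equi σ ρ f) (h0 : f ≠ 0) (h : Irr ρ) : Function.Surjective f := by
  rcases h.2 (LinearMap.range f) (by
    rintro g _ ⟨a, rfl⟩
    exact ⟨σ g a, hf g a⟩) with h1 | h1
  · exact absurd (LinearMap.range_eq_bot.1 h1) h0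
  · exact LinearMap.range_eq_top.1 h1

/-- A nonzero equivariant map from an irreducible representation is injective. -/
theorem inj_of_irr {ρ : Representation K G V} {σ : Representation K G A} (f : V →ₗ[K] A)
    (hf : Equi ρ σ f) (h0 : f ≠ 0) (h : Irr ρ) : Function.Injective f := by
  rcases h.2 (LinearMap.ker f) (by
    intro g v hv
    rw [LinearMap.mem_ker] at hv ⊢
    rw [hf, hv, map_zero]) with h1 | h1
  · exact LinearMap.ker_eq_bot.1 h1
  · exact absurd (LinearMap.ker_eq_top.1 h1) h0

theorem tw_tw (χ η : G →* Kˣ) (ρ : Representation K G V) : tw χ (tw η ρ) = tw (χ * η) ρ := by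
  ext g v
  simp [smul_smul]

theorem tw_one (ρ : Representation K G V) : tw 1 ρ = ρ := by
  ext g v
  simp

theorem det_tw [FiniteDimensional K V] (χ : G →* Kˣ) (ρ : Representation K G V) (g : G) :
    LinearMap.det (tw χ ρ g) = (χ g : K) ^ Module.finrank K V * LinearMap.det (ρ g) := by
  have : tw χ ρ g = (χ g : K) • ρ g := rfl
  rw [this, LinearMap.det_smul]

end Rep

section Top

variable {K : Type} [Field K] [TopologicalSpace K] [IsTopologicalRing K]
  {G : Type} [Group G] [TopologicalSpace G]
variable {V V' A : Type} [AddCommGroup V] [Module K V] [AddCommGroup V'] [Module K V']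
  [AddCommGroup A] [Module K A]

/-- Continuity of a representation: all matrix coefficients are continuous. -/
def Cts (ρ : Representation K G V) : Prop :=
  ∀ (v : V) (l : V →ₗ[K] K), Continuous fun g => l (ρ g v)

omit [IsTopologicalRing K] in
theorem cts_sub (ρ : Representation K G V) (S : Submodule K V) (h : Inv ρ S) (hc : Cts ρ) :
    Cts (sub ρ S h) := by
  intro v l
  obtain ⟨l', hl'⟩ := LinearMap.exists_extend l
  have : (fun g => l (sub ρ S h g v)) = fun g => l' (ρ g v) := by
    funext g
    rw [← hl']
    rfl
  rw [this]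
  exact hc v l'

omit [IsTopologicalRing K] in
theorem cts_comp {H : Type} [Group H] [TopologicalSpace H] (ρ : Representation K G V)
    (f : H →* G) (hf : Continuous f) (hc : Cts ρ) : Cts (ρ.comp f : Representation K H V) :=
  fun v l => (hc v l).comp hf

theorem cts_tw (χ : G →* Kˣ) (hχ : Continuous fun g => ((χ g : Kˣ) : K))
    (ρ : Representation K G V) (hc : Cts ρ) : Cts (tw χ ρ) := by
  intro v l
  simp only [tw_apply, map_smul, smul_eq_mul]
  exact hχ.mul (hc v l)

theorem cts_det [FiniteDimensional K V] (ρ : Representation K G V) (hc : Cts ρ) :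
    Continuous fun g => LinearMap.det (ρ g) := by
  let b := Module.finBasis K V
  have : (fun g => LinearMap.det (ρ g)) = fun g => (LinearMap.toMatrix b b (ρ g)).det := by
    funext g
    rw [LinearMap.det_toMatrix]
  rw [this]
  refine Continuous.matrix_det (continuous_matrix fun i j => ?_)
  simp only [LinearMap.toMatrix_apply]
  exact hc (b j) (b.coord i)

/-- Continuity of a vector-valued orbit map against all functionals applied to products. -/
theorem cts_hom [FiniteDimensional K A] [FiniteDimensional K V] [IsTopologicalGroup G]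
    (σ : Representation K G A) (ρ : Representation K G V) (hσ : Cts σ) (hρ : Cts ρ) :
    Cts (Representation.linHom σ ρ) := by
  intro T L
  let a := Module.finBasis K A
  let b := Module.finBasis K V
  -- expand `L` on matrix units
  have hL : ∀ f : A →ₗ[K] V, L f = ∑ i, ∑ j, b.coord j (f (a i)) *
      L (LinearMap.toSpanSingleton K V (b j) ∘ₗ a.coord i) := by
    intro f
    have hf : f = ∑ i, ∑ j, b.coord j (f (a i)) •
        (LinearMap.toSpanSingleton K V (b j) ∘ₗ a.coord i) := by
      refine a.ext fun k => ?_
      simp only [LinearMap.sum_apply, LinearMap.smul_apply, LinearMap.comp_apply,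
        LinearMap.toSpanSingleton_apply, Module.Basis.coord_apply, Module.Basis.repr_self]
      rw [Finset.sum_eq_single k]
      · simp [b.sum_repr]
      · intro i _ hik
        refine Finset.sum_eq_zero fun j _ => ?_
        rw [Finsupp.single_eq_of_ne (by simpa using hik)]
        simp
      · intro h
        exact absurd (Finset.mem_univ k) h
    conv_lhs => rw [hf]
    simp only [map_sum, map_smul, smul_eq_mul]
  have hexp : (fun g => L (Representation.linHom σ ρ g T)) = fun g => ∑ i, ∑ j,
      (∑ k, a.coord k (σ g⁻¹ (a i)) * b.coord j (ρ g (T (a k)))) *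
      L (LinearMap.toSpanSingleton K V (b j) ∘ₗ a.coord i) := by
    funext g
    rw [hL]
    refine Finset.sum_congr rfl fun i _ => Finset.sum_congr rfl fun j _ => ?_
    congr 1
    rw [Representation.linHom_apply, LinearMap.comp_apply, LinearMap.comp_apply]
    conv_lhs => rw [← a.sum_repr (σ g⁻¹ (a i))]
    simp only [map_sum, map_smul, smul_eq_mul, Module.Basis.coord_apply]
  rw [hexp]
  refine continuous_finsetSum _ fun i _ => continuous_finsetSum _ fun j _ => ?_
  refine Continuous.mul (continuous_finsetSum _ fun k _ => ?_) continuous_const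
  exact ((hσ (a i) (a.coord k)).comp continuous_inv).mul (hρ (T (a k)) (b.coord j))

end Top

end Pool.Agent.R484.GO
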