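import Pool.Agent.R484.GOa

/-! Sheaves of geometric origin: the setting, normalisation of determinants, the criterion. -/

namespace Pool.Agent.R484.GO

open scoped TensorProduct

set_option linter.unusedSectionVars false

/-- The character `g ↦ lam ^ deg g`. -/
def powχ {K : Type} [Field K] {G : Type} [Group G] (d : G →* Multiplicative ℤ) (lam : Kˣ) :
    G →* Kˣ := (zpowersHom Kˣ lam).comp d

/-- The smooth irreducible varieties over a fixed finite field `F_q` and their Weil groups.  The
fields are standard facts. -/
structure Base where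
  /-- Smooth irreducible varieties over `F_q` (points included). -/
  Var : Type
  /-- The Weil group: elements of the etale fundamental group acting on `F_q`-bar by an integral
  power of the Frobenius, with its usual topology (geometric fundamental group open). -/
  W : Var → Type
  [grp : ∀ X, Group (W X)]
  [top : ∀ X, TopologicalSpace (W X)]
  [tgrp : ∀ X, IsTopologicalGroup (W X)]
  /-- The degree. -/
  deg : ∀ X, W X →* Multiplicative ℤ
  deg_cont : ∀ X, Continuous (deg X)
  /-- Dominant morphisms `X' → X` of varieties. -/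
  Dom : Var → Var → Type
  /-- The induced homomorphism of Weil groups. -/
  map : ∀ {X' X : Var}, Dom X' X → (W X' →* W X)
  map_cont : ∀ {X' X : Var} (f : Dom X' X), Continuous (map f)
  map_open : ∀ {X' X : Var} (f : Dom X' X), IsOpenMap (map f)
  map_deg : ∀ {X' X : Var} (f : Dom X' X) (g : W X'), deg X (map f g) = deg X' g
  /-- Varieties of dimension at most one. -/
  Small : Var → Prop
  /-- The geometric fundamental group carries the topology induced from a profinite group. -/
  basis : ∀ (X : Var) (O : Set (W X)), IsOpen O → (1 : W X) ∈ O → ∃ U : Subgroup (W X),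
    U.Normal ∧ IsOpen (U : Set (W X)) ∧ U.FiniteIndex ∧ ∀ g ∈ U, deg X g = 1 → g ∈ O

attribute [instance] Base.grp Base.top Base.tgrp

/-- Products, with the Kunneth formula for the fundamental group (SGA 1, X.1.7). -/
structure BaseProd extends Base where
  /-- `IsProd p q`: `Z` is the product of the geometrically connected varieties `X`, `Y`, at least
  one of which is proper, and `p`, `q` are the projections. -/
  IsProd : ∀ {Z X Y : Var}, Dom Z X → Dom Z Y → Prop
  prod_emb : ∀ {Z X Y : Var} (p : Dom Z X) (q : Dom Z Y), IsProd p q →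
    Topology.IsEmbedding fun z => (map p z, map q z)
  prod_onto : ∀ {Z X Y : Var} (p : Dom Z X) (q : Dom Z Y), IsProd p q →
    ∀ (a : W X) (b : W Y), deg X a = deg Y b → ∃ z, map p z = a ∧ map q z = b
  prod_conn : ∀ {Z X Y : Var} (p : Dom Z X) (q : Dom Z Y), IsProd p q →
    Function.Surjective (deg X) ∧ Function.Surjective (deg Y)

/-- A property of finite dimensional representations of the Weil groups. -/
abbrev Pred (K : Type) [Field K] (B : Base) : Type 1 :=
  ∀ (X : B.Var) {V : Type} [AddCommGroup V] [Module K V] [FiniteDimensional K V],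
    Representation K (B.W X) V → Prop

section Preds

variable {K : Type} [Field K] {B : Base} (P : Pred K B)

/-- Stable under quotients. -/
def QuotStable : Prop := ∀ (X : B.Var) {V V' : Type} [AddCommGroup V] [Module K V]
  [FiniteDimensional K V] [AddCommGroup V'] [Module K V'] [FiniteDimensional K V']
  (ρ : Representation K (B.W X) V) (σ : Representation K (B.W X) V') (f : V →ₗ[K] V'),
  Equi ρ σ f → Function.Surjective f → P X ρ → P X σ

/-- Stable under tensor products. -/
def TensorStable : Prop := ∀ (X : B.Var) {V V' : Type} [AddCommGroup V] [Module K V]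
  [FiniteDimensional K V] [AddCommGroup V'] [Module K V'] [FiniteDimensional K V']
  (ρ : Representation K (B.W X) V) (σ : Representation K (B.W X) V'),
  P X ρ → P X σ → P X (ρ.tprod σ)

/-- Stable under determinants. -/
def DetStable : Prop := ∀ (X : B.Var) {V : Type} [AddCommGroup V] [Module K V]
  [FiniteDimensional K V] (ρ : Representation K (B.W X) V), P X ρ → P X (chr (detχ ρ))

/-- Stable under pullback along dominant morphisms. -/
def PullStable : Prop := ∀ {X' X : B.Var} (f : B.Dom X' X) {V : Type} [AddCommGroup V]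
  [Module K V] [FiniteDimensional K V] (ρ : Representation K (B.W X) V), P X ρ →
  P X' (ρ.comp (B.map f))

/-- Descent along dominant morphisms (multisections and direct images): an irreducible `ρ` on `X`
whose pullback to `X'` receives a nonzero map from a sheaf with the property has it. -/
def DescentStable [TopologicalSpace K] : Prop := ∀ {X' X : B.Var} (f : B.Dom X' X)
  {V V' : Type} [AddCommGroup V] [Module K V] [FiniteDimensional K V] [AddCommGroup V']
  [Module K V'] [FiniteDimensional K V'] (σ : Representation K (B.W X') V')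
  (ρ : Representation K (B.W X) V) (T : V' →ₗ[K] V),
  Equi σ (ρ.comp (B.map f)) T → T ≠ 0 → Irr ρ → Cts ρ → P X' σ → P X ρ

/-- Holds for representations with finite monodromy. -/
def FiniteHolds : Prop := ∀ (X : B.Var) {V : Type} [AddCommGroup V] [Module K V]
  [FiniteDimensional K V] (ρ : Representation K (B.W X) V),
  (∃ U : Subgroup (B.W X), IsOpen (U : Set (B.W X)) ∧ U.FiniteIndex ∧ ∀ g ∈ U, ρ g = 1) → P X ρ

/-- If `lam ^ (n deg)` has the property, `n ≥ 1`, so has `lam ^ (- deg)`. -/
def RootStable : Prop := ∀ (X : B.Var) (lam : Kˣ) (n : ℕ), 0 < n →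
  P X (chr (powχ (B.deg X) (lam ^ n))) → P X (chr (powχ (B.deg X) lam⁻¹))

/-- Only continuous representations have the property. -/
def OnlyCts [TopologicalSpace K] : Prop := ∀ (X : B.Var) {V : Type} [AddCommGroup V]
  [Module K V] [FiniteDimensional K V] (ρ : Representation K (B.W X) V), P X ρ → Cts ρ

/-- For `X`, all irreducible continuous representations whose determinant has finite order have
the property. -/
def HoldsOn [TopologicalSpace K] (X : B.Var) : Prop :=
  ∀ (V : Type) [AddCommGroup V] [Module K V] [FiniteDimensional K V]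
    (ρ : Representation K (B.W X) V), Cts ρ → Irr ρ → FinDet ρ → P X ρ

end Preds

/-- The lisse Weil sheaves with coefficients in `K` (the case in mind is `K` the algebraic closure
of `Q_ℓ`) on the smooth irreducible varieties over `F_q`, and those coming from geometry.  The
fields are published theorems. -/
structure Geometry (K : Type) [Field K] [TopologicalSpace K] extends BaseProd where
  /-- Characters of Weil groups (of a finite etale cover of `X`) are of finite order on the
  geometric fundamental group (class field theory; Deligne, Weil II, 1.3.4). -/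
  cft : ∀ (X : Var) (U : Subgroup (W X)), IsOpen (U : Set (W X)) → U.FiniteIndex →
    ∀ χ : U →* Kˣ, (Continuous fun g => ((χ g : Kˣ) : K)) →
      ∃ m : ℕ, 0 < m ∧ ∀ g : U, deg X g = 1 → χ g ^ m = 1
  /-- `Geom X ρ`: the lisse Weil sheaf `ρ` is pure of weight zero and a Tate twist of its
  restriction to the generic point is a subquotient of some `H^i(Y)`, `Y` a variety over the
  function field of `X`. -/
  Geom : Pred K toBase
  geom_cts : OnlyCts Geom
  geom_quot : QuotStable Geom
  geom_tensor : TensorStable Geom
  geom_det : DetStable Geom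
  geom_pull : PullStable Geom
  geom_descend : DescentStable Geom
  /-- Sheaves with finite monodromy occur in the `H^0` of finite etale covers. -/
  geom_finite : FiniteHolds Geom
  /-- Weil numbers of weight zero (Honda, Tate). -/
  geom_root : RootStable Geom
  /-- L. Lafforgue's theorem for curves (for points it is class field theory). -/
  lafforgue : ∀ (X : Var), Small X → HoldsOn Geom X

/-- The conjecture for `X`: every irreducible lisse sheaf on `X` with determinant of finite order
comes from geometry. -/
def Conj {K : Type} [Field K] [TopologicalSpace K] (G : Geometry K) (X : G.Var) : Prop :=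
  HoldsOn G.Geom X

section

variable {K : Type} [Field K] [TopologicalSpace K] [IsTopologicalRing K] [IsAlgClosed K]
variable (G : Geometry K)
variable {V A : Type} [AddCommGroup V] [Module K V] [FiniteDimensional K V]
  [AddCommGroup A] [Module K A] [FiniteDimensional K A]

theorem powχ_apply {H : Type} [Group H] (d : H →* Multiplicative ℤ) (lam : Kˣ) (g : H) :
    powχ d lam g = lam ^ (Multiplicative.toAdd (d g)) := rfl

theorem powχ_cont (X : G.Var) (lam : Kˣ) :
    Continuous fun g => ((powχ (G.deg X) lam g : Kˣ) : K) := by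
  have : (fun g => ((powχ (G.deg X) lam g : Kˣ) : K)) =
      (fun z : Multiplicative ℤ => ((lam ^ (Multiplicative.toAdd z) : Kˣ) : K)) ∘ G.deg X := rfl
  rw [this]
  exact continuous_of_discreteTopology.comp (G.deg_cont X)

theorem unit_root (c : Kˣ) {n : ℕ} (hn : 0 < n) : ∃ μ : Kˣ, μ ^ n = c := by
  obtain ⟨z, hz⟩ := IsAlgClosed.exists_pow_nat_eq (c : K) hn
  have hz0 : z ≠ 0 := by
    rintro rfl
    rw [zero_pow hn.ne'] at hz
    exact Units.ne_zero c hz.symm
  exact ⟨Units.mk0 z hz0, Units.ext (by simpa using hz)⟩

/-- Normalisation: a twist by a power of the degree has determinant of finite order. -/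
theorem normalize (X : G.Var) (ρ : Representation K (G.W X) V) (hc : Cts ρ)
    (hV : ∃ v : V, v ≠ 0) : ∃ lam : Kˣ, FinDet (tw (powχ (G.deg X) lam) ρ) := by
  obtain ⟨m, hm, hcft⟩ := G.cft X ⊤ isOpen_univ inferInstance
    ((detχ ρ).comp (⊤ : Subgroup (G.W X)).subtype)
    ((cts_det ρ hc).comp continuous_subtype_val)
  have key : ∀ g, G.deg X g = 1 → (detχ ρ g) ^ m = 1 := fun g hg => hcft ⟨g, trivial⟩ hg
  have hn : 0 < Module.finrank K V := by
    obtain ⟨v, hv⟩ := hV
    exact Module.finrank_pos_iff_exists_ne_zero.2 ⟨v, hv⟩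
  set n := Module.finrank K V with hndef
  obtain ⟨⟨_, g0, rfl⟩, hgen⟩ := IsCyclic.exists_generator (α := (G.deg X).range)
  have hgen' : ∀ g, ∃ k : ℤ, G.deg X g = G.deg X g0 ^ k := by
    intro g
    obtain ⟨k, hk⟩ := Subgroup.mem_zpowers_iff.1 (hgen ⟨G.deg X g, g, rfl⟩)
    exact ⟨k, by simpa using (congrArg Subtype.val hk).symm⟩
  -- it suffices to solve one equation at `g0`
  suffices h : ∃ lam : Kˣ, (powχ (G.deg X) lam g0) ^ (n * m) * (detχ ρ g0) ^ m = 1 by
    obtain ⟨lam, hlam⟩ := h
    refine ⟨lam, m, hm, fun g => ?_⟩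
    obtain ⟨k, hk⟩ := hgen' g
    have h1 : (detχ ρ g) ^ m = ((detχ ρ g0) ^ m) ^ k := by
      have h2 := key (g * (g0 ^ k)⁻¹) (by rw [map_mul, map_inv, map_zpow, hk, mul_inv_cancel])
      rw [map_mul, map_inv, map_zpow, mul_pow, inv_pow] at h2
      have h3 := mul_inv_eq_one.1 h2
      rw [h3, ← zpow_natCast, ← zpow_natCast, ← zpow_mul, ← zpow_mul, mul_comm]
    have h4 : powχ (G.deg X) lam g = (powχ (G.deg X) lam g0) ^ k := by
      have : powχ (G.deg X) lam g = (zpowersHom Kˣ lam) (G.deg X g) := rfl
      rw [this, hk, map_zpow]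
      rfl
    have h5 : (powχ (G.deg X) lam g ^ n * detχ ρ g) ^ m = 1 := by
      rw [mul_pow, h1, h4, ← pow_mul]
      have : ((powχ (G.deg X) lam g0) ^ k) ^ (n * m) = ((powχ (G.deg X) lam g0) ^ (n * m)) ^ k := by
        rw [← zpow_natCast, ← zpow_natCast, ← zpow_mul, ← zpow_mul, mul_comm]
      rw [this, ← mul_zpow, hlam, one_zpow]
    rw [det_tw]
    have := congrArg (Units.val) h5
    simpa using this
  by_cases h1 : G.deg X g0 = 1
  · exact ⟨1, by rw [key g0 h1, powχ_apply, h1]; simp⟩
  · set d : ℤ := Multiplicative.toAdd (G.deg X g0) with hd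
    have hd0 : d ≠ 0 := fun h => h1 (by
      have : G.deg X g0 = Multiplicative.ofAdd d := rfl
      rw [this, h]; rfl)
    have hpos : 0 < d.natAbs * (n * m) :=
      Nat.mul_pos (Int.natAbs_pos.2 hd0) (Nat.mul_pos hn hm)
    obtain ⟨μ, hμ⟩ := unit_root ((detχ ρ g0) ^ m)⁻¹ hpos
    have hsol : ∃ lam : Kˣ, lam ^ d = μ ^ d.natAbs := by
      rcases Int.natAbs_eq d with h | h
      · refine ⟨μ, ?_⟩
        conv_lhs => rw [h]
        rw [zpow_natCast]
      · refine ⟨μ⁻¹, ?_⟩
        conv_lhs => rw [h]
        rw [zpow_neg, zpow_natCast, inv_pow, inv_inv]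
    obtain ⟨lam, hlam⟩ := hsol
    refine ⟨lam, ?_⟩
    rw [powχ_apply, ← hd, hlam, ← pow_mul, hμ, inv_mul_cancel]

theorem geom_chr_pow (X : G.Var) (χ : G.W X →* Kˣ) (h : G.Geom X (chr χ)) (k : ℕ) :
    G.Geom X (chr (χ ^ (k + 1))) := by
  induction k with
  | zero =>
    have : χ ^ (0 + 1) = χ := by
      ext g
      rw [MonoidHom.pow_apply, zero_add, pow_one]
    rw [this]
    exact h
  | succ k ih =>
    refine G.geom_quot X _ _ (TensorProduct.lid K K).toLinearMap ?_
      (TensorProduct.lid K K).surjective (G.geom_tensor X _ _ ih h)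
    intro g t
    induction t using TensorProduct.induction_on with
    | zero => simp
    | tmul x y =>
      simp only [Representation.tprod_apply, TensorProduct.map_tmul, chr_apply,
        LinearEquiv.coe_coe, TensorProduct.lid_tmul, smul_eq_mul]
      rw [pow_succ χ (k + 1), MonoidHom.mul_apply, Units.val_mul]
      ring
    | add a b ha hb => simp only [map_add, ha, hb]

theorem geom_tw (X : G.Var) (χ : G.W X →* Kˣ) (ρ : Representation K (G.W X) V)
    (h : G.Geom X (chr χ)) (hρ : G.Geom X ρ) : G.Geom X (tw χ ρ) := by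
  refine G.geom_quot X _ _ (TensorProduct.lid K V).toLinearMap ?_
    (TensorProduct.lid K V).surjective (G.geom_tensor X _ _ h hρ)
  intro g t
  induction t using TensorProduct.induction_on with
  | zero => simp
  | tmul x y =>
    simp only [Representation.tprod_apply, TensorProduct.map_tmul, chr_apply,
      LinearEquiv.coe_coe, TensorProduct.lid_tmul, tw_apply, map_smul, smul_smul]
    rw [mul_comm]
  | add a b ha hb => simp only [map_add, ha, hb]

/-- Untwisting. -/
theorem untwist (X : G.Var) (lam : Kˣ) (ρ : Representation K (G.W X) V) (hV : ∃ v : V, v ≠ 0)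
    (hdet : FinDet ρ) (h : G.Geom X (tw (powχ (G.deg X) lam) ρ)) : G.Geom X ρ := by
  obtain ⟨m, hm, hdet⟩ := hdet
  have hn : 0 < Module.finrank K V := by
    obtain ⟨v, hv⟩ := hV
    exact Module.finrank_pos_iff_exists_ne_zero.2 ⟨v, hv⟩
  have h1 := geom_chr_pow G X _ (G.geom_det X _ h) (m - 1)
  rw [Nat.sub_add_cancel hm] at h1
  have h2 : (detχ (tw (powχ (G.deg X) lam) ρ)) ^ m =
      powχ (G.deg X) (lam ^ (Module.finrank K V * m)) := by
    ext g
    rw [MonoidHom.pow_apply, Units.val_pow_eq_pow_val, detχ_coe, det_tw, mul_pow, hdet, mul_one,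
      powχ_apply, powχ_apply]
    push_cast
    rw [← pow_mul, ← zpow_natCast, ← zpow_natCast, ← zpow_mul, ← zpow_mul, mul_comm]
  rw [h2] at h1
  have h3 := G.geom_root X lam _ (Nat.mul_pos hn hm) h1
  have h4 := geom_tw G X _ _ h3 h
  rw [tw_tw] at h4
  have h5 : powχ (G.deg X) lam⁻¹ * powχ (G.deg X) lam = 1 := by
    ext g
    rw [MonoidHom.mul_apply, powχ_apply, powχ_apply, inv_zpow, inv_mul_cancel]
    rfl
  rwa [h5, tw_one] at h4

end

end Pool.Agent.R484.GO
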