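import Pool.Agent.R484.GOb

/-! The fibration criterion, dominated varieties, products. -/

namespace Pool.Agent.R484.GO

open scoped TensorProduct

set_option linter.unusedSectionVars false

variable {K : Type} [Field K] [TopologicalSpace K] [IsTopologicalRing K] [IsAlgClosed K]
variable (G : Geometry K)
variable {V A : Type} [AddCommGroup V] [Module K V] [FiniteDimensional K V]
  [AddCommGroup A] [Module K A] [FiniteDimensional K A]

/-- The space of maps `A → V` equivariant under the kernel of `φ`. -/
def homN {W S : Type} [Group W] [Group S] (φ : W →* S) (α : Representation K W A)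
    (ρ : Representation K W V) : Submodule K (A →ₗ[K] V) where
  carrier := {T | ∀ n, φ n = 1 → ∀ a, T (α n a) = ρ n (T a)}
  zero_mem' := by intro n _ a; simp
  add_mem' := by
    intro T T' h h' n hn a
    simp only [LinearMap.add_apply, map_add, h n hn a, h' n hn a]
  smul_mem' := by
    intro c T h n hn a
    simp only [LinearMap.smul_apply, map_smul, h n hn a]

theorem homN_inv {W S : Type} [Group W] [Group S] (φ : W →* S) (α : Representation K W A)
    (ρ : Representation K W V) : Inv (Representation.linHom α ρ) (homN φ α ρ) := by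
  intro g T hT n hn a
  have h1 : φ (g⁻¹ * n * g) = 1 := by simp [hn]
  have h2 := hT (g⁻¹ * n * g) h1 (α g⁻¹ a)
  simp only [Representation.linHom_apply, LinearMap.comp_apply]
  have h3 : α (g⁻¹ * n * g) (α g⁻¹ a) = α g⁻¹ (α n a) := by
    rw [← Module.End.mul_apply, ← Module.End.mul_apply, ← map_mul, ← map_mul]
    congr 2
    group
  rw [h3] at h2
  rw [h2, ← Module.End.mul_apply, ← Module.End.mul_apply, ← map_mul, ← map_mul]
  congr 2
  group

theorem homN_triv {W S : Type} [Group W] [Group S] (φ : W →* S) (α : Representation K W A)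
    (ρ : Representation K W V) (n : W) (hn : φ n = 1) (T : homN φ α ρ) :
    sub (Representation.linHom α ρ) _ (homN_inv φ α ρ) n T = T := by
  apply Subtype.ext
  rw [sub_coe, Representation.linHom_apply]
  ext a
  simp only [LinearMap.comp_apply]
  rw [← T.2 n hn, ← Module.End.mul_apply, ← map_mul, mul_inv_cancel, map_one]
  rfl

/-- A representation of `W` trivial on the kernel of a surjection, as representation of the
quotient. -/
noncomputable def desc {W S : Type} [Group W] [Group S] (φ : W →* S)
    (hφ : Function.Surjective φ) (τ : Representation K W V)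
    (h : ∀ n, φ n = 1 → ∀ v, τ n v = v) : Representation K S V :=
  have key : ∀ g g', φ g = φ g' → τ g = τ g' := fun g g' hg => by
    ext v
    have h1 : φ (g⁻¹ * g') = 1 := by simp [hg]
    have h2 := h _ h1 v
    have h3 : g' = g * (g⁻¹ * g') := by group
    rw [h3, map_mul, Module.End.mul_apply, h2]
  { toFun := fun s => τ (Function.surjInv hφ s)
    map_one' := by
      rw [← map_one τ]
      exact key _ _ (by rw [Function.surjInv_eq hφ, map_one])
    map_mul' := fun s t => by
      rw [← map_mul]
      exact key _ _ (by rw [map_mul, Function.surjInv_eq hφ, Function.surjInv_eq hφ,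
        Function.surjInv_eq hφ]) }

theorem desc_apply {W S : Type} [Group W] [Group S] (φ : W →* S)
    (hφ : Function.Surjective φ) (τ : Representation K W V)
    (h : ∀ n, φ n = 1 → ∀ v, τ n v = v) (g : W) (v : V) : desc φ hφ τ h (φ g) v = τ g v := by
  have key : ∀ g g', φ g = φ g' → τ g v = τ g' v := fun g g' hg => by
    have h1 : φ (g⁻¹ * g') = 1 := by simp [hg]
    have h2 := h _ h1 v
    have h3 : g' = g * (g⁻¹ * g') := by group
    rw [h3, map_mul, Module.End.mul_apply, h2]
  exact key _ _ (Function.surjInv_eq hφ (φ g))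

/-- The evaluation map. -/
noncomputable def evm {P : Type} [AddCommGroup P] [Module K P] (j : P →ₗ[K] (A →ₗ[K] V)) :
    A ⊗[K] P →ₗ[K] V := TensorProduct.lift j.flip

omit [TopologicalSpace K] [IsTopologicalRing K] [IsAlgClosed K] [FiniteDimensional K V]
  [FiniteDimensional K A] in
theorem evm_tmul {P : Type} [AddCommGroup P] [Module K P] (j : P →ₗ[K] (A →ₗ[K] V)) (a : A)
    (t : P) : evm j (a ⊗ₜ t) = j t a := rfl

omit [TopologicalSpace K] [IsTopologicalRing K] [IsAlgClosed K] [FiniteDimensional K V]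
  [FiniteDimensional K A] in
theorem evm_equi {W S : Type} [Group W] [Group S] (φ : W →* S) (α : Representation K W A)
    (ρ : Representation K W V) {P : Type} [AddCommGroup P] [Module K P]
    (j : P →ₗ[K] (A →ₗ[K] V)) (B : Representation K S P)
    (h : ∀ g t, j (B (φ g) t) = ρ g ∘ₗ j t ∘ₗ α g⁻¹) (χ : S →* Kˣ) (η : W →* Kˣ)
    (hη : ∀ g, χ (φ g) = η g) :
    Equi (α.tprod ((tw χ B).comp φ)) (tw η ρ) (evm j) := by
  intro g t
  induction t using TensorProduct.induction_on with
  | zero => simp
  | tmul a T =>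
    have e1 : ((tw χ B).comp φ) g T = (η g : K) • B (φ g) T := by
      rw [← hη]
      rfl
    rw [Representation.tprod_apply, TensorProduct.map_tmul, evm_tmul, e1, map_smul,
      LinearMap.smul_apply, h, tw_apply, evm_tmul, LinearMap.comp_apply, LinearMap.comp_apply,
      ← Module.End.mul_apply, ← map_mul, inv_mul_cancel, map_one]
    rfl
  | add a b ha hb => rw [map_add, map_add, map_add, map_add, ha, hb]

/-- The intermediate representation of the base. -/
theorem exists_base {X S : G.Var} (f : G.Dom X S) (hf : Function.Surjective (G.map f))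
    (ρ : Representation K (G.W X) V) (hc : Cts ρ) (α : Representation K (G.W X) A)
    (hαc : Cts α) (T0 : A →ₗ[K] V)
    (hT0 : T0 ≠ 0) (hT : ∀ n, G.map f n = 1 → ∀ a, T0 (α n a) = ρ n (T0 a)) :
    ∃ (P : Type) (_ : AddCommGroup P) (_ : Module K P) (_ : FiniteDimensional K P)
      (B : Representation K (G.W S) P) (j : P →ₗ[K] (A →ₗ[K] V)), Function.Injective j ∧
      Cts B ∧ Irr B ∧ ∀ g t, j (B (G.map f g) t) = ρ g ∘ₗ j t ∘ₗ α g⁻¹ := by
  let τ : Representation K (G.W X) (homN (G.map f) α ρ) :=
    sub (Representation.linHom α ρ) _ (homN_inv (G.map f) α ρ)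
  have hτc : Cts τ := cts_sub _ _ _ (cts_hom α ρ hαc hc)
  let B : Representation K (G.W S) (homN (G.map f) α ρ) := desc (G.map f) hf τ
    (fun n hn T => homN_triv (G.map f) α ρ n hn T)
  have hB : ∀ g T, B (G.map f g) T = τ g T := fun g T => desc_apply (G.map f) hf τ _ g T
  have hBc : Cts B := by
    intro T l
    rw [((G.map_open f).isQuotientMap (G.map_cont f) hf).continuous_iff]
    have : (fun s => l (B s T)) ∘ (G.map f) = fun g => l (τ g T) := by
      funext g
      simp only [Function.comp_apply, hB]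
    rw [this]
    exact hτc T l
  have hne : (⟨T0, hT⟩ : homN (G.map f) α ρ) ≠ 0 := fun h => hT0 (congrArg Subtype.val h)
  obtain ⟨B0, hB0, hB0irr⟩ := exists_irr B ⟨⟨T0, hT⟩, hne⟩
  refine ⟨B0, inferInstance, inferInstance, inferInstance, sub B B0 hB0,
    (homN (G.map f) α ρ).subtype ∘ₗ B0.subtype,
    (Subtype.val_injective.comp Subtype.val_injective), cts_sub _ _ _ hBc, hB0irr, ?_⟩
  intro g t
  change ((B (G.map f g) (t : homN (G.map f) α ρ) : homN (G.map f) α ρ) : A →ₗ[K] V) = _
  rw [hB]
  rfl

/-- Fibration criterion: if the conjecture holds for the base `S` and the restriction of `ρ` to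
the kernel of `W X → W S` receives a nonzero map from a geometric sheaf, `ρ` is geometric. -/
theorem criterion {X S : G.Var} (f : G.Dom X S) (hf : Function.Surjective (G.map f))
    (hS : Conj G S) (ρ : Representation K (G.W X) V) (hc : Cts ρ) (hirr : Irr ρ)
    (hdet : FinDet ρ) (α : Representation K (G.W X) A) (hα : G.Geom X α) (T0 : A →ₗ[K] V)
    (hT0 : T0 ≠ 0) (hT : ∀ n, G.map f n = 1 → ∀ a, T0 (α n a) = ρ n (T0 a)) : G.Geom X ρ := by
  obtain ⟨P, _, _, _, B, j, hj, hBc, hBirr, hBj⟩ :=
    exists_base G f hf ρ hc α (G.geom_cts X α hα) T0 hT0 hT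
  obtain ⟨lam, hlam⟩ := normalize G S B hBc hBirr.1
  have h1 := hS _ (tw (powχ (G.deg S) lam) B)
    (cts_tw _ (powχ_cont G S lam) _ hBc) (irr_tw _ hBirr) hlam
  have h2 := G.geom_pull f _ h1
  have h3 := G.geom_tensor X α _ hα h2
  have h4 := evm_equi (G.map f) α ρ j B hBj (powχ (G.deg S) lam) (powχ (G.deg X) lam)
    (fun g => by rw [powχ_apply, powχ_apply, G.map_deg])
  have h5 : evm j ≠ 0 := by
    intro h
    obtain ⟨t, ht⟩ := hBirr.1
    apply ht
    apply hj
    rw [map_zero]
    ext a
    have := LinearMap.congr_fun h (a ⊗ₜ t)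
    rw [evm_tmul] at this
    simpa using this
  have h6 := G.geom_quot X _ _ (evm j) h4 (surj_of_irr (evm j) h4 h5 (irr_tw _ hirr)) h3
  exact untwist G X lam ρ hirr.1 hdet h6

/-- The conjecture passes to dominated varieties. -/
theorem conj_dom {X' X : G.Var} (f : G.Dom X' X) (h : Conj G X') : Conj G X := by
  intro V _ _ _ ρ hc hirr hdet
  have hc' : Cts (ρ.comp (G.map f) : Representation K (G.W X') V) :=
    cts_comp ρ (G.map f) (G.map_cont f) hc
  obtain ⟨S0, hS0, hS0irr⟩ := exists_irr (ρ.comp (G.map f) : Representation K (G.W X') V) hirr.1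
  have hcs := cts_sub _ S0 hS0 hc'
  obtain ⟨lam, hlam⟩ := normalize G X' _ hcs hS0irr.1
  have h1 := h _ (tw (powχ (G.deg X') lam) (sub _ S0 hS0))
    (cts_tw _ (powχ_cont G X' lam) _ hcs) (irr_tw _ hS0irr) hlam
  have h2 : Equi (tw (powχ (G.deg X') lam) (sub _ S0 hS0))
      ((tw (powχ (G.deg X) lam) ρ).comp (G.map f)) S0.subtype := by
    intro g v
    have hd : powχ (G.deg X) lam (G.map f g) = powχ (G.deg X') lam g := by
      rw [powχ_apply, powχ_apply, G.map_deg]
    change _ = (powχ (G.deg X) lam (G.map f g) : K) • ρ (G.map f g) (v : V)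
    rw [hd]
    rfl
  have h3 : S0.subtype ≠ 0 := by
    intro h0
    obtain ⟨v, hv⟩ := hS0irr.1
    exact hv (Subtype.ext (LinearMap.congr_fun h0 v))
  have h4 := G.geom_descend f _ _ _ h2 h3 (irr_tw _ hirr) (cts_tw _ (powχ_cont G X lam) _ hc) h1
  exact untwist G X lam ρ hirr.1 hdet h4

/-- The conjecture passes to products (with at least one factor proper). -/
theorem conj_prod {Z X Y : G.Var} (p : G.Dom Z X) (q : G.Dom Z Y) (hpq : G.IsProd p q)
    (hX : Conj G X) (hY : Conj G Y) : Conj G Z := by
  intro V _ _ _ ρ hc hirr hdet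
  have hemb := G.prod_emb p q hpq
  have honto := G.prod_onto p q hpq
  obtain ⟨hcX, hcY⟩ := G.prod_conn p q hpq
  have hinj : ∀ z z', G.map p z = G.map p z' → G.map q z = G.map q z' → z = z' := fun z z' h h' =>
    hemb.injective (Prod.ext h h')
  have hqs : Function.Surjective (G.map q) := by
    intro b
    obtain ⟨a, ha⟩ := hcX (G.deg Y b)
    obtain ⟨z, _, hz⟩ := honto a b ha
    exact ⟨z, hz⟩
  -- a section
  obtain ⟨w, hw⟩ := hcY (Multiplicative.ofAdd 1)
  have hwpow : ∀ k : ℤ, G.deg Y (w ^ k) = Multiplicative.ofAdd k := by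
    intro k
    rw [map_zpow, hw, ← ofAdd_zsmul, smul_eq_mul, mul_one]
  have hex : ∀ g : G.W X, ∃ z, G.map p z = g ∧
      G.map q z = w ^ (Multiplicative.toAdd (G.deg X g)) := fun g =>
    honto g _ (by rw [hwpow]; rfl)
  choose s hs1 hs2 using hex
  let sh : G.W X →* G.W Z :=
    { toFun := s
      map_one' := hinj _ _ (by rw [hs1, map_one]) (by rw [hs2]; simp)
      map_mul' := fun a b => hinj _ _ (by rw [hs1, map_mul, hs1, hs1])
        (by rw [hs2, (G.map q).map_mul, hs2, hs2, ← zpow_add, map_mul]; rfl) }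
  have hsc : Continuous sh := by
    rw [hemb.isInducing.continuous_iff]
    have : ((fun z => (G.map p z, G.map q z)) ∘ sh) =
        fun g => (g, w ^ (Multiplicative.toAdd (G.deg X g))) := by
      funext g
      exact Prod.ext (hs1 g) (hs2 g)
    rw [this]
    refine continuous_id.prodMk ?_
    have h2 : (fun g => w ^ (Multiplicative.toAdd (G.deg X g))) =
        (fun z : Multiplicative ℤ => w ^ (Multiplicative.toAdd z)) ∘ G.deg X := rfl
    rw [h2]
    exact continuous_of_discreteTopology.comp (G.deg_cont X)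
  have hc' : Cts (ρ.comp sh : Representation K (G.W X) V) := cts_comp ρ sh hsc hc
  obtain ⟨A0, hA0, hA0irr⟩ := exists_irr (ρ.comp sh : Representation K (G.W X) V) hirr.1
  have hcs := cts_sub _ A0 hA0 hc'
  obtain ⟨lam, hlam⟩ := normalize G X _ hcs hA0irr.1
  have h1 := hX _ (tw (powχ (G.deg X) lam) (sub _ A0 hA0))
    (cts_tw _ (powχ_cont G X lam) _ hcs) (irr_tw _ hA0irr) hlam
  have h2 := G.geom_pull p _ h1
  refine criterion G q hqs hY ρ hc hirr hdet _ h2 A0.subtype ?_ ?_
  · intro h0
    obtain ⟨v, hv⟩ := hA0irr.1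
    exact hv (Subtype.ext (LinearMap.congr_fun h0 v))
  · intro z hz a
    have hdz : G.deg Z z = 1 := by rw [← G.map_deg q, hz, map_one]
    have hdp : G.deg X (G.map p z) = 1 := by rw [G.map_deg, hdz]
    have hsz : sh (G.map p z) = z := hinj _ _ (hs1 _) (by
      change G.map q (s (G.map p z)) = _
      rw [hs2, hdp, hz]
      simp)
    change ((powχ (G.deg X) lam (G.map p z) : Kˣ) : K) • ρ (sh (G.map p z)) (a : V) = _
    rw [powχ_apply, hdp, hsz]
    simp

end Pool.Agent.R484.GO
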