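import Pool.Agent.R484.GOc

/-! Fibrations with virtually abelian monodromy along the fibres. -/

namespace Pool.Agent.R484.GO

open scoped TensorProduct

set_option linter.unusedSectionVars false

section Alg

variable {K : Type} [Field K] [IsAlgClosed K]
variable {V : Type} [AddCommGroup V] [Module K V] [FiniteDimensional K V]
variable {W : Type} [Group W]

/-- A commuting family of operators has a common eigenvector. -/
theorem common_eigen (ρ : Representation K W V) (M : Subgroup W) (hV : ∃ v : V, v ≠ 0)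
    (hab : ∀ a ∈ M, ∀ b ∈ M, ρ a * ρ b = ρ b * ρ a) :
    ∃ (v0 : V) (ψ : W → K), v0 ≠ 0 ∧ ∀ m ∈ M, ρ m v0 = ψ m • v0 := by
  classical
  obtain ⟨S, hS, hSirr⟩ := exists_irr (ρ.comp M.subtype : Representation K M V) hV
  obtain ⟨v, hv⟩ := hSirr.1
  have hnt : Nontrivial S := ⟨⟨v, 0, hv⟩⟩
  have key : ∀ m ∈ M, ∃ c : K, ρ m (v : V) = c • (v : V) := by
    intro m hm
    let T : Module.End K S := sub (ρ.comp M.subtype : Representation K M V) S hS ⟨m, hm⟩
    obtain ⟨c, hc⟩ := Module.End.exists_eigenvalue T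
    obtain ⟨x, hx⟩ := hc.exists_hasEigenvector
    rcases hSirr.2 (Module.End.eigenspace T c) (by
      intro g y hy
      rw [Module.End.mem_eigenspace_iff] at hy ⊢
      apply Subtype.ext
      have h1 : ρ m (y : V) = c • (y : V) := congrArg Subtype.val hy
      have h2 : ρ m (ρ g (y : V)) = ρ g (ρ m (y : V)) := by
        rw [← Module.End.mul_apply, hab m hm g g.2, Module.End.mul_apply]
      change ρ m (ρ g (y : V)) = c • ρ g (y : V)
      rw [h2, h1, map_smul]) with h | h
    · have hx1 : x ∈ Module.End.eigenspace T c := Module.End.mem_eigenspace_iff.2 hx.apply_eq_smul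
      rw [h, Submodule.mem_bot] at hx1
      exact absurd hx1 hx.2
    · have hv1 : v ∈ Module.End.eigenspace T c := by rw [h]; exact Submodule.mem_top
      exact ⟨c, congrArg Subtype.val (Module.End.mem_eigenspace_iff.1 hv1)⟩
  refine ⟨v, fun m => if h : m ∈ M then (key m h).choose else 0, ?_, ?_⟩
  · intro h
    exact hv (Subtype.ext h)
  · intro m hm
    simp only [hm, dif_pos]
    exact (key m hm).choose_spec

/-- The eigenspace of `M` for `ψ`. -/
def eig (ρ : Representation K W V) (M : Subgroup W) (ψ : W → K) : Submodule K V where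
  carrier := {v | ∀ m ∈ M, ρ m v = ψ m • v}
  zero_mem' := by intro m _; simp
  add_mem' := by intro v w hv hw m hm; rw [map_add, hv m hm, hw m hm, smul_add]
  smul_mem' := by intro c v hv m hm; rw [map_smul, hv m hm, smul_comm]

/-- The stabiliser of a subspace. -/
def stab (ρ : Representation K W V) (E : Submodule K V) : Subgroup W where
  carrier := {g | ∀ v, ρ g v ∈ E ↔ v ∈ E}
  one_mem' := by intro v; simp
  mul_mem' := by
    intro a b ha hb v
    rw [map_mul, Module.End.mul_apply, ha, hb]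
  inv_mem' := by
    intro a ha v
    rw [← ha (ρ a⁻¹ v), ← Module.End.mul_apply, ← map_mul, mul_inv_cancel, map_one]
    rfl

theorem mem_stab_iff (ρ : Representation K W V) (E : Submodule K V) (g : W) :
    g ∈ stab ρ E ↔ ∀ v ∈ E, ρ g v ∈ E := by
  constructor
  · intro h v hv
    exact (h v).2 hv
  · intro h v
    constructor
    · intro hv
      -- the restriction of `ρ g` to `E` is injective, hence onto
      have hinj : Function.Injective ((ρ g).restrict h) := by
        intro x y hxy
        apply Subtype.ext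
        have h1 : ρ g (x : V) = ρ g (y : V) := congrArg Subtype.val hxy
        have h2 := congrArg (ρ g⁻¹) h1
        rwa [← Module.End.mul_apply, ← Module.End.mul_apply, ← map_mul, inv_mul_cancel,
          map_one] at h2
      obtain ⟨x, hx⟩ := (LinearMap.injective_iff_surjective.1 hinj) ⟨ρ g v, hv⟩
      have h1 : ρ g (x : V) = ρ g v := congrArg Subtype.val hx
      have h2 := congrArg (ρ g⁻¹) h1
      rw [← Module.End.mul_apply, ← Module.End.mul_apply, ← map_mul, inv_mul_cancel,
        map_one] at h2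
      have h3 : (x : V) = v := h2
      rw [← h3]
      exact x.2
    · exact h v

/-- The stabiliser of an eigenspace of a normal subgroup has finite index. -/
theorem stab_finite (ρ : Representation K W V) (M : Subgroup W) [hM : M.Normal] (ψ : W → K)
    (v0 : V) (h0 : v0 ≠ 0) (hv0 : v0 ∈ eig ρ M ψ) : (stab ρ (eig ρ M ψ)).FiniteIndex := by
  classical
  let 𝒜 : Subalgebra K (Module.End K V) := Algebra.adjoin K (ρ '' M)
  have hne : ∀ g, ρ g v0 ≠ 0 := by
    intro g h
    apply h0
    have := congrArg (ρ g⁻¹) h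
    rwa [← Module.End.mul_apply, ← map_mul, inv_mul_cancel, map_one, map_zero] at this
  have hconj : ∀ g, ∀ m ∈ M, ρ m (ρ g v0) = ψ (g⁻¹ * m * g) • ρ g v0 := by
    intro g m hm
    have h1 : g⁻¹ * m * g ∈ M := by simpa using hM.conj_mem m hm g⁻¹
    have h2 := hv0 _ h1
    have h3 : ρ m (ρ g v0) = ρ g (ρ (g⁻¹ * m * g) v0) := by
      rw [← Module.End.mul_apply, ← Module.End.mul_apply, ← map_mul, ← map_mul]
      congr 2
      group
    rw [h3, h2, map_smul]
  have hex : ∀ g, ∀ T ∈ 𝒜, ∃ c : K, T (ρ g v0) = c • ρ g v0 := by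
    intro g T hT
    induction hT using Algebra.adjoin_induction with
    | mem x hx =>
      obtain ⟨m, hm, rfl⟩ := hx
      exact ⟨_, hconj g m hm⟩
    | algebraMap r => exact ⟨r, by simp [Algebra.algebraMap_eq_smul_one]⟩
    | add x y _ _ hx hy =>
      obtain ⟨c, hc⟩ := hx
      obtain ⟨d, hd⟩ := hy
      exact ⟨c + d, by rw [LinearMap.add_apply, hc, hd, add_smul]⟩
    | mul x y _ _ hx hy =>
      obtain ⟨c, hc⟩ := hx
      obtain ⟨d, hd⟩ := hy
      exact ⟨c * d, by rw [Module.End.mul_apply, hd, map_smul, hc, smul_smul, mul_comm]⟩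
  choose c hc using hex
  have huniq : ∀ g (a b : K), a • ρ g v0 = b • ρ g v0 → a = b := fun g a b h =>
    smul_left_injective K (hne g) h
  let α : W → (𝒜 →ₐ[K] K) := fun g =>
    { toFun := fun T => c g T T.2
      map_one' := huniq g _ _ (by rw [← hc g _ (1 : 𝒜).2]; simp)
      map_mul' := fun S T => huniq g _ _ (by
        rw [← hc g _ (S * T).2, mul_smul]
        change (S : Module.End K V) ((T : Module.End K V) (ρ g v0)) = _
        rw [hc g T T.2, map_smul, hc g S S.2, smul_comm])
      map_zero' := huniq g _ _ (by rw [← hc g _ (0 : 𝒜).2]; simp)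
      map_add' := fun S T => huniq g _ _ (by
        rw [← hc g _ (S + T).2, add_smul, ← hc g S S.2, ← hc g T T.2]
        rfl)
      commutes' := fun r => huniq g _ _ (by
        rw [← hc g _ (algebraMap K 𝒜 r).2]
        simp [Algebra.algebraMap_eq_smul_one]) }
  have hα : ∀ g g', α g = α g' → ∀ m ∈ M, ψ (g⁻¹ * m * g) = ψ (g'⁻¹ * m * g') := by
    intro g g' h m hm
    have hmem : ρ m ∈ 𝒜 := Algebra.subset_adjoin ⟨m, hm, rfl⟩
    have h1 : c g (ρ m) hmem = c g' (ρ m) hmem := DFunLike.congr_fun h ⟨ρ m, hmem⟩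
    have h2 : c g (ρ m) hmem = ψ (g⁻¹ * m * g) :=
      huniq g _ _ (by rw [← hc g _ hmem, hconj g m hm])
    have h3 : c g' (ρ m) hmem = ψ (g'⁻¹ * m * g') :=
      huniq g' _ _ (by rw [← hc g' _ hmem, hconj g' m hm])
    rw [← h2, ← h3, h1]
  have hstab : ∀ g g', α g = α g' → g⁻¹ * g' ∈ stab ρ (eig ρ M ψ) := by
    intro g g' h
    rw [mem_stab_iff]
    intro v hv m hm
    have h1 : ((g⁻¹ * g')⁻¹ * m * (g⁻¹ * g')) ∈ M := by
      simpa using hM.conj_mem m hm (g⁻¹ * g')⁻¹
    have h2 : ρ m (ρ (g⁻¹ * g') v) =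
        ρ (g⁻¹ * g') (ρ ((g⁻¹ * g')⁻¹ * m * (g⁻¹ * g')) v) := by
      rw [← Module.End.mul_apply, ← Module.End.mul_apply, ← map_mul, ← map_mul]
      congr 2
      group
    rw [h2, hv _ h1, map_smul]
    congr 1
    have h3 := hα g g' h (g * m * g⁻¹) (hM.conj_mem m hm g)
    have h4 : g⁻¹ * (g * m * g⁻¹) * g = m := by group
    have h5 : g'⁻¹ * (g * m * g⁻¹) * g' = (g⁻¹ * g')⁻¹ * m * (g⁻¹ * g') := by group
    rw [h4, h5] at h3
    exact h3.symm
  have hfin : Finite (W ⧸ stab ρ (eig ρ M ψ)) := by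
    have hF : Finite (𝒜 →ₐ[K] K) := Fintype.finite (minpoly.AlgHom.fintype K 𝒜 K)
    refine Finite.of_injective (fun x : W ⧸ stab ρ (eig ρ M ψ) => α x.out) ?_
    intro x y hxy
    have := hstab _ _ hxy
    rw [← QuotientGroup.out_eq' x, ← QuotientGroup.out_eq' y]
    exact QuotientGroup.eq.2 this
  exact Subgroup.finiteIndex_of_finite_quotient

end Alg

section Main

variable {K : Type} [Field K] [TopologicalSpace K] [IsTopologicalRing K] [IsAlgClosed K]
  [T2Space K]
variable (G : Geometry K)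
variable {V : Type} [AddCommGroup V] [Module K V] [FiniteDimensional K V]

theorem closed_orbit {X : G.Var} (ρ : Representation K (G.W X) V) (hc : Cts ρ) (v x : V) :
    IsClosed {g | ρ g v = x} := by
  have : {g | ρ g v = x} = ⋂ l : V →ₗ[K] K, {g | l (ρ g v) = l x} := by
    ext g
    simp only [Set.mem_ofPred_eq, Set.mem_iInter]
    constructor
    · intro h l
      rw [h]
    · intro h
      by_contra hne
      have hne' : ρ g v - x ≠ 0 := sub_ne_zero.2 hne
      have := Module.forall_dual_apply_eq_zero_iff K (ρ g v - x)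
      exact hne' (this.1 fun l => by rw [map_sub, h l, sub_self])
  rw [this]
  exact isClosed_iInter fun l => isClosed_eq (hc v l) continuous_const

theorem stab_open {X : G.Var} (ρ : Representation K (G.W X) V) (hc : Cts ρ)
    (M : Subgroup (G.W X)) (ψ : G.W X → K) (hfi : (stab ρ (eig ρ M ψ)).FiniteIndex) :
    IsOpen (stab ρ (eig ρ M ψ) : Set (G.W X)) := by
  have hcl : IsClosed (stab ρ (eig ρ M ψ) : Set (G.W X)) := by
    have : (stab ρ (eig ρ M ψ) : Set (G.W X)) = ⋂ (v : eig ρ M ψ) (m : M) (l : V →ₗ[K] K),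
        {g | (l ∘ₗ (ρ m - ψ m • LinearMap.id : V →ₗ[K] V)) (ρ g v) = 0} := by
      ext g
      rw [SetLike.mem_coe, mem_stab_iff]
      simp only [Set.mem_iInter, Set.mem_ofPred_eq]
      constructor
      · intro h v m l
        have := h v v.2 m m.2
        rw [LinearMap.comp_apply, LinearMap.sub_apply, this, LinearMap.smul_apply,
          LinearMap.id_apply, sub_self, map_zero]
      · intro h v hv m hm
        have h1 := (Module.forall_dual_apply_eq_zero_iff K
          ((ρ m - ψ m • LinearMap.id : V →ₗ[K] V) (ρ g v))).1 fun l => h ⟨v, hv⟩ ⟨m, hm⟩ l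
        rw [LinearMap.sub_apply, LinearMap.smul_apply, LinearMap.id_apply, sub_eq_zero] at h1
        exact h1
    rw [this]
    exact isClosed_iInter fun v => isClosed_iInter fun m => isClosed_iInter fun l =>
      isClosed_eq (hc v _) continuous_const
  exact Subgroup.isOpen_of_isClosed_of_finiteIndex _ hcl

/-- The eigencharacter has finite order. -/
theorem eig_finite_order {X : G.Var} (ρ : Representation K (G.W X) V) (hc : Cts ρ)
    (M : Subgroup (G.W X)) [M.Normal] (hab : ∀ a ∈ M, ∀ b ∈ M, ρ a * ρ b = ρ b * ρ a)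
    (hdeg : ∀ m ∈ M, G.deg X m = 1) (ψ : G.W X → K) (v0 : V) (h0 : v0 ≠ 0)
    (hv0 : v0 ∈ eig ρ M ψ) : ∃ e : ℕ, 0 < e ∧ ∀ m ∈ M, ψ m ^ e = 1 := by
  classical
  have hfi := stab_finite ρ M ψ v0 h0 hv0
  have hop := stab_open G ρ hc M ψ hfi
  set U := stab ρ (eig ρ M ψ) with hU
  let ρU : Representation K U V := ρ.comp U.subtype
  have hρU : Cts ρU := cts_comp ρ U.subtype continuous_subtype_val hc
  have hinv : Inv ρU (eig ρ M ψ) := fun g v hv => (g.2 v).2 hv
  have hcs := cts_sub ρU _ hinv hρU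
  obtain ⟨m, hm, hcft⟩ := G.cft X U hop hfi (detχ (sub ρU _ hinv)) (cts_det _ hcs)
  have hE : 0 < Module.finrank K (eig ρ M ψ) :=
    Module.finrank_pos_iff_exists_ne_zero.2
      ⟨⟨v0, hv0⟩, fun h => h0 (congrArg Subtype.val h)⟩
  refine ⟨Module.finrank K (eig ρ M ψ) * m, Nat.mul_pos hE hm, fun a ha => ?_⟩
  have haU : a ∈ U := by
    rw [hU, mem_stab_iff]
    intro v hv b hb
    rw [← Module.End.mul_apply, hab b hb a ha, Module.End.mul_apply, hv b hb, map_smul]
  have h1 := hcft ⟨a, haU⟩ (hdeg a ha)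
  have h2 : sub ρU _ hinv ⟨a, haU⟩ = ψ a • LinearMap.id := by
    ext v
    exact v.2 a ha
  have h3 := congrArg Units.val h1
  rw [Units.val_pow_eq_pow_val, detχ_coe, h2, LinearMap.det_smul, LinearMap.det_id, mul_one,
    ← pow_mul] at h3
  exact h3

/-- Sheaves with virtually abelian monodromy along the fibres of a fibration over a base for
which the conjecture holds. -/
theorem fib_one {X S : G.Var} (f : G.Dom X S) (hf : Function.Surjective (G.map f))
    (hS : Conj G S) (ρ : Representation K (G.W X) V) (hc : Cts ρ) (hirr : Irr ρ)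
    (hdet : FinDet ρ) (M : Subgroup (G.W X)) [M.Normal] (hMN : M ≤ (G.map f).ker)
    (hfin : M.relIndex (G.map f).ker ≠ 0)
    (hab : ∀ a ∈ M, ∀ b ∈ M, ρ a * ρ b = ρ b * ρ a) : G.Geom X ρ := by
  classical
  have hdegN : ∀ n, G.map f n = 1 → G.deg X n = 1 := fun n hn => by
    rw [← G.map_deg f, hn, map_one]
  obtain ⟨v0, ψ, h0, hv0⟩ := common_eigen ρ M hirr.1 hab
  obtain ⟨e, he, hψ⟩ := eig_finite_order G ρ hc M hab (fun m hm => hdegN m (hMN hm)) ψ v0 h0 hv0
  -- the orbit of `v0` under the kernel is finite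
  have hF : {x | ∃ n, G.map f n = 1 ∧ ρ n v0 = x}.Finite := by
    have hfi : (M.subgroupOf (G.map f).ker).FiniteIndex := ⟨hfin⟩
    have hq : Finite ((G.map f).ker ⧸ M.subgroupOf (G.map f).ker) :=
      Subgroup.finite_quotient_of_finiteIndex
    have hroots : {z : K | z ^ e = 1}.Finite := by
      refine (Polynomial.nthRoots e (1 : K)).toFinset.finite_toSet.subset ?_
      intro z hz
      simp only [Finset.mem_coe, Multiset.mem_toFinset]
      exact (Polynomial.mem_nthRoots he).2 hz
    refine ((Set.finite_range fun q : (G.map f).ker ⧸ M.subgroupOf (G.map f).ker =>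
      ρ ((q.out : (G.map f).ker) : G.W X) v0).image2 (fun w z => z • w) hroots).subset ?_
    rintro x ⟨n, hn, rfl⟩
    let n' : (G.map f).ker := ⟨n, hn⟩
    have h1 : ((QuotientGroup.mk n' : (G.map f).ker ⧸ M.subgroupOf (G.map f).ker).out)⁻¹ * n' ∈
        M.subgroupOf (G.map f).ker := QuotientGroup.eq.1 (QuotientGroup.out_eq' _)
    rw [Subgroup.mem_subgroupOf] at h1
    refine ⟨_, ⟨QuotientGroup.mk n', rfl⟩, ψ _, hψ _ h1, ?_⟩
    simp only
    rw [← map_smul, ← hv0 _ h1, ← Module.End.mul_apply, ← map_mul]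
    congr 2
    simp [n']
  -- an open normal subgroup of finite index
  obtain ⟨U, hUn, hUo, hUf, hU⟩ := G.basis X
    {g | ρ g v0 ∈ {x | ∃ n, G.map f n = 1 ∧ ρ n v0 = x} \ {v0}}ᶜ (by
      rw [isOpen_compl_iff]
      have : {g | ρ g v0 ∈ {x | ∃ n, G.map f n = 1 ∧ ρ n v0 = x} \ {v0}} =
          ⋃ x ∈ {x | ∃ n, G.map f n = 1 ∧ ρ n v0 = x} \ {v0}, {g | ρ g v0 = x} := by
        ext g
        simp
      rw [this]
      exact (hF.subset Set.sdiff_subset).isClosed_biUnion fun x _ => closed_orbit G ρ hc v0 x)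
    (by simp)
  have hfix : ∀ n ∈ U, G.map f n = 1 → ρ n v0 = v0 := by
    intro n hn hn1
    have h1 := hU n hn (hdegN n hn1)
    by_contra hne
    exact h1 ⟨⟨n, hn1, rfl⟩, hne⟩
  -- the permutation representation
  have hq : Finite (G.W X ⧸ U) := Subgroup.finite_quotient_of_finiteIndex
  let _ : Fintype (G.W X ⧸ U) := Fintype.ofFinite _
  let α : Representation K (G.W X) ((G.W X ⧸ U) → K) :=
    { toFun := fun g => LinearMap.funLeft K K (fun x => g⁻¹ • x)
      map_one' := by ext a x; simp [LinearMap.funLeft_apply]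
      map_mul' := fun g h => by
        apply LinearMap.ext
        intro a
        funext x
        simp only [LinearMap.funLeft_apply, Module.End.mul_apply, mul_inv_rev, mul_smul] }
  have hαapp : ∀ g a x, α g a x = a (g⁻¹ • x) := fun g a x => rfl
  have hα : G.Geom X α := by
    refine G.geom_finite X α ⟨U, hUo, hUf, fun u hu => ?_⟩
    apply LinearMap.ext
    intro a
    funext x
    rw [hαapp]
    induction x using QuotientGroup.induction_on with
    | H z =>
      change a (((u⁻¹ * z : G.W X)) : G.W X ⧸ U) = a z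
      congr 1
      apply QuotientGroup.eq.2
      have := hUn.conj_mem u hu z⁻¹
      simpa [mul_inv_rev] using this
  let t : (G.W X ⧸ U) → V := fun x =>
    if h : ∃ n, G.map f n = 1 ∧ (n : G.W X ⧸ U) = x then ρ h.choose v0 else 0
  have ht1 : ∀ n, G.map f n = 1 → t (n : G.W X ⧸ U) = ρ n v0 := by
    intro n hn
    have hex : ∃ n', G.map f n' = 1 ∧ (n' : G.W X ⧸ U) = (n : G.W X ⧸ U) := ⟨n, hn, rfl⟩
    have : t (n : G.W X ⧸ U) = ρ hex.choose v0 := dif_pos hex
    rw [this]
    obtain ⟨h1, h2⟩ := hex.choose_spec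
    have h3 := QuotientGroup.eq.1 h2
    have h4 := hfix _ h3 (by rw [map_mul, map_inv, h1, hn]; simp)
    have h5 : n = hex.choose * (hex.choose⁻¹ * n) := by group
    conv_rhs => rw [h5, map_mul, Module.End.mul_apply, h4]
  have ht2 : ∀ n, G.map f n = 1 → ∀ x, t (n • x) = ρ n (t x) := by
    intro n hn x
    by_cases hx : ∃ n', G.map f n' = 1 ∧ (n' : G.W X ⧸ U) = x
    · obtain ⟨n', hn', rfl⟩ := hx
      rw [ht1 n' hn', ← Module.End.mul_apply, ← map_mul, ← ht1 (n * n') (by
        rw [map_mul, hn, hn', one_mul])]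
      rfl
    · have h1 : t x = 0 := dif_neg hx
      have h2 : t (n • x) = 0 := dif_neg (by
        rintro ⟨n', hn', hx'⟩
        apply hx
        refine ⟨n⁻¹ * n', by rw [map_mul, map_inv, hn, hn']; simp, ?_⟩
        have : (((n⁻¹ * n' : G.W X)) : G.W X ⧸ U) = n⁻¹ • (n' : G.W X ⧸ U) := rfl
        rw [this, hx', inv_smul_smul])
      rw [h1, h2, map_zero]
  let T0 : ((G.W X ⧸ U) → K) →ₗ[K] V := ∑ x, LinearMap.toSpanSingleton K V (t x) ∘ₗ
    LinearMap.proj x
  have hT0 : ∀ a, T0 a = ∑ x, a x • t x := by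
    intro a
    simp [T0, LinearMap.sum_apply]
  refine criterion G f hf hS ρ hc hirr hdet α hα T0 ?_ ?_
  · intro h
    have h1 := LinearMap.congr_fun h (Pi.single ((1 : G.W X) : G.W X ⧸ U) 1)
    rw [hT0, Finset.sum_eq_single ((1 : G.W X) : G.W X ⧸ U)] at h1
    · rw [Pi.single_eq_same, one_smul, ht1 1 (map_one _), map_one] at h1
      exact h0 h1
    · intro x _ hx
      rw [Pi.single_eq_of_ne hx, zero_smul]
    · intro h
      exact absurd (Finset.mem_univ _) h
  · intro n hn a
    rw [hT0, hT0, map_sum]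
    rw [← Equiv.sum_comp (MulAction.toPerm n)]
    refine Finset.sum_congr rfl fun x _ => ?_
    rw [hαapp, MulAction.toPerm_apply, inv_smul_smul, ht2 n hn, map_smul]

end Main

end Pool.Agent.R484.GO
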