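import Pool.Agent.R484.GOc
import Pool.Agent.R484.RFa

/-! Sheaves of geometric origin: finite etale covers and affine space. -/

namespace Pool.Agent.R484.GO

set_option linter.unusedSectionVars false

/-- Dimension and affine spaces, with Kedlaya's theorem. -/
structure GeometryAff (K : Type) [Field K] [TopologicalSpace K] extends Geometry K where
  /-- The dimension. -/
  dim : Var → ℕ
  small_dim : ∀ X, dim X = 0 → Small X
  /-- The affine space of dimension `n` over `F_q`. -/
  Aff : ℕ → Var
  aff_dim : ∀ n, dim (Aff n) = n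
  /-- Coordinate projections. -/
  aff_proj : ∀ m n, m ≤ n → Nonempty (Dom (Aff n) (Aff m))
  /-- Kedlaya: a dense open part `U` of `X` is finite etale over affine space. -/
  kedlaya : ∀ X, 1 ≤ dim X → ∃ (U : Var) (_ : Dom U X) (e : Dom U (Aff (dim X))),
    Function.Injective (map e) ∧ (map e).range.FiniteIndex

variable {K : Type} [Field K] [TopologicalSpace K] [IsTopologicalRing K] [IsAlgClosed K]
variable (G : Geometry K)

/-- The conjecture passes to finite etale covers. -/
theorem conj_cover {U L : G.Var} (e : G.Dom U L) (he : Function.Injective (G.map e))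
    (hfi : (G.map e).range.FiniteIndex) (h : Conj G L) : Conj G U := by
  intro V _ _ _ ρ hc hirr hdet
  obtain ⟨W, _, _, _, σ, T, hσ, hσirr, hT, hTs⟩ := RF.exists_ind (G.map e)
    (Topology.IsOpenEmbedding.of_continuous_injective_isOpenMap (G.map_cont e) he (G.map_open e))
    hfi ρ hc hirr
  obtain ⟨lam, hlam⟩ := normalize G L σ hσ hσirr.1
  have h1 := h W (tw (powχ (G.deg L) lam) σ) (cts_tw _ (powχ_cont G L lam) _ hσ)
    (irr_tw _ hσirr) hlam
  have h2 := G.geom_pull e _ h1
  have h3 : Equi ((tw (powχ (G.deg L) lam) σ).comp (G.map e)) (tw (powχ (G.deg U) lam) ρ) T := by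
    intro g v
    have hd : powχ (G.deg L) lam (G.map e g) = powχ (G.deg U) lam g := by
      rw [powχ_apply, powχ_apply, G.map_deg]
    change T ((powχ (G.deg L) lam (G.map e g) : K) • σ (G.map e g) v) = _
    rw [hd, map_smul, tw_apply]
    exact congrArg _ (hT g v)
  exact untwist G U lam ρ hirr.1 hdet (G.geom_quot U _ _ T h3 hTs h2)

end Pool.Agent.R484.GO
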