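import Mathlib

/-! Joint equidistribution: dihedral actions and boxes. -/

namespace Pool.Agent.R484.JE

open MulAction

set_option linter.unusedSectionVars false

section

variable {G : Type} [Group G] {I : Type} [Fintype I] [DecidableEq I] {Z : I → Type}
  [∀ b, MulAction G (Z b)]

/-- The Galois action on the points `x b`: the normal subgroups `K b` act through abelian groups,
the elements outside `K b` act by inversion on the elements of `K b` in `N b`, and the `K b` are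
pairwise incomparable. -/
structure Dih (x : ∀ b, Z b) (K N : I → Subgroup G) : Prop where
  normal : ∀ b, (K b).Normal
  comm : ∀ b, ∀ w ∈ orbit G (x b), ∀ σ ∈ K b, ∀ τ ∈ K b, σ • τ • w = τ • σ • w
  dih : ∀ b, ∀ w ∈ orbit G (x b), ∀ σ ∈ K b, σ ∈ N b → ∀ c ∉ K b, c • σ • c⁻¹ • w = σ⁻¹ • w
  sep : ∀ b b', b ≠ b' → ∃ c ∈ K b', c ∉ K b

/-- The subgroup `Γ ∩ ⋂ K b`. -/
def Dl (Γ : Subgroup G) (K : I → Subgroup G) : Subgroup G := Γ ⊓ ⨅ b, K b

/-- The elements acting trivially on the orbits of all `x b'`, `b' ≠ b`. -/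
def Pb (x : ∀ b, Z b) (K : I → Subgroup G) (Γ : Subgroup G) (b : I) : Subgroup G where
  carrier := {h | h ∈ Dl Γ K ∧ ∀ b', b' ≠ b → ∀ w ∈ orbit G (x b'), h • w = w}
  one_mem' := ⟨one_mem _, fun _ _ w _ => one_smul G w⟩
  mul_mem' := by
    rintro a c ⟨ha, ha'⟩ ⟨hc, hc'⟩
    exact ⟨mul_mem ha hc, fun b' hb' w hw => by rw [mul_smul, hc' b' hb' w hw, ha' b' hb' w hw]⟩
  inv_mem' := by
    rintro a ⟨ha, ha'⟩
    exact ⟨inv_mem ha, fun b' hb' w hw => by
      rw [inv_smul_eq_iff, ha' b' hb' w hw]⟩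

theorem Pb_le (x : ∀ b, Z b) (K : I → Subgroup G) (Γ : Subgroup G) (b : I) :
    Pb x K Γ b ≤ K b := fun _ hh => (Subgroup.mem_iInf.1 hh.1.2) b

theorem core (x : ∀ b, Z b) (K N : I → Subgroup G) (hx : Dih x K N) (Γ : Subgroup G)
    (hΓ : Γ.Normal) (hΓN : ∀ b, Γ ≤ N b) (b : I) (S : Finset I) (hb : b ∉ S) :
    ∀ g ∈ Dl Γ K, ∃ h ∈ Dl Γ K, (∀ b' ∈ S, ∀ w ∈ orbit G (x b'), h • w = w) ∧
      ∀ w ∈ orbit G (x b), h • w = g ^ (2 ^ S.card) • w := by
  induction S using Finset.induction_on with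
  | empty =>
    intro g hg
    exact ⟨g, hg, by simp, by simp⟩
  | insert k S hk ih =>
    intro g hg
    rw [Finset.mem_insert, not_or] at hb
    obtain ⟨h, hh, h1, h2⟩ := ih hb.2 g hg
    obtain ⟨c, hck, hcb⟩ := hx.sep b k hb.1
    have hK : ∀ b, ∀ g ∈ Dl Γ K, g ∈ K b := fun b g hg => (Subgroup.mem_iInf.1 hg.2) b
    have hconj : c * h⁻¹ * c⁻¹ ∈ Dl Γ K := by
      refine ⟨hΓ.conj_mem _ (inv_mem hh.1) c, Subgroup.mem_iInf.2 fun b' => ?_⟩
      exact (hx.normal b').conj_mem _ (inv_mem (hK b' h hh)) c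
    have horb : ∀ b', ∀ w ∈ orbit G (x b'), ∀ σ : G, σ • w ∈ orbit G (x b') := by
      rintro b' _ ⟨τ, rfl⟩ σ
      exact ⟨σ * τ, mul_smul σ τ (x b')⟩
    refine ⟨h * (c * h⁻¹ * c⁻¹), mul_mem hh hconj, ?_, ?_⟩
    · intro b' hb' w hw
      rcases Finset.mem_insert.1 hb' with rfl | hb''
      · have e1 : c • h⁻¹ • c⁻¹ • w = h⁻¹ • w := by
          rw [hx.comm b' _ (horb b' w hw _) c hck h⁻¹ (inv_mem (hK b' h hh)), smul_inv_smul]
        rw [mul_smul, mul_smul, mul_smul, e1, smul_inv_smul]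
      · have e1 : h⁻¹ • c⁻¹ • w = c⁻¹ • w := by
          rw [inv_smul_eq_iff, h1 b' hb'' _ (horb b' w hw _)]
        rw [mul_smul, mul_smul, mul_smul, e1, smul_inv_smul, h1 b' hb'' w hw]
    · intro w hw
      have e1 : c • h⁻¹ • c⁻¹ • w = h • w := by
        rw [hx.dih b w hw h⁻¹ (inv_mem (hK b h hh)) (hΓN b (inv_mem hh.1)) c hcb, inv_inv]
      rw [mul_smul, mul_smul, mul_smul, e1, Finset.card_insert_of_notMem hk, pow_succ, pow_mul,
        h2 w hw, h2 _ (horb b w hw _), ← mul_smul, ← pow_two]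

theorem mem_Pb_pow (x : ∀ b, Z b) (K N : I → Subgroup G) (hx : Dih x K N) (Γ : Subgroup G)
    (hΓ : Γ.Normal) (hΓN : ∀ b, Γ ≤ N b) (b : I) (g : G) (hg : g ∈ Dl Γ K) (w : Z b) (hw : w ∈ orbit G (x b)) :
    ∃ h ∈ Pb x K Γ b, h • w = g ^ (2 ^ (Fintype.card I - 1)) • w := by
  obtain ⟨h, hh, h1, h2⟩ := core x K N hx Γ hΓ hΓN b (Finset.univ.erase b) (by simp) g hg
  refine ⟨h, ⟨hh, fun b' hb' w hw => h1 b' (by simp [hb']) w hw⟩, ?_⟩
  rw [h2 w hw, Finset.card_erase_of_mem (Finset.mem_univ b), Finset.card_univ]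

/-- The orbit of `x` contains the boxes. -/
theorem box_mem (x : ∀ b, Z b) (K : I → Subgroup G) (Γ Γ0 : Subgroup G) (hΓ : Γ ≤ Γ0)
    (w w' : ∀ b, Z b) (hw : w ∈ orbit Γ0 x) (hw' : ∀ b, w' b ∈ orbit (Pb x K Γ b) (w b)) :
    w' ∈ orbit Γ0 x := by
  classical
  have key : ∀ S : Finset I, (fun b => if b ∈ S then w' b else w b) ∈ orbit Γ0 x := by
    intro S
    induction S using Finset.induction_on with
    | empty => simpa using hw
    | insert k S hk ih =>
      obtain ⟨⟨h, hh⟩, hh'⟩ := hw' k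
      obtain ⟨⟨g, hg⟩, hg'⟩ := ih
      refine ⟨⟨h * g, mul_mem (hΓ hh.1.1) hg⟩, ?_⟩
      funext b
      have e1 : g • x b = if b ∈ S then w' b else w b := congrFun hg' b
      have e2 : h • w k = w' k := hh'
      change (h * g) • x b = _
      rw [mul_smul]
      by_cases hbk : b = k
      · subst hbk
        rw [e1, if_neg hk, if_pos (Finset.mem_insert_self _ _), e2]
      · rw [show h • g • x b = g • x b from hh.2 b hbk _ (mem_orbit (x b) g), e1]
        by_cases hbS : b ∈ S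
        · rw [if_pos hbS, if_pos (Finset.mem_insert_of_mem hbS)]
        · rw [if_neg hbS, if_neg (by simp [hbk, hbS])]
  have := key Finset.univ
  simpa using this

end

/-- The average of `F` over the finite set `S`. -/
noncomputable def avg {Z : Type} (S : Set Z) (F : Z → ℝ) : ℝ := (∑ᶠ w ∈ S, F w) / S.ncard

theorem avg_eq {Z : Type} (S : Finset Z) (F : Z → ℝ) :
    avg (S : Set Z) F = (∑ w ∈ S, F w) / S.card := by
  rw [avg, finsum_mem_coe_finset, Set.ncard_coe_finset]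

/-- The average over `S` of the averages over the classes. -/
theorem avg_class {Z : Type} [DecidableEq Z] (S : Finset Z) (B : Z → Finset Z)
    (hself : ∀ w ∈ S, w ∈ B w) (hsub : ∀ w ∈ S, B w ⊆ S)
    (heq : ∀ w ∈ S, ∀ w' ∈ B w, B w' = B w) (F : Z → ℝ) :
    ∑ w ∈ S, (∑ w' ∈ B w, F w') / (B w).card = ∑ w ∈ S, F w := by
  classical
  have h1 : ∀ w ∈ S, (∑ w' ∈ B w, F w') / ((B w).card : ℝ) =
      ∑ w' ∈ S, if w' ∈ B w then F w' / ((B w').card : ℝ) else 0 := by
    intro w hw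
    rw [← Finset.sum_filter, Finset.sum_div]
    have : S.filter (fun w' => w' ∈ B w) = B w := by
      ext w'
      rw [Finset.mem_filter]
      exact ⟨fun h => h.2, fun h => ⟨hsub w hw h, h⟩⟩
    rw [this]
    exact Finset.sum_congr rfl fun w' hw' => by rw [heq w hw w' hw']
  rw [Finset.sum_congr rfl h1, Finset.sum_comm]
  refine Finset.sum_congr rfl fun w' hw' => ?_
  rw [← Finset.sum_filter, Finset.sum_const, nsmul_eq_mul]
  have : S.filter (fun w => w' ∈ B w) = B w' := by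
    ext w
    rw [Finset.mem_filter]
    constructor
    · rintro ⟨hw, h⟩
      rw [heq w hw w' h]
      exact hself w hw
    · intro h
      have hwS := hsub w' hw' h
      refine ⟨hwS, ?_⟩
      rw [heq w' hw' w h]
      exact hself w' hw'
  rw [this]
  have : ((B w').card : ℝ) ≠ 0 := by
    have := Finset.card_pos.2 ⟨w', hself w' hw'⟩
    positivity
  field_simp

/-- Averages over a set which is a union of boxes. -/
theorem avg_box {I : Type} [Fintype I] [DecidableEq I] {Z : I → Type} [∀ b, DecidableEq (Z b)]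
    (S : Finset (∀ b, Z b)) (hS : S.Nonempty) (O : ∀ b, Z b → Finset (Z b))
    (hself : ∀ w ∈ S, ∀ b, w b ∈ O b (w b)) (hbox : ∀ w ∈ S, Fintype.piFinset (fun b => O b (w b)) ⊆ S)
    (heq : ∀ w ∈ S, ∀ b, ∀ z ∈ O b (w b), O b z = O b (w b)) (f : ∀ b, Z b → ℝ) (c η : ℝ)
    (h : ∀ w ∈ S, |∏ b, ((∑ z ∈ O b (w b), f b z) / (O b (w b)).card) - c| ≤ η) :
    |(∑ w ∈ S, ∏ b, f b (w b)) / S.card - c| ≤ η := by
  classical
  have h1 := avg_class S (fun w => Fintype.piFinset (fun b => O b (w b)))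
    (fun w hw => Fintype.mem_piFinset.2 (hself w hw)) hbox
    (fun w hw w' hw' => by
      have h2 := Fintype.mem_piFinset.1 hw'
      congr 1
      funext b
      exact heq w hw b _ (h2 b)) (fun w => ∏ b, f b (w b))
  have h2 : ∀ w ∈ S, (∑ w' ∈ Fintype.piFinset (fun b => O b (w b)), ∏ b, f b (w' b)) /
      ((Fintype.piFinset (fun b => O b (w b))).card : ℝ) =
      ∏ b, ((∑ z ∈ O b (w b), f b z) / (O b (w b)).card) := by
    intro w _
    rw [← Finset.prod_univ_sum, Fintype.card_piFinset, Finset.prod_div_distrib]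
    push_cast
    rfl
  rw [Finset.sum_congr rfl h2] at h1
  have hc : (0 : ℝ) < S.card := by exact_mod_cast hS.card_pos
  rw [← h1]
  have h3 : (∑ w ∈ S, ∏ b, ((∑ z ∈ O b (w b), f b z) / ((O b (w b)).card : ℝ))) / S.card - c =
      (∑ w ∈ S, (∏ b, ((∑ z ∈ O b (w b), f b z) / ((O b (w b)).card : ℝ)) - c)) / S.card := by
    rw [Finset.sum_sub_distrib, Finset.sum_const, nsmul_eq_mul]
    field_simp
  rw [h3, abs_div, abs_of_pos hc, div_le_iff₀ hc]
  calc |∑ w ∈ S, (∏ b, ((∑ z ∈ O b (w b), f b z) / ((O b (w b)).card : ℝ)) - c)|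
      ≤ ∑ w ∈ S, |∏ b, ((∑ z ∈ O b (w b), f b z) / ((O b (w b)).card : ℝ)) - c| :=
        Finset.abs_sum_le_sum_abs _ _
    _ ≤ ∑ _w ∈ S, η := Finset.sum_le_sum h
    _ = η * S.card := by rw [Finset.sum_const, nsmul_eq_mul]; ring

theorem avg_of_finite {Z : Type} (S : Set Z) (hS : S.Finite) (F : Z → ℝ) :
    avg S F = (∑ w ∈ hS.toFinset, F w) / hS.toFinset.card := by
  rw [← avg_eq, hS.coe_toFinset]

/-- Averages over a set which is a union of boxes. -/
theorem avg_box' {I : Type} [Fintype I] {Z : I → Type} (S : Set (∀ b, Z b)) (hSf : S.Finite)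
    (hS : S.Nonempty) (O : ∀ b, Z b → Set (Z b)) (hOf : ∀ w ∈ S, ∀ b, (O b (w b)).Finite)
    (hself : ∀ w ∈ S, ∀ b, w b ∈ O b (w b))
    (hbox : ∀ w ∈ S, ∀ w' : ∀ b, Z b, (∀ b, w' b ∈ O b (w b)) → w' ∈ S)
    (heq : ∀ w ∈ S, ∀ b, ∀ z ∈ O b (w b), O b z = O b (w b)) (f : ∀ b, Z b → ℝ) (c η : ℝ)
    (h : ∀ w ∈ S, |∏ b, avg (O b (w b)) (f b) - c| ≤ η) :
    |avg S (fun w => ∏ b, f b (w b)) - c| ≤ η := by
  classical
  let O' : ∀ b, Z b → Finset (Z b) := fun b z => if hz : (O b z).Finite then hz.toFinset else ∅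
  have hO' : ∀ w ∈ S, ∀ b, (O' b (w b) : Set (Z b)) = O b (w b) := by
    intro w hw b
    simp only [O', dif_pos (hOf w hw b), Set.Finite.coe_toFinset]
  have hmem : ∀ w ∈ S, ∀ b z, z ∈ O' b (w b) ↔ z ∈ O b (w b) := by
    intro w hw b z
    rw [← Finset.mem_coe, hO' w hw b]
  rw [avg_of_finite S hSf]
  refine avg_box hSf.toFinset (by simpa using hS) O' ?_ ?_ ?_ f c η ?_
  · intro w hw b
    have hw' := hSf.mem_toFinset.1 hw
    exact (hmem w hw' b _).2 (hself w hw' b)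
  · intro w hw w' hw'
    have hwS := hSf.mem_toFinset.1 hw
    rw [Fintype.mem_piFinset] at hw'
    exact hSf.mem_toFinset.2 (hbox w hwS w' fun b => (hmem w hwS b _).1 (hw' b))
  · intro w hw b z hz
    have hwS := hSf.mem_toFinset.1 hw
    have hz' := (hmem w hwS b z).1 hz
    have h1 := heq w hwS b z hz'
    simp only [O', h1]
  · intro w hw
    have hwS := hSf.mem_toFinset.1 hw
    have h1 := h w hwS
    have h2 : ∀ b, avg (O b (w b)) (f b) = (∑ z ∈ O' b (w b), f b z) / (O' b (w b)).card := by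
      intro b
      rw [← avg_eq, hO' w hwS b]
    simpa only [h2] using h1

theorem avg_add {Z : Type} (S : Set Z) (hS : S.Finite) (F F' : Z → ℝ) :
    avg S (fun w => F w + F' w) = avg S F + avg S F' := by
  rw [avg_of_finite S hS, avg_of_finite S hS, avg_of_finite S hS, Finset.sum_add_distrib, add_div]

theorem avg_smul {Z : Type} (S : Set Z) (hS : S.Finite) (c : ℝ) (F : Z → ℝ) :
    avg S (fun w => c * F w) = c * avg S F := by
  rw [avg_of_finite S hS, avg_of_finite S hS, ← Finset.mul_sum, mul_div_assoc]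

theorem avg_close {Z : Type} (S : Set Z) (hS : S.Finite) (hne : S.Nonempty) (F F' : Z → ℝ)
    (ε : ℝ) (h : ∀ w, |F w - F' w| ≤ ε) : |avg S F - avg S F'| ≤ ε := by
  rw [avg_of_finite S hS, avg_of_finite S hS, ← sub_div, ← Finset.sum_sub_distrib, abs_div]
  have hc : (0 : ℝ) < hS.toFinset.card := by
    have : 0 < hS.toFinset.card := Finset.card_pos.2 (by simpa using hne)
    exact_mod_cast this
  rw [abs_of_pos hc, div_le_iff₀ hc]
  calc _ ≤ ∑ w ∈ hS.toFinset, |F w - F' w| := Finset.abs_sum_le_sum_abs _ _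
    _ ≤ ∑ _w ∈ hS.toFinset, ε := Finset.sum_le_sum fun w _ => h w
    _ = _ := by rw [Finset.sum_const, nsmul_eq_mul]; ring

end Pool.Agent.R484.JE
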