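import Pool.Agent.R484.JEa

/-! Joint equidistribution: the index bound. -/

namespace Pool.Agent.R484.JE

open MulAction

section

variable {A : Type} [CommGroup A] [Finite A]

theorem card_le_ker_mul (φ : A →* A) (D : Subgroup A) :
    Nat.card D ≤ Nat.card φ.ker * Nat.card (D.map φ) := by
  have h1 := Subgroup.card_mul_index (φ.comp D.subtype).ker
  rw [Subgroup.index_ker] at h1
  have h2 : (φ.comp D.subtype).range = D.map φ := by
    rw [MonoidHom.range_comp, Subgroup.range_subtype]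
  have h3 : Nat.card (φ.comp D.subtype).ker ≤ Nat.card φ.ker := by
    refine Nat.card_le_card_of_injective (fun x => (⟨((x : D) : A), x.2⟩ : φ.ker)) ?_
    intro x y hxy
    exact Subtype.ext (Subtype.ext (Subtype.mk.inj hxy))
  rw [← h1, h2]
  exact Nat.mul_le_mul_right _ h3

theorem card_torsion_le (m : ℕ) :
    Nat.card (powMonoidHom (2 ^ m) : A →* A).ker ≤
      Nat.card (powMonoidHom 2 : A →* A).ker ^ m := by
  induction m with
  | zero =>
    rw [pow_zero, pow_zero]
    have : (powMonoidHom 1 : A →* A).ker = ⊥ := by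
      ext a
      simp [MonoidHom.mem_ker]
    rw [this]
    simp
  | succ m ih =>
    have h1 := card_le_ker_mul (powMonoidHom 2 : A →* A) (powMonoidHom (2 ^ (m + 1)) : A →* A).ker
    have h2 : (powMonoidHom (2 ^ (m + 1)) : A →* A).ker.map (powMonoidHom 2) ≤
        (powMonoidHom (2 ^ m) : A →* A).ker := by
      rintro _ ⟨a, ha, rfl⟩
      have ha' : a ^ (2 ^ (m + 1)) = 1 := ha
      rw [MonoidHom.mem_ker]
      change (a ^ 2) ^ (2 ^ m) = 1
      rw [← pow_mul, ← pow_succ']
      exact ha'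
    have h3 := Subgroup.card_le_of_le h2
    calc _ ≤ _ := h1
      _ ≤ Nat.card (powMonoidHom 2 : A →* A).ker * Nat.card (powMonoidHom 2 : A →* A).ker ^ m :=
        Nat.mul_le_mul_left _ (h3.trans ih)
      _ = _ := (pow_succ' _ _).symm

theorem card_abelian (D H : Subgroup A) (m : ℕ) (h : ∀ g ∈ D, g ^ (2 ^ m) ∈ H) :
    Nat.card A ≤ D.index * Nat.card (powMonoidHom 2 : A →* A).ker ^ m * Nat.card H := by
  have h1 := card_le_ker_mul (powMonoidHom (2 ^ m) : A →* A) D
  have h2 : D.map (powMonoidHom (2 ^ m)) ≤ H := by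
    rintro _ ⟨a, ha, rfl⟩
    exact h a ha
  have h3 := Subgroup.card_le_of_le h2
  rw [← Subgroup.card_mul_index D]
  calc Nat.card D * D.index ≤ (Nat.card (powMonoidHom 2 : A →* A).ker ^ m * Nat.card H) *
      D.index := Nat.mul_le_mul_right _ (h1.trans (Nat.mul_le_mul (card_torsion_le m) h3))
    _ = _ := by ring

end

theorem orbit_card_le {G Z : Type} [Group G] [MulAction G Z] (z : Z) (K : Subgroup G)
    (hfin : (orbit K z).Finite)
    (comm : ∀ σ ∈ K, ∀ τ ∈ K, ∀ w ∈ orbit K z, σ • τ • w = τ • σ • w) (Δ H : Subgroup G)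
    (hH : H ≤ K) (M m : ℕ) (hM : Δ.relIndex K ≤ M) (hM0 : Δ.relIndex K ≠ 0)
    (hpow : ∀ g ∈ Δ, g ∈ K → ∃ h ∈ H, h • z = g ^ (2 ^ m) • z) :
    (orbit K z).ncard ≤ M * {w | ∃ σ ∈ K, σ • z = w ∧ σ • w = z}.ncard ^ m *
      (orbit H z).ncard := by
  classical
  have hz : z ∈ orbit K z := mem_orbit_self z
  have hnorm : (stabilizer K z).Normal := by
    refine ⟨fun n hn g => ?_⟩
    rw [mem_stabilizer_iff] at hn ⊢
    have h1 : (n : G) • z = z := hn
    change ((g : G) * n * (g : G)⁻¹) • z = z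
    rw [mul_smul, mul_smul, comm g g.2 n n.2 ((g : G)⁻¹ • z) ⟨g⁻¹, rfl⟩, smul_inv_smul, h1]
  let _ : CommGroup (K ⧸ stabilizer K z) :=
    { (inferInstance : Group (K ⧸ stabilizer K z)) with
      mul_comm := by
        intro a b
        induction a using QuotientGroup.induction_on with
        | H a =>
          induction b using QuotientGroup.induction_on with
          | H b =>
            refine QuotientGroup.eq.2 ?_
            rw [mem_stabilizer_iff, mul_smul, inv_smul_eq_iff]
            change ((b : G) * a) • z = ((a : G) * b) • z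
            rw [mul_smul, mul_smul]
            exact (comm a a.2 b b.2 z hz).symm }
  let e := orbitEquivQuotientStabilizer K z
  have hfA : Finite (orbit K z) := hfin
  have hfQ : Finite (K ⧸ stabilizer K z) := Finite.of_equiv _ e
  have he : ∀ g : K, ((e.symm (g : K ⧸ stabilizer K z) : orbit K z) : Z) = (g : G) • z := by
    intro g
    exact orbitEquivQuotientStabilizer_symm_apply K z g
  let π : K →* K ⧸ stabilizer K z := QuotientGroup.mk' _
  have h1 := card_abelian ((Δ.subgroupOf K).map π) ((H.subgroupOf K).map π) m (by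
    rintro _ ⟨g, hg, rfl⟩
    obtain ⟨h, hh, hhz⟩ := hpow g hg g.2
    refine ⟨⟨h, hH hh⟩, hh, ?_⟩
    rw [← map_pow]
    refine QuotientGroup.eq.2 ?_
    rw [mem_stabilizer_iff, mul_smul, inv_smul_eq_iff]
    exact hhz.symm)
  have h2 : Nat.card (K ⧸ stabilizer K z) = (orbit K z).ncard :=
    (Nat.card_congr e).symm.trans (Nat.card_coe_set_eq _)
  have h3 : ((Δ.subgroupOf K).map π).index ≤ M := by
    have h4 : ((Δ.subgroupOf K).map π).index ∣ (Δ.subgroupOf K).index :=
      Subgroup.index_map_dvd _ (QuotientGroup.mk'_surjective _)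
    exact (Nat.le_of_dvd (Nat.pos_of_ne_zero hM0) h4).trans hM
  have hfT : {w | ∃ σ ∈ K, σ • z = w ∧ σ • w = z}.Finite := by
    refine hfin.subset ?_
    rintro w ⟨σ, hσ, rfl, _⟩
    exact ⟨⟨σ, hσ⟩, rfl⟩
  have hfH : (orbit H z).Finite := by
    refine hfin.subset ?_
    rintro _ ⟨h, rfl⟩
    exact ⟨⟨h, hH h.2⟩, rfl⟩
  have h5 : Nat.card (powMonoidHom 2 : (K ⧸ stabilizer K z) →* _).ker ≤
      {w | ∃ σ ∈ K, σ • z = w ∧ σ • w = z}.ncard := by
    rw [← Nat.card_coe_set_eq]
    have : Finite {w | ∃ σ ∈ K, σ • z = w ∧ σ • w = z} := hfT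
    refine Nat.card_le_card_of_injective (fun a => (⟨((e.symm a.1 : orbit K z) : Z), ?_⟩ :
      {w | ∃ σ ∈ K, σ • z = w ∧ σ • w = z})) ?_
    · obtain ⟨g, hg⟩ := QuotientGroup.mk_surjective a.1
      have ha : a.1 ^ 2 = 1 := a.2
      rw [← hg, ← QuotientGroup.mk_pow, QuotientGroup.eq_one_iff, mem_stabilizer_iff, pow_two,
        mul_smul] at ha
      refine ⟨g, g.2, ?_, ?_⟩
      · rw [← hg, he]
      · rw [← hg, he]
        exact ha
    · intro a b hab
      exact Subtype.ext (e.symm.injective (Subtype.ext (Subtype.mk.inj hab)))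
  have h6 : Nat.card ((H.subgroupOf K).map π) ≤ (orbit H z).ncard := by
    rw [← Nat.card_coe_set_eq]
    have : Finite (orbit H z) := hfH
    refine Nat.card_le_card_of_injective (fun a => (⟨((e.symm a.1 : orbit K z) : Z), ?_⟩ :
      (orbit H z))) ?_
    · obtain ⟨h, hh, hha⟩ := a.2
      rw [← hha]
      have := he h
      change ((e.symm (h : K ⧸ stabilizer K z) : orbit K z) : Z) ∈ _
      rw [this]
      exact ⟨⟨h, hh⟩, rfl⟩
    · intro a b hab
      exact Subtype.ext (e.symm.injective (Subtype.ext (Subtype.mk.inj hab)))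
  rw [h2] at h1
  calc (orbit K z).ncard ≤ _ := h1
    _ ≤ _ := Nat.mul_le_mul (Nat.mul_le_mul h3 (Nat.pow_le_pow_left h5 m)) h6

end Pool.Agent.R484.JE
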