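import Mathlib

/-! Joint equidistribution: product test functions suffice. -/

namespace Pool.Agent.R484.JE

open MeasureTheory Filter Topology

theorem cont_extend {X X' : Type} [TopologicalSpace X] [TopologicalSpace X'] [T2Space X']
    (e : X → X') (he : IsOpenEmbedding e) (f : X → ℝ) (hf : Continuous f)
    (hc : HasCompactSupport f) : Continuous (Function.extend e f 0) := by
  rw [continuous_iff_continuousAt]
  intro y
  by_cases hy : y ∈ Set.range e
  · obtain ⟨w, rfl⟩ := hy
    rw [← he.continuousAt_iff]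
    have : Function.extend e f 0 ∘ e = f := by
      funext w
      exact he.injective.extend_apply _ _ _
    rw [this]
    exact hf.continuousAt
  · have hK : IsClosed (e '' tsupport f) := (hc.isCompact.image he.continuous).isClosed
    have hev : Function.extend e f 0 =ᶠ[𝓝 y] fun _ => 0 := by
      filter_upwards [hK.isOpen_compl.mem_nhds (fun h => hy (Set.image_subset_range _ _ h))]
        with y' hy'
      by_cases h : ∃ w, e w = y'
      · obtain ⟨w, rfl⟩ := h
        rw [he.injective.extend_apply]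
        by_contra hne
        exact hy' ⟨w, subset_tsupport f hne, rfl⟩
      · rw [Function.extend_apply' _ _ _ h]
        rfl
    exact continuousAt_const.congr hev.symm

variable {I : Type} [Fintype I] [DecidableEq I] (Y : I → Type) [∀ b, TopologicalSpace (Y b)]
  [∀ b, T2Space (Y b)] [∀ b, LocallyCompactSpace (Y b)]

theorem approx (f : (∀ b, Y b) → ℝ) (hf : Continuous f) (hc : HasCompactSupport f)
    (P : ((∀ b, Y b) → ℝ) → Prop)
    (hprod : ∀ g : ∀ b, Y b → ℝ, (∀ b, Continuous (g b)) → (∀ b, ∃ C, ∀ y, |g b y| ≤ C) →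
      P (fun w => ∏ b, g b (w b)))
    (hadd : ∀ g h, P g → P h → P (g + h)) (hsmul : ∀ (c : ℝ) g, P g → P (c • g))
    (ε : ℝ) (hε : 0 < ε) : ∃ h, P h ∧ ∀ w, |f w - h w| ≤ ε := by
  classical
  let e : (∀ b, Y b) → ∀ b, OnePoint (Y b) := fun w b => (w b : OnePoint (Y b))
  have he : IsOpenEmbedding e := by
    have h1 : IsEmbedding e := by
      have := IsEmbedding.piMap (fun b => (OnePoint.isOpenEmbedding_coe (X := Y b)).isEmbedding)
      exact this
    have h2 : IsOpenMap e := by
      have := IsOpenMap.piMap (f := fun b => ((↑) : Y b → OnePoint (Y b)))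
        (fun b => OnePoint.isOpenMap_coe) (by simp)
      exact this
    exact ⟨h1, h2.isOpen_range⟩
  let fh : C(∀ b, OnePoint (Y b), ℝ) := ⟨_, cont_extend e he f hf hc⟩
  let s : Set C(∀ b, OnePoint (Y b), ℝ) :=
    {g | ∃ (b : I) (u : C(OnePoint (Y b), ℝ)), ∀ y, g y = u (y b)}
  have hsep : (Algebra.adjoin ℝ s).SeparatesPoints := by
    intro x y hxy
    obtain ⟨b, hb⟩ := Function.ne_iff.1 hxy
    obtain ⟨u, hu0, hu1, _⟩ := exists_continuous_zero_one_of_isClosed
      (isClosed_singleton (x := x b)) (isClosed_singleton (x := y b))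
      (Set.disjoint_singleton.2 hb)
    let g : C(∀ b, OnePoint (Y b), ℝ) := u.comp ⟨fun y => y b, continuous_apply b⟩
    refine ⟨g, ⟨g, Algebra.subset_adjoin ⟨b, u, fun y => rfl⟩, rfl⟩, ?_⟩
    have e1 : g x = 0 := hu0 rfl
    have e2 : g y = 1 := hu1 rfl
    rw [e1, e2]
    norm_num
  have hmon : ∀ g ∈ Submonoid.closure s, ∃ u : ∀ b, C(OnePoint (Y b), ℝ),
      ∀ y, g y = ∏ b, u b (y b) := by
    intro g hg
    induction hg using Submonoid.closure_induction with
    | mem g hg =>
      obtain ⟨b, u, hu⟩ := hg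
      refine ⟨Function.update (fun _ => 1) b u, fun y => ?_⟩
      rw [Finset.prod_eq_single b]
      · rw [Function.update_self, hu]
      · intro b' _ hb'
        rw [Function.update_of_ne hb']
        rfl
      · intro h
        exact absurd (Finset.mem_univ b) h
    | one => exact ⟨fun _ => 1, fun y => by simp⟩
    | mul g h _ _ ihg ihh =>
      obtain ⟨u, hu⟩ := ihg
      obtain ⟨v, hv⟩ := ihh
      refine ⟨fun b => u b * v b, fun y => ?_⟩
      rw [ContinuousMap.mul_apply, hu, hv, ← Finset.prod_mul_distrib]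
      rfl
  have hA : ∀ g ∈ Algebra.adjoin ℝ s, P (fun w => g (e w)) := by
    intro g hg
    have hg' : g ∈ Submodule.span ℝ (Submonoid.closure s : Set C(∀ b, OnePoint (Y b), ℝ)) := by
      rw [← Algebra.adjoin_eq_span]
      exact hg
    induction hg' using Submodule.span_induction with
    | mem g hg1 =>
      obtain ⟨u, hu⟩ := hmon g hg1
      have := hprod (fun b y => u b (y : OnePoint (Y b)))
        (fun b => (u b).continuous.comp OnePoint.continuous_coe) (fun b => ⟨‖u b‖, fun y =>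
          (u b).norm_coe_le_norm _⟩)
      simpa only [hu] using this
    | zero =>
      have := hsmul 0 _ (hprod (fun b _ => 1) (fun b => continuous_const) (fun b => ⟨1, by simp⟩))
      convert this using 1
      funext w
      simp
    | add x y hx hy ihx ihy =>
      exact hadd _ _ (ihx (by rw [← Subalgebra.mem_toSubmodule, Algebra.adjoin_eq_span]; exact hx))
        (ihy (by rw [← Subalgebra.mem_toSubmodule, Algebra.adjoin_eq_span]; exact hy))
    | smul a x hx ihx =>
      exact hsmul a _ (ihx (by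
        rw [← Subalgebra.mem_toSubmodule, Algebra.adjoin_eq_span]; exact hx))
  obtain ⟨g, hg⟩ := ContinuousMap.exists_mem_subalgebra_near_continuousMap_of_separatesPoints _
    hsep fh ε hε
  refine ⟨_, hA g g.2, fun w => ?_⟩
  have h1 : fh (e w) = f w := he.injective.extend_apply _ _ _
  have h2 := ((g : C(∀ b, OnePoint (Y b), ℝ)) - fh).norm_coe_le_norm (e w)
  rw [ContinuousMap.sub_apply, h1, Real.norm_eq_abs, abs_sub_comm] at h2
  exact h2.trans hg.le

theorem tendsto_of_prod [MeasurableSpace (∀ b, Y b)] [OpensMeasurableSpace (∀ b, Y b)]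
    (μ : Measure (∀ b, Y b)) [IsProbabilityMeasure μ] (Λ : ℕ → ((∀ b, Y b) → ℝ) → ℝ)
    (ladd : ∀ i g h, Λ i (g + h) = Λ i g + Λ i h) (lsmul : ∀ i (c : ℝ) g, Λ i (c • g) = c * Λ i g)
    (lbd : ∀ i g h ε, (∀ w, |g w - h w| ≤ ε) → |Λ i g - Λ i h| ≤ ε)
    (hprod : ∀ g : ∀ b, Y b → ℝ, (∀ b, Continuous (g b)) → (∀ b, ∃ C, ∀ y, |g b y| ≤ C) →
      Tendsto (fun i => Λ i (fun w => ∏ b, g b (w b))) atTop (𝓝 (∫ w, ∏ b, g b (w b) ∂μ)))
    (f : (∀ b, Y b) → ℝ) (hf : Continuous f) (hc : HasCompactSupport f) :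
    Tendsto (fun i => Λ i f) atTop (𝓝 (∫ w, f w ∂μ)) := by
  have key := approx Y f hf hc
    (fun F => (∃ C, ∀ w, |F w| ≤ C) ∧ Integrable F μ ∧
      Tendsto (fun i => Λ i F) atTop (𝓝 (∫ w, F w ∂μ))) ?_ ?_ ?_
  · obtain ⟨C, hC⟩ := hc.exists_bound_of_continuous hf
    have fi : Integrable f μ := Integrable.of_bound hf.aestronglyMeasurable C
      (Eventually.of_forall hC)
    rw [Metric.tendsto_atTop]
    intro ε hε
    obtain ⟨h, ⟨_, hi, ht⟩, hfh⟩ := key (ε / 4) (by positivity)
    obtain ⟨N, hN⟩ := Metric.tendsto_atTop.1 ht (ε / 4) (by positivity)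
    refine ⟨N, fun n hn => ?_⟩
    have h1 := lbd n f h (ε / 4) hfh
    have h2 : |∫ w, f w ∂μ - ∫ w, h w ∂μ| ≤ ε / 4 := by
      rw [← integral_sub fi hi]
      have := norm_integral_le_of_norm_le_const (μ := μ) (f := fun w => f w - h w)
        (Eventually.of_forall hfh)
      simpa using this
    have h3 := hN n hn
    rw [Real.dist_eq] at h3 ⊢
    have h4 : Λ n f - ∫ w, f w ∂μ = (Λ n f - Λ n h) + (Λ n h - ∫ w, h w ∂μ) -
        (∫ w, f w ∂μ - ∫ w, h w ∂μ) := by ring
    rw [h4]
    calc _ ≤ |Λ n f - Λ n h| + |Λ n h - ∫ w, h w ∂μ| + |∫ w, f w ∂μ - ∫ w, h w ∂μ| :=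
          (abs_sub _ _).trans (add_le_add (abs_add_le _ _) le_rfl)
      _ < ε := by linarith
  · intro g hg hb
    choose C hC using hb
    have hbd : ∀ w : ∀ b, Y b, |∏ b, g b (w b)| ≤ ∏ b, C b := by
      intro w
      rw [Finset.abs_prod]
      exact Finset.prod_le_prod (fun b _ => abs_nonneg _) (fun b _ => hC b _)
    have hcont : Continuous fun w : ∀ b, Y b => ∏ b, g b (w b) :=
      continuous_finsetProd _ fun b _ => (hg b).comp (continuous_apply b)
    refine ⟨⟨_, hbd⟩, ?_, hprod g hg (fun b => ⟨C b, hC b⟩)⟩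
    exact Integrable.of_bound hcont.aestronglyMeasurable _ (Eventually.of_forall hbd)
  · rintro g h ⟨⟨C, hC⟩, gi, gt⟩ ⟨⟨D, hD⟩, hi, ht⟩
    refine ⟨⟨C + D, fun w => (abs_add_le _ _).trans (add_le_add (hC w) (hD w))⟩, gi.add hi, ?_⟩
    simp only [ladd]
    have : ∫ w, (g + h) w ∂μ = ∫ w, g w ∂μ + ∫ w, h w ∂μ := integral_add gi hi
    rw [this]
    exact gt.add ht
  · rintro c g ⟨⟨C, hC⟩, gi, gt⟩
    refine ⟨⟨|c| * C, fun w => ?_⟩, gi.smul c, ?_⟩
    · rw [Pi.smul_apply, smul_eq_mul, abs_mul]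
      exact mul_le_mul_of_nonneg_left (hC w) (abs_nonneg c)
    · simp only [lsmul]
      have : ∫ w, (c • g) w ∂μ = c * ∫ w, g w ∂μ := integral_smul c g
      rw [this]
      exact gt.const_mul c

end Pool.Agent.R484.JE
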