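import Pool.Agent.R484.JEb
import Pool.Agent.R484.JEc

/-! Joint equidistribution: the general theorem. -/

namespace Pool.Agent.R484.JE

open MulAction MeasureTheory Filter Topology

set_option linter.unusedSectionVars false

section

variable {G : Type} [Group G] {I : Type} [Fintype I] [DecidableEq I] {Z : I → Type}
  [∀ b, MulAction G (Z b)]

/-- Equidistribution, with respect to `μ`, of the images under `e` of the orbits of the points of
the orbits `Γ x_i` under all subgroups `H` of `K_i` that contain, up to stabilisers, the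
`2 ^ m`-th powers of a subgroup of index at most `M`, for all `m` and `M`. -/
def SmallEqui {Z Y : Type} [MulAction G Z] [TopologicalSpace Y] [MeasurableSpace Y] (e : Z → Y)
    (μ : Measure Y) (Γ : Subgroup G) (K : ℕ → Subgroup G) (x : ℕ → Z) : Prop :=
  ∀ (M m : ℕ) (f : Y → ℝ), Continuous f → (∃ C, ∀ y, |f y| ≤ C) → ∀ ε : ℝ, 0 < ε →
    ∀ᶠ i in atTop, ∀ w ∈ orbit Γ (x i), ∀ H ≤ K i, ∀ Δ ≤ K i, Δ.relIndex (K i) ≠ 0 →
      Δ.relIndex (K i) ≤ M → (∀ g ∈ Δ, ∃ h ∈ H, h • w = g ^ (2 ^ m) • w) →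
      |avg (orbit H w) (fun z => f (e z)) - ∫ y, f y ∂μ| < ε

variable {Y : I → Type} [∀ b, TopologicalSpace (Y b)] [∀ b, T2Space (Y b)]
  [∀ b, LocallyCompactSpace (Y b)] [∀ b, MeasurableSpace (Y b)]
  [OpensMeasurableSpace (∀ b, Y b)]

theorem prod_close (a : I → ℝ) (η : ℝ) (hη : 0 < η) :
    ∃ ε > 0, ∀ t : I → ℝ, (∀ b, |t b - a b| < ε) → |∏ b, t b - ∏ b, a b| ≤ η := by
  have h1 : Continuous fun t : I → ℝ => ∏ b, t b :=
    continuous_finsetProd _ fun b _ => continuous_apply b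
  obtain ⟨ε, hε, h2⟩ := Metric.continuousAt_iff.1 (h1.continuousAt (x := a)) η hη
  refine ⟨ε, hε, fun t ht => ?_⟩
  have h3 := h2 (x := t) ((dist_pi_lt_iff hε).2 fun b => by rw [Real.dist_eq]; exact ht b)
  rw [Real.dist_eq] at h3
  exact h3.le

theorem joint (e : ∀ b, Z b → Y b) (μ : ∀ b, Measure (Y b)) [∀ b, IsProbabilityMeasure (μ b)]
    (x : ℕ → ∀ b, Z b) (K : ℕ → I → Subgroup G) (N : I → Subgroup G)
    (hx : ∀ i, Dih (x i) (K i) N) (hNf : ∀ b, (N b).index ≠ 0)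
    (hK : ∀ i b, (K i b).index ≠ 0 ∧ (K i b).index ≤ 2)
    (hfin : ∀ i b, (orbit G (x i b)).Finite) (Γ : Subgroup G) (hΓ : Γ.FiniteIndex)
    (hsmall : ∀ b, SmallEqui (e b) (μ b) Γ (fun i => K i b ⊓ N b) (fun i => x i b))
    (f : (∀ b, Y b) → ℝ) (hf : Continuous f) (hc : HasCompactSupport f) :
    Tendsto (fun i => avg (orbit Γ (x i)) (fun w => f (fun b => e b (w b)))) atTop
      (𝓝 (∫ y, f y ∂(Measure.pi μ))) := by
  classical
  have horbf : ∀ i, (orbit Γ (x i)).Finite := by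
    intro i
    refine (Set.Finite.pi' (fun b => hfin i b)).subset ?_
    rintro _ ⟨g, rfl⟩ b
    exact ⟨g, rfl⟩
  have hne : ∀ i, (orbit Γ (x i)).Nonempty := fun i => ⟨_, mem_orbit_self _⟩
  refine tendsto_of_prod Y (Measure.pi μ)
    (fun i F => avg (orbit Γ (x i)) (fun w => F (fun b => e b (w b)))) ?_ ?_ ?_ ?_ f hf hc
  · intro i g h
    exact avg_add _ (horbf i) _ _
  · intro i c g
    exact avg_smul _ (horbf i) _ _
  · intro i g h ε hgh
    exact avg_close _ (horbf i) (hne i) _ _ ε fun w => hgh _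
  · intro g hg hb
    rw [integral_fintype_prod_eq_prod]
    rw [Metric.tendsto_atTop]
    intro η hη
    obtain ⟨ε, hε, hclose⟩ := prod_close (fun b => ∫ y, g b y ∂(μ b)) (η / 2) (by positivity)
    set Γ' : Subgroup G := (Γ ⊓ ⨅ b, N b).normalCore with hΓ'
    have hN : Γ'.Normal := Subgroup.normalCore_normal _
    have hle : Γ' ≤ Γ ⊓ ⨅ b, N b := Subgroup.normalCore_le _
    have hNf' : Γ'.index ≠ 0 := by
      have h1 : (Γ ⊓ ⨅ b, N b).FiniteIndex :=
        ⟨Subgroup.index_inf_ne_zero hΓ.1 (Subgroup.index_iInf_ne_zero hNf)⟩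
      have := Subgroup.finiteIndex_normalCore (H := Γ ⊓ ⨅ b, N b)
      exact this.1
    have hΓN : ∀ b, Γ' ≤ N b := fun b g hg => (Subgroup.mem_iInf.1 (hle hg).2) b
    have hev : ∀ᶠ i in atTop, ∀ b, ∀ w ∈ orbit Γ (x i b), ∀ H ≤ K i b ⊓ N b,
        ∀ Δ ≤ K i b ⊓ N b, Δ.relIndex (K i b ⊓ N b) ≠ 0 →
        Δ.relIndex (K i b ⊓ N b) ≤ Γ'.index * 2 ^ Fintype.card I →
        (∀ h ∈ Δ, ∃ h' ∈ H, h' • w = h ^ (2 ^ (Fintype.card I - 1)) • w) →
        |avg (orbit H w) (fun z => g b (e b z)) - ∫ y, g b y ∂(μ b)| < ε := by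
      rw [eventually_all]
      intro b
      exact hsmall b _ _ (g b) (hg b) (hb b) ε hε
    obtain ⟨N0, hNN⟩ := eventually_atTop.1 hev
    refine ⟨N0, fun i hi => ?_⟩
    rw [Real.dist_eq]
    refine lt_of_le_of_lt ?_ (half_lt_self hη)
    set Δ := Dl Γ' (K i) with hΔ
    have hΔi : Δ.index ≠ 0 ∧ Δ.index ≤ Γ'.index * 2 ^ Fintype.card I := by
      have h1 : (⨅ b, K i b).index ≤ 2 ^ Fintype.card I := by
        refine (Subgroup.index_iInf_le _).trans ?_
        calc ∏ b, (K i b).index ≤ ∏ _b : I, 2 := Finset.prod_le_prod' fun b _ => (hK i b).2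
          _ = _ := by rw [Finset.prod_const, Finset.card_univ]
      have h2 : (⨅ b, K i b).index ≠ 0 := Subgroup.index_iInf_ne_zero fun b => (hK i b).1
      exact ⟨Subgroup.index_inf_ne_zero hNf' h2,
        (Subgroup.index_inf_le).trans (Nat.mul_le_mul_left _ h1)⟩
    have hΔK : ∀ b, Δ ≤ K i b ⊓ N b := fun b g hg =>
      ⟨(Subgroup.mem_iInf.1 hg.2) b, hΓN b hg.1⟩
    have hrel : ∀ b, Δ.relIndex (K i b ⊓ N b) ≠ 0 ∧
        Δ.relIndex (K i b ⊓ N b) ≤ Γ'.index * 2 ^ Fintype.card I := by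
      intro b
      have h1 := Subgroup.relIndex_mul_index (hΔK b)
      refine ⟨fun h => hΔi.1 (by rw [← h1, h, zero_mul]), le_trans ?_ hΔi.2⟩
      rw [← h1]
      refine Nat.le_mul_of_pos_right _ (Nat.pos_of_ne_zero fun h => hΔi.1 ?_)
      rw [← h1, h, mul_zero]
    have hworb : ∀ w ∈ orbit Γ (x i), ∀ b, w b ∈ orbit Γ (x i b) := by
      rintro _ ⟨h, rfl⟩ b
      exact ⟨h, rfl⟩
    have hworb' : ∀ w ∈ orbit Γ (x i), ∀ b, w b ∈ orbit G (x i b) := by
      rintro _ ⟨h, rfl⟩ b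
      exact ⟨h, rfl⟩
    refine avg_box' (orbit Γ (x i)) (horbf i) (hne i)
      (fun b z => orbit (Pb (x i) (K i) Γ' b) z) ?_ ?_ ?_ ?_
      (fun b z => g b (e b z)) _ _ ?_
    · intro w hw b
      refine (hfin i b).subset ?_
      rintro _ ⟨h, rfl⟩
      obtain ⟨τ, hτ⟩ := hworb' w hw b
      refine ⟨h * τ, ?_⟩
      change ((h : G) * τ) • x i b = (h : G) • w b
      rw [mul_smul]
      congr 1
    · intro w _ b
      exact mem_orbit_self _
    · intro w hw w' hw'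
      exact box_mem (x i) (K i) _ Γ (hle.trans inf_le_left) w w' hw hw'
    · intro w _ b z hz
      exact orbit_eq_iff.2 hz
    · intro w hw
      refine hclose _ fun b => ?_
      exact hNN i hi b (w b) (hworb w hw b) _
        (fun h hh => ⟨Pb_le _ _ _ _ hh, hΓN b hh.1.1⟩) Δ (hΔK b) (hrel b).1 (hrel b).2
        fun h hh => mem_Pb_pow (x i) (K i) N (hx i) _ hN hΓN b h hh (w b) (hworb' w hw b)

end

end Pool.Agent.R484.JE
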