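import Pool.Agent.R484.JEf

/-! Joint equidistribution: CM points with the same field and nearly coprime conductors. -/

namespace Pool.Agent.R484.JG

open MulAction MeasureTheory Filter Topology Pool.Agent.R484.JE

set_option linter.unusedSectionVars false

section

variable {G : Type} [Group G] {I : Type} [Fintype I] [DecidableEq I] {Z : I → Type}
  [∀ b, MulAction G (Z b)]

/-- As `Dih`, but for `b ≠ b'` the fields may be the same if the normal subgroup `R b` acts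
trivially on the orbit of `x b'`. -/
structure DihR (x : ∀ b, Z b) (K N R : I → Subgroup G) : Prop where
  normal : ∀ b, (K b).Normal
  rnormal : ∀ b, (R b).Normal
  comm : ∀ b, ∀ w ∈ orbit G (x b), ∀ σ ∈ K b, ∀ τ ∈ K b, σ • τ • w = τ • σ • w
  dih : ∀ b, ∀ w ∈ orbit G (x b), ∀ σ ∈ K b, σ ∈ N b → ∀ c ∉ K b, c • σ • c⁻¹ • w = σ⁻¹ • w
  sep : ∀ b b', b ≠ b' → (∃ c ∈ K b', c ∉ K b) ∨
    ∀ h ∈ R b, ∀ w ∈ orbit G (x b'), h • w = w

theorem coreR (x : ∀ b, Z b) (K N R : I → Subgroup G) (hx : DihR x K N R) (Γ : Subgroup G)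
    (hΓ : Γ.Normal) (hΓN : ∀ b, Γ ≤ N b) (b : I) (S : Finset I) (hb : b ∉ S) :
    ∀ g ∈ Dl Γ K ⊓ R b, ∃ h ∈ Dl Γ K ⊓ R b, (∀ b' ∈ S, ∀ w ∈ orbit G (x b'), h • w = w) ∧
      ∀ w ∈ orbit G (x b), h • w = g ^ (2 ^ S.card) • w := by
  induction S using Finset.induction_on with
  | empty =>
    intro g hg
    exact ⟨g, hg, by simp, by simp⟩
  | insert k S hk ih =>
    intro g hg
    rw [Finset.mem_insert, not_or] at hb
    obtain ⟨h, ⟨hh, hhR⟩, h1, h2⟩ := ih hb.2 g hg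
    have hK : ∀ b, ∀ g ∈ Dl Γ K, g ∈ K b := fun b g hg => (Subgroup.mem_iInf.1 hg.2) b
    have horb : ∀ b', ∀ w ∈ orbit G (x b'), ∀ σ : G, σ • w ∈ orbit G (x b') := by
      rintro b' _ ⟨τ, rfl⟩ σ
      exact ⟨σ * τ, mul_smul σ τ (x b')⟩
    rcases hx.sep b k hb.1 with ⟨c, hck, hcb⟩ | hR
    · have hconj : c * h⁻¹ * c⁻¹ ∈ Dl Γ K := by
        refine ⟨hΓ.conj_mem _ (inv_mem hh.1) c, Subgroup.mem_iInf.2 fun b' => ?_⟩
        exact (hx.normal b').conj_mem _ (inv_mem (hK b' h hh)) c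
      have hconjR : c * h⁻¹ * c⁻¹ ∈ R b := (hx.rnormal b).conj_mem _ (inv_mem hhR) c
      refine ⟨h * (c * h⁻¹ * c⁻¹), ⟨mul_mem hh hconj, mul_mem hhR hconjR⟩, ?_, ?_⟩
      · intro b' hb' w hw
        rcases Finset.mem_insert.1 hb' with rfl | hb''
        · have e1 : c • h⁻¹ • c⁻¹ • w = h⁻¹ • w := by
            rw [hx.comm b' _ (horb b' w hw _) c hck h⁻¹ (inv_mem (hK b' h hh)), smul_inv_smul]
          rw [mul_smul, mul_smul, mul_smul, e1, smul_inv_smul]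
        · have e1 : h⁻¹ • c⁻¹ • w = c⁻¹ • w := by
            rw [inv_smul_eq_iff, h1 b' hb'' _ (horb b' w hw _)]
          rw [mul_smul, mul_smul, mul_smul, e1, smul_inv_smul, h1 b' hb'' w hw]
      · intro w hw
        have e1 : c • h⁻¹ • c⁻¹ • w = h • w := by
          rw [hx.dih b w hw h⁻¹ (inv_mem (hK b h hh)) (hΓN b (inv_mem hh.1)) c hcb, inv_inv]
        rw [mul_smul, mul_smul, mul_smul, e1, Finset.card_insert_of_notMem hk, pow_succ, pow_mul,
          h2 w hw, h2 _ (horb b w hw _), ← mul_smul, ← pow_two]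
    · refine ⟨h * h, ⟨mul_mem hh hh, mul_mem hhR hhR⟩, ?_, ?_⟩
      · intro b' hb' w hw
        rcases Finset.mem_insert.1 hb' with rfl | hb''
        · rw [mul_smul, hR h hhR w hw, hR h hhR w hw]
        · rw [mul_smul, h1 b' hb'' w hw, h1 b' hb'' w hw]
      · intro w hw
        rw [mul_smul, Finset.card_insert_of_notMem hk, pow_succ, pow_mul,
          h2 w hw, h2 _ (horb b w hw _), ← mul_smul, ← pow_two]

theorem mem_Pb_powR (x : ∀ b, Z b) (K N R : I → Subgroup G) (hx : DihR x K N R)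
    (Γ : Subgroup G) (hΓ : Γ.Normal) (hΓN : ∀ b, Γ ≤ N b) (b : I) (g : G)
    (hg : g ∈ Dl Γ K) (hgR : g ∈ R b) (w : Z b) (hw : w ∈ orbit G (x b)) :
    ∃ h ∈ Pb x K Γ b, h • w = g ^ (2 ^ (Fintype.card I - 1)) • w := by
  obtain ⟨h, hh, h1, h2⟩ := coreR x K N R hx Γ hΓ hΓN b (Finset.univ.erase b) (by simp) g
    ⟨hg, hgR⟩
  refine ⟨h, ⟨hh.1, fun b' hb' w hw => h1 b' (by simp [hb']) w hw⟩, ?_⟩
  rw [h2 w hw, Finset.card_erase_of_mem (Finset.mem_univ b), Finset.card_univ]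

/-- As `SmallEqui`, with powers of the elements in the subgroups `R i` only. -/
def SmallEquiR {Z Y : Type} [MulAction G Z] [TopologicalSpace Y] [MeasurableSpace Y] (e : Z → Y)
    (μ : Measure Y) (Γ : Subgroup G) (K R : ℕ → Subgroup G) (x : ℕ → Z) : Prop :=
  ∀ (M m : ℕ) (f : Y → ℝ), Continuous f → (∃ C, ∀ y, |f y| ≤ C) → ∀ ε : ℝ, 0 < ε →
    ∀ᶠ i in atTop, ∀ w ∈ orbit Γ (x i), ∀ H ≤ K i, ∀ Δ ≤ K i, Δ.relIndex (K i) ≠ 0 →
      Δ.relIndex (K i) ≤ M → (∀ g ∈ Δ, g ∈ R i → ∃ h ∈ H, h • w = g ^ (2 ^ m) • w) →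
      |avg (orbit H w) (fun z => f (e z)) - ∫ y, f y ∂μ| < ε

variable {Y : I → Type} [∀ b, TopologicalSpace (Y b)] [∀ b, T2Space (Y b)]
  [∀ b, LocallyCompactSpace (Y b)] [∀ b, MeasurableSpace (Y b)]
  [OpensMeasurableSpace (∀ b, Y b)]

theorem jointR (e : ∀ b, Z b → Y b) (μ : ∀ b, Measure (Y b)) [∀ b, IsProbabilityMeasure (μ b)]
    (x : ℕ → ∀ b, Z b) (K : ℕ → I → Subgroup G) (N : I → Subgroup G)
    (R : ℕ → I → Subgroup G) (hx : ∀ i, DihR (x i) (K i) N (R i)) (hNf : ∀ b, (N b).index ≠ 0)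
    (hK : ∀ i b, (K i b).index ≠ 0 ∧ (K i b).index ≤ 2)
    (hfin : ∀ i b, (orbit G (x i b)).Finite) (Γ : Subgroup G) (hΓ : Γ.FiniteIndex)
    (hsmall : ∀ b, SmallEquiR (e b) (μ b) Γ (fun i => K i b ⊓ N b) (fun i => R i b)
      (fun i => x i b))
    (f : (∀ b, Y b) → ℝ) (hf : Continuous f) (hc : HasCompactSupport f) :
    Tendsto (fun i => avg (orbit Γ (x i)) (fun w => f (fun b => e b (w b)))) atTop
      (𝓝 (∫ y, f y ∂(Measure.pi μ))) := by
  classical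
  have horbf : ∀ i, (orbit Γ (x i)).Finite := by
    intro i
    refine (Set.Finite.pi' (fun b => hfin i b)).subset ?_
    rintro _ ⟨g, rfl⟩ b
    exact ⟨g, rfl⟩
  have hne : ∀ i, (orbit Γ (x i)).Nonempty := fun i => ⟨_, mem_orbit_self _⟩
  refine tendsto_of_prod Y (Measure.pi μ)
    (fun i F => avg (orbit Γ (x i)) (fun w => F (fun b => e b (w b)))) ?_ ?_ ?_ ?_ f hf hc
  · intro i g h
    exact avg_add _ (horbf i) _ _
  · intro i c g
    exact avg_smul _ (horbf i) _ _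
  · intro i g h ε hgh
    exact avg_close _ (horbf i) (hne i) _ _ ε fun w => hgh _
  · intro g hg hb
    rw [integral_fintype_prod_eq_prod]
    rw [Metric.tendsto_atTop]
    intro η hη
    obtain ⟨ε, hε, hclose⟩ := prod_close (fun b => ∫ y, g b y ∂(μ b)) (η / 2) (by positivity)
    set Γ' : Subgroup G := (Γ ⊓ ⨅ b, N b).normalCore with hΓ'
    have hN : Γ'.Normal := Subgroup.normalCore_normal _
    have hle : Γ' ≤ Γ ⊓ ⨅ b, N b := Subgroup.normalCore_le _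
    have hNf' : Γ'.index ≠ 0 := by
      have h1 : (Γ ⊓ ⨅ b, N b).FiniteIndex :=
        ⟨Subgroup.index_inf_ne_zero hΓ.1 (Subgroup.index_iInf_ne_zero hNf)⟩
      have := Subgroup.finiteIndex_normalCore (H := Γ ⊓ ⨅ b, N b)
      exact this.1
    have hΓN : ∀ b, Γ' ≤ N b := fun b g hg => (Subgroup.mem_iInf.1 (hle hg).2) b
    have hev : ∀ᶠ i in atTop, ∀ b, ∀ w ∈ orbit Γ (x i b), ∀ H ≤ K i b ⊓ N b,
        ∀ Δ ≤ K i b ⊓ N b, Δ.relIndex (K i b ⊓ N b) ≠ 0 →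
        Δ.relIndex (K i b ⊓ N b) ≤ Γ'.index * 2 ^ Fintype.card I →
        (∀ h ∈ Δ, h ∈ R i b → ∃ h' ∈ H, h' • w = h ^ (2 ^ (Fintype.card I - 1)) • w) →
        |avg (orbit H w) (fun z => g b (e b z)) - ∫ y, g b y ∂(μ b)| < ε := by
      rw [eventually_all]
      intro b
      exact hsmall b _ _ (g b) (hg b) (hb b) ε hε
    obtain ⟨N0, hNN⟩ := eventually_atTop.1 hev
    refine ⟨N0, fun i hi => ?_⟩
    rw [Real.dist_eq]
    refine lt_of_le_of_lt ?_ (half_lt_self hη)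
    set Δ := Dl Γ' (K i) with hΔ
    have hΔi : Δ.index ≠ 0 ∧ Δ.index ≤ Γ'.index * 2 ^ Fintype.card I := by
      have h1 : (⨅ b, K i b).index ≤ 2 ^ Fintype.card I := by
        refine (Subgroup.index_iInf_le _).trans ?_
        calc ∏ b, (K i b).index ≤ ∏ _b : I, 2 := Finset.prod_le_prod' fun b _ => (hK i b).2
          _ = _ := by rw [Finset.prod_const, Finset.card_univ]
      have h2 : (⨅ b, K i b).index ≠ 0 := Subgroup.index_iInf_ne_zero fun b => (hK i b).1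
      exact ⟨Subgroup.index_inf_ne_zero hNf' h2,
        (Subgroup.index_inf_le).trans (Nat.mul_le_mul_left _ h1)⟩
    have hΔK : ∀ b, Δ ≤ K i b ⊓ N b := fun b g hg =>
      ⟨(Subgroup.mem_iInf.1 hg.2) b, hΓN b hg.1⟩
    have hrel : ∀ b, Δ.relIndex (K i b ⊓ N b) ≠ 0 ∧
        Δ.relIndex (K i b ⊓ N b) ≤ Γ'.index * 2 ^ Fintype.card I := by
      intro b
      have h1 := Subgroup.relIndex_mul_index (hΔK b)
      refine ⟨fun h => hΔi.1 (by rw [← h1, h, zero_mul]), le_trans ?_ hΔi.2⟩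
      rw [← h1]
      refine Nat.le_mul_of_pos_right _ (Nat.pos_of_ne_zero fun h => hΔi.1 ?_)
      rw [← h1, h, mul_zero]
    have hworb : ∀ w ∈ orbit Γ (x i), ∀ b, w b ∈ orbit Γ (x i b) := by
      rintro _ ⟨h, rfl⟩ b
      exact ⟨h, rfl⟩
    have hworb' : ∀ w ∈ orbit Γ (x i), ∀ b, w b ∈ orbit G (x i b) := by
      rintro _ ⟨h, rfl⟩ b
      exact ⟨h, rfl⟩
    refine avg_box' (orbit Γ (x i)) (horbf i) (hne i)
      (fun b z => orbit (Pb (x i) (K i) Γ' b) z) ?_ ?_ ?_ ?_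
      (fun b z => g b (e b z)) _ _ ?_
    · intro w hw b
      refine (hfin i b).subset ?_
      rintro _ ⟨h, rfl⟩
      obtain ⟨τ, hτ⟩ := hworb' w hw b
      refine ⟨h * τ, ?_⟩
      change ((h : G) * τ) • x i b = (h : G) • w b
      rw [mul_smul]
      congr 1
    · intro w _ b
      exact mem_orbit_self _
    · intro w hw w' hw'
      exact box_mem (x i) (K i) _ Γ (hle.trans inf_le_left) w w' hw hw'
    · intro w _ b z hz
      exact orbit_eq_iff.2 hz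
    · intro w hw
      refine hclose _ fun b => ?_
      exact hNN i hi b (w b) (hworb w hw b) _
        (fun h hh => ⟨Pb_le _ _ _ _ hh, hΓN b hh.1.1⟩) Δ (hΔK b) (hrel b).1 (hrel b).2
        fun h hh hhR => mem_Pb_powR (x i) (K i) N (R i) (hx i) _ hN hΓN b h hh hhR (w b)
          (hworb' w hw b)

end

end Pool.Agent.R484.JG
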