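import Pool.Agent.R484.JEb

/-! Joint equidistribution: index bounds relative to a subgroup. -/

namespace Pool.Agent.R484.JG

open MulAction Pool.Agent.R484.JE

/-- The abelian group through which `K` acts on the orbit of `z`. -/
theorem orbit_quot {G Z : Type} [Group G] [MulAction G Z] (z : Z) (K : Subgroup G)
    (hfin : (orbit K z).Finite)
    (comm : ∀ σ ∈ K, ∀ τ ∈ K, ∀ w ∈ orbit K z, σ • τ • w = τ • σ • w) :
    ∃ (A : Type) (_ : CommGroup A) (_ : Finite A) (π : K →* A), Function.Surjective π ∧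
      (∀ g h : K, π g = π h ↔ (g : G) • z = (h : G) • z) ∧
      Nat.card A = (orbit K z).ncard ∧
      ∀ H ≤ K, Nat.card ((H.subgroupOf K).map π) = (orbit H z).ncard := by
  classical
  have hz : z ∈ orbit K z := mem_orbit_self z
  have hnorm : (stabilizer K z).Normal := by
    refine ⟨fun n hn g => ?_⟩
    rw [mem_stabilizer_iff] at hn ⊢
    have h1 : (n : G) • z = z := hn
    change ((g : G) * n * (g : G)⁻¹) • z = z
    rw [mul_smul, mul_smul, comm g g.2 n n.2 ((g : G)⁻¹ • z) ⟨g⁻¹, rfl⟩, smul_inv_smul, h1]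
  let i1 : CommGroup (K ⧸ stabilizer K z) :=
    { (inferInstance : Group (K ⧸ stabilizer K z)) with
      mul_comm := by
        intro a b
        induction a using QuotientGroup.induction_on with
        | H a =>
          induction b using QuotientGroup.induction_on with
          | H b =>
            refine QuotientGroup.eq.2 ?_
            rw [mem_stabilizer_iff, mul_smul, inv_smul_eq_iff]
            change ((b : G) * a) • z = ((a : G) * b) • z
            rw [mul_smul, mul_smul]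
            exact (comm a a.2 b b.2 z hz).symm }
  let e := orbitEquivQuotientStabilizer K z
  have hfA : Finite (orbit K z) := hfin
  have hfQ : Finite (K ⧸ stabilizer K z) := Finite.of_equiv _ e
  let π : K →* K ⧸ stabilizer K z := QuotientGroup.mk' _
  have hπ : ∀ g h : K, π g = π h ↔ (g : G) • z = (h : G) • z := by
    intro g h
    rw [show π g = π h ↔ g⁻¹ * h ∈ stabilizer K z from QuotientGroup.eq, mem_stabilizer_iff,
      mul_smul, inv_smul_eq_iff]
    exact eq_comm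
  refine ⟨K ⧸ stabilizer K z, i1, hfQ, π, QuotientGroup.mk'_surjective _, hπ,
    (Nat.card_congr e).symm.trans (Nat.card_coe_set_eq _), ?_⟩
  intro H hH
  rw [← Nat.card_coe_set_eq]
  have hpre : ∀ a : (H.subgroupOf K).map π, ∃ h : K, (h : G) ∈ H ∧ π h = a := by
    rintro ⟨_, h, hh, rfl⟩
    exact ⟨h, hh, rfl⟩
  choose h hhH hh using hpre
  refine Nat.card_congr (Equiv.ofBijective
    (fun a => (⟨(h a : G) • z, ⟨⟨h a, hhH a⟩, rfl⟩⟩ : orbit H z)) ⟨?_, ?_⟩)
  · intro a b hab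
    have h1 : (h a : G) • z = (h b : G) • z := Subtype.mk.inj hab
    exact Subtype.ext (by rw [← hh a, ← hh b]; exact (hπ _ _).2 h1)
  · rintro ⟨_, ⟨g, rfl⟩⟩
    let g' : K := ⟨g, hH g.2⟩
    refine ⟨⟨π g', ⟨g', g.2, rfl⟩⟩, Subtype.ext ?_⟩
    exact (hπ _ g').1 (hh _)

theorem orbit_rel {G Z : Type} [Group G] [MulAction G Z] (z : Z) (K : Subgroup G)
    (hfin : (orbit K z).Finite)
    (comm : ∀ σ ∈ K, ∀ τ ∈ K, ∀ w ∈ orbit K z, σ • τ • w = τ • σ • w) (Δ : Subgroup G)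
    (hΔ : Δ ≤ K) (M : ℕ) (hM0 : Δ.relIndex K ≠ 0) (hM : Δ.relIndex K ≤ M) :
    (orbit K z).ncard ≤ M * (orbit Δ z).ncard := by
  obtain ⟨A, _, _, π, hπs, _, hA, hH⟩ := orbit_quot z K hfin comm
  rw [← hA, ← hH Δ hΔ, ← Subgroup.card_mul_index ((Δ.subgroupOf K).map π), mul_comm]
  refine Nat.mul_le_mul_right _ (le_trans ?_ hM)
  exact Nat.le_of_dvd (Nat.pos_of_ne_zero hM0) (Subgroup.index_map_dvd _ hπs)

theorem orbit_card_leR {G Z : Type} [Group G] [MulAction G Z] (z : Z) (K : Subgroup G)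
    (hfin : (orbit K z).Finite)
    (comm : ∀ σ ∈ K, ∀ τ ∈ K, ∀ w ∈ orbit K z, σ • τ • w = τ • σ • w) (Δ H R : Subgroup G)
    (hΔ : Δ ≤ K) (hH : H ≤ K) (r M m : ℕ) (hM : Δ.relIndex K ≤ M) (hM0 : Δ.relIndex K ≠ 0)
    (hr : (orbit K z).ncard ≤ r * (orbit (K ⊓ R : Subgroup G) z).ncard)
    (hpow : ∀ g ∈ Δ, g ∈ R → ∃ h ∈ H, h • z = g ^ (2 ^ m) • z) :
    (orbit K z).ncard ≤ r * M * {w | ∃ σ ∈ K, σ • z = w ∧ σ • w = z}.ncard ^ m *
      (orbit H z).ncard := by
  classical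
  obtain ⟨A, _, _, π, hπs, hπ, hA, hHc⟩ := orbit_quot z K hfin comm
  have hsub : ∀ w, w ∈ orbit (K ⊓ R : Subgroup G) z → w ∈ orbit K z := by
    rintro _ ⟨g, rfl⟩
    exact ⟨⟨g, g.2.1⟩, rfl⟩
  have hrel : (Δ ⊓ R).relIndex (K ⊓ R) = Δ.relIndex (K ⊓ R) := by
    rw [← Subgroup.inf_relIndex_right (Δ ⊓ R) (K ⊓ R), ← Subgroup.inf_relIndex_right Δ (K ⊓ R)]
    congr 1
    ext g
    simp only [Subgroup.mem_inf]
    tauto
  have hrel0 : Δ.relIndex (K ⊓ R) ≠ 0 := fun h =>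
    hM0 (Subgroup.relIndex_eq_zero_of_le_right inf_le_left h)
  have hrelM : Δ.relIndex (K ⊓ R) ≤ M :=
    (Subgroup.relIndex_le_of_le_right inf_le_left hM0).trans hM
  have h1 := orbit_rel z (K ⊓ R) (hfin.subset hsub)
    (fun σ hσ τ hτ w hw => comm σ hσ.1 τ hτ.1 w (hsub w hw)) (Δ ⊓ R)
    (inf_le_inf_right R hΔ) M (by rw [hrel]; exact hrel0) (by rw [hrel]; exact hrelM)
  set D := (((Δ ⊓ R).subgroupOf K).map π) with hD
  have hDc : Nat.card D = (orbit (Δ ⊓ R : Subgroup G) z).ncard := hHc _ (inf_le_left.trans hΔ)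
  have hDi : D.index ≤ r * M := by
    have h2 : Nat.card D * D.index ≤ Nat.card D * (r * M) := by
      rw [Subgroup.card_mul_index, hA, hDc]
      calc (orbit K z).ncard ≤ r * (orbit (K ⊓ R : Subgroup G) z).ncard := hr
        _ ≤ r * (M * (orbit (Δ ⊓ R : Subgroup G) z).ncard) := Nat.mul_le_mul_left _ h1
        _ = _ := by ring
    exact Nat.le_of_mul_le_mul_left h2 Nat.card_pos
  have h3 := card_abelian D ((H.subgroupOf K).map π) m (by
    rintro _ ⟨g, hg, rfl⟩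
    obtain ⟨h, hh, hhz⟩ := hpow g hg.1 hg.2
    refine ⟨⟨h, hH hh⟩, hh, ?_⟩
    rw [← map_pow]
    exact (hπ _ _).2 hhz)
  have hfT : {w | ∃ σ ∈ K, σ • z = w ∧ σ • w = z}.Finite := by
    refine hfin.subset ?_
    rintro w ⟨σ, hσ, rfl, _⟩
    exact ⟨⟨σ, hσ⟩, rfl⟩
  have h5 : Nat.card (powMonoidHom 2 : A →* A).ker ≤
      {w | ∃ σ ∈ K, σ • z = w ∧ σ • w = z}.ncard := by
    rw [← Nat.card_coe_set_eq]
    have : Finite {w | ∃ σ ∈ K, σ • z = w ∧ σ • w = z} := hfT
    choose s hs using hπs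
    refine Nat.card_le_card_of_injective (fun a => (⟨((s a.1 : K) : G) • z, ?_⟩ :
      {w | ∃ σ ∈ K, σ • z = w ∧ σ • w = z})) ?_
    · refine ⟨s a.1, (s a.1).2, rfl, ?_⟩
      have ha : a.1 ^ 2 = 1 := a.2
      have h6 : π (s a.1 * s a.1) = π 1 := by
        rw [map_mul, hs, map_one, ← pow_two, ha]
      have h7 := (hπ _ _).1 h6
      change ((s a.1 : G) * (s a.1 : G)) • z = (1 : G) • z at h7
      rwa [mul_smul, one_smul] at h7
    · intro a b hab
      have h6 : ((s a.1 : K) : G) • z = ((s b.1 : K) : G) • z := Subtype.mk.inj hab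
      have h7 := (hπ _ _).2 h6
      rw [hs, hs] at h7
      exact Subtype.ext h7
  rw [hA, hHc H hH] at h3
  calc (orbit K z).ncard ≤ _ := h3
    _ ≤ _ := Nat.mul_le_mul_right _ (Nat.mul_le_mul hDi (Nat.pow_le_pow_left h5 m))

end Pool.Agent.R484.JG
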