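import Pool.Agent.R484.JGa
import Pool.Agent.R484.JGb

/-! Joint equidistribution: nearly coprime conductors. -/

namespace Pool.Agent.R484.JG

open MulAction MeasureTheory Filter Topology Pool.Agent.R484.JE

set_option linter.unusedSectionVars false

/-- Conductors, ring class fields and class numbers, for the modular curves of `T` (all of level
dividing a fixed integer `N`).  The fields are standard facts. -/
structure RingClass (T : ModCurves) where
  /-- The conductor of the endomorphism ring. -/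
  cond : ∀ {c}, T.Z c → ℕ
  cond_gal : ∀ {c} (σ : GQ) (z : T.Z c), cond (σ • z) = cond z
  /-- The automorphisms fixing `K` and all CM points (on all the curves) with CM field `K` and
  conductor dividing `m`. -/
  RC : IntermediateField ℚ Qb → ℕ → Subgroup GQ
  normal : ∀ (K : IntermediateField ℚ Qb) (m : ℕ), Module.finrank ℚ K = 2 → (RC K m).Normal
  triv : ∀ {c} (z : T.Z c) (m : ℕ), cond z ∣ m → ∀ h ∈ RC (T.fld z) m, h • z = z
  /-- The class number of the order of conductor `g` of `K`. -/
  cl : IntermediateField ℚ Qb → ℕ → ℕ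
  /-- Two ring class fields of `K` intersect in the ring class field of the greatest common
  divisor of the conductors, up to a bounded factor. -/
  index : ∃ C : ℕ, ∀ {c} (z : T.Z c) (m : ℕ), (orbit (Kz T z) z).ncard ≤
    C * cl (T.fld z) (Nat.gcd (cond z) m) *
      (orbit (Kz T z ⊓ RC (T.fld z) m : Subgroup GQ) z).ncard

section

variable (T : CMTheory)

theorem disc_large {c : T.Crv} (x : ℕ → T.Z c) (hstrict : ∀ z : T.Z c, {i | x i = z}.Finite)
    (B : ℕ) : ∀ᶠ i in atTop, B < T.disc (x i) := by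
  rw [← Nat.cofinite_eq_atTop, Filter.eventually_cofinite]
  refine ((T.finite_disc c B).biUnion fun z _ => hstrict z).subset ?_
  intro i hi
  rw [Set.mem_ofPred_eq, not_lt] at hi
  exact Set.mem_biUnion (x := x i) hi rfl

theorem small_oneR {c : T.Crv} (x : ℕ → T.Z c) (hon : ∀ i, x i ∈ T.On c)
    (hstrict : ∀ z : T.Z c, {i | x i = z}.Finite) (F : IntermediateField ℚ Qb)
    (hF : T.L c ≤ F) (R : ℕ → Subgroup GQ)
    (hR : ∀ η : ℝ, 0 < η → ∀ᶠ i in atTop, ∃ r : ℕ, (r : ℝ) ≤ (T.disc (x i) : ℝ) ^ η ∧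
      ∀ w ∈ orbit GQ (x i), (orbit (Kz T.toModCurves w) w).ncard ≤
        r * (orbit (Kz T.toModCurves w ⊓ R i : Subgroup GQ) w).ncard) :
    SmallEquiR (G := GQ) (T.emb c) (T.m c) F.fixingSubgroup
      (fun i => (T.fld (x i)).fixingSubgroup ⊓ (T.M c).fixingSubgroup) R x := by
  intro M m f hf hb ε hε
  obtain ⟨δ, hδ, hduke⟩ := T.duke c
  obtain ⟨B, hB⟩ := hduke f hf hb ε hε
  obtain ⟨C0, hC0⟩ := T.genus c (δ / (4 * (m + 1))) (by positivity)
  set C : ℝ := max C0 1 with hC
  have hC1 : 1 ≤ C := le_max_right _ _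
  have hlim : Tendsto (fun D : ℕ => (D : ℝ) ^ (δ / 4)) atTop atTop :=
    (tendsto_rpow_atTop (by positivity)).comp tendsto_natCast_atTop_atTop
  obtain ⟨B', hB'⟩ := eventually_atTop.1 (hlim.eventually_ge_atTop (M * C ^ m))
  filter_upwards [disc_large T x hstrict (max (max B B') 1), hR (δ / 2) (by positivity)]
    with i hi hri
  obtain ⟨r, hr, hrw⟩ := hri
  rintro w ⟨⟨τ, hτ⟩, rfl⟩ H hH Δ hΔ hrel0 hrelM hpow
  obtain ⟨hw2, hw3⟩ := T.gal τ (x i)
  change ∀ g ∈ Δ, g ∈ R i → ∃ h ∈ H, h • (τ • x i) = g ^ (2 ^ m) • (τ • x i) at hpow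
  change |avg (orbit H (τ • x i)) (fun z => f (T.emb c z)) - ∫ y, f y ∂(T.m c)| < ε
  have hrz := hrw (τ • x i) ⟨τ, rfl⟩
  set z := τ • x i with hz
  have hzon : z ∈ T.On c := T.on_stable c τ (IntermediateField.fixingSubgroup_le hF hτ) _ (hon i)
  have hK : Kz T.toModCurves z =
      (T.fld (x i)).fixingSubgroup ⊓ (T.M c).fixingSubgroup := by rw [Kz, hw3]
  rw [← hK] at hH hΔ hrel0 hrelM
  refine hB z hzon (by rw [hw2]; omega) H hH ?_
  have hle := orbit_card_leR z (Kz T.toModCurves z)
    ((orbit_fin T z).subset (by rintro _ ⟨g, rfl⟩; exact ⟨g, rfl⟩))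
    (by
      rintro σ hσ ρ hρ _ ⟨⟨g, hg⟩, rfl⟩
      have h1 := T.gal g z
      exact T.comm (g • z) σ (by rw [h1.2]; exact hσ.1) ρ (by rw [h1.2]; exact hρ.1))
    Δ H (R i) hΔ hH r M m hrelM hrel0 hrz (fun g hg hgR => hpow g hg hgR)
  have hgen := hC0 z
  have hD1 : (1 : ℝ) ≤ (T.disc z : ℝ) := by
    rw [hw2]
    exact_mod_cast (by omega : 1 ≤ T.disc (x i))
  have hgen2 : ({w | ∃ σ ∈ Kz T.toModCurves z, σ • z = w ∧ σ • w = z}.ncard : ℝ) ^ m ≤
      C ^ m * (T.disc z : ℝ) ^ (δ / 4) := by
    calc _ ≤ (C * (T.disc z : ℝ) ^ (δ / (4 * (m + 1)))) ^ m := by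
          refine pow_le_pow_left₀ (Nat.cast_nonneg _) (hgen.trans ?_) m
          exact mul_le_mul_of_nonneg_right (le_max_left _ _) (by positivity)
      _ = C ^ m * (T.disc z : ℝ) ^ (δ / (4 * (m + 1)) * m) := by
          rw [mul_pow, Real.rpow_mul (by positivity), Real.rpow_natCast]
      _ ≤ _ := by
          refine mul_le_mul_of_nonneg_left ?_ (by positivity)
          refine Real.rpow_le_rpow_of_exponent_le hD1 ?_
          rw [div_mul_eq_mul_div, div_le_div_iff₀ (by positivity) (by positivity)]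
          nlinarith
  have h3 : (M : ℝ) * C ^ m ≤ (T.disc z : ℝ) ^ (δ / 4) := hB' (T.disc z) (by rw [hw2]; omega)
  have hr' : (r : ℝ) ≤ (T.disc z : ℝ) ^ (δ / 2) := by rw [hw2]; exact hr
  calc ((orbit (Kz T.toModCurves z) z).ncard : ℝ)
      ≤ r * M * ({w | ∃ σ ∈ Kz T.toModCurves z, σ • z = w ∧ σ • w = z}.ncard : ℝ) ^ m *
        (orbit H z).ncard := by exact_mod_cast hle
    _ ≤ (T.disc z : ℝ) ^ (δ / 2) * M * (C ^ m * (T.disc z : ℝ) ^ (δ / 4)) *
        (orbit H z).ncard := by gcongr
    _ = (T.disc z : ℝ) ^ (δ / 2) * (M * C ^ m) * (T.disc z : ℝ) ^ (δ / 4) *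
        (orbit H z).ncard := by ring
    _ ≤ (T.disc z : ℝ) ^ (δ / 2) * (T.disc z : ℝ) ^ (δ / 4) * (T.disc z : ℝ) ^ (δ / 4) *
        (orbit H z).ncard := by gcongr
    _ = (orbit H z).ncard * (T.disc z : ℝ) ^ δ := by
        rw [← Real.rpow_add (by positivity), ← Real.rpow_add (by positivity)]
        rw [show δ / 2 + δ / 4 + δ / 4 = δ by ring]
        ring

end

section

variable {T : ModCurves} {n : ℕ} {c : Fin n → T.Crv}

/-- Another coordinate of the special point `x` has the same CM field as the coordinate `j`. -/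
def Twin (x : ∀ j, T.Z (c j)) (j : Fin n) : Prop := ∃ k, k ≠ j ∧ T.fld (x k) = T.fld (x j)

open Classical in
/-- The greatest common divisor of the conductor of the coordinate `j` and the least common multiple
of the conductors of the other coordinates with the same CM field. -/
noncomputable def other (R : RingClass T) (x : ∀ j, T.Z (c j)) (j : Fin n) : ℕ :=
  (Finset.univ.filter fun k => k ≠ j ∧ T.fld (x k) = T.fld (x j)).lcm fun k => R.cond (x k)

/-- The class number of the order whose conductor is the greatest common divisor of the conductor of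
the coordinate `j` and the least common multiple of those of the other coordinates with the same
CM field. -/
noncomputable def common (R : RingClass T) (x : ∀ j, T.Z (c j)) (j : Fin n) : ℕ :=
  R.cl (T.fld (x j)) (Nat.gcd (R.cond (x j)) (other R x j))

/-- For the coordinates with the same CM field as another one, the class number `common` is smaller
than any power of the discriminant. -/
def Near (R : RingClass T) (x : ℕ → ∀ j, T.Z (c j)) : Prop := ∀ η : ℝ, 0 < η →
  ∀ᶠ i in atTop, ∀ j, Twin (x i) j → (common R (x i) j : ℝ) ≤ (T.disc (x i j) : ℝ) ^ η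

/-- For each `i`, some coordinate with the same CM field as another one has class number `common`
larger than a fixed power of the discriminant. -/
def Far (R : RingClass T) (x : ℕ → ∀ j, T.Z (c j)) : Prop := ∃ η : ℝ, 0 < η ∧
  ∀ i, ∃ j, Twin (x i) j ∧ (T.disc (x i j) : ℝ) ^ η < (common R (x i) j : ℝ)

open Classical in
/-- The subgroups used. -/
noncomputable def Rj (R : RingClass T) (x : ∀ j, T.Z (c j)) (j : Fin n) : Subgroup GQ :=
  if Twin x j then R.RC (T.fld (x j)) (other R x j) else ⊤

theorem Rj_pos (R : RingClass T) (x : ∀ j, T.Z (c j)) (j : Fin n) (h : Twin x j) :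
    Rj R x j = R.RC (T.fld (x j)) (other R x j) := if_pos h

theorem Rj_neg (R : RingClass T) (x : ∀ j, T.Z (c j)) (j : Fin n) (h : ¬ Twin x j) :
    Rj R x j = ⊤ := if_neg h

end

theorem near (T : CMTheory) (R : RingClass T.toModCurves) {n : ℕ} (c : Fin n → T.Crv)
    (x : ℕ → ∀ j, T.Z (c j)) (hon : ∀ i j, x i j ∈ T.On (c j)) (hnear : Near R x)
    (hstrict : ∀ j (z : T.Z (c j)), {i | x i j = z}.Finite) (F : IntermediateField ℚ Qb)
    [FiniteDimensional ℚ F] (hF : ∀ j, T.L (c j) ≤ F) (f : (∀ j, T.Y (c j)) → ℝ)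
    (hf : Continuous f) (hc : HasCompactSupport f) :
    Tendsto (fun i => avg (orbit F.fixingSubgroup (x i))
      (fun w => f (fun j => T.emb (c j) (w j)))) atTop
      (𝓝 (∫ y, f y ∂(Measure.pi fun j => T.m (c j)))) := by
  classical
  have hidx : ∀ i j, (T.fld (x i j)).fixingSubgroup.index = 2 := fun i j => by
    rw [index_of_finite, T.quad]
  refine jointR (G := GQ) (fun j => T.emb (c j)) (fun j => T.m (c j)) x
    (fun i j => (T.fld (x i j)).fixingSubgroup) (fun j => (T.M (c j)).fixingSubgroup)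
    (fun i j => Rj R (x i) j) ?_
    (fun j => M_index T (c j)) ?_ ?_ F.fixingSubgroup ?_ ?_ f hf hc
  · intro i
    refine ⟨?_, ?_, ?_, ?_, ?_⟩
    · intro j
      exact Subgroup.normal_of_index_eq_two (hidx i j)
    · intro j
      simp only [Rj]
      split_ifs
      · exact R.normal _ _ (T.quad _)
      · infer_instance
    · rintro j _ ⟨g, rfl⟩ σ hσ τ hτ
      have h1 := T.gal g (x i j)
      exact T.comm (g • x i j) σ (by rw [h1.2]; exact hσ) τ (by rw [h1.2]; exact hτ)
    · rintro j _ ⟨g, rfl⟩ σ hσ hσN ρ hρ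
      have h1 := T.gal g (x i j)
      exact T.dihedral (g • x i j) σ ⟨by rw [h1.2]; exact hσ, hσN⟩ ρ (by
        rw [h1.2]; exact hρ)
    · intro j k hjk
      by_cases hfe : T.fld (x i k) = T.fld (x i j)
      · right
        rintro h hh _ ⟨g, rfl⟩
        have htw : Twin (x i) j := ⟨k, hjk.symm, hfe⟩
        simp only [Rj, if_pos htw] at hh
        have h1 := T.gal g (x i k)
        refine R.triv (g • x i k) (other R (x i) j) ?_ h (by rw [h1.2, hfe]; exact hh)
        rw [R.cond_gal]
        exact Finset.dvd_lcm (by simp [hjk.symm, hfe])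
      · left
        exact quad_sep _ _ (T.quad _) (T.quad _) (fun h => hfe h.symm)
  · intro i j
    rw [hidx]
    exact ⟨two_ne_zero, le_rfl⟩
  · intro i j
    exact orbit_fin T _
  · refine ⟨?_⟩
    rw [index_of_finite]
    exact Module.finrank_pos.ne'
  · intro j
    refine small_oneR T (fun i => x i j) (fun i => hon i j) (hstrict j) F (hF j)
      (fun i => Rj R (x i) j) ?_
    intro η hη
    obtain ⟨C, hC⟩ := R.index
    have hlim : Tendsto (fun D : ℕ => (D : ℝ) ^ (η / 2)) atTop atTop :=
      (tendsto_rpow_atTop (by positivity)).comp tendsto_natCast_atTop_atTop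
    obtain ⟨B', hB'⟩ := eventually_atTop.1 (hlim.eventually_ge_atTop (C : ℝ))
    filter_upwards [disc_large T (fun i => x i j) (hstrict j) (max B' 1),
      hnear (η / 2) (by positivity)] with i hi hni
    have hD1 : (1 : ℝ) ≤ (T.disc (x i j) : ℝ) := by
      exact_mod_cast (by omega : 1 ≤ T.disc (x i j))
    by_cases htw : Twin (x i) j
    · refine ⟨C * common R (x i) j, ?_, ?_⟩
      · push_cast
        have h1 := hni j htw
        have h2 : (C : ℝ) ≤ (T.disc (x i j) : ℝ) ^ (η / 2) := hB' _ (by omega)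
        calc (C : ℝ) * common R (x i) j
            ≤ (T.disc (x i j) : ℝ) ^ (η / 2) * (T.disc (x i j) : ℝ) ^ (η / 2) := by gcongr
          _ = _ := by rw [← Real.rpow_add (by positivity), add_halves]
      · rintro _ ⟨g, rfl⟩
        have h1 := T.gal g (x i j)
        have h2 := hC (g • x i j) (other R (x i) j)
        rw [R.cond_gal, h1.2] at h2
        rw [Rj_pos R (x i) j htw]
        exact h2
    · refine ⟨1, ?_, ?_⟩
      · push_cast
        exact Real.one_le_rpow hD1 hη.le
      · intro w _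
        rw [Rj_neg R (x i) j htw, inf_top_eq, one_mul]

theorem strict_near (T : CMTheory) (R : RingClass T.toModCurves) {n : ℕ} (c : Fin n → T.Crv)
    (S : Special T.toModCurves c) (F : IntermediateField ℚ Qb) [FiniteDimensional ℚ F]
    (hF : ∀ j, T.L (c j) ≤ F) (x : ℕ → ∀ j, T.Z (c j)) (hx : Strict S x) (hn : Near R x) :
    Equi T.toModCurves c F x :=
  fun f hf hc => near T R c x hx.1 hn (fun j z => hx.2 _ (S.coord j z)) F hF f hf hc

/-- Reduction to sequences with a large common part. -/
theorem reduceR (T : CMTheory) (R : RingClass T.toModCurves) {n : ℕ} (c : Fin n → T.Crv)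
    (S : Special T.toModCurves c) (F : IntermediateField ℚ Qb) [FiniteDimensional ℚ F]
    (hF : ∀ j, T.L (c j) ≤ F)
    (h : ∀ x, Strict S x → Far R x → Equi T.toModCurves c F x)
    (x : ℕ → ∀ j, T.Z (c j)) (hx : Strict S x) : Equi T.toModCurves c F x := by
  intro f hf hc
  refine tendsto_of_subseq_tendsto fun ns hns => ?_
  by_cases hnear : Near R (fun i => x (ns i))
  · exact ⟨id, strict_near T R c S F hF (fun i => x (ns i)) (strict_comp hx _ hns) hnear f hf hc⟩
  · simp only [Near, not_forall] at hnear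
    obtain ⟨η, hη, hfr⟩ := hnear
    rw [Filter.not_eventually] at hfr
    obtain ⟨φ, hφ, hP⟩ := extraction_of_frequently_atTop hfr
    refine ⟨φ, h (fun i => x (ns (φ i))) (strict_comp hx _ (hns.comp hφ.tendsto_atTop))
      ⟨η, hη, fun i => ?_⟩ f hf hc⟩
    have := hP i
    push Not at this
    exact this

end Pool.Agent.R484.JG
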