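import Pool.Agent.R484.SGa
import Pool.Agent.H578R3.SgnLin
import Pool.Agent.R905.Div
import Pool.Agent.Y112.SC.Main

/-!
# Supertraces of endomorphisms and the sign conjecture in tensor categories
-/

set_option autoImplicit false
set_option linter.unusedSectionVars false

open CategoryTheory Limits MonoidalCategory
open Pool.Agent.Y112.SR Pool.Agent.Y112.KD Pool.Agent.Y112.SC

namespace Pool.Agent.R484.NC

universe v u w

section Ops

variable {C : Type u} [Category.{v} C] [Preadditive C] [Linear ℚ C] [MonoidalCategory C]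
  [SymmetricCategory C] {K : Type w} [Field K] (R : SuperRealisation C K)

/-- The supertrace of the realisation of an endomorphism: the trace on the even part minus the trace
on the odd part. -/
noncomputable def str {M : C} (f : M ⟶ M) : K :=
  LinearMap.trace K (R.H.obj M) (R.H.map f ≫ R.par M).hom

/-- The trace of the realisation of an endomorphism on the even part. -/
noncomputable def evenTrace {M : C} (f : M ⟶ M) : K :=
  LinearMap.trace K (R.H.obj M) ((2 : K)⁻¹ • (R.H.map f + R.H.map f ≫ R.par M)).hom

/-- The dimension of the even part of the realisation. -/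
noncomputable def evenDim (M : C) : ℕ :=
  Module.finrank K (LinearMap.ker ((R.par M).hom - LinearMap.id : R.H.obj M →ₗ[K] R.H.obj M))

/-- Numerical equivalence of endomorphisms. -/
def NumEq {M : C} (f g : M ⟶ M) : Prop := ∀ h : M ⟶ M, str R (f ≫ h) = str R (g ≫ h)

/-- The endomorphism `z` has the same pairings with all endomorphisms as the projector onto the
even part. -/
def RepresentsEven {M : C} (z : M ⟶ M) : Prop := ∀ h : M ⟶ M, str R (z ≫ h) = evenTrace R h

/-- The gap of `z`. -/
noncomputable def gap {M : C} (z : M ⟶ M) : K :=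
  (evenDim R M : K) - 3 * str R (z ≫ z) + 2 * str R (z ≫ z ≫ z)

/-- The realisation of an endomorphism as a linear operator. -/
noncomputable def op {M : C} (f : M ⟶ M) : Module.End K (R.H.obj M) := (R.H.map f).hom

/-- The projector onto the even part, as a linear operator. -/
noncomputable def evp (M : C) : Module.End K (R.H.obj M) := (pe R M).hom

lemma op_comp {M : C} (f g : M ⟶ M) : op R (f ≫ g) = op R g * op R f := by
  rw [op, Functor.map_comp, ModuleCat.hom_comp]
  rfl

lemma op_id (M : C) : op R (𝟙 M) = 1 := by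
  rw [op, CategoryTheory.Functor.map_id, ModuleCat.hom_id]
  rfl

lemma op_add {M : C} (f g : M ⟶ M) : op R (f + g) = op R f + op R g := by
  rw [op, Functor.map_add, ModuleCat.hom_add]
  rfl

lemma op_sub {M : C} (f g : M ⟶ M) : op R (f - g) = op R f - op R g := by
  rw [op, Functor.map_sub, ModuleCat.hom_sub]
  rfl

lemma op_smul {M : C} (q : ℚ) (f : M ⟶ M) : op R (q • f) = (q : K) • op R f := by
  have := R_charZero R
  rw [op, R_smul, ModuleCat.hom_smul]
  rfl

/-- Powers of an endomorphism. -/
noncomputable def pw {M : C} (f : M ⟶ M) : ℕ → (M ⟶ M)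
  | 0 => 𝟙 M
  | n + 1 => f ≫ pw f n

lemma op_pw {M : C} (f : M ⟶ M) (n : ℕ) : op R (pw f n) = op R f ^ n := by
  induction n with
  | zero => rw [pw, pow_zero, op_id]
  | succ n ih => rw [pw, op_comp, ih, pow_succ]

/-- The projector onto the even part is idempotent. -/
lemma evp_idem (M : C) : evp R M * evp R M = evp R M := by
  have hc := R_charZero R
  have h := pe_pe R (two_ne_zero) M
  have h1 := congrArg ModuleCat.Hom.hom h
  rw [ModuleCat.hom_comp] at h1
  exact h1

lemma par_hom (M : C) : (R.par M).hom = evp R M - (1 - evp R M) := by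
  have hc := R_charZero R
  have h2 : (2 : K) ≠ 0 := two_ne_zero
  have h := pe_sub_po R h2 M
  have h1 : po R M = 𝟙 _ - pe R M := by rw [← pe_add_po R h2 M, add_sub_cancel_left]
  rw [h1] at h
  rw [← h, ModuleCat.hom_sub, ModuleCat.hom_sub, ModuleCat.hom_id]
  rfl

lemma op_comm {M : C} (f : M ⟶ M) : Commute (op R f) (evp R M) := by
  have hc := R_charZero R
  have h : R.H.map f ≫ pe R M = pe R M ≫ R.H.map f := by
    rw [pe, Linear.comp_smul, Linear.smul_comp, Preadditive.comp_add, Preadditive.add_comp,
      R.par_natural]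
    simp
  have h1 := congrArg ModuleCat.Hom.hom h
  rw [ModuleCat.hom_comp, ModuleCat.hom_comp] at h1
  exact h1.symm

lemma str_eq {M : C} (f : M ⟶ M) : str R f =
    LinearMap.trace K (R.H.obj M) ((evp R M - (1 - evp R M)) * op R f) := by
  rw [str, ModuleCat.hom_comp, par_hom]
  rfl

lemma evenTrace_eq {M : C} (f : M ⟶ M) : evenTrace R f =
    LinearMap.trace K (R.H.obj M) (evp R M * op R f) := by
  have h : (2 : K)⁻¹ • (R.H.map f + R.H.map f ≫ R.par M) = R.H.map f ≫ pe R M := by
    rw [pe, Linear.comp_smul, Preadditive.comp_add, Category.comp_id]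
  rw [evenTrace, h, ModuleCat.hom_comp]
  rfl

lemma str_comm {M : C} (f g : M ⟶ M) : str R (f ≫ g) = str R (g ≫ f) := by
  rw [str_eq, str_eq, op_comp, op_comp]
  have h := (op_comm R f)
  have h' : Commute (op R f) (evp R M - (1 - evp R M)) :=
    h.sub_right ((Commute.one_right _).sub_right h)
  rw [← mul_assoc, LinearMap.trace_mul_comm, ← mul_assoc, h'.eq, mul_assoc]

/-- The trace of the projector is the dimension of the even part. -/
lemma trace_evp (M : C) : LinearMap.trace K (R.H.obj M) (evp R M) = evenDim R M := by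
  have hc := R_charZero R
  have h0 := R.finite M
  have h1 := Pool.Agent.H914.trace_idem (evp_idem R M)
  have h2 : LinearMap.range (evp R M) =
      LinearMap.ker ((R.par M).hom - LinearMap.id : R.H.obj M →ₗ[K] R.H.obj M) := by
    ext x
    rw [LinearMap.mem_range, LinearMap.mem_ker, par_hom]
    have h3 : (2 : K) ≠ 0 := two_ne_zero
    constructor
    · rintro ⟨y, rfl⟩
      have e1 : evp R M (evp R M y) = evp R M y := LinearMap.congr_fun (evp_idem R M) y
      change (evp R M (evp R M y) - (evp R M y - evp R M (evp R M y))) - evp R M y = 0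
      rw [e1]
      abel
    · intro h
      refine ⟨x, ?_⟩
      have e1 : (evp R M x - (x - evp R M x)) - x = 0 := h
      have e2 : (2 : K) • (evp R M x - x) = 0 := by
        rw [two_smul, ← e1]
        abel
      rcases smul_eq_zero.1 e2 with h4 | h4
      · exact absurd h4 h3
      · exact sub_eq_zero.1 h4
  rw [h1, evenDim, h2]

/-- The sign conjecture in terms of operators. -/
lemma cplus_iff_op (M : C) : R.CPlus M ↔ ∃ f : M ⟶ M, op R f = evp R M := by
  have hc := R_charZero R
  have h2 : (2 : K) ≠ 0 := two_ne_zero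
  constructor
  · rintro ⟨f, hf⟩
    refine ⟨f, ?_⟩
    have h1 : R.H.map f = pe R M := by
      rw [pe, ← hf, smul_smul, inv_mul_cancel₀ h2, one_smul]
    rw [op, h1]
    rfl
  · rintro ⟨f, hf⟩
    refine ⟨f, ?_⟩
    have h1 : R.H.map f = pe R M := ModuleCat.hom_ext hf
    rw [h1, pe, smul_smul, mul_inv_cancel₀ h2, one_smul]

end Ops

section Gap

variable {C : Type u} [Category.{v} C] [Preadditive C] [Linear ℚ C] [MonoidalCategory C]
  [SymmetricCategory C] {K : Type w} [Field K] (R : SuperRealisation C K)

/-- The polynomial `1 - (1 - z ^ N) ^ N` in an endomorphism. -/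
noncomputable def lift {M : C} (z : M ⟶ M) (N : ℕ) : M ⟶ M := 𝟙 M - pw (𝟙 M - pw z N) N

lemma op_lift {M : C} (z : M ⟶ M) (N : ℕ) : op R (lift z N) = 1 - (1 - op R z ^ N) ^ N := by
  rw [lift, op_sub, op_id, op_pw, op_sub, op_id, op_pw]

/-- **The gap criterion.** -/
theorem gap_criterion {M : C} (z : M ⟶ M) (hz : RepresentsEven R z) :
    ∃ q : ℚ, (q : K) = gap R z ∧ 0 ≤ q ∧
      List.TFAE [R.CPlus M, q = 0, q ≤ 1, NumEq R (z ≫ z) z,
        ∀ N : ℕ, 1 ≤ N → Module.finrank K (R.H.obj M) ≤ N →
          (2 : K) • R.H.map (lift z N) = 𝟙 _ + R.par M] := by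
  have hc := R_charZero R
  have h0 := R.finite M
  have h2 : (2 : K) ≠ 0 := two_ne_zero
  set p := evp R M with hp
  set T := op R z with hT
  have hpp : p * p = p := evp_idem R M
  have hTp : Commute T p := op_comm R z
  have hi : ∀ k : ℕ, LinearMap.trace K (R.H.obj M) ((p - (1 - p)) * T ^ (k + 1)) =
      LinearMap.trace K (R.H.obj M) (p * T ^ k) := by
    intro k
    have h1 := hz (pw z k)
    rw [str_eq, evenTrace_eq, op_comp, op_pw] at h1
    rw [pow_succ]
    exact h1
  obtain ⟨q, hq, hq0, hq1⟩ := Pool.Agent.R484.SG.gap_main hpp hTp hi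
  have hpow2 : str R (z ≫ z) = LinearMap.trace K (R.H.obj M) ((p - (1 - p)) * T ^ 2) := by
    rw [str_eq, op_comp, pow_two]
  have hpow3 : str R (z ≫ z ≫ z) = LinearMap.trace K (R.H.obj M) ((p - (1 - p)) * T ^ 3) := by
    rw [str_eq, op_comp, op_comp, pow_succ, pow_two]
  have hgap : gap R z = LinearMap.trace K (R.H.obj M) p -
      3 * LinearMap.trace K (R.H.obj M) ((p - (1 - p)) * T ^ 2) +
      2 * LinearMap.trace K (R.H.obj M) ((p - (1 - p)) * T ^ 3) := by
    rw [gap, hpow2, hpow3, ← trace_evp]
  refine ⟨q, by rw [hq, hgap], hq0, ?_⟩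
  tfae_have 2 → 3 := fun h => by rw [h]; norm_num
  tfae_have 3 → 5 := by
    intro hle N hN1 hN
    have hconst : ∀ r : ℕ, LinearMap.trace K (R.H.obj M) ((p - (1 - p)) * T ^ (r + 1)) =
        LinearMap.trace K (R.H.obj M) p := by
      intro r
      induction r with
      | zero =>
        have := hi 0
        rwa [pow_zero, mul_one] at this
      | succ r ih => rw [hq1 hle (r + 1) (by omega), ih]
    obtain ⟨a, b, c, hd, hpc, hfin⟩ := Pool.Agent.H578R3.Sgn.main hpp hTp hconst
    have hbc : b + c = 0 := by
      have h3 : ((a : K) - b) = a + c := by rw [← hd, hpc]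
      have h4 : ((b + c : ℕ) : K) = 0 := by
        push_cast
        linear_combination -h3
      exact_mod_cast h4
    have h5 := hfin (by omega) (by omega) N hN1 hN
    have h6 : R.H.map (lift z N) = pe R M := by
      apply ModuleCat.hom_ext
      have h7 := op_lift R z N
      rw [← hT, ← h5] at h7
      exact h7
    rw [h6, pe, smul_smul, mul_inv_cancel₀ h2, one_smul]
  tfae_have 5 → 1 := by
    intro h
    exact ⟨_, h (max 1 (Module.finrank K (R.H.obj M))) (le_max_left _ _) (le_max_right _ _)⟩
  tfae_have 1 → 4 := by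
    intro h
    obtain ⟨f, hf⟩ := (cplus_iff_op R M).1 h
    -- `f` has the same numbers
    have hrep : ∀ g : M ⟶ M, str R (f ≫ g) = evenTrace R g := by
      intro g
      rw [str_eq, evenTrace_eq, op_comp, hf]
      have h1 : (evp R M - (1 - evp R M)) * (op R g * evp R M) =
          evp R M * op R g := by
        rw [(op_comm R g).eq, ← mul_assoc]
        have h2 : (evp R M - (1 - evp R M)) * evp R M = evp R M := by
          rw [sub_mul, sub_mul, evp_idem, one_mul, sub_self, sub_zero]
        rw [h2]
      rw [h1]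
    intro g
    have e1 : str R ((z ≫ z) ≫ g) = str R (f ≫ z ≫ g) := by
      rw [Category.assoc, hz, hrep]
    have e2 : str R (f ≫ z ≫ g) = str R (f ≫ g ≫ f) := by
      rw [str_comm, Category.assoc, hz, ← hrep]
    have e3 : str R (f ≫ g ≫ f) = str R (z ≫ g) := by
      rw [hrep, hz, evenTrace_eq, evenTrace_eq, op_comp, hf, ← mul_assoc, evp_idem]
    rw [e1, e2, e3]
  tfae_have 4 → 2 := by
    intro h
    have e1 : str R (z ≫ z) = str R z := by
      have := h (𝟙 M)
      rwa [Category.comp_id, Category.comp_id] at this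
    have e2 : str R (z ≫ z ≫ z) = str R (z ≫ z) := by
      have := h z
      rwa [Category.assoc] at this
    have e3 : str R z = LinearMap.trace K (R.H.obj M) p := by
      have h3 := hz (𝟙 M)
      rwa [Category.comp_id, evenTrace_eq, op_id, mul_one] at h3
    have h4 : (q : K) = 0 := by
      rw [hq, ← hpow2, ← hpow3, e2, e1, e3]
      ring
    exact_mod_cast h4
  tfae_finish

/-- The sign conjecture in terms of gaps. -/
theorem gap_exists (M : C) : R.CPlus M ↔
    ∃ z : M ⟶ M, RepresentsEven R z ∧ ∃ q : ℚ, (q : K) = gap R z ∧ q ≤ 1 := by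
  have hc := R_charZero R
  constructor
  · intro h
    obtain ⟨f, hf⟩ := (cplus_iff_op R M).1 h
    have hrep : RepresentsEven R f := by
      intro g
      rw [str_eq, evenTrace_eq, op_comp, hf]
      have h1 : (evp R M - (1 - evp R M)) * (op R g * evp R M) =
          evp R M * op R g := by
        rw [(op_comm R g).eq, ← mul_assoc]
        have h2 : (evp R M - (1 - evp R M)) * evp R M = evp R M := by
          rw [sub_mul, sub_mul, evp_idem, one_mul, sub_self, sub_zero]
        rw [h2]
      rw [h1]
    obtain ⟨q, h1, h2, h3⟩ := gap_criterion R f hrep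
    exact ⟨f, hrep, q, h1, (h3.out 0 2).1 h⟩
  · rintro ⟨z, hz, q, h1, h2⟩
    obtain ⟨q', h1', h2', h3'⟩ := gap_criterion R z hz
    have : q = q' := by
      have h4 : (q : K) = (q' : K) := by rw [h1, h1']
      exact_mod_cast h4
    subst this
    exact (h3'.out 2 0).1 h2

end Gap

end Pool.Agent.R484.NC
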