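import Pool.Agent.R484.NCb

/-!
# The parity index: the final form
-/

set_option autoImplicit false
set_option linter.unusedSectionVars false

open CategoryTheory Limits MonoidalCategory
open Pool.Agent.Y112.SR Pool.Agent.Y112.KD Pool.Agent.Y112.SC Pool.Agent.R905

namespace Pool.Agent.R484.NC

universe v u w

section

variable {C : Type u} [Category.{v} C] [Preadditive C] [Linear ℚ C] [MonoidalCategory C]
  [MonoidalPreadditive C] [MonoidalLinear ℚ C] [SymmetricCategory C] [RightRigidCategory C]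

/-- `S` is the direct sum of `M` and `N`. -/
def IsSum (M N S : C) : Prop :=
  ∃ (i : M ⟶ S) (r : S ⟶ M) (i' : N ⟶ S) (r' : S ⟶ N), i ≫ r = 𝟙 M ∧ i' ≫ r' = 𝟙 N ∧
    i ≫ r' = 0 ∧ i' ≫ r = 0 ∧ r ≫ i + r' ≫ i' = 𝟙 S

/-- **The parity index.** -/
theorem exists_index (hU : UnitQ C) {K₀ : Type w} [Field K₀] (R₀ : SuperRealisation C K₀) :
    ∃ ρ : C → ℕ,
      (∀ M, IsGreatest {d : ℚ | ∃ w : M ⟶ M, NumInvolution hU w ∧ ctr hU w = d} (ρ M)) ∧
      (∀ M, ∃ P : M ⟶ M, ∀ {K : Type w} [Field K] (R : SuperRealisation C K),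
        ρ M ≤ totalDim R M ∧ Even (totalDim R M - ρ M) ∧
        List.TFAE [R.CPlus M, R.H.map P = R.par M, totalDim R M = ρ M,
          totalDim R M < ρ M + 2]) ∧
      (∀ M N, ρ M * ρ N ≤ ρ (M ⊗ N)) ∧
      (∀ M N S, IsSum M N S → ρ M + ρ N ≤ ρ S) := by
  choose ρ hρ using fun M : C => exists_index_obj R₀ hU M
  refine ⟨ρ, hρ, fun M => ?_, fun M N => ?_, fun M N S hS => ?_⟩
  · obtain ⟨w₀, hw₀, hw₀r⟩ := (hρ M).1
    refine ⟨(2 : ℚ) • lift ((2⁻¹ : ℚ) • (𝟙 M + w₀)) (max 1 (ρ M)) - 𝟙 M, fun {K} _ R => ?_⟩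
    have hc := R_charZero R
    obtain ⟨h1, h2, h3⟩ := index_tfae R hU (hρ M) hw₀ hw₀r
    refine ⟨h1, h2, ?_⟩
    have h4 : R.H.map ((2 : ℚ) • lift ((2⁻¹ : ℚ) • (𝟙 M + w₀)) (max 1 (ρ M)) - 𝟙 M) = R.par M ↔
        (2 : K) • R.H.map (lift ((2⁻¹ : ℚ) • (𝟙 M + w₀)) (max 1 (ρ M))) = 𝟙 _ + R.par M := by
      rw [Functor.map_sub, R_smul, CategoryTheory.Functor.map_id, sub_eq_iff_eq_add,
        add_comm (R.par M),
        Rat.cast_ofNat]
    tfae_have 1 ↔ 2 := (h3.out 0 1).trans h4.symm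
    tfae_have 1 ↔ 3 := h3.out 0 2
    tfae_have 1 ↔ 4 := h3.out 0 3
    tfae_finish
  · obtain ⟨w, hw, hwr⟩ := (hρ M).1
    obtain ⟨w', hw', hwr'⟩ := (hρ N).1
    have h := (hρ (M ⊗ N)).2 ⟨_, involution_tensor R₀ hU hw hw', rfl⟩
    rw [ctr_tensor R₀, hwr, hwr'] at h
    exact_mod_cast h
  · obtain ⟨i, r, i', r', h1, h2, h3, h4, h5⟩ := hS
    obtain ⟨w, hw, hwr⟩ := (hρ M).1
    obtain ⟨w', hw', hwr'⟩ := (hρ N).1
    obtain ⟨h6, h7⟩ := involution_biprod R₀ hU i r i' r' h1 h2 h3 h4 h5 hw hw'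
    have h := (hρ S).2 ⟨_, h6, rfl⟩
    rw [h7, hwr, hwr'] at h
    exact_mod_cast h

/-- Comparison of two realisations. -/
theorem comparison (hU : UnitQ C) (M : C) {K : Type w} [Field K] (R : SuperRealisation C K)
    {K' : Type w} [Field K'] (R' : SuperRealisation C K') (h : R'.CPlus M)
    (hd : totalDim R M ≤ totalDim R' M) : R.CPlus M ∧ totalDim R M = totalDim R' M := by
  obtain ⟨ρ, -, h2, -⟩ := exists_index hU R
  obtain ⟨P, hP⟩ := h2 M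
  obtain ⟨a1, -, a3⟩ := hP R
  obtain ⟨b1, -, b3⟩ := hP R'
  have hb := (b3.out 0 2).1 h
  have : totalDim R M = ρ M := by omega
  exact ⟨(a3.out 0 2).2 this, by omega⟩

end

end Pool.Agent.R484.NC
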