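import Mathlib

/-!
# Linear maps over a division ring and subspaces over a smaller field
-/

set_option autoImplicit false

open Module TensorProduct

namespace Pool.Agent.R484.PA

section Lin

variable {V : Type*} [AddCommGroup V] [Module ℚ V]

/-- A small perturbation of a linearly independent family is linearly independent. -/
lemma exists_perturb {ι : Type*} [Finite ι] {w : ι → V} (hw : LinearIndependent ℚ w) (z : ι → V) :
    ∃ t : ℚ, t ≠ 0 ∧ LinearIndependent ℚ fun i => w i + t • z i := by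
  classical
  have := Fintype.ofFinite ι
  -- a left inverse
  let W : (ι → ℚ) →ₗ[ℚ] V := Fintype.linearCombination ℚ w
  have hW : LinearMap.ker W = ⊥ := by
    rw [LinearMap.ker_eq_bot']
    intro c hc
    funext i
    exact Fintype.linearIndependent_iff.1 hw c (by simpa [W, Fintype.linearCombination_apply] using hc) i
  obtain ⟨π, hπ⟩ := W.exists_leftInverse_of_injective hW
  let Z : (ι → ℚ) →ₗ[ℚ] V := Fintype.linearCombination ℚ z
  let A : End ℚ (ι → ℚ) := π ∘ₗ Z
  obtain ⟨s, hs⟩ : ∃ s : ℚ, s ∉ ({μ | A.HasEigenvalue μ} ∪ {0} : Set ℚ) :=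
    ((A.finite_hasEigenvalue).union (Set.finite_singleton 0)).infinite_compl.nonempty
  have hs0 : s ≠ 0 := fun h => hs (Or.inr h)
  have hs1 : ¬ A.HasEigenvalue s := fun h => hs (Or.inl h)
  refine ⟨-s⁻¹, by simpa using hs0, ?_⟩
  rw [Fintype.linearIndependent_iff]
  intro c hc
  have h1 : W c + (-s⁻¹) • Z c = 0 := by
    rw [← hc]
    simp only [W, Z, Fintype.linearCombination_apply, Finset.smul_sum, ← Finset.sum_add_distrib]
    refine Finset.sum_congr rfl fun i _ => ?_
    rw [smul_add, smul_comm]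
  have h2 := congrArg π h1
  rw [map_add, map_smul, map_zero] at h2
  have h3 : π (W c) = c := LinearMap.congr_fun hπ c
  have h4 : π (Z c) = A c := rfl
  rw [h3, h4] at h2
  have h5 : A c = s • c := by
    have h6 : s • (c + -s⁻¹ • A c) = 0 := by rw [h2, smul_zero]
    rw [smul_add, smul_smul, mul_neg, mul_inv_cancel₀ hs0, neg_one_smul] at h6
    rw [eq_comm, ← sub_eq_zero, sub_eq_add_neg]
    exact h6
  have h7 : c = 0 := by
    by_contra hne
    exact hs1 (Module.End.hasEigenvalue_of_hasEigenvector ⟨Module.End.mem_eigenspace_iff.2 h5, hne⟩)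
  intro i
  rw [h7]
  rfl

end Lin

section Div

variable {D : Type*} [DivisionRing D] {M V : Type*} [AddCommGroup M] [Module D M]
  [AddCommGroup V] [Module D V]

lemma exists_map (x : M) (hx : x ≠ 0) (v : V) : ∃ g : M →ₗ[D] V, g x = v := by
  have h1 : LinearMap.ker (LinearMap.toSpanSingleton D M x) = ⊥ :=
    LinearMap.ker_toSpanSingleton D hx
  obtain ⟨φ, hφ⟩ := (LinearMap.toSpanSingleton D M x).exists_leftInverse_of_injective h1
  refine ⟨(LinearMap.toSpanSingleton D V v) ∘ₗ φ, ?_⟩
  have h2 : φ x = 1 := by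
    have h3 := LinearMap.congr_fun hφ 1
    simpa using h3
  rw [LinearMap.comp_apply, h2, LinearMap.toSpanSingleton_apply, one_smul]

variable [Algebra ℚ D] [Module ℚ M] [IsScalarTower ℚ D M] [Module ℚ V] [IsScalarTower ℚ D V]
  [FiniteDimensional ℚ V]

/-- There are maps with a large rank on a given rational subspace. -/
lemma exists_rank (L : Submodule ℚ M) [FiniteDimensional ℚ L]
    (h : finrank ℚ L ≤ finrank ℚ V) : ∀ ρ : ℕ, ρ ≤ finrank ℚ L →
    ∃ (f : M →ₗ[D] V) (l : Fin ρ → L), LinearIndependent ℚ fun i => f (l i : M) := by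
  intro ρ
  induction ρ with
  | zero => exact fun _ => ⟨0, Fin.elim0, linearIndependent_empty_type⟩
  | succ ρ ih =>
    intro hρ
    obtain ⟨f, l, hl⟩ := ih (Nat.le_of_succ_le hρ)
    let fL : L →ₗ[ℚ] V := (f.restrictScalars ℚ).domRestrict L
    by_cases hinj : Function.Injective fL
    · -- a basis of `L`
      let b := finBasis ℚ L
      have h1 : LinearIndependent ℚ fun i => fL (b i) :=
        b.linearIndependent.map' fL (LinearMap.ker_eq_bot.2 hinj)
      exact ⟨f, fun i => b (Fin.castLE hρ i), h1.comp _ (Fin.castLE_injective hρ)⟩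
    · obtain ⟨x, hx0, hx⟩ : ∃ x : L, x ≠ 0 ∧ fL x = 0 := by
        rw [← LinearMap.ker_eq_bot, LinearMap.ker_eq_bot'] at hinj
        push Not at hinj
        obtain ⟨x, h1, h2⟩ := hinj
        exact ⟨x, h2, h1⟩
      have hlt : finrank ℚ (LinearMap.range fL) < finrank ℚ V := by
        have h1 := fL.finrank_range_add_finrank_ker
        have h2 : 0 < finrank ℚ (LinearMap.ker fL) := by
          rw [Module.finrank_pos_iff_exists_ne_zero]
          exact ⟨⟨x, hx⟩, fun h3 => hx0 (congrArg Subtype.val h3)⟩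
        omega
      obtain ⟨v, hv⟩ : ∃ v : V, v ∉ LinearMap.range fL := by
        by_contra hcon
        push Not at hcon
        have h1 : LinearMap.range fL = ⊤ := by
          rw [eq_top_iff]
          exact fun v _ => hcon v
        rw [h1, finrank_top] at hlt
        exact lt_irrefl _ hlt
      have hx0' : (x : M) ≠ 0 := fun h3 => hx0 (Subtype.ext h3)
      obtain ⟨g, hg⟩ := exists_map (D := D) (x : M) hx0' v
      have hw : LinearIndependent ℚ (Fin.cons v (fun i => f (l i : M)) : Fin (ρ + 1) → V) := by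
        rw [linearIndependent_finCons]
        refine ⟨hl, fun h1 => hv ?_⟩
        refine Submodule.span_le.2 ?_ h1
        rintro _ ⟨i, rfl⟩
        exact ⟨l i, rfl⟩
      obtain ⟨t, ht, hind⟩ := exists_perturb hw (Fin.cons 0 (fun i => g (l i : M)))
      refine ⟨f + t • g, Fin.cons (t⁻¹ • x) l, ?_⟩
      convert hind using 1
      funext i
      refine Fin.cases ?_ (fun i => ?_) i
      · rw [Fin.cons_zero, Fin.cons_zero, Fin.cons_zero, smul_zero, add_zero]
        have h1 : f ((t⁻¹ • x : L) : M) = 0 := by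
          have h2 : fL (t⁻¹ • x) = 0 := by rw [map_smul, hx, smul_zero]
          exact h2
        have h2 : g ((t⁻¹ • x : L) : M) = t⁻¹ • v := by
          rw [Submodule.coe_smul, ← hg]
          exact (g.restrictScalars ℚ).map_smul t⁻¹ (x : M)
        rw [LinearMap.add_apply, h1, zero_add, LinearMap.smul_apply, h2, smul_smul,
          mul_inv_cancel₀ ht, one_smul]
      · rw [Fin.cons_succ, Fin.cons_succ, Fin.cons_succ, LinearMap.add_apply, LinearMap.smul_apply]

end Div

section Rank

variable (K : Type*) [Field K] [Algebra ℚ K] {M V : Type*} [AddCommGroup M] [Module ℚ M]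
  [AddCommGroup V] [Module ℚ V]

/-- The `K`-rank of the image of a rational subspace. -/
noncomputable def rk (φ : M →ₗ[ℚ] K ⊗[ℚ] V) (L : Submodule ℚ M) : ℕ :=
  finrank K (Submodule.span K (φ '' (L : Set M)))

variable {K}

lemma span_eq (φ : M →ₗ[ℚ] K ⊗[ℚ] V) (L : Submodule ℚ M) {ι : Type*} (b : Basis ι ℚ L) :
    Submodule.span K (φ '' (L : Set M)) = Submodule.span K (Set.range fun i => φ (b i)) := by
  apply le_antisymm
  · rw [Submodule.span_le]
    rintro _ ⟨x, hx, rfl⟩
    have h1 : (⟨x, hx⟩ : L) ∈ Submodule.span ℚ (Set.range b) := by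
      rw [b.span_eq]
      exact Submodule.mem_top
    let ψ : L →ₗ[ℚ] K ⊗[ℚ] V := φ ∘ₗ L.subtype
    have h2 : ψ ⟨x, hx⟩ ∈ (Submodule.span K (Set.range fun i => φ (b i))).restrictScalars ℚ := by
      refine (Submodule.map_span_le ψ _ _).2 ?_ (Submodule.mem_map_of_mem h1)
      rintro _ ⟨i, rfl⟩
      exact Submodule.subset_span ⟨i, rfl⟩
    exact h2
  · rw [Submodule.span_le]
    rintro _ ⟨i, rfl⟩
    exact Submodule.subset_span ⟨b i, (b i).2, rfl⟩

lemma rk_eq [FiniteDimensional ℚ V] (φ : M →ₗ[ℚ] K ⊗[ℚ] V) (L : Submodule ℚ M)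
    [FiniteDimensional ℚ L] (l : Fin (finrank ℚ L) → L)
    (hl : LinearIndependent K fun i => φ (l i : M)) : rk K φ L = finrank ℚ L := by
  apply le_antisymm
  · rw [rk, span_eq φ L (finBasis ℚ L)]
    exact (finrank_range_le_card _).trans_eq (Fintype.card_fin _)
  · have h1 := finrank_span_eq_card hl
    rw [Fintype.card_fin] at h1
    conv_lhs => rw [← h1]
    apply Submodule.finrank_mono
    apply Submodule.span_mono
    rintro _ ⟨i, rfl⟩
    exact ⟨l i, (l i).2, rfl⟩

end Rank

section Generic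

variable {D : Type*} [DivisionRing D] [Algebra ℚ D] {M V : Type*} [AddCommGroup M] [Module D M]
  [AddCommGroup V] [Module D V] [Module ℚ M] [IsScalarTower ℚ D M] [Module ℚ V]
  [IsScalarTower ℚ D V] [FiniteDimensional ℚ V]

/-- Multiplication by an element of `D`. -/
def mulBy (V : Type*) [AddCommGroup V] [Module D V] [Module ℚ V] [IsScalarTower ℚ D V] (d : D) :
    V →ₗ[ℚ] V where
  toFun v := d • v
  map_add' := smul_add d
  map_smul' q v := smul_comm d q v

lemma generic_indep {K : Type*} [Field K] [Algebra ℚ K] {N : ℕ} (e : Basis (Fin N) ℚ (M →ₗ[D] V))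
    {t : Fin N → K} (ht : AlgebraicIndependent ℚ t) {φ : M →ₗ[ℚ] K ⊗[ℚ] V}
    (hφ : ∀ x, φ x = ∑ j, t j ⊗ₜ[ℚ] e j x) (f : M →ₗ[D] V) {m : ℕ} (l : Fin m → M)
    (hl : LinearIndependent ℚ fun i => f (l i)) : LinearIndependent K fun i => φ (l i) := by
  -- coordinates
  let W : (Fin m → ℚ) →ₗ[ℚ] V := Fintype.linearCombination ℚ fun i => f (l i)
  have hW : LinearMap.ker W = ⊥ := by
    rw [LinearMap.ker_eq_bot']
    intro c hc
    funext i
    exact Fintype.linearIndependent_iff.1 hl c
      (by simpa [W, Fintype.linearCombination_apply] using hc) i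
  obtain ⟨π, hπ⟩ := W.exists_leftInverse_of_injective hW
  have hπ' : ∀ i, π (f (l i)) = Pi.single i 1 := by
    intro i
    have h1 := LinearMap.congr_fun hπ (Pi.single i 1)
    simpa [W, Fintype.linearCombination_apply_single] using h1
  let P : Matrix (Fin m) (Fin m) (MvPolynomial (Fin N) ℚ) := Matrix.of fun i k =>
    ∑ j, MvPolynomial.X j * MvPolynomial.C (π (e j (l i)) k)
  have hP : ∀ i k, P i k = ∑ j, MvPolynomial.X j * MvPolynomial.C (π (e j (l i)) k) :=
    fun i k => rfl
  have h1 : MvPolynomial.aeval (fun j => e.repr f j) P.det = (1 : ℚ) := by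
    rw [AlgHom.map_det]
    have h2 : (MvPolynomial.aeval (fun j => e.repr f j)).mapMatrix P =
        (1 : Matrix (Fin m) (Fin m) ℚ) := by
      ext i k
      rw [AlgHom.mapMatrix_apply, Matrix.map_apply, hP, map_sum]
      have h3 : ∑ j, (MvPolynomial.aeval (fun j => e.repr f j)) (MvPolynomial.X j *
          MvPolynomial.C (π (e j (l i)) k) : MvPolynomial (Fin N) ℚ) = π (f (l i)) k := by
        have h4 : f = ∑ j, e.repr f j • e j := (e.sum_repr f).symm
        conv_rhs => rw [h4]
        rw [LinearMap.sum_apply, map_sum, Finset.sum_apply]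
        refine Finset.sum_congr rfl fun j _ => ?_
        rw [map_mul, MvPolynomial.aeval_X, MvPolynomial.aeval_C, LinearMap.smul_apply, map_smul,
          Pi.smul_apply, smul_eq_mul]
        rfl
      rw [h3, hπ', Matrix.one_apply, Pi.single_apply]
      simp only [eq_comm]
    rw [h2, Matrix.det_one]
  have h2 : P.det ≠ 0 := by
    intro h3
    rw [h3, map_zero] at h1
    exact zero_ne_one h1
  have h3 : MvPolynomial.aeval t P.det ≠ 0 :=
    fun h4 => h2 (ht.eq_zero_of_aeval_eq_zero P.det h4)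
  rw [AlgHom.map_det] at h3
  rw [Fintype.linearIndependent_iff]
  intro c hc
  have h4 : Matrix.vecMul c ((MvPolynomial.aeval t).mapMatrix P) = 0 := by
    funext k
    rw [Matrix.vecMul, dotProduct, Pi.zero_apply]
    let ℓ : V →ₗ[ℚ] K := (Algebra.linearMap ℚ K) ∘ₗ (LinearMap.proj k) ∘ₗ π
    have h5 := congrArg (LinearMap.liftBaseChange K ℓ) hc
    rw [map_zero, map_sum] at h5
    rw [← h5]
    refine Finset.sum_congr rfl fun i _ => ?_
    rw [map_smul, smul_eq_mul, hφ, map_sum, AlgHom.mapMatrix_apply, Matrix.map_apply, hP, map_sum]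
    congr 1
    refine Finset.sum_congr rfl fun j _ => ?_
    rw [map_mul, MvPolynomial.aeval_X, MvPolynomial.aeval_C, LinearMap.liftBaseChange_tmul,
      smul_eq_mul]
    rfl
  intro i
  have h5 := Matrix.eq_zero_of_vecMul_eq_zero h3 h4
  exact congrFun h5 i

/-- Generic `D`-linear maps have the largest possible rank on all rational subspaces. -/
theorem exists_generic {K : Type*} [Field K] [Algebra ℚ K] {N : ℕ} (e : Basis (Fin N) ℚ (M →ₗ[D] V))
    {t : Fin N → K} (ht : AlgebraicIndependent ℚ t) :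
    ∃ φ : M →ₗ[ℚ] K ⊗[ℚ] V, (∀ (d : D) (x : M), φ (d • x) = (mulBy V d).lTensor K (φ x)) ∧
      ∀ (L : Submodule ℚ M) [FiniteDimensional ℚ L], finrank ℚ L ≤ finrank ℚ V →
        rk K φ L = finrank ℚ L := by
  let φ : M →ₗ[ℚ] K ⊗[ℚ] V := ∑ j, (TensorProduct.mk ℚ K V (t j)) ∘ₗ (e j).restrictScalars ℚ
  have hφ : ∀ x, φ x = ∑ j, t j ⊗ₜ[ℚ] e j x := by
    intro x
    simp [φ, LinearMap.sum_apply]
  refine ⟨φ, ?_, ?_⟩
  · intro d x
    rw [hφ, hφ, map_sum]
    refine Finset.sum_congr rfl fun j _ => ?_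
    rw [LinearMap.lTensor_tmul, map_smul]
    rfl
  · intro L _ h
    obtain ⟨f, l, hl⟩ := exists_rank (D := D) (V := V) L h _ le_rfl
    exact rk_eq φ L l (generic_indep e ht hφ f (fun i => (l i : M)) hl)

end Generic

section Padic

variable (p : ℕ) [Fact p.Prime]

open Cardinal in
/-- There are arbitrarily many algebraically independent `p`-adic numbers. -/
lemma exists_algInd (N : ℕ) : ∃ t : Fin N → ℚ_[p], AlgebraicIndependent ℚ t := by
  obtain ⟨s, hs⟩ := exists_isTranscendenceBasis ℚ ℚ_[p]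
  have h1 : 𝔠 ≤ #ℚ_[p] := continuum_le_cardinal_of_nontriviallyNormedField ℚ_[p]
  have h2 : Infinite s := by
    by_contra hfin
    rw [not_infinite_iff_finite] at hfin
    have h3 := hs.isAlgebraic
    have h4 : #ℚ_[p] ≤ max #(Algebra.adjoin ℚ (Set.range ((↑) : s → ℚ_[p]))) ℵ₀ :=
      Algebra.IsAlgebraic.cardinalMk_le_max _ _
    have h5 : #(Algebra.adjoin ℚ (Set.range ((↑) : s → ℚ_[p]))) = #(MvPolynomial s ℚ) :=
      (Cardinal.mk_congr hs.1.aevalEquiv.toEquiv).symm
    have h6 : #(MvPolynomial s ℚ) ≤ ℵ₀ := by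
      refine MvPolynomial.cardinalMk_le_max.trans ?_
      simp [Cardinal.mk_le_aleph0]
    rw [h5] at h4
    have h7 := h1.trans (h4.trans (max_le h6 le_rfl))
    exact absurd h7 (not_le.2 aleph0_lt_continuum)
  exact ⟨fun i => (Infinite.natEmbedding s i : ℚ_[p]), hs.1.comp _
    ((Infinite.natEmbedding s).injective.comp Fin.val_injective)⟩

end Padic

end Pool.Agent.R484.PA
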