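import Pool.Agent.R484.PAa

/-!
# The closure of a subgroup of rational points: subgroups of cyclic modules
-/

set_option autoImplicit false
set_option linter.unusedSectionVars false

open Module TensorProduct

namespace Pool.Agent.R484.PA

section Emb

variable {F Ω : Type*} [Field F] [Algebra ℚ F] [FiniteDimensional ℚ F] [Field Ω] [Algebra ℚ Ω]
  [IsAlgClosed Ω]

/-- The embeddings of a number field separate linear independence. -/
lemma emb_indep {ι : Type*} [Fintype ι] {a : ι → F} (ha : LinearIndependent ℚ a) {c : ι → Ω}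
    (h : ∀ σ : F →ₐ[ℚ] Ω, ∑ i, c i * σ (a i) = 0) (j : ι) : c j = 0 := by
  classical
  let W : (ι → ℚ) →ₗ[ℚ] F := Fintype.linearCombination ℚ a
  have hW : LinearMap.ker W = ⊥ := by
    rw [LinearMap.ker_eq_bot']
    intro q hq
    funext i
    exact Fintype.linearIndependent_iff.1 ha q
      (by simpa [W, Fintype.linearCombination_apply] using hq) i
  obtain ⟨π, hπ⟩ := W.exists_leftInverse_of_injective hW
  have hπ' : ∀ i, π (a i) = Pi.single i 1 := by
    intro i
    have h1 := LinearMap.congr_fun hπ (Pi.single i 1)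
    simpa [W, Fintype.linearCombination_apply_single] using h1
  let δ : Dual ℚ F := (LinearMap.proj j) ∘ₗ π
  let B := Algebra.traceForm ℚ F
  have hB : B.Nondegenerate := traceForm_nondegenerate ℚ F
  let b : F := (B.toDual hB).symm δ
  have hb : ∀ i, Algebra.trace ℚ F (b * a i) = if i = j then 1 else 0 := by
    intro i
    have h1 : B b (a i) = δ (a i) := LinearMap.BilinForm.apply_toDual_symm_apply (hB := hB) δ (a i)
    have h2 : δ (a i) = if i = j then 1 else 0 := by
      have h3 : δ (a i) = π (a i) j := rfl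
      rw [h3, hπ', Pi.single_apply]
      simp only [eq_comm]
    rw [← h2, ← h1]
    rfl
  have h1 : ∑ σ : F →ₐ[ℚ] Ω, σ b * ∑ i, c i * σ (a i) = 0 :=
    Finset.sum_eq_zero fun σ _ => by rw [h σ, mul_zero]
  have h2 : ∑ σ : F →ₐ[ℚ] Ω, σ b * ∑ i, c i * σ (a i) =
      ∑ i, c i * ∑ σ : F →ₐ[ℚ] Ω, σ (b * a i) := by
    simp only [Finset.mul_sum]
    rw [Finset.sum_comm]
    refine Finset.sum_congr rfl fun i _ => Finset.sum_congr rfl fun σ _ => ?_
    rw [map_mul]
    ring
  rw [h2] at h1
  have h3 : ∀ i, ∑ σ : F →ₐ[ℚ] Ω, σ (b * a i) = if i = j then 1 else 0 := by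
    intro i
    rw [← trace_eq_sum_embeddings Ω, hb i]
    split_ifs <;> simp
  simp only [h3] at h1
  simpa using h1

end Emb

/-- The logarithm of an abelian variety `A` over `ℚ` at the prime `p`: `D = End(A) ⊗ ℚ`,
`M = A(ℚ) ⊗ ℚ`, `V = Lie A`. -/
structure PadicLogarithm (p : ℕ) [Fact p.Prime] (D M V : Type) [DivisionRing D] [Algebra ℚ D]
    [AddCommGroup M] [Module D M] [Module ℚ M] [IsScalarTower ℚ D M] [AddCommGroup V] [Module D V]
    [Module ℚ V] [IsScalarTower ℚ D V] where
  /-- the logarithm `A(ℚ) ⊗ ℚ → Lie A ⊗ ℚ_p` -/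
  log : M →ₗ[ℚ] ℚ_[p] ⊗[ℚ] V
  /-- it commutes with the endomorphisms of `A` -/
  equivariant : ∀ (d : D) (x : M), log (d • x) = (mulBy V d).lTensor ℚ_[p] (log x)
  /-- the `p`-adic analytic subgroup theorem for the simple abelian variety `A`: no nonzero linear
  form with algebraic coefficients vanishes at the logarithm of a point of infinite order -/
  transcendence : ∀ x : M, x ≠ 0 → ∀ ℓ : V →ₗ[ℚ] AlgebraicClosure ℚ_[p], ℓ ≠ 0 →
    (∀ v, IsAlgebraic ℚ (ℓ v)) → LinearMap.liftBaseChange ℚ_[p] ℓ (log x) ≠ 0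

section Main

variable {p : ℕ} [Fact p.Prime] {D M V : Type} [DivisionRing D] [Algebra ℚ D]
    [AddCommGroup M] [Module D M] [Module ℚ M] [IsScalarTower ℚ D M] [AddCommGroup V] [Module D V]
    [Module ℚ V] [IsScalarTower ℚ D V] [FiniteDimensional ℚ V]

/-- Subgroups of `F · P`. -/
theorem rank_field (T : PadicLogarithm p D M V) [Nontrivial V] {F : Type} [Field F] [Algebra ℚ F]
    [FiniteDimensional ℚ F] (φ : F →ₐ[ℚ] D) (P : M) (L : Submodule ℚ M)
    (hL : ∀ x ∈ L, ∃ a : F, x = φ a • P) : rk ℚ_[p] T.log L = finrank ℚ L := by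
  -- `L` is finite-dimensional
  let act : F →ₗ[ℚ] M :=
    { toFun := fun a => φ a • P
      map_add' := fun a b => by rw [map_add, add_smul]
      map_smul' := fun q a => by
        rw [map_smul, RingHom.id_apply, smul_assoc] }
  have hfin : FiniteDimensional ℚ L := by
    have h1 : L ≤ LinearMap.range act := by
      intro x hx
      obtain ⟨a, ha⟩ := hL x hx
      exact ⟨a, ha.symm⟩
    exact Submodule.finiteDimensional_of_le h1
  let b := finBasis ℚ L
  choose a ha using fun i => hL (b i : M) (b i).2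
  have ha' : LinearIndependent ℚ a := by
    rw [Fintype.linearIndependent_iff]
    intro q hq
    have h1 : ∑ i, q i • b i = 0 := by
      apply Subtype.ext
      rw [Submodule.coe_sum, Submodule.coe_zero]
      have h2 : act (∑ i, q i • a i) = 0 := by rw [hq, map_zero]
      rw [map_sum] at h2
      rw [← h2]
      refine Finset.sum_congr rfl fun i _ => ?_
      rw [map_smul, Submodule.coe_smul, ha i]
      rfl
    exact Fintype.linearIndependent_iff.1 b.linearIndependent q h1
  refine rk_eq T.log L (fun i => b i) ?_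
  rw [Fintype.linearIndependent_iff]
  intro c hc
  have key : ∀ i, (algebraMap ℚ_[p] (AlgebraicClosure ℚ_[p])) (c i) = 0 := by
    intro i
    have hP : P ≠ 0 := by
      rintro rfl
      apply b.ne_zero i
      apply Subtype.ext
      rw [ha i, smul_zero, Submodule.coe_zero]
    refine emb_indep (Ω := AlgebraicClosure ℚ_[p]) ha'
      (c := fun i => algebraMap ℚ_[p] (AlgebraicClosure ℚ_[p]) (c i)) (fun σ => ?_) i
    -- a linear form on which `F` acts through `σ`
    let _ : Module F V := Module.compHom V (φ : F →+* D)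
    have hsm : ∀ (x : F) (v : V), x • v = φ x • v := fun _ _ => rfl
    obtain ⟨v, hv⟩ := exists_ne (0 : V)
    obtain ⟨χ, hχ⟩ := exists_map (D := F) v hv (1 : F)
    let ℓ : V →ₗ[ℚ] AlgebraicClosure ℚ_[p] :=
      ((σ : F →+* AlgebraicClosure ℚ_[p]).toAddMonoidHom.comp χ.toAddMonoidHom).toRatLinearMap
    have hℓ : ∀ w, ℓ w = σ (χ w) := fun _ => rfl
    have hℓ0 : ℓ ≠ 0 := by
      intro h1
      have h2 : ℓ v = 0 := by rw [h1]; rfl
      rw [hℓ, hχ, map_one] at h2
      exact one_ne_zero h2
    have hℓa : ∀ w, IsAlgebraic ℚ (ℓ w) := fun w => by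
      rw [hℓ]
      exact (Algebra.IsAlgebraic.isAlgebraic (R := ℚ) (χ w)).algHom σ
    have hT := T.transcendence P hP ℓ hℓ0 hℓa
    have hmul : ∀ (x : F) (y : ℚ_[p] ⊗[ℚ] V), LinearMap.liftBaseChange ℚ_[p] ℓ
        ((mulBy V (φ x)).lTensor ℚ_[p] y) = σ x * LinearMap.liftBaseChange ℚ_[p] ℓ y := by
      intro x y
      induction y using TensorProduct.induction_on with
      | zero => rw [map_zero, map_zero, mul_zero]
      | tmul s w =>
        rw [LinearMap.lTensor_tmul, LinearMap.liftBaseChange_tmul, LinearMap.liftBaseChange_tmul]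
        have h1 : ℓ (mulBy V (φ x) w) = σ x * ℓ w := by
          have h2 : mulBy V (φ x) w = x • w := rfl
          rw [h2, hℓ, hℓ, map_smul, smul_eq_mul, map_mul]
        rw [h1, Algebra.smul_def, Algebra.smul_def]
        ring
      | add y z hy hz => rw [map_add, map_add, map_add, hy, hz, mul_add]
    have h1 := congrArg (LinearMap.liftBaseChange ℚ_[p] ℓ) hc
    rw [map_zero, map_sum] at h1
    have h2 : ∑ i, LinearMap.liftBaseChange ℚ_[p] ℓ (c i • T.log (b i : M)) =
        (∑ i, algebraMap ℚ_[p] (AlgebraicClosure ℚ_[p]) (c i) * σ (a i)) *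
          LinearMap.liftBaseChange ℚ_[p] ℓ (T.log P) := by
      rw [Finset.sum_mul]
      refine Finset.sum_congr rfl fun i _ => ?_
      rw [map_smul, ha i, T.equivariant, hmul, Algebra.smul_def, mul_assoc]
    rw [h2] at h1
    exact (mul_eq_zero.1 h1).resolve_right hT
  intro i
  exact (map_eq_zero _).1 (key i)

end Main

end Pool.Agent.R484.PA
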