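import Pool.Agent.H447R3.KuA

/-!
# The gap inequality for operators with the super traces of a projector
-/

open Polynomial Finset TensorProduct

namespace Pool.Agent.R484.SG

open Pool.Agent.H914 Pool.Agent.H447

section Rational

/-- The contribution of one eigenvalue. -/
def gapTerm (a b : ℕ) : ℚ := (a : ℚ) * b * (a + b) / ((a : ℚ) - b) ^ 2

lemma gapTerm_nonneg (a b : ℕ) : 0 ≤ gapTerm a b := by unfold gapTerm; positivity

lemma gapTerm_le_one {a b : ℕ} (hab : a = b → a = 0) (h : gapTerm a b ≤ 1) : a = 0 ∨ b = 0 := by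
  by_contra hc
  push Not at hc
  obtain ⟨ha, hb⟩ := hc
  have hne : a ≠ b := fun h => ha (hab h)
  have ha1 : (1 : ℚ) ≤ a := by exact_mod_cast Nat.one_le_iff_ne_zero.2 ha
  have hb1 : (1 : ℚ) ≤ b := by exact_mod_cast Nat.one_le_iff_ne_zero.2 hb
  have hsub : (a : ℚ) - b ≠ 0 := sub_ne_zero.2 (by exact_mod_cast hne)
  have hpos : 0 < ((a : ℚ) - b) ^ 2 := by positivity
  unfold gapTerm at h
  rw [div_le_one hpos] at h
  nlinarith [mul_nonneg (sub_nonneg.2 ha1) (sub_nonneg.2 hb1),
    mul_nonneg (mul_nonneg (sub_nonneg.2 ha1) (sub_nonneg.2 hb1)) (by positivity : (0:ℚ) ≤ a),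
    mul_nonneg (mul_nonneg (sub_nonneg.2 ha1) (sub_nonneg.2 hb1)) (by positivity : (0:ℚ) ≤ b),
    mul_nonneg (sub_nonneg.2 hb1) (by positivity : (0:ℚ) ≤ a),
    mul_nonneg (sub_nonneg.2 hb1) (by positivity : (0:ℚ) ≤ (a : ℚ) ^ 2),
    mul_nonneg (sub_nonneg.2 ha1) (by positivity : (0:ℚ) ≤ (b : ℚ) ^ 2)]

end Rational

section

variable {K : Type*} [Field K] [CharZero K] {V : Type*} [AddCommGroup V] [Module K V]
  [Module.Finite K V]

/-- Traces of polynomials in an operator against a spectral projector. -/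
lemma trace_pow_spectral {T S E : Module.End K V} {ν : K} {N : ℕ} (hST : Commute S T)
    (hSE : Commute S E) (hTE : Commute T E)
    (hN : (T - algebraMap K (Module.End K V) ν) ^ N * E = 0) (k : ℕ) :
    LinearMap.trace K V (S * (T ^ k * E)) = ν ^ k * LinearMap.trace K V (S * E) := by
  induction k with
  | zero => rw [pow_zero, pow_zero, one_mul, one_mul]
  | succ k ih =>
    have h1 : S * (T ^ (k + 1) * E) = (S * T ^ k) * (T * E) := by
      rw [pow_succ]; simp only [mul_assoc]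
    rw [h1, trace_spectral (S := S * T ^ k) (hST.mul_left ((Commute.refl T).pow_left k))
      (hSE.mul_left (hTE.pow_left k)) hTE hN, mul_assoc S, ih, pow_succ]
    ring

/-- The spectral data of an operator which commutes with an idempotent. -/
theorem exists_data [IsAlgClosed K] {p T : Module.End K V} (hp : p * p = p) (hT : Commute T p) :
    ∃ (s : Finset K) (E : K → Module.End K V) (a b : K → ℕ),
      (∀ ν, ∃ f : K[X], E ν = aeval T f) ∧
      (∀ ν ∈ s, ∀ k : ℕ, LinearMap.trace K V (p * (T ^ k * E ν)) = ν ^ k * a ν) ∧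
      (∀ ν ∈ s, ∀ k : ℕ, LinearMap.trace K V ((1 - p) * (T ^ k * E ν)) = ν ^ k * b ν) ∧
      (∀ k : ℕ, LinearMap.trace K V (p * T ^ k) = ∑ ν ∈ s, ν ^ k * (a ν : K)) ∧
      (∀ k : ℕ, LinearMap.trace K V ((1 - p) * T ^ k) = ∑ ν ∈ s, ν ^ k * (b ν : K)) := by
  obtain ⟨s, E, N, hEp, hE1, hEE, hEN⟩ := exists_spectral T
  have hTE : ∀ ν, Commute T (E ν) := by
    intro ν
    obtain ⟨f, hf⟩ := hEp ν
    rw [hf]; exact comm_aeval (Commute.refl T) f
  have key : ∀ c : Module.End K V, c * c = c → Commute T c → ∃ a : K → ℕ,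
      (∀ ν ∈ s, ∀ k : ℕ, LinearMap.trace K V (c * (T ^ k * E ν)) = ν ^ k * a ν) ∧
      (∀ k : ℕ, LinearMap.trace K V (c * T ^ k) = ∑ ν ∈ s, ν ^ k * (a ν : K)) := by
    intro c hc hTc
    have hcE : ∀ ν, Commute c (E ν) := by
      intro ν
      obtain ⟨f, hf⟩ := hEp ν
      rw [hf]; exact comm_aeval hTc.symm f
    have hidem : ∀ ν ∈ s, c * E ν * (c * E ν) = c * E ν := by
      intro ν hν
      calc c * E ν * (c * E ν) = c * (E ν * c) * E ν := by simp only [mul_assoc]
        _ = (c * c) * (E ν * E ν) := by rw [← (hcE ν).eq]; simp only [mul_assoc]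
        _ = c * E ν := by rw [hc, hEE ν hν]
    have h1 : ∀ ν ∈ s, ∀ k : ℕ, LinearMap.trace K V (c * (T ^ k * E ν)) =
        ν ^ k * (Module.finrank K (LinearMap.range (c * E ν)) : K) := by
      intro ν hν k
      rw [trace_pow_spectral hTc.symm (hcE ν) (hTE ν) (hEN ν hν), trace_idem (hidem ν hν)]
    refine ⟨fun ν => Module.finrank K (LinearMap.range (c * E ν)), h1, fun k => ?_⟩
    have h2 : c * T ^ k = ∑ ν ∈ s, c * (T ^ k * E ν) := by
      rw [← Finset.mul_sum, ← Finset.mul_sum, hE1, mul_one]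
    rw [h2, map_sum]
    exact Finset.sum_congr rfl (fun ν hν => h1 ν hν k)
  obtain ⟨a, ha1, ha2⟩ := key p hp hT
  obtain ⟨b, hb1, hb2⟩ := key (1 - p) (by rw [mul_sub, sub_mul, sub_mul, hp]; simp)
    ((Commute.one_right T).sub_right hT)
  exact ⟨s, E, a, b, hEp, ha1, hb1, ha2, hb2⟩

/-- **The gap inequality**, over an algebraically closed field. -/
theorem gap_closed [IsAlgClosed K] {p T : Module.End K V} (hp : p * p = p) (hT : Commute T p)
    (hi : ∀ k : ℕ, LinearMap.trace K V ((p - (1 - p)) * T ^ (k + 1)) =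
      LinearMap.trace K V (p * T ^ k)) :
    ∃ q : ℚ, (q : K) = LinearMap.trace K V p - 3 * LinearMap.trace K V ((p - (1 - p)) * T ^ 2) +
        2 * LinearMap.trace K V ((p - (1 - p)) * T ^ 3) ∧ 0 ≤ q ∧
      (q ≤ 1 → ∀ k : ℕ, 1 ≤ k → LinearMap.trace K V ((p - (1 - p)) * T ^ (k + 1)) =
        LinearMap.trace K V ((p - (1 - p)) * T ^ k)) := by
  obtain ⟨s, E, a, b, hEp, ha1, hb1, ha2, hb2⟩ := exists_data hp hT
  have hst : ∀ k : ℕ, LinearMap.trace K V ((p - (1 - p)) * T ^ k) =
      ∑ ν ∈ s, ν ^ k * ((a ν : K) - b ν) := by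
    intro k
    rw [sub_mul, map_sub, ha2, hb2, ← Finset.sum_sub_distrib]
    exact Finset.sum_congr rfl (fun ν _ => by ring)
  -- the relation for one eigenvalue
  have hrel : ∀ ν ∈ s, ν * ((a ν : K) - b ν) = a ν := by
    intro ν hν
    obtain ⟨f, hf⟩ := hEp ν
    have e0 : ∀ g : K[X], LinearMap.trace K V ((p - (1 - p)) * (T * aeval T g)) =
        LinearMap.trace K V (p * aeval T g) := by
      intro g
      induction g using Polynomial.induction_on' with
      | add x y hx hy =>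
        rw [map_add, mul_add, mul_add, map_add, hx, hy, mul_add, map_add]
      | monomial k c =>
        rw [aeval_monomial, Algebra.algebraMap_eq_smul_one, smul_mul_assoc, one_mul, mul_smul_comm,
          mul_smul_comm, mul_smul_comm, map_smul, map_smul, ← pow_succ', hi]
    have e1 := e0 f
    rw [← hf] at e1
    have e2 := ha1 ν hν 1
    have e3 := hb1 ν hν 1
    have e4 := ha1 ν hν 0
    rw [pow_one, pow_one] at e2 e3
    rw [pow_zero, pow_zero, one_mul, one_mul] at e4
    rw [sub_mul, map_sub, e2, e3, e4] at e1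
    linear_combination e1
  have hzero : ∀ ν ∈ s, a ν = b ν → a ν = 0 := by
    intro ν hν h
    have h1 := hrel ν hν
    rw [← h, sub_self, mul_zero] at h1
    exact_mod_cast h1.symm
  have hval : ∀ ν ∈ s, ((gapTerm (a ν) (b ν) : ℚ) : K) =
      (a ν : K) - 3 * (ν ^ 2 * ((a ν : K) - b ν)) + 2 * (ν ^ 3 * ((a ν : K) - b ν)) := by
    intro ν hν
    by_cases h : a ν = b ν
    · have h0 := hzero ν hν h
      rw [← h, h0]
      simp [gapTerm]
    · have hne : ((a ν : K) - b ν) ≠ 0 := sub_ne_zero.2 (by exact_mod_cast h)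
      have h1 : ν = (a ν : K) / ((a ν : K) - b ν) := by
        rw [eq_div_iff hne]; exact hrel ν hν
      unfold gapTerm
      push_cast
      rw [div_eq_iff (pow_ne_zero 2 hne)]
      have h2 := hrel ν hν
      set A : K := (a ν : K)
      set B : K := (b ν : K)
      -- ν (A - B) = A
      have h3 : ν ^ 2 * (A - B) * (A - B) ^ 2 = A ^ 2 * (A - B) := by
        linear_combination (ν * (A - B) + A) * (A - B) * h2
      have h4 : ν ^ 3 * (A - B) * (A - B) ^ 2 = A ^ 3 := by
        linear_combination ((ν * (A - B)) ^ 2 + ν * (A - B) * A + A ^ 2) * h2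
      linear_combination 3 * h3 - 2 * h4
  refine ⟨∑ ν ∈ s, gapTerm (a ν) (b ν), ?_, Finset.sum_nonneg fun ν _ => gapTerm_nonneg _ _, ?_⟩
  · have h1 := ha2 0
    rw [pow_zero, mul_one] at h1
    rw [Rat.cast_sum, h1, hst, hst, Finset.mul_sum, Finset.mul_sum, ← Finset.sum_sub_distrib,
      ← Finset.sum_add_distrib]
    exact Finset.sum_congr rfl (fun ν hν => by rw [hval ν hν, pow_zero, one_mul])
  · intro hq k hk
    rw [hst, hst]
    apply Finset.sum_congr rfl
    intro ν hν
    have h1 : gapTerm (a ν) (b ν) ≤ 1 :=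
      (Finset.single_le_sum (fun κ _ => gapTerm_nonneg (a κ) (b κ)) hν).trans hq
    have h2 := hrel ν hν
    rcases gapTerm_le_one (hzero ν hν) h1 with h3 | h3
    · rw [h3, Nat.cast_zero] at h2 ⊢
      obtain ⟨k, rfl⟩ : ∃ k', k = k' + 1 := ⟨k - 1, by omega⟩
      linear_combination (ν ^ k * ν - ν ^ k) * h2
    · rw [h3, Nat.cast_zero, sub_zero] at h2 ⊢
      rw [pow_succ, mul_assoc, h2]

/-- **The gap inequality.** -/
theorem gap_main {p T : Module.End K V} (hp : p * p = p) (hT : Commute T p)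
    (hi : ∀ k : ℕ, LinearMap.trace K V ((p - (1 - p)) * T ^ (k + 1)) =
      LinearMap.trace K V (p * T ^ k)) :
    ∃ q : ℚ, (q : K) = LinearMap.trace K V p - 3 * LinearMap.trace K V ((p - (1 - p)) * T ^ 2) +
        2 * LinearMap.trace K V ((p - (1 - p)) * T ^ 3) ∧ 0 ≤ q ∧
      (q ≤ 1 → ∀ k : ℕ, 1 ≤ k → LinearMap.trace K V ((p - (1 - p)) * T ^ (k + 1)) =
        LinearMap.trace K V ((p - (1 - p)) * T ^ k)) := by
  set Kb := AlgebraicClosure K
  have hbc : ∀ k : ℕ, (p.baseChange Kb - (1 - p.baseChange Kb)) * T.baseChange Kb ^ k =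
      ((p - (1 - p)) * T ^ k).baseChange Kb := by
    intro k
    rw [bc_mul, bc_sub, bc_sub, bc_pow, bc_one]
  have hbt : ∀ k : ℕ, LinearMap.trace Kb (Kb ⊗[K] V)
      ((p.baseChange Kb - (1 - p.baseChange Kb)) * T.baseChange Kb ^ k) =
      algebraMap K Kb (LinearMap.trace K V ((p - (1 - p)) * T ^ k)) := by
    intro k
    rw [hbc, LinearMap.trace_baseChange]
  obtain ⟨q, h1, h2, h3⟩ := gap_closed (K := Kb) (V := Kb ⊗[K] V) (p := p.baseChange Kb)
    (T := T.baseChange Kb) (by rw [← bc_mul, hp])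
    (by rw [Commute, SemiconjBy, ← bc_mul, ← bc_mul, hT.eq])
    (by
      intro k
      rw [hbt, hi, ← bc_pow, ← bc_mul, LinearMap.trace_baseChange])
  refine ⟨q, ?_, h2, fun hq k hk => ?_⟩
  · apply (algebraMap K Kb).injective
    rw [hbt, hbt, LinearMap.trace_baseChange] at h1
    rw [map_ratCast, h1, map_add (algebraMap K Kb), map_sub (algebraMap K Kb),
      map_mul (algebraMap K Kb) 3, map_mul (algebraMap K Kb) 2, map_ofNat, map_ofNat]
  · have h4 := h3 hq k hk
    rw [hbt, hbt] at h4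
    exact (algebraMap K Kb).injective h4

end

end Pool.Agent.R484.SG
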