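import Pool.Agent.R484.SGa
import Pool.Agent.H578R3.SgnCyc

/-!
# The gap criterion for the sign conjecture
-/

open CategoryTheory AlgebraicGeometry Finset

universe u v

namespace Pool.Agent.R484.SG

open Pool.Agent.H914 VarClass Obj WeilCohomology Pool.Agent.H447 Pool.Agent.H578R3.Sgn

variable {k : Type u} [Field k] {𝒱 : VarClass k} {ops : CycleOps 𝒱}

/-- `z` is a cycle of codimension `dim X` on `X × X` which has the same intersection numbers with all
cycles of codimension `dim X` on `X × X` as the even Kunneth component of the diagonal. -/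
def RepresentsEven (W : WeilCohomology.{u, v} ops) (X : 𝒱.Obj) (z : (X.prod X).Cycles) : Prop :=
  (X.prod X).IsCyc X.dim z ∧ ∀ τ, IsEvenClass W X τ → NumRep W (X.prod X) X.dim z τ

/-- The gap of a cycle `z` on `X × X`: the rational number `b⁺ - 3 (z ∘ z · Δ) + 2 (z ∘ z ∘ z · Δ)`,
where `b⁺` is the dimension of the even cohomology of `X` and `Δ` is the diagonal. -/
noncomputable def gap (W : WeilCohomology.{u, v} ops) (X : 𝒱.Obj) (z : (X.prod X).Cycles) : ℚ :=
  evenBetti W X - 3 * diagNumber ops X (compCyc ops z z) +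
    2 * diagNumber ops X (compCyc ops z (compCyc ops z z))

variable {W : WeilCohomology.{u, v} ops} {X : 𝒱.Obj}

lemma par_eq' : par (W.isInternal X) =
    evenProj (W.isInternal X) - (1 - evenProj (W.isInternal X)) := par_eq _

/-- The operator of a cycle which represents the even class. -/
lemma rep_iff {z : (X.prod X).Cycles} (hz : (X.prod X).IsCyc X.dim z) :
    RepresentsEven W X z ↔ ∀ y, ROp W X 0 y →
      LinearMap.trace W.K (W.H X) (par (W.isInternal X) * (W.corr (W.cl _ z) * y)) =
        LinearMap.trace W.K (W.H X) (par (W.isInternal X) * (evenProj (W.isInternal X) * y)) := by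
  constructor
  · intro h
    obtain ⟨τ, hτ, hτi⟩ := exists_class_zero (X := X) (isHom_scal (W.isInternal X)
      (fun j => if Even j then (1 : W.K) else 0))
    have h1 := h.2 τ ⟨hτ, isEvenProj_iff.2 hτi⟩
    rw [numRep_iff hz hτ, hτi] at h1
    exact h1
  · intro h
    refine ⟨hz, ?_⟩
    rintro τ ⟨hτ, hτi⟩
    rw [numRep_iff hz hτ, isEvenProj_iff.1 hτi]
    exact h

lemma diag_two {z : (X.prod X).Cycles} (hz : (X.prod X).IsCyc X.dim z) :
    (diagNumber ops X (compCyc ops z z) : W.K) = LinearMap.trace W.K (W.H X)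
      (par (W.isInternal X) * W.corr (W.cl _ z) ^ 2) := by
  rw [← diagNumber_eq W (compCyc_mem hz hz rfl), corr_compCyc W hz, pow_two]
  rfl

lemma diag_three {z : (X.prod X).Cycles} (hz : (X.prod X).IsCyc X.dim z) :
    (diagNumber ops X (compCyc ops z (compCyc ops z z)) : W.K) = LinearMap.trace W.K (W.H X)
      (par (W.isInternal X) * W.corr (W.cl _ z) ^ 3) := by
  rw [← diagNumber_eq W (compCyc_mem hz (compCyc_mem hz hz rfl) rfl), corr_compCyc W
    (compCyc_mem hz hz rfl), corr_compCyc W hz, pow_succ, pow_two]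
  rfl

lemma gap_cast {z : (X.prod X).Cycles} (hz : (X.prod X).IsCyc X.dim z) :
    (gap W X z : W.K) = LinearMap.trace W.K (W.H X) (evenProj (W.isInternal X)) -
      3 * LinearMap.trace W.K (W.H X) (par (W.isInternal X) * W.corr (W.cl _ z) ^ 2) +
      2 * LinearMap.trace W.K (W.H X) (par (W.isInternal X) * W.corr (W.cl _ z) ^ 3) := by
  rw [← diag_two hz, ← diag_three hz, trace_evenProj, gap]
  push_cast
  ring

/-- **The gap criterion.** -/
theorem gap_criterion {z : (X.prod X).Cycles} (hz : RepresentsEven W X z) :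
    0 ≤ gap W X z ∧ List.TFAE [SignStd W X, gap W X z = 0, gap W X z ≤ 1,
      NumEquiv ops (X.prod X) X.dim (compCyc ops z z) z] := by
  have h := W.isInternal X
  have hOA := rop_opAlg (W := W) (X := X)
  have hT : ROp W X 0 (W.corr (W.cl _ z)) := rop_corr (by simp) hz.1
  have hTk : ∀ k : ℕ, ROp W X 0 (W.corr (W.cl _ z) ^ k) := fun k =>
    hOA.cast (hOA.pow hT k) (by simp)
  have hnum := (rep_iff hz.1).1 hz
  have hcomm : Commute (W.corr (W.cl _ z)) (evenProj (W.isInternal X)) :=
    evenProj_comm _ (isHom_corr W hz.1)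
  have hid := evenProj_idem (W.isInternal X)
  have hi : ∀ k : ℕ, LinearMap.trace W.K (W.H X)
      ((evenProj (W.isInternal X) - (1 - evenProj (W.isInternal X))) *
        W.corr (W.cl _ z) ^ (k + 1)) =
      LinearMap.trace W.K (W.H X) (evenProj (W.isInternal X) * W.corr (W.cl _ z) ^ k) := by
    intro k
    rw [← par_eq', pow_succ', hnum _ (hTk k), ← mul_assoc, par_evenProj]
  obtain ⟨q, hq1, hq2, hq3⟩ := gap_main hid hcomm hi
  rw [← par_eq'] at hq1 hq3
  have hqg : q = gap W X z := by
    have h1 := gap_cast (W := W) hz.1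
    rw [← hq1] at h1
    exact_mod_cast h1.symm
  rw [hqg] at hq2 hq3
  refine ⟨hq2, ?_⟩
  tfae_have 1 → 4 := by
    rintro ⟨P, hP, hP'⟩
    rw [isEvenProj_iff] at hP'
    have hPR : ROp W X 0 (evenProj (W.isInternal X)) := hP' ▸ rop_corr (by simp) hP
    rw [numEquiv_iff (W := W) (compCyc_mem hz.1 hz.1 rfl) hz.1, corr_compCyc W hz.1]
    have hNR : NumR (W.isInternal X) (ROp W X) 0
        (W.corr (W.cl _ z) - W.corr (W.cl _ z) ∘ₗ W.corr (W.cl _ z)) := by
      refine ⟨hOA.sub hT (hOA.cast (hOA.mul hT hT) (by simp)), ?_⟩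
      intro y hy
      have hy' : ROp W X 0 y := hOA.cast hy (by simp)
      change LinearMap.trace W.K (W.H X) (par (W.isInternal X) *
        ((W.corr (W.cl _ z) - W.corr (W.cl _ z) * W.corr (W.cl _ z)) * y)) = 0
      have e1 := hnum (W.corr (W.cl _ z) * y) (hOA.cast (hOA.mul hT hy') (by simp))
      have e2 := hnum (evenProj (W.isInternal X) * y) (hOA.cast (hOA.mul hPR hy') (by simp))
      have e3 : evenProj (W.isInternal X) * (W.corr (W.cl _ z) * y) =
          W.corr (W.cl _ z) * (evenProj (W.isInternal X) * y) := by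
        rw [← mul_assoc, ← hcomm.eq, mul_assoc]
      rw [e3, e2, ← mul_assoc (evenProj (W.isInternal X)), hid, ← hnum y hy'] at e1
      rw [sub_mul, mul_sub, map_sub, mul_assoc, e1, sub_self]
    exact hNR
  tfae_have 4 → 1 := fun h4 => sign_iff_num.2 ⟨z, hz.1, hz.2, h4⟩
  tfae_have 1 → 2 := by
    rintro ⟨P, hP, hP'⟩
    rw [isEvenProj_iff] at hP'
    have hPR : ROp W X 0 (evenProj (W.isInternal X)) := hP' ▸ rop_corr (by simp) hP
    have e2 : LinearMap.trace W.K (W.H X) (par (W.isInternal X) * W.corr (W.cl _ z) ^ 2) =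
        LinearMap.trace W.K (W.H X) (evenProj (W.isInternal X)) := by
      rw [pow_two, hnum _ hT, ← hcomm.eq, hnum _ hPR, hid, par_evenProj]
    have e3 : LinearMap.trace W.K (W.H X) (par (W.isInternal X) * W.corr (W.cl _ z) ^ 3) =
        LinearMap.trace W.K (W.H X) (evenProj (W.isInternal X)) := by
      rw [pow_succ', hnum _ (hTk 2), pow_two, ← mul_assoc (evenProj (W.isInternal X)), ← hcomm.eq,
        mul_assoc (W.corr (W.cl _ z)),
        hnum _ (hOA.cast (hOA.mul hPR hT) (by simp)), ← mul_assoc (evenProj (W.isInternal X)), hid,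
        ← hcomm.eq, hnum _ hPR, hid, par_evenProj]
    have h1 := gap_cast (W := W) hz.1
    rw [e2, e3] at h1
    have h2 : (gap W X z : W.K) = 0 := by rw [h1]; ring
    exact_mod_cast h2
  tfae_have 2 → 3 := fun h2 => by rw [h2]; exact zero_le_one
  tfae_have 3 → 1 := by
    intro h3
    obtain ⟨g, hg⟩ := exists_poly_of_proj (p := evenProj (W.isInternal X))
      (T := W.corr (W.cl _ z)) (ε := par (W.isInternal X)) (σ := -1) hid hcomm (par_evenProj _)
      (par_one_sub_evenProj _) (by norm_num)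
      (fun k => by
        rw [pow_succ', hnum _ (hTk k)])
      (hq3 h3)
    have hE : ROp W X 0 (evenProj (W.isInternal X)) := by
      rw [hg]; exact hOA.ev hT g
    obtain ⟨P, hP, hP'⟩ := exists_of_rop (p := X.dim) (by simp) hE
    exact ⟨P, hP, isEvenProj_iff.2 hP'⟩
  tfae_finish

/-- The existence form of the gap criterion. -/
theorem gap_exists (W : WeilCohomology.{u, v} ops) (X : 𝒱.Obj) :
    SignStd W X ↔ ∃ z, RepresentsEven W X z ∧ gap W X z ≤ 1 := by
  constructor
  · intro hS
    obtain ⟨z, hz, hn, hsq⟩ := sign_iff_num.1 hS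
    exact ⟨z, ⟨hz, hn⟩, ((gap_criterion ⟨hz, hn⟩).2.out 0 2).1 hS⟩
  · rintro ⟨z, hz, hg⟩
    exact ((gap_criterion hz).2.out 0 2).2 hg

end Pool.Agent.R484.SG
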