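import Pool.Agent.R484.SGb
import Pool.Agent.H914R2.ExtOp
import Pool.Agent.H578R3.MomC

/-!
# Numerical involutions, their trace, and products
-/

open CategoryTheory AlgebraicGeometry Finset

universe u v

namespace Pool.Agent.R484.SG

open Pool.Agent.H914 VarClass Obj WeilCohomology Pool.Agent.H447 Pool.Agent.H578R3.Sgn

variable {k : Type u} [Field k] {𝒱 : VarClass k} {ops : CycleOps 𝒱}

/-- The cycle of the diagonal on `X × X`. -/
noncomputable def diagCyc (ops : CycleOps 𝒱) (X : 𝒱.Obj) : (X.prod X).Cycles :=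
  ops.push (diag X) X.V.fundCycle

/-- `w` is a cycle of codimension `dim X` on `X × X` with rational coefficients such that `w ∘ w` is
numerically equivalent to the diagonal. -/
def NumInvolution (ops : CycleOps 𝒱) (X : 𝒱.Obj) (w : (X.prod X).Cycles) : Prop :=
  (X.prod X).IsCyc X.dim w ∧ NumEquiv ops (X.prod X) X.dim (compCyc ops w w) (diagCyc ops X)

/-- The sum of all Betti numbers of `X`. -/
noncomputable def totalBetti (W : WeilCohomology.{u, v} ops) (X : 𝒱.Obj) : ℕ :=
  Module.finrank W.K (W.H X)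

/-- The cycle `P` on `X × X` induces the parity operator, multiplication by `(-1) ^ j` on
`H^j(X)`. -/
def InducesParity (W : WeilCohomology.{u, v} ops) (X : 𝒱.Obj) (P : (X.prod X).Cycles) : Prop :=
  ∀ j, ∀ a ∈ W.gr X j, W.corr (W.cl (X.prod X) P) a = (-1 : W.K) ^ j • a

/-- The exterior product of the correspondences `z` and `w`, on `(X × Y) × (X × Y)`. -/
noncomputable def extCyc (ops : CycleOps 𝒱) (X Y : 𝒱.Obj) (z : (X.prod X).Cycles)
    (w : (Y.prod Y).Cycles) : ((X.prod Y).prod (X.prod Y)).Cycles :=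
  ops.mul (ops.pull (q1 X Y) z) (ops.pull (q2 X Y) w)

variable {X Y : 𝒱.Obj}

lemma diagCyc_mem (ops : CycleOps 𝒱) (X : 𝒱.Obj) : (X.prod X).IsCyc X.dim (diagCyc ops X) :=
  ops.push_mem _ X.V.fundCycle_mem (by simp only [dim_prod]; omega)

lemma corr_diagCyc (W : WeilCohomology.{u, v} ops) (X : 𝒱.Obj) :
    W.corr (W.cl _ (diagCyc ops X)) = 1 := by
  apply LinearMap.ext
  intro a
  rw [diagCyc, W.cl_push, corr_diag, W.cl_fund, one_mul, Module.End.one_apply]

lemma extCyc_mem {z : (X.prod X).Cycles} {w : (Y.prod Y).Cycles} (hz : (X.prod X).IsCyc X.dim z)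
    (hw : (Y.prod Y).IsCyc Y.dim w) :
    ((X.prod Y).prod (X.prod Y)).IsCyc (X.prod Y).dim (extCyc ops X Y z w) := by
  have := ops.mul_mem (ops.pull_mem (q1 X Y) hz) (ops.pull_mem (q2 X Y) hw)
  rwa [← dim_prod] at this

lemma corr_extCyc (W : WeilCohomology.{u, v} ops) {z : (X.prod X).Cycles} {w : (Y.prod Y).Cycles}
    (hw : (Y.prod Y).IsCyc Y.dim w) : W.corr (W.cl _ (extCyc ops X Y z w)) =
      extOp W (W.corr (W.cl _ z)) (W.corr (W.cl _ w)) := by
  apply ext_kunneth_lin
  intro a b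
  rw [extOp_tmul, extCyc, W.cl_mul, W.cl_pull, W.cl_pull, corr_ext _ (W.cl_mem hw)]

lemma map_diag_fst (W : WeilCohomology.{u, v} ops) (Z : 𝒱.Obj) (a : W.H Z) :
    W.map (diag Z) (W.map (fst Z Z) a) = a := by
  have e2 : diag Z ≫ fst Z Z = 𝟙 Z := Obj.lift_fst _ _
  rw [← W.map_comp, e2, W.map_id]

lemma map_diag_snd (W : WeilCohomology.{u, v} ops) (Z : 𝒱.Obj) (a : W.H Z) :
    W.map (diag Z) (W.map (snd Z Z) a) = a := by
  have e2 : diag Z ≫ snd Z Z = 𝟙 Z := Obj.lift_snd _ _
  rw [← W.map_comp, e2, W.map_id]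

lemma map_diag_q1 (W : WeilCohomology.{u, v} ops) (c : W.H (X.prod X)) :
    W.map (diag (X.prod Y)) (W.map (q1 X Y) c) = W.map (fst X Y) (W.map (diag X) c) := by
  refine W.kunneth_induction (p := fun c => W.map (diag (X.prod Y)) (W.map (q1 X Y) c) =
    W.map (fst X Y) (W.map (diag X) c)) ?_ ?_ c
  · intro a b ha hb
    rw [map_add, map_add, ha, hb, map_add, map_add]
  · intro i j a _ b _
    rw [q1_tmul, map_mul (W.map (diag (X.prod Y))), map_diag_fst, map_diag_snd,
      map_mul (W.map (diag X)), map_diag_fst, map_diag_snd, map_mul (W.map (fst X Y))]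

lemma map_diag_q2 (W : WeilCohomology.{u, v} ops) (c : W.H (Y.prod Y)) :
    W.map (diag (X.prod Y)) (W.map (q2 X Y) c) = W.map (snd X Y) (W.map (diag Y) c) := by
  refine W.kunneth_induction (p := fun c => W.map (diag (X.prod Y)) (W.map (q2 X Y) c) =
    W.map (snd X Y) (W.map (diag Y) c)) ?_ ?_ c
  · intro a b ha hb
    rw [map_add, map_add, ha, hb, map_add, map_add]
  · intro i j a _ b _
    rw [q2_tmul, map_mul (W.map (diag (X.prod Y))), map_diag_fst, map_diag_snd,
      map_mul (W.map (diag Y)), map_diag_fst, map_diag_snd, map_mul (W.map (snd X Y))]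

lemma tr_diag (W : WeilCohomology.{u, v} ops) {z : (X.prod X).Cycles}
    (hz : (X.prod X).IsCyc X.dim z) :
    (diagNumber ops X z : W.K) = W.tr X (W.map (diag X) (W.cl _ z)) := by
  rw [← cl_pull, tr_cl _ (ops.pull_mem _ hz)]
  rfl

/-- The intersection number with the diagonal is multiplicative. -/
lemma diagNumber_extCyc (W : WeilCohomology.{u, v} ops) {z : (X.prod X).Cycles}
    {w : (Y.prod Y).Cycles} (hz : (X.prod X).IsCyc X.dim z) (hw : (Y.prod Y).IsCyc Y.dim w) :
    diagNumber ops (X.prod Y) (extCyc ops X Y z w) = diagNumber ops X z * diagNumber ops Y w := by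
  have h : (diagNumber ops (X.prod Y) (extCyc ops X Y z w) : W.K) =
      ((diagNumber ops X z * diagNumber ops Y w : ℚ) : W.K) := by
    rw [Rat.cast_mul, tr_diag W (extCyc_mem hz hw), tr_diag W hz, tr_diag W hw, extCyc, W.cl_mul,
      W.cl_pull, W.cl_pull, map_mul (W.map (diag (X.prod Y))), map_diag_q1, map_diag_q2, W.tr_prod]
  exact_mod_cast h

/-- Numerically trivial operators and exterior products, first factor. -/
lemma numR_ext_left (W : WeilCohomology.{u, v} ops) {x : Module.End W.K (W.H X)}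
    {y : Module.End W.K (W.H Y)} (hx : NumR (W.isInternal X) (ROp W X) 0 x) (hy : ROp W Y 0 y) :
    NumR (W.isInternal (X.prod Y)) (ROp W (X.prod Y)) 0 (extOp W x y) := by
  obtain ⟨z, hz, rfl⟩ := exists_of_rop (p := X.dim) (by simp) hx.1
  obtain ⟨w, hw, rfl⟩ := exists_of_rop (p := Y.dim) (by simp) hy
  rw [← corr_extCyc W hw]
  refine ⟨rop_corr (by simp) (extCyc_mem hz hw), fun u hu => ?_⟩
  obtain ⟨c, hc, rfl⟩ := exists_of_rop (p := (X.prod Y).dim) (by simp) hu
  set v := ops.pull (swap (X.prod Y) (X.prod Y)) c with hv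
  have hv' : ((X.prod Y).prod (X.prod Y)).IsCyc (X.prod Y).dim v := ops.pull_mem _ hc
  have hcyc : (X.prod X).IsCyc X.dim (ops.push (q1 X Y) (ops.mul (ops.pull (q2 X Y) w) v)) :=
    ops.push_mem _ (ops.mul_mem (ops.pull_mem _ hw) hv') (by simp only [dim_prod]; omega)
  rw [str_eq_deg (by omega) (extCyc_mem hz hw) hc, ← hv,
    ← tr_mul_cl (extCyc_mem hz hw) hv' (by rw [dim_prod (X.prod Y)]), extCyc, W.cl_mul,
    W.cl_pull (q1 X Y), mul_assoc, W.even_comm (W.map_mem _ (W.cl_mem hz)), ← W.tr_push,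
    ← W.cl_mul, ← W.cl_push, ← W.even_comm (W.cl_mem hz),
    tr_mul_cl hz hcyc (by rw [dim_prod])]
  rw [deg_eq_str (W := W) (by omega) hz hcyc]
  exact hx.2 _ (by simpa using rop_corr (d := 0) (by simp) (ops.pull_mem (swap X X) hcyc))

/-- Numerically trivial operators and exterior products, second factor. -/
lemma numR_ext_right (W : WeilCohomology.{u, v} ops) {x : Module.End W.K (W.H X)}
    {y : Module.End W.K (W.H Y)} (hx : ROp W X 0 x) (hy : NumR (W.isInternal Y) (ROp W Y) 0 y) :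
    NumR (W.isInternal (X.prod Y)) (ROp W (X.prod Y)) 0 (extOp W x y) := by
  obtain ⟨z, hz, rfl⟩ := exists_of_rop (p := X.dim) (by simp) hx
  obtain ⟨w, hw, rfl⟩ := exists_of_rop (p := Y.dim) (by simp) hy.1
  rw [← corr_extCyc W hw]
  refine ⟨rop_corr (by simp) (extCyc_mem hz hw), fun u hu => ?_⟩
  obtain ⟨c, hc, rfl⟩ := exists_of_rop (p := (X.prod Y).dim) (by simp) hu
  set v := ops.pull (swap (X.prod Y) (X.prod Y)) c with hv
  have hv' : ((X.prod Y).prod (X.prod Y)).IsCyc (X.prod Y).dim v := ops.pull_mem _ hc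
  have hcyc : (Y.prod Y).IsCyc Y.dim (ops.push (q2 X Y) (ops.mul (ops.pull (q1 X Y) z) v)) :=
    ops.push_mem _ (ops.mul_mem (ops.pull_mem _ hz) hv') (by simp only [dim_prod]; omega)
  rw [str_eq_deg (by omega) (extCyc_mem hz hw) hc, ← hv,
    ← tr_mul_cl (extCyc_mem hz hw) hv' (by rw [dim_prod (X.prod Y)]), extCyc, W.cl_mul,
    W.cl_pull (q2 X Y), ← W.even_comm (W.map_mem _ (W.cl_mem hw)), mul_assoc,
    W.even_comm (W.map_mem _ (W.cl_mem hw)), ← W.tr_push,
    ← W.cl_mul, ← W.cl_push, ← W.even_comm (W.cl_mem hw),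
    tr_mul_cl hw hcyc (by rw [dim_prod])]
  rw [deg_eq_str (W := W) (by omega) hw hcyc]
  exact hy.2 _ (by simpa using rop_corr (d := 0) (by simp) (ops.pull_mem (swap Y Y) hcyc))

/-- Numerical involutions in terms of operators. -/
lemma numInvolution_iff (W : WeilCohomology.{u, v} ops) {w : (X.prod X).Cycles}
    (hw : (X.prod X).IsCyc X.dim w) : NumInvolution ops X w ↔
      NumR (W.isInternal X) (ROp W X) 0 (1 - W.corr (W.cl _ w) * W.corr (W.cl _ w)) := by
  rw [NumInvolution, numEquiv_iff (W := W) (compCyc_mem hw hw rfl) (diagCyc_mem ops X),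
    corr_compCyc W hw, corr_diagCyc]
  exact ⟨fun h => h.2, fun h => ⟨hw, h⟩⟩

/-- The product of two numerical involutions. -/
theorem numInvolution_ext (W : WeilCohomology.{u, v} ops) {w : (X.prod X).Cycles}
    {w' : (Y.prod Y).Cycles} (hw : NumInvolution ops X w) (hw' : NumInvolution ops Y w') :
    NumInvolution ops (X.prod Y) (extCyc ops X Y w w') := by
  rw [numInvolution_iff W (extCyc_mem hw.1 hw'.1), corr_extCyc W hw'.1]
  have h1 := (numInvolution_iff W hw.1).1 hw
  have h2 := (numInvolution_iff W hw'.1).1 hw'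
  have hT : ROp W Y 0 (W.corr (W.cl _ w')) := rop_corr (by simp) hw'.1
  have hOY := rop_opAlg (W := W) (X := Y)
  have e : (1 : Module.End W.K (W.H (X.prod Y))) - extOp W (W.corr (W.cl _ w)) (W.corr (W.cl _ w')) *
      extOp W (W.corr (W.cl _ w)) (W.corr (W.cl _ w')) =
      extOp W (1 - W.corr (W.cl _ w) * W.corr (W.cl _ w))
        (W.corr (W.cl _ w') * W.corr (W.cl _ w')) +
      extOp W 1 (1 - W.corr (W.cl _ w') * W.corr (W.cl _ w')) := by
    rw [extOp_mul, ← extOp_one (W := W) (Y := X) (Z := Y)]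
    have e1 : extOp W 1 (1 : Module.End W.K (W.H Y)) =
        extOp W (1 : Module.End W.K (W.H X)) (1 - W.corr (W.cl _ w') * W.corr (W.cl _ w')) +
          extOp W 1 (W.corr (W.cl _ w') * W.corr (W.cl _ w')) := by
      rw [← extOp_add_right, sub_add_cancel]
    have e2 : extOp W (1 : Module.End W.K (W.H X)) (W.corr (W.cl _ w') * W.corr (W.cl _ w')) =
        extOp W (1 - W.corr (W.cl _ w) * W.corr (W.cl _ w))
          (W.corr (W.cl _ w') * W.corr (W.cl _ w')) +
        extOp W (W.corr (W.cl _ w) * W.corr (W.cl _ w))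
          (W.corr (W.cl _ w') * W.corr (W.cl _ w')) := by
      rw [← extOp_add_left, sub_add_cancel]
    rw [e1, e2]
    abel
  rw [e]
  exact NumR.add rop_opAlg
    (numR_ext_left W h1 (hOY.cast (hOY.mul hT hT) (by simp)))
    (numR_ext_right W (rop_opAlg (W := W) (X := X)).one h2)

end Pool.Agent.R484.SG
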