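import Pool.Agent.R484.SGc

/-!
# The parity index
-/

open CategoryTheory AlgebraicGeometry Finset

universe u v

namespace Pool.Agent.R484.SG

open Pool.Agent.H914 VarClass Obj WeilCohomology Pool.Agent.H447 Pool.Agent.H578R3.Sgn

variable {k : Type u} [Field k] {𝒱 : VarClass k} {ops : CycleOps 𝒱} {X Y : 𝒱.Obj}

lemma NumR_smul {W : WeilCohomology.{u, v} ops} {d : ℤ} {x : Module.End W.K (W.H X)}
    (hx : NumR (W.isInternal X) (ROp W X) d x) (q : ℚ) :
    NumR (W.isInternal X) (ROp W X) d ((q : W.K) • x) :=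
  ⟨rop_opAlg.smul q hx.1, fun y hy => by
    rw [smul_mul_assoc, mul_smul_comm, map_smul, hx.2 y hy, smul_zero]⟩

lemma corr_comb (W : WeilCohomology.{u, v} ops) (q r : ℚ) (z w : (X.prod X).Cycles) :
    W.corr (W.cl _ (q • z + r • w)) =
      (q : W.K) • W.corr (W.cl _ z) + (r : W.K) • W.corr (W.cl _ w) := by
  rw [map_add, cl_smul, cl_smul, corr_add, corr_smul, corr_smul]

lemma comb_mem {p : ℕ} (q r : ℚ) {z w : (X.prod X).Cycles} (hz : (X.prod X).IsCyc p z)
    (hw : (X.prod X).IsCyc p w) : (X.prod X).IsCyc p (q • z + r • w) :=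
  SmVar.IsCyc.add (SmVar.IsCyc.smul q hz) (SmVar.IsCyc.smul r hw)

lemma diagNumber_comb (W : WeilCohomology.{u, v} ops) (q r : ℚ) {z w : (X.prod X).Cycles}
    (hz : (X.prod X).IsCyc X.dim z) (hw : (X.prod X).IsCyc X.dim w) :
    diagNumber ops X (q • z + r • w) = q * diagNumber ops X z + r * diagNumber ops X w := by
  have h : (diagNumber ops X (q • z + r • w) : W.K) =
      ((q * diagNumber ops X z + r * diagNumber ops X w : ℚ) : W.K) := by
    push_cast
    rw [← diagNumber_eq W (comb_mem q r hz hw), ← diagNumber_eq W hz, ← diagNumber_eq W hw,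
      corr_comb, mul_add, map_add, mul_smul_comm, mul_smul_comm, map_smul, map_smul, smul_eq_mul,
      smul_eq_mul]
  exact_mod_cast h

lemma numProjector_iff (W : WeilCohomology.{u, v} ops) {z : (X.prod X).Cycles}
    (hz : (X.prod X).IsCyc X.dim z) : NumProjector ops X z ↔
      NumR (W.isInternal X) (ROp W X) 0
        (W.corr (W.cl _ z) - W.corr (W.cl _ z) * W.corr (W.cl _ z)) := by
  rw [NumProjector, numEquiv_iff (W := W) (compCyc_mem hz hz rfl) hz, corr_compCyc W hz]
  exact ⟨fun h => h.2, fun h => ⟨hz, h⟩⟩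

section aux

variable {K A : Type*} [Field K] [CharZero K] [Ring A] [Algebra K A]

omit [CharZero K] in
lemma aux_neg (z w : A) : ((-1 : ℚ) : K) • z + ((0 : ℚ) : K) • w = -z := by
  have h : (((-1 : ℚ)) : K) = -1 := by norm_num
  rw [h, Rat.cast_zero, zero_smul, add_zero, neg_smul, one_smul]

omit [CharZero K] [Algebra K A] [Field K] in
lemma aux_nn (z : A) : 1 - (-z) * (-z) = 1 - z * z := by
  rw [neg_mul_neg]

omit [CharZero K] in
lemma aux_sub (z w : A) : ((2 : ℚ) : K) • z + ((-1 : ℚ) : K) • w = z + z - w := by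
  have h : (((-1 : ℚ)) : K) = -1 := by norm_num
  have h2 : (((2 : ℚ)) : K) = 2 := by norm_num
  rw [h, h2, neg_smul, one_smul, two_smul]
  abel

lemma aux_inv (z : A) : 1 - (((2 : ℚ) : K) • z + ((-1 : ℚ) : K) • 1) *
    (((2 : ℚ) : K) • z + ((-1 : ℚ) : K) • 1) = ((4 : ℚ) : K) • (z - z * z) := by
  have h4 : (((4 : ℚ)) : K) = 4 := by norm_num
  have h4' : ∀ x : A, (4 : K) • x = x + x + x + x := by
    intro x
    have : (4 : K) = 1 + 1 + 1 + 1 := by norm_num
    rw [this, add_smul, add_smul, add_smul, one_smul]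
  rw [aux_sub, h4, h4']
  noncomm_ring

lemma aux_proj (w : A) : ((1 / 2 : ℚ) : K) • w + ((1 / 2 : ℚ) : K) • 1 -
    (((1 / 2 : ℚ) : K) • w + ((1 / 2 : ℚ) : K) • 1) *
      (((1 / 2 : ℚ) : K) • w + ((1 / 2 : ℚ) : K) • 1) = ((1 / 4 : ℚ) : K) • (1 - w * w) := by
  have e0 : ((1 / 2 : ℚ) : K) = 2⁻¹ := by norm_num
  have e1 : (2 : K)⁻¹ * 2⁻¹ = 4⁻¹ := by norm_num
  have e4 : ((1 / 4 : ℚ) : K) = 4⁻¹ := by norm_num
  rw [e0, e4, add_mul, mul_add, mul_add, smul_mul_smul_comm, smul_mul_smul_comm,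
    smul_mul_smul_comm, smul_mul_smul_comm, e1, mul_one, one_mul, mul_one, smul_sub]
  have e2 : ∀ x : A, (2 : K)⁻¹ • x = (4 : K)⁻¹ • x + (4 : K)⁻¹ • x := by
    intro x; rw [← add_smul]; congr 1; norm_num
  rw [e2 w, e2 1]
  abel

end aux

/-- From projectors to involutions. -/
lemma involution_of_projector (W : WeilCohomology.{u, v} ops) {z : (X.prod X).Cycles}
    (hz : NumProjector ops X z) : NumInvolution ops X ((2 : ℚ) • z + (-1 : ℚ) • diagCyc ops X) := by
  rw [numInvolution_iff W (comb_mem _ _ hz.1 (diagCyc_mem ops X)), corr_comb, corr_diagCyc]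
  have h := NumR_smul ((numProjector_iff W hz.1).1 hz) 4
  have e : (1 : Module.End W.K (W.H X)) - (((2 : ℚ) : W.K) • W.corr (W.cl _ z) +
      ((-1 : ℚ) : W.K) • 1) * (((2 : ℚ) : W.K) • W.corr (W.cl _ z) + ((-1 : ℚ) : W.K) • 1) =
      ((4 : ℚ) : W.K) • (W.corr (W.cl _ z) - W.corr (W.cl _ z) * W.corr (W.cl _ z)) := aux_inv _
  rw [e]
  exact h

/-- From involutions to projectors. -/
lemma projector_of_involution (W : WeilCohomology.{u, v} ops) {w : (X.prod X).Cycles}
    (hw : NumInvolution ops X w) :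
    NumProjector ops X ((1 / 2 : ℚ) • w + (1 / 2 : ℚ) • diagCyc ops X) := by
  rw [numProjector_iff W (comb_mem _ _ hw.1 (diagCyc_mem ops X)), corr_comb, corr_diagCyc]
  have h := NumR_smul ((numInvolution_iff W hw.1).1 hw) (1 / 4)
  have e : ((1 / 2 : ℚ) : W.K) • W.corr (W.cl _ w) + ((1 / 2 : ℚ) : W.K) • 1 -
      (((1 / 2 : ℚ) : W.K) • W.corr (W.cl _ w) + ((1 / 2 : ℚ) : W.K) • 1) *
        (((1 / 2 : ℚ) : W.K) • W.corr (W.cl _ w) + ((1 / 2 : ℚ) : W.K) • 1) =
      ((1 / 4 : ℚ) : W.K) • (1 - W.corr (W.cl _ w) * W.corr (W.cl _ w)) := aux_proj _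
  rw [e]
  exact h

lemma diag_projector (W : WeilCohomology.{u, v} ops) {w : (X.prod X).Cycles}
    (hw : NumInvolution ops X w) : diagNumber ops X w =
      2 * diagNumber ops X ((1 / 2 : ℚ) • w + (1 / 2 : ℚ) • diagCyc ops X) -
        diagNumber ops X (diagCyc ops X) := by
  rw [diagNumber_comb W _ _ hw.1 (diagCyc_mem ops X)]
  ring

lemma totalBetti_eq (W : WeilCohomology.{u, v} ops) :
    (totalBetti W X : ℚ) = 2 * (evenBetti W X : ℚ) - diagNumber ops X (diagCyc ops X) :=
  finrank_eq (diagCyc_mem ops X) W (corr_diagCyc W X)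

/-- The numbers of numerical involutions. -/
lemma involution_number (W : WeilCohomology.{u, v} ops) {w : (X.prod X).Cycles}
    (hw : NumInvolution ops X w) : ∃ r : ℕ, diagNumber ops X w = (totalBetti W X : ℚ) - 2 * r := by
  obtain ⟨a, b, c, h1, h2, -⟩ := rank_props W (projector_of_involution W hw)
  refine ⟨b + c, ?_⟩
  rw [diag_projector W hw, h1, totalBetti_eq, h2]
  push_cast
  ring

lemma neg_involution (W : WeilCohomology.{u, v} ops) {w : (X.prod X).Cycles}
    (hw : NumInvolution ops X w) :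
    NumInvolution ops X ((-1 : ℚ) • w + (0 : ℚ) • diagCyc ops X) := by
  rw [numInvolution_iff W (comb_mem _ _ hw.1 (diagCyc_mem ops X)), corr_comb]
  have h := (numInvolution_iff W hw.1).1 hw
  have e : (((-1 : ℚ) : W.K) • W.corr (W.cl _ w) + ((0 : ℚ) : W.K) • W.corr (W.cl _ (diagCyc ops X)))
      = - W.corr (W.cl _ w) := aux_neg _ _
  rw [e]
  have e' : 1 - (-W.corr (W.cl _ w)) * (-W.corr (W.cl _ w)) =
      1 - W.corr (W.cl _ w) * W.corr (W.cl _ w) :=
    aux_nn (A := Module.End W.K (W.H X)) (W.corr (W.cl _ w))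
  rw [e']
  exact h

/-- **Numbers of numerical involutions.** -/
theorem involution_bound (W : WeilCohomology.{u, v} ops) {w : (X.prod X).Cycles}
    (hw : NumInvolution ops X w) : ∃ m : ℤ, diagNumber ops X w = m ∧ |m| ≤ totalBetti W X ∧
      (2 : ℤ) ∣ (totalBetti W X - m) := by
  obtain ⟨r, hr⟩ := involution_number W hw
  obtain ⟨r', hr'⟩ := involution_number W (neg_involution W hw)
  rw [diagNumber_comb W _ _ hw.1 (diagCyc_mem ops X), zero_mul, add_zero, hr] at hr'
  refine ⟨(totalBetti W X : ℤ) - 2 * r, ?_, ?_, ⟨r, by ring⟩⟩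
  · rw [hr]; push_cast; rfl
  · have h1 : ((totalBetti W X : ℤ) : ℚ) = r + r' := by
      push_cast
      linarith
    have h2 : (totalBetti W X : ℤ) = r + r' := by exact_mod_cast h1
    rw [abs_le]
    constructor <;> omega

lemma inducesParity_iff (W : WeilCohomology.{u, v} ops) {P : (X.prod X).Cycles} :
    InducesParity W X P ↔ W.corr (W.cl _ P) = par (W.isInternal X) := by
  constructor
  · intro h
    apply gr_ext (W.isInternal X)
    intro j a ha
    rw [h j a ha, par, scal_apply _ _ ha]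
  · intro h j a ha
    rw [h, par, scal_apply _ _ ha]

/-- **The parity index.** -/
theorem parity_index (X : 𝒱.Obj) (W₀ : WeilCohomology.{u, v} ops) :
    ∃ P, (X.prod X).IsCyc X.dim P ∧ ∃ ρ : ℤ,
      IsGreatest {d : ℚ | ∃ w, NumInvolution ops X w ∧ diagNumber ops X w = d} (ρ : ℚ) ∧
      ∀ W : WeilCohomology.{u, v} ops, ρ ≤ totalBetti W X ∧
        List.TFAE [SignStd W X, InducesParity W X P, (totalBetti W X : ℤ) = ρ] := by
  obtain ⟨P', hP', β, ⟨⟨z₀, hz₀, hβ⟩, hmax⟩, hall⟩ := sign_universal X W₀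
  have hw₀ := involution_of_projector W₀ hz₀
  obtain ⟨ρ, hρ, -, -⟩ := involution_bound W₀ hw₀
  have hρβ : (ρ : ℚ) = 2 * β - diagNumber ops X (diagCyc ops X) := by
    rw [← hρ, diagNumber_comb W₀ _ _ hz₀.1 (diagCyc_mem ops X), hβ]
    ring
  refine ⟨(2 : ℚ) • P' + (-1 : ℚ) • diagCyc ops X, comb_mem _ _ hP' (diagCyc_mem ops X), ρ,
    ⟨⟨_, hw₀, hρ⟩, ?_⟩, fun W => ?_⟩
  · rintro d ⟨w, hw, rfl⟩
    rw [hρβ, diag_projector W₀ hw]
    have := hmax ⟨_, projector_of_involution W₀ hw, rfl⟩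
    linarith
  · obtain ⟨h1, h2⟩ := hall W
    have h3 := totalBetti_eq (X := X) W
    refine ⟨?_, ?_⟩
    · have h4 : (ρ : ℚ) ≤ totalBetti W X := by
        rw [hρβ, h3]
        linarith
      exact_mod_cast h4
    · tfae_have 1 ↔ 3 := by
        refine (h2.out 0 2).trans ?_
        constructor
        · intro h
          have h4 : ((totalBetti W X : ℤ) : ℚ) = ρ := by
            push_cast
            rw [h3, h, hρβ]
          exact_mod_cast h4
        · intro h
          have h4 : (totalBetti W X : ℚ) = ρ := by exact_mod_cast congrArg (Int.cast (R := ℚ)) h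
          rw [h3, hρβ] at h4
          linarith
      tfae_have 1 ↔ 2 := by
        refine (h2.out 0 1).trans ?_
        rw [inducesParity_iff, corr_comb, corr_diagCyc, par_eq', InducesEven, isEvenProj_iff]
        have e0 : ((2 : ℚ) : W.K) • W.corr (W.cl _ P') + ((-1 : ℚ) : W.K) • 1 =
            W.corr (W.cl _ P') + W.corr (W.cl _ P') - 1 :=
          aux_sub (K := W.K) (A := Module.End W.K (W.H X)) _ _
        rw [e0]
        constructor
        · intro h
          rw [h]
          abel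
        · intro h
          have e1 : (2 : W.K) • W.corr (W.cl _ P') = (2 : W.K) • evenProj (W.isInternal X) := by
            rw [two_smul, two_smul]
            have := congrArg (fun x => x + 1) h
            simp only [sub_add_cancel] at this
            rw [this]
            abel
          have e2 : (2 : W.K) ≠ 0 := two_ne_zero
          exact smul_right_injective _ e2 e1
      tfae_finish

end Pool.Agent.R484.SG
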