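import Pool.Agent.R484.SGd

/-!
# The parity index: products and comparison of theories
-/

open CategoryTheory AlgebraicGeometry Finset

universe u v

namespace Pool.Agent.R484.SG

open Pool.Agent.H914 VarClass Obj WeilCohomology Pool.Agent.H447 Pool.Agent.H578R3.Sgn

variable {k : Type u} [Field k] {𝒱 : VarClass k} {ops : CycleOps 𝒱} {X Y : 𝒱.Obj}

/-- The diagonal is a numerical involution. -/
lemma numInvolution_diag (W : WeilCohomology.{u, v} ops) (X : 𝒱.Obj) :
    NumInvolution ops X (diagCyc ops X) := by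
  rw [numInvolution_iff W (diagCyc_mem ops X), corr_diagCyc]
  have e : (1 : Module.End W.K (W.H X)) - 1 * 1 = 0 := by
    rw [mul_one, sub_self]
  rw [e]
  exact NumR.zero (rop_opAlg (W := W) (X := X)) 0

/-- The parity index as a natural number, with all its properties. -/
theorem exists_index (W₀ : WeilCohomology.{u, v} ops) :
    ∃ ρ : 𝒱.Obj → ℕ,
      (∀ X, IsGreatest {d : ℚ | ∃ w, NumInvolution ops X w ∧ diagNumber ops X w = d} (ρ X)) ∧
      (∀ X, ∃ P, (X.prod X).IsCyc X.dim P ∧ ∀ W : WeilCohomology.{u, v} ops,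
        ρ X ≤ totalBetti W X ∧ Even (totalBetti W X - ρ X) ∧
        List.TFAE [SignStd W X, InducesParity W X P, totalBetti W X = ρ X,
          totalBetti W X < ρ X + 2]) ∧
      (∀ X Y, ρ X * ρ Y ≤ ρ (X.prod Y)) := by
  have h : ∀ X : 𝒱.Obj, ∃ r : ℕ,
      IsGreatest {d : ℚ | ∃ w, NumInvolution ops X w ∧ diagNumber ops X w = d} (r : ℚ) ∧
      ∃ P, (X.prod X).IsCyc X.dim P ∧ ∀ W : WeilCohomology.{u, v} ops,
        r ≤ totalBetti W X ∧ Even (totalBetti W X - r) ∧
        List.TFAE [SignStd W X, InducesParity W X P, totalBetti W X = r,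
          totalBetti W X < r + 2] := by
    intro X
    obtain ⟨P, hP, ρ, hρ, hall⟩ := parity_index X W₀
    have hpos : 0 ≤ ρ := by
      obtain ⟨w, hw, hwρ⟩ := hρ.1
      have h1 := hρ.2 ⟨_, neg_involution W₀ hw, rfl⟩
      rw [diagNumber_comb W₀ _ _ hw.1 (diagCyc_mem ops X), zero_mul, add_zero, hwρ] at h1
      have h2 : (0 : ℚ) ≤ ρ := by linarith
      exact_mod_cast h2
    obtain ⟨r, rfl⟩ := Int.eq_ofNat_of_zero_le hpos
    refine ⟨r, by exact_mod_cast hρ, P, hP, fun W => ?_⟩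
    obtain ⟨h1, h2⟩ := hall W
    obtain ⟨w, hw, hwρ⟩ := hρ.1
    obtain ⟨m, hm, -, hdvd⟩ := involution_bound W hw
    have hmr : m = r := by
      have : (m : ℚ) = ((r : ℤ) : ℚ) := by rw [← hm, hwρ]
      exact_mod_cast this
    subst hmr
    have hle : r ≤ totalBetti W X := by exact_mod_cast h1
    have hev : Even (totalBetti W X - r) := by
      obtain ⟨c, hc⟩ := hdvd
      rw [even_iff_two_dvd]
      omega
    refine ⟨hle, hev, ?_⟩
    tfae_have 1 ↔ 2 := h2.out 0 1
    tfae_have 1 ↔ 3 := (h2.out 0 2).trans (by exact_mod_cast Iff.rfl)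
    tfae_have 3 ↔ 4 := by
      constructor
      · intro h; omega
      · intro h
        obtain ⟨c, hc⟩ := hev
        omega
    tfae_finish
  choose ρ h1 h2 using h
  refine ⟨ρ, h1, h2, fun X Y => ?_⟩
  obtain ⟨w, hw, hwρ⟩ := (h1 X).1
  obtain ⟨w', hw', hwρ'⟩ := (h1 Y).1
  have := (h1 (X.prod Y)).2 ⟨_, numInvolution_ext W₀ hw hw', rfl⟩
  rw [diagNumber_extCyc W₀ hw.1 hw'.1, hwρ, hwρ'] at this
  exact_mod_cast this

/-- Comparison of two theories. -/
theorem sign_comparison (X : 𝒱.Obj) (W W' : WeilCohomology.{u, v} ops) (h : SignStd W' X)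
    (hb : totalBetti W X ≤ totalBetti W' X) :
    SignStd W X ∧ totalBetti W X = totalBetti W' X := by
  obtain ⟨ρ, -, h2, -⟩ := exists_index W
  obtain ⟨P, -, hall⟩ := h2 X
  obtain ⟨a1, -, a3⟩ := hall W
  obtain ⟨b1, -, b3⟩ := hall W'
  have hb' := (b3.out 0 2).1 h
  have : totalBetti W X = ρ X := by omega
  exact ⟨(a3.out 0 2).2 this, by omega⟩

end Pool.Agent.R484.SG
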