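import Pool.Agent.R484.JEd

/-! Joint equidistribution of Galois orbits of CM points on products of Shimura curves. -/

namespace Pool.Agent.R484.SH

open MulAction MeasureTheory Filter Topology Pool.Agent.R484.JE

set_option linter.unusedSectionVars false

/-- The algebraic closure of the totally real number field `k`. -/
abbrev Kb (k : Type) [Field k] : Type := AlgebraicClosure k

/-- The absolute Galois group of `k`. -/
abbrev GK (k : Type) [Field k] : Type := Kb k ≃ₐ[k] Kb k

/-- The Shimura curves attached to quaternion algebras over totally real subfields of `k` (connected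
components `Y`, as quotients of the upper half plane), and their CM points.  The fields are standard
facts. -/
structure ShCurves (k : Type) [Field k] where
  Crv : Type
  /-- The complex points of the curve. -/
  Y : Crv → Type
  [top : ∀ c, TopologicalSpace (Y c)]
  [t2 : ∀ c, T2Space (Y c)]
  [lc : ∀ c, LocallyCompactSpace (Y c)]
  [sc : ∀ c, SecondCountableTopology (Y c)]
  [ms : ∀ c, MeasurableSpace (Y c)]
  [bs : ∀ c, BorelSpace (Y c)]
  /-- The normalised hyperbolic measure. -/
  m : ∀ c, Measure (Y c)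
  [prob : ∀ c, IsProbabilityMeasure (m c)]
  /-- The CM points of the (disconnected) Shimura curve over `k` of which `Y c` is a component. -/
  Z : Crv → Type
  [act : ∀ c, MulAction (GK k) (Z c)]
  /-- The CM points on `Y c`. -/
  On : ∀ c, Set (Z c)
  /-- The position on `Y c` (of the points in `On c`). -/
  emb : ∀ c, Z c → Y c
  /-- The number field over which the component `Y c` is defined. -/
  L : Crv → IntermediateField k (Kb k)
  /-- A finite extension of `k` whose automorphisms correspond to ideles acting trivially, as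
  central elements, on the Shimura curve. -/
  M : Crv → IntermediateField k (Kb k)
  M_fin : ∀ c, FiniteDimensional k (M c)
  on_stable : ∀ c, ∀ σ ∈ (L c).fixingSubgroup, ∀ z ∈ On c, σ • z ∈ On c
  /-- The absolute discriminant of the endomorphism ring. -/
  disc : ∀ {c}, Z c → ℕ
  /-- The compositum of the CM field and of `k`. -/
  fld : ∀ {c}, Z c → IntermediateField k (Kb k)
  quad : ∀ {c} (z : Z c), Module.finrank k (fld z) = 2
  gal : ∀ {c} (σ : GK k) (z : Z c), disc (σ • z) = disc z ∧ fld (σ • z) = fld z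
  /-- Finiteness of class numbers. -/
  finite_disc : ∀ c B, {z : Z c | disc z ≤ B}.Finite

attribute [instance] ShCurves.top ShCurves.t2 ShCurves.lc ShCurves.sc ShCurves.ms
  ShCurves.bs ShCurves.prob ShCurves.act ShCurves.M_fin

variable {k : Type} [Field k]

/-- The automorphisms fixing the CM field of `z` and `M c`. -/
noncomputable def Kz (T : ShCurves k) {c : T.Crv} (z : T.Z c) : Subgroup (GK k) :=
  (T.fld z).fixingSubgroup ⊓ (T.M c).fixingSubgroup

/-- The automorphisms fixing the CM field act through abelian groups on CM points. -/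
def CommP (T : ShCurves k) : Prop := ∀ {c : T.Crv} (z : T.Z c),
  ∀ σ ∈ (T.fld z).fixingSubgroup, ∀ τ ∈ (T.fld z).fixingSubgroup, σ • τ • z = τ • σ • z

/-- The automorphisms not fixing the CM field invert those which fix the CM field and `M c`. -/
def DihP (T : ShCurves k) : Prop := ∀ {c : T.Crv} (z : T.Z c), ∀ σ ∈ Kz T z,
  ∀ ρ ∉ (T.fld z).fixingSubgroup, ρ • σ • ρ⁻¹ • z = σ⁻¹ • z

/-- The number of points of the orbit of `z` that are exchanged with `z` by an automorphism is at
most a small power of the discriminant. -/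
def GenusP (T : ShCurves k) : Prop := ∀ c, ∀ ε : ℝ, 0 < ε → ∃ C : ℝ, ∀ z : T.Z c,
  ({w | ∃ σ ∈ Kz T z, σ • z = w ∧ σ • w = z}.ncard : ℝ) ≤ C * (T.disc z : ℝ) ^ ε

/-- Equidistribution on `Y c` of the orbits under subgroups `H` of small index. -/
def DukeP (T : ShCurves k) : Prop := ∀ c, ∃ δ : ℝ, 0 < δ ∧ ∀ f : T.Y c → ℝ, Continuous f →
  (∃ C, ∀ y, |f y| ≤ C) → ∀ ε : ℝ, 0 < ε → ∃ B : ℕ, ∀ z ∈ T.On c, B ≤ T.disc z → ∀ H ≤ Kz T z,
    ((orbit (Kz T z) z).ncard : ℝ) ≤ (orbit H z).ncard * (T.disc z : ℝ) ^ δ →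
    |avg (orbit H z) (fun w => f (T.emb c w)) - ∫ y, f y ∂(T.m c)| < ε

/-- Published theorems on CM points: the main theorem of complex multiplication; genus theory (the
two-torsion of the class groups); equidistribution on a Shimura curve of the orbits under
subgroups of small index of the class groups (Zhang, Michel-Venkatesh). -/
structure CMTheory (k : Type) [Field k] extends ShCurves k where
  comm : CommP toShCurves
  dihedral : DihP toShCurves
  genus : GenusP toShCurves
  duke : DukeP toShCurves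

section

variable [CharZero k]

theorem index_of_finite (K : IntermediateField k (Kb k)) :
    K.fixingSubgroup.index = Module.finrank k K :=
  (IntermediateField.finrank_eq_fixingSubgroup_index (Kb k) K).symm

theorem quad_sep (K K' : IntermediateField k (Kb k)) (hK : Module.finrank k K = 2)
    (hK' : Module.finrank k K' = 2) (h : K ≠ K') :
    ∃ c ∈ K'.fixingSubgroup, c ∉ K.fixingSubgroup := by
  by_contra hcon
  push Not at hcon
  apply h
  have h1 : K ≤ K' := by
    rw [← InfiniteGalois.fixedField_fixingSubgroup K, ← InfiniteGalois.fixedField_fixingSubgroup K']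
    exact IntermediateField.fixedField_le hcon
  have : FiniteDimensional k K' := FiniteDimensional.of_finrank_pos (by omega)
  exact IntermediateField.eq_of_le_of_finrank_eq h1 (hK.trans hK'.symm)

theorem orbit_fin (T : CMTheory k) {c : T.Crv} (z : T.Z c) : (orbit (GK k) z).Finite := by
  refine (T.finite_disc c (T.disc z)).subset ?_
  rintro _ ⟨σ, rfl⟩
  exact (T.gal σ z).1.le

theorem M_index (T : CMTheory k) (c : T.Crv) : (T.M c).fixingSubgroup.index ≠ 0 := by
  rw [index_of_finite]
  exact Module.finrank_pos.ne'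

/-- Equidistribution for one coordinate. -/
theorem small_one (T : CMTheory k) {c : T.Crv} (x : ℕ → T.Z c) (hon : ∀ i, x i ∈ T.On c)
    (hstrict : ∀ z : T.Z c, {i | x i = z}.Finite) (F : IntermediateField k (Kb k))
    (hF : T.L c ≤ F) :
    SmallEqui (G := GK k) (T.emb c) (T.m c) F.fixingSubgroup
      (fun i => (T.fld (x i)).fixingSubgroup ⊓ (T.M c).fixingSubgroup) x := by
  intro M m f hf hb ε hε
  obtain ⟨δ, hδ, hduke⟩ := T.duke c
  obtain ⟨B, hB⟩ := hduke f hf hb ε hε
  obtain ⟨C0, hC0⟩ := T.genus c (δ / (2 * (m + 1))) (by positivity)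
  set C : ℝ := max C0 1 with hC
  have hC1 : 1 ≤ C := le_max_right _ _
  -- a bound for the discriminant
  have hlim : Tendsto (fun D : ℕ => (D : ℝ) ^ (δ / 2)) atTop atTop :=
    (tendsto_rpow_atTop (by positivity)).comp tendsto_natCast_atTop_atTop
  obtain ⟨B', hB'⟩ := eventually_atTop.1 (hlim.eventually_ge_atTop (M * C ^ m))
  have hfin : ∀ᶠ i in atTop, max (max B B') 1 < T.disc (x i) := by
    rw [← Nat.cofinite_eq_atTop, Filter.eventually_cofinite]
    refine ((T.finite_disc c (max (max B B') 1)).biUnion fun z _ => hstrict z).subset ?_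
    intro i hi
    rw [Set.mem_ofPred_eq, not_lt] at hi
    exact Set.mem_biUnion (x := x i) hi rfl
  filter_upwards [hfin] with i hi
  rintro w ⟨⟨τ, hτ⟩, rfl⟩ H hH Δ hΔ hrel0 hrelM hpow
  obtain ⟨hw2, hw3⟩ := T.gal τ (x i)
  change ∀ g ∈ Δ, ∃ h ∈ H, h • (τ • x i) = g ^ (2 ^ m) • (τ • x i) at hpow
  change |avg (orbit H (τ • x i)) (fun z => f (T.emb c z)) - ∫ y, f y ∂(T.m c)| < ε
  set z := τ • x i with hz
  have hzon : z ∈ T.On c := T.on_stable c τ (IntermediateField.fixingSubgroup_le hF hτ) _ (hon i)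
  have hK : Kz T.toShCurves z =
      (T.fld (x i)).fixingSubgroup ⊓ (T.M c).fixingSubgroup := by rw [Kz, hw3]
  rw [← hK] at hH hrel0 hrelM
  refine hB z hzon (by rw [hw2]; omega) H hH ?_
  have hle := orbit_card_le z (Kz T.toShCurves z)
    ((orbit_fin T z).subset (by rintro _ ⟨g, rfl⟩; exact ⟨g, rfl⟩))
    (by
      rintro σ hσ ρ hρ _ ⟨⟨g, hg⟩, rfl⟩
      have h1 := T.gal g z
      exact T.comm (g • z) σ (by rw [h1.2]; exact hσ.1) ρ (by rw [h1.2]; exact hρ.1))
    Δ H hH M m hrelM hrel0 (fun g hg _ => hpow g hg)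
  have hgen := hC0 z
  have hD1 : (1 : ℝ) ≤ (T.disc z : ℝ) := by
    rw [hw2]
    exact_mod_cast (by omega : 1 ≤ T.disc (x i))
  have hgen2 : ({w | ∃ σ ∈ Kz T.toShCurves z, σ • z = w ∧ σ • w = z}.ncard : ℝ) ^ m ≤
      C ^ m * (T.disc z : ℝ) ^ (δ / 2) := by
    calc _ ≤ (C * (T.disc z : ℝ) ^ (δ / (2 * (m + 1)))) ^ m := by
          refine pow_le_pow_left₀ (Nat.cast_nonneg _) (hgen.trans ?_) m
          exact mul_le_mul_of_nonneg_right (le_max_left _ _) (by positivity)
      _ = C ^ m * (T.disc z : ℝ) ^ (δ / (2 * (m + 1)) * m) := by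
          rw [mul_pow, Real.rpow_mul (by positivity), Real.rpow_natCast]
      _ ≤ _ := by
          refine mul_le_mul_of_nonneg_left ?_ (by positivity)
          refine Real.rpow_le_rpow_of_exponent_le hD1 ?_
          rw [div_mul_eq_mul_div, div_le_div_iff₀ (by positivity) (by positivity)]
          nlinarith
  have h3 : (M : ℝ) * C ^ m ≤ (T.disc z : ℝ) ^ (δ / 2) := hB' (T.disc z) (by rw [hw2]; omega)
  calc ((orbit (Kz T.toShCurves z) z).ncard : ℝ)
      ≤ M * ({w | ∃ σ ∈ Kz T.toShCurves z, σ • z = w ∧ σ • w = z}.ncard : ℝ) ^ m *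
        (orbit H z).ncard := by exact_mod_cast hle
    _ ≤ M * (C ^ m * (T.disc z : ℝ) ^ (δ / 2)) * (orbit H z).ncard := by
        gcongr
    _ = (M * C ^ m) * (T.disc z : ℝ) ^ (δ / 2) * (orbit H z).ncard := by ring
    _ ≤ (T.disc z : ℝ) ^ (δ / 2) * (T.disc z : ℝ) ^ (δ / 2) * (orbit H z).ncard := by
        gcongr
    _ = (orbit H z).ncard * (T.disc z : ℝ) ^ δ := by
        rw [← Real.rpow_add (by positivity), add_halves]
        ring

/-- Distinct CM fields. -/
theorem distinct (T : CMTheory k) {n : ℕ} (c : Fin n → T.Crv) (x : ℕ → ∀ j, T.Z (c j))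
    (hon : ∀ i j, x i j ∈ T.On (c j))
    (hfld : ∀ i j k, j ≠ k → T.fld (x i j) ≠ T.fld (x i k))
    (hstrict : ∀ j (z : T.Z (c j)), {i | x i j = z}.Finite) (F : IntermediateField k (Kb k))
    [FiniteDimensional k F] (hF : ∀ j, T.L (c j) ≤ F) (f : (∀ j, T.Y (c j)) → ℝ)
    (hf : Continuous f) (hc : HasCompactSupport f) :
    Tendsto (fun i => avg (orbit F.fixingSubgroup (x i))
      (fun w => f (fun j => T.emb (c j) (w j)))) atTop
      (𝓝 (∫ y, f y ∂(Measure.pi fun j => T.m (c j)))) := by
  have hidx : ∀ i j, (T.fld (x i j)).fixingSubgroup.index = 2 := fun i j => by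
    rw [index_of_finite, T.quad]
  refine joint (G := GK k) (fun j => T.emb (c j)) (fun j => T.m (c j)) x
    (fun i j => (T.fld (x i j)).fixingSubgroup) (fun j => (T.M (c j)).fixingSubgroup) ?_
    (fun j => M_index T (c j)) ?_ ?_ F.fixingSubgroup ?_ ?_ f hf hc
  · intro i
    refine ⟨?_, ?_, ?_, ?_⟩
    · intro j
      exact Subgroup.normal_of_index_eq_two (hidx i j)
    · rintro j _ ⟨g, rfl⟩ σ hσ τ hτ
      have h1 := T.gal g (x i j)
      exact T.comm (g • x i j) σ (by rw [h1.2]; exact hσ) τ (by rw [h1.2]; exact hτ)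
    · rintro j _ ⟨g, rfl⟩ σ hσ hσN ρ hρ
      have h1 := T.gal g (x i j)
      exact T.dihedral (g • x i j) σ ⟨by rw [h1.2]; exact hσ, hσN⟩ ρ (by
        rw [h1.2]; exact hρ)
    · intro j k hjk
      exact quad_sep _ _ (T.quad _) (T.quad _) (hfld i j k hjk)
  · intro i j
    rw [hidx]
    exact ⟨two_ne_zero, le_rfl⟩
  · intro i j
    exact orbit_fin T _
  · refine ⟨?_⟩
    rw [index_of_finite]
    exact Module.finrank_pos.ne'
  · intro j
    exact small_one T (fun i => x i j) (fun i => hon i j) (hstrict j) F (hF j)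

/-- Blocks. -/
theorem blocks (T : CMTheory k) {r : ℕ} (J : Fin r → ℕ) (c : ∀ b, Fin (J b) → T.Crv)
    (x : ℕ → ∀ b j, T.Z (c b j)) (K : ℕ → Fin r → IntermediateField k (Kb k))
    (hK : ∀ i b, Module.finrank k (K i b) = 2) (hx : ∀ i b j, T.fld (x i b j) = K i b)
    (hfld : ∀ i b b', b ≠ b' → K i b ≠ K i b') (F : IntermediateField k (Kb k))
    [FiniteDimensional k F]
    (hsmall : ∀ b, SmallEqui (G := GK k) (fun (w : ∀ j, T.Z (c b j)) j => T.emb (c b j) (w j))
      (Measure.pi fun j => T.m (c b j)) F.fixingSubgroup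
      (fun i => (K i b).fixingSubgroup ⊓ ⨅ j, (T.M (c b j)).fixingSubgroup) (fun i => x i b))
    (f : (∀ b j, T.Y (c b j)) → ℝ) (hf : Continuous f) (hc : HasCompactSupport f) :
    Tendsto (fun i => avg (orbit F.fixingSubgroup (x i))
      (fun w => f (fun b j => T.emb (c b j) (w b j)))) atTop
      (𝓝 (∫ y, f y ∂(Measure.pi fun b => Measure.pi fun j => T.m (c b j)))) := by
  have hidx : ∀ i b, (K i b).fixingSubgroup.index = 2 := fun i b => by
    rw [index_of_finite, hK]
  refine joint (G := GK k) (fun b (w : ∀ j, T.Z (c b j)) j => T.emb (c b j) (w j))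
    (fun b => Measure.pi fun j => T.m (c b j)) x
    (fun i b => (K i b).fixingSubgroup) (fun b => ⨅ j, (T.M (c b j)).fixingSubgroup) ?_
    (fun b => Subgroup.index_iInf_ne_zero fun j => M_index T (c b j)) ?_ ?_ F.fixingSubgroup ?_
    hsmall f hf hc
  · intro i
    refine ⟨?_, ?_, ?_, ?_⟩
    · intro b
      exact Subgroup.normal_of_index_eq_two (hidx i b)
    · rintro b _ ⟨g, rfl⟩ σ hσ τ hτ
      funext j
      have h1 := T.gal g (x i b j)
      exact T.comm (g • x i b j) σ (by rw [h1.2, hx]; exact hσ) τ (by rw [h1.2, hx]; exact hτ)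
    · rintro b _ ⟨g, rfl⟩ σ hσ hσN ρ hρ
      funext j
      have h1 := T.gal g (x i b j)
      exact T.dihedral (g • x i b j) σ ⟨by rw [h1.2, hx]; exact hσ, Subgroup.mem_iInf.1 hσN j⟩ ρ
        (by rw [h1.2, hx]; exact hρ)
    · intro b b' hbb
      exact quad_sep _ _ (hK i b) (hK i b') (hfld i b b' hbb)
  · intro i b
    rw [hidx]
    exact ⟨two_ne_zero, le_rfl⟩
  · intro i b
    refine (Set.Finite.pi' (fun j => orbit_fin T (x i b j))).subset ?_
    rintro _ ⟨g, rfl⟩ j
    exact ⟨g, rfl⟩
  · refine ⟨?_⟩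
    rw [index_of_finite]
    exact Module.finrank_pos.ne'

end

end Pool.Agent.R484.SH
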