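import Pool.Agent.R484.SHa

/-! Joint equidistribution on products of Shimura curves: strict sequences. -/

namespace Pool.Agent.R484.SH

open MulAction MeasureTheory Filter Topology Pool.Agent.R484.JE

variable {k : Type} [Field k]

/-- The proper special subvarieties of the product of the curves `c j`, given by their sets of CM
points; they include the fibres of the coordinates over CM points. -/
structure Special (T : ShCurves k) {n : ℕ} (c : Fin n → T.Crv) where
  Sub : Set (Set (∀ j, T.Z (c j)))
  coord : ∀ j (z : T.Z (c j)), {w | w j = z} ∈ Sub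

/-- `x` is a sequence of special points of the product of the curves `c j`, and every proper
special subvariety contains only finitely many of them. -/
def Strict {T : ShCurves k} {n : ℕ} {c : Fin n → T.Crv} (S : Special T c)
    (x : ℕ → ∀ j, T.Z (c j)) : Prop :=
  (∀ i j, x i j ∈ T.On (c j)) ∧ ∀ V ∈ S.Sub, {i | x i ∈ V}.Finite

/-- The normalised counting measures on the Galois orbits over `F` of the special points `x i`
converge weakly to the product of the hyperbolic measures. -/
def Equi (T : ShCurves k) {n : ℕ} (c : Fin n → T.Crv) (F : IntermediateField k (Kb k))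
    (x : ℕ → ∀ j, T.Z (c j)) : Prop :=
  ∀ f : (∀ j, T.Y (c j)) → ℝ, Continuous f → HasCompactSupport f →
    Tendsto (fun i => avg (orbit F.fixingSubgroup (x i))
      (fun w => f (fun j => T.emb (c j) (w j)))) atTop
      (𝓝 (∫ y, f y ∂(Measure.pi fun j => T.m (c j))))

/-- The coordinates of the points `x i` are arranged in blocks; those in the block `b` have the
CM field `K i b`, and distinct blocks have distinct fields. -/
def BlockFields {T : ShCurves k} {r : ℕ} {J : Fin r → ℕ} {c : ∀ b, Fin (J b) → T.Crv}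
    (x : ℕ → ∀ b j, T.Z (c b j)) (K : ℕ → Fin r → IntermediateField k (Kb k)) : Prop :=
  (∀ i b, Module.finrank k (K i b) = 2) ∧ (∀ i b j, T.fld (x i b j) = K i b) ∧
    ∀ i b b', b ≠ b' → K i b ≠ K i b'

/-- Equidistribution of the block `b` along subgroups of small index. -/
def BlockSmall (T : ShCurves k) {r : ℕ} {J : Fin r → ℕ} (c : ∀ b, Fin (J b) → T.Crv)
    (F : IntermediateField k (Kb k)) (x : ℕ → ∀ b j, T.Z (c b j))
    (K : ℕ → Fin r → IntermediateField k (Kb k)) (b : Fin r) : Prop :=
  SmallEqui (G := GK k) (fun (w : ∀ j, T.Z (c b j)) j => T.emb (c b j) (w j))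
    (Measure.pi fun j => T.m (c b j)) F.fixingSubgroup
    (fun i => (K i b).fixingSubgroup ⊓ ⨅ j, (T.M (c b j)).fixingSubgroup) (fun i => x i b)

/-- Equidistribution of the Galois orbits over `F` of points arranged in blocks. -/
def BlockEqui (T : ShCurves k) {r : ℕ} {J : Fin r → ℕ} (c : ∀ b, Fin (J b) → T.Crv)
    (F : IntermediateField k (Kb k)) (x : ℕ → ∀ b j, T.Z (c b j)) : Prop :=
  ∀ f : (∀ b j, T.Y (c b j)) → ℝ, Continuous f → HasCompactSupport f →
    Tendsto (fun i => avg (orbit F.fixingSubgroup (x i))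
      (fun w => f (fun b j => T.emb (c b j) (w b j)))) atTop
      (𝓝 (∫ y, f y ∂(Measure.pi fun b => Measure.pi fun j => T.m (c b j))))

theorem block_indep [CharZero k] (T : CMTheory k) {r : ℕ} {J : Fin r → ℕ} (c : ∀ b, Fin (J b) → T.Crv)
    (F : IntermediateField k (Kb k)) [FiniteDimensional k F] (x : ℕ → ∀ b j, T.Z (c b j))
    (K : ℕ → Fin r → IntermediateField k (Kb k)) (hK : BlockFields x K)
    (h : ∀ b, BlockSmall T.toShCurves c F x K b) : BlockEqui T.toShCurves c F x :=
  fun f hf hc => blocks T J c x K hK.1 hK.2.1 hK.2.2 F h f hf hc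

theorem strict_distinct [CharZero k] (T : CMTheory k) {n : ℕ} (c : Fin n → T.Crv) (S : Special T.toShCurves c)
    (F : IntermediateField k (Kb k)) [FiniteDimensional k F] (hF : ∀ j, T.L (c j) ≤ F)
    (x : ℕ → ∀ j, T.Z (c j)) (hx : Strict S x)
    (hfld : ∀ i j k, j ≠ k → T.fld (x i j) ≠ T.fld (x i k)) : Equi T.toShCurves c F x :=
  fun f hf hc => distinct T c x hx.1 hfld (fun j z => hx.2 _ (S.coord j z)) F hF f hf hc

theorem strict_comp {T : ShCurves k} {n : ℕ} {c : Fin n → T.Crv} {S : Special T c}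
    {x : ℕ → ∀ j, T.Z (c j)} (hx : Strict S x) (φ : ℕ → ℕ) (hφ : Tendsto φ atTop atTop) :
    Strict S (fun i => x (φ i)) := by
  refine ⟨fun i j => hx.1 _ j, fun V hV => ?_⟩
  have h1 := hx.2 V hV
  have h2 : ∀ᶠ i in atTop, x i ∉ V := by
    rw [← Nat.cofinite_eq_atTop, Filter.eventually_cofinite]
    simpa using h1
  have h3 := hφ.eventually h2
  rw [← Nat.cofinite_eq_atTop, Filter.eventually_cofinite] at h3
  simpa using h3

/-- Reduction to sequences with a coincidence of CM fields. -/
theorem reduce [CharZero k] (T : CMTheory k) {n : ℕ} (c : Fin n → T.Crv) (S : Special T.toShCurves c)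
    (F : IntermediateField k (Kb k)) [FiniteDimensional k F] (hF : ∀ j, T.L (c j) ≤ F)
    (h : ∀ x, Strict S x → (∀ i, ∃ j k, j ≠ k ∧ T.fld (x i j) = T.fld (x i k)) →
      Equi T.toShCurves c F x) (x : ℕ → ∀ j, T.Z (c j)) (hx : Strict S x) :
    Equi T.toShCurves c F x := by
  intro f hf hc
  refine tendsto_of_subseq_tendsto fun ns hns => ?_
  by_cases hfr : ∃ᶠ i in atTop, ∃ j k, j ≠ k ∧ T.fld (x (ns i) j) = T.fld (x (ns i) k)
  · obtain ⟨φ, hφ, hP⟩ := extraction_of_frequently_atTop hfr
    exact ⟨φ, h (fun i => x (ns (φ i))) (strict_comp hx _ (hns.comp hφ.tendsto_atTop)) hP f hf hc⟩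
  · rw [Filter.not_frequently] at hfr
    obtain ⟨N, hN⟩ := eventually_atTop.1 hfr
    have hφ : Tendsto (fun i : ℕ => i + N) atTop atTop := tendsto_add_atTop_nat N
    refine ⟨fun i => i + N, strict_distinct T c S F hF (fun i => x (ns (i + N)))
      (strict_comp hx _ (hns.comp hφ)) (fun i j k hjk heq => hN (i + N) (Nat.le_add_left _ _)
        ⟨j, k, hjk, heq⟩) f hf hc⟩

end Pool.Agent.R484.SH
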